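import Pool.Agent.MP_67db61_an.Mg.Main

-- part MP_67db61_an.Full.Base
section

/-!
Definitions for the classification of the saturated system: radial linear equations, the
nonlinearity and its duals, energies, the action integral and the zero count.
-/

namespace Pool.Agent.MP_67db61_an.Cls

open Set Filter Topology MeasureTheory

/-- `(r^d w')' = r^d q w`, `w' = p`, `w'(0) = 0`. -/
structure Lin (d : ℕ) (q w p : ℝ → ℝ) : Prop where
  dw : ∀ r, HasDerivAt w (p r) r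
  dp : ∀ r, HasDerivAt (fun r => r ^ d * p r) (r ^ d * (q r * w r)) r
  cp : Continuous p
  cq : Continuous q
  p0 : p 0 = 0

/-- admissible parameters of one equation -/
structure Par (s l a : ℝ) : Prop where
  hs : 0 < s
  hl : 0 < l
  ha : 0 < a
  hlt : l * s < a

/-- the primitive of `ff s` -/
noncomputable def FF (s Z : ℝ) : ℝ := Z / s - Real.log (1 + s * Z) / s ^ 2

/-- the Legendre dual of `FF s` at the slope `ff s Z` -/
noncomputable def DD (s Z : ℝ) : ℝ := Z * ff s Z - FF s Z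

/-- the Bregman distance of `FF s` -/
noncomputable def BB (s Z x : ℝ) : ℝ := FF s x - FF s Z - ff s Z * (x - Z)

/-- the scalar potential -/
noncomputable def Wp (s l a x : ℝ) : ℝ := FF s (x ^ 2) - l * x ^ 2 / a

/-- the scalar energy -/
noncomputable def En (s l a : ℝ) (U P : ℝ → ℝ) (r : ℝ) : ℝ := P r ^ 2 / a + Wp s l a (U r)

/-- the energy of the system -/
noncomputable def EnS (s l1 a1 l2 a2 : ℝ) (U P W Q : ℝ → ℝ) (r : ℝ) : ℝ :=
  P r ^ 2 / a1 + Q r ^ 2 / a2 + FF s (U r ^ 2 + W r ^ 2) - l1 * U r ^ 2 / a1 - l2 * W r ^ 2 / a2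

/-- partial action integral -/
noncomputable def Lam (s l a E x : ℝ) : ℝ := ∫ t in (0 : ℝ)..x, √((E - Wp s l a t) / a)

/-- turning point -/
noncomputable def zz (s l a E : ℝ) : ℝ := sSup {x | 0 ≤ x ∧ Wp s l a x ≤ E}

/-- the action -/
noncomputable def JJ (s l a E : ℝ) : ℝ := 4 * Lam s l a E (zz s l a E)

/-- the number of zeros in `(0, T]` -/
noncomputable def nz (w : ℝ → ℝ) (T : ℝ) : ℕ := Set.ncard {r | r ∈ Ioc 0 T ∧ w r = 0}

/-- abstract energy data of a radial solution -/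
structure Flow (d : ℕ) (s c C : ℝ) (Z K E m : ℝ → ℝ) : Prop where
  hs : 0 < s
  hc : 0 < c
  hC : 0 < C
  cZ : Continuous Z
  cK : Continuous K
  cE : Continuous E
  Z0 : ∀ r, 0 ≤ Z r
  K0 : ∀ r, 0 ≤ K r
  dE : ∀ r, 0 < r → HasDerivAt E (-(2 * d * K r / r)) r
  dm : ∀ r, HasDerivAt m (r ^ d * (2 * K r - E r - DD s (Z r))) r
  m0 : m 0 = 0
  lo : ∀ r, c * Z r - C ≤ E r - K r
  hi : ∀ r, E r - K r ≤ Z r ^ 2 / 2 - c * Z r
  mb : ∀ r, 0 ≤ r → |m r| ≤ r ^ d * (K r + C * Z r)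

/-- the class of scalar solutions that have almost come to rest at `T` -/
structure Mem (d : ℕ) (s l a η : ℝ) (U P : ℝ → ℝ) (T : ℝ) : Prop where
  lin : Lin d (fun r => l - a * ff s (U r ^ 2)) U P
  ne : U 0 ≠ 0
  T0 : 0 < T
  E0 : 0 ≤ En s l a U P T
  E1 : En s l a U P T ≤ η
  bd : T ^ d * |U T * P T| ≤ 1

section scalar

variable {s l a : ℝ}

lemma hasDerivAt_FF (hs : 0 < s) {Z : ℝ} (hZ : 0 ≤ Z) : HasDerivAt (FF s) (ff s Z) Z := by
  have h : 0 < 1 + s * Z := by positivity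
  have h1 : HasDerivAt (fun Z => 1 + s * Z) s Z := by
    simpa using ((hasDerivAt_id Z).const_mul s).const_add 1
  refine (((hasDerivAt_id Z).div_const s).sub ((h1.log h.ne').div_const (s ^ 2))).congr_deriv ?_
  unfold ff
  field_simp
  ring

lemma FF_zero (s : ℝ) : FF s 0 = 0 := by simp [FF]

lemma ff_zero (s : ℝ) : ff s 0 = 0 := by simp [ff]

lemma Wp_zero (s l a : ℝ) : Wp s l a 0 = 0 := by simp [Wp, FF_zero]

lemma Wp_neg (s l a x : ℝ) : Wp s l a (-x) = Wp s l a x := by simp [Wp]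

lemma continuous_ff' (hs : 0 < s) {X : Type*} [TopologicalSpace X] {Z : X → ℝ}
    (hZ : Continuous Z) (h0 : ∀ x, 0 ≤ Z x) : Continuous fun x => ff s (Z x) := by
  unfold ff
  exact Continuous.div hZ (by fun_prop) fun x => by have := h0 x; positivity

lemma continuous_FF (hs : 0 < s) {X : Type*} [TopologicalSpace X] {Z : X → ℝ}
    (hZ : Continuous Z) (h0 : ∀ x, 0 ≤ Z x) : Continuous fun x => FF s (Z x) := by
  unfold FF
  refine (hZ.div_const _).sub (Continuous.div_const ?_ _)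
  exact Continuous.log (by fun_prop) fun x => by have := h0 x; positivity

lemma continuous_DD (hs : 0 < s) {X : Type*} [TopologicalSpace X] {Z : X → ℝ}
    (hZ : Continuous Z) (h0 : ∀ x, 0 ≤ Z x) : Continuous fun x => DD s (Z x) :=
  (hZ.mul (continuous_ff' hs hZ h0)).sub (continuous_FF hs hZ h0)

lemma continuous_BB (hs : 0 < s) {X : Type*} [TopologicalSpace X] {Z Y : X → ℝ}
    (hZ : Continuous Z) (h0 : ∀ x, 0 ≤ Z x) (hY : Continuous Y) (h1 : ∀ x, 0 ≤ Y x) :
    Continuous fun x => BB s (Z x) (Y x) :=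
  ((continuous_FF hs hY h1).sub (continuous_FF hs hZ h0)).sub
    ((continuous_ff' hs hZ h0).mul (hY.sub hZ))

lemma continuous_Wp (hs : 0 < s) (l a : ℝ) : Continuous (Wp s l a) := by
  unfold Wp
  exact (continuous_FF hs (by fun_prop) fun x => sq_nonneg x).sub (by fun_prop)

/-- quantitative convexity of `FF s` -/
lemma BB_lower (hs : 0 < s) {Z x M : ℝ} (hZ : 0 ≤ Z) (hx : 0 ≤ x) (hZM : Z ≤ M) (hxM : x ≤ M) :
    (x - Z) ^ 2 / (4 * (1 + s * M) ^ 2) ≤ BB s Z x := by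
  have hA : 0 < 1 + s * Z := by positivity
  have hB : 0 < 1 + s * x := by positivity
  have hM : 0 ≤ M := hZ.trans hZM
  obtain ⟨u, hu, eu⟩ : ∃ u, 0 < u ∧ u ^ 2 = 1 + s * Z := ⟨_, Real.sqrt_pos.2 hA, Real.sq_sqrt hA.le⟩
  obtain ⟨v, hv, ev⟩ : ∃ v, 0 < v ∧ v ^ 2 = 1 + s * x := ⟨_, Real.sqrt_pos.2 hB, Real.sq_sqrt hB.le⟩
  have h1 : Real.log (1 + s * x) - Real.log (1 + s * Z) ≤ 2 * (v / u - 1) := by
    rw [← eu, ← ev, Real.log_pow, Real.log_pow, ← mul_sub, ← Real.log_div hv.ne' hu.ne']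
    have := Real.log_le_sub_one_of_pos (div_pos hv hu)
    push_cast
    linarith
  have h2 : BB s Z x = ((v / u) ^ 2 - 1 - (Real.log (1 + s * x) - Real.log (1 + s * Z))) / s ^ 2 := by
    unfold BB FF ff
    rw [div_pow, eu, ev]
    field_simp
    ring
  have h3 : (x - Z) ^ 2 = (v - u) ^ 2 * (v + u) ^ 2 / s ^ 2 := by
    rw [← mul_pow, show (v - u) * (v + u) = s * (x - Z) by nlinarith]
    field_simp
  have h4 : (v + u) ^ 2 ≤ 4 * (1 + s * M) := by nlinarith [sq_nonneg (v - u)]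
  have h5 : u ^ 2 ≤ 1 + s * M := by nlinarith
  have h6 : (v - u) ^ 2 * (v + u) ^ 2 / (4 * (1 + s * M) ^ 2) ≤ (v / u - 1) ^ 2 := by
    rw [show v / u - 1 = (v - u) / u by field_simp, div_pow, div_le_div_iff₀ (by positivity)
      (by positivity)]
    have := mul_le_mul h4 h5 (by positivity) (by positivity)
    nlinarith [sq_nonneg (v - u)]
  rw [h2, h3, div_right_comm]
  gcongr
  nlinarith

lemma BB_nonneg (hs : 0 < s) {Z x : ℝ} (hZ : 0 ≤ Z) (hx : 0 ≤ x) : 0 ≤ BB s Z x :=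
  le_trans (by have : 0 ≤ max Z x := le_max_of_le_left hZ; positivity)
    (BB_lower hs hZ hx (le_max_left _ _) (le_max_right _ _))

lemma DD_lower (hs : 0 < s) {Z : ℝ} (hZ : 0 ≤ Z) : ff s Z ^ 2 / 4 ≤ DD s Z := by
  have h := BB_lower hs hZ le_rfl le_rfl hZ
  have e : BB s Z 0 = DD s Z := by simp [BB, DD, FF_zero]; ring
  rw [← e]
  refine le_trans (le_of_eq ?_) h
  unfold ff
  field_simp
  ring

lemma DD_nonneg (hs : 0 < s) {Z : ℝ} (hZ : 0 ≤ Z) : 0 ≤ DD s Z :=
  le_trans (by positivity) (DD_lower hs hZ)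

lemma DD_le_log (hs : 0 < s) {Z : ℝ} (hZ : 0 ≤ Z) : DD s Z ≤ Real.log (1 + s * Z) / s ^ 2 := by
  have h := mul_le_mul_of_nonneg_left (ff_le' hs hZ) hZ
  unfold DD FF
  rw [mul_one_div] at h
  linarith

lemma FF_le (hs : 0 < s) {Z : ℝ} (hZ : 0 ≤ Z) : FF s Z ≤ Z / s := by
  have : 0 ≤ Real.log (1 + s * Z) := Real.log_nonneg (le_add_of_nonneg_right (by positivity))
  unfold FF
  have : 0 ≤ Real.log (1 + s * Z) / s ^ 2 := by positivity
  linarith

lemma FF_le_sq (hs : 0 < s) {Z : ℝ} (hZ : 0 ≤ Z) : FF s Z ≤ Z ^ 2 / 2 := by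
  have h := Real.le_log_one_add_of_nonneg (show 0 ≤ s * Z by positivity)
  have h1 : s * Z - (s * Z) ^ 2 / 2 ≤ 2 * (s * Z) / (s * Z + 2) := by
    rw [le_div_iff₀ (by positivity)]
    have : 0 ≤ (s * Z) ^ 3 := by positivity
    nlinarith
  unfold FF
  rw [show Z / s = s * Z / s ^ 2 by field_simp, ← sub_div, div_le_iff₀ (by positivity)]
  nlinarith

lemma FF_lower (hs : 0 < s) {κ : ℝ} (hκ : κ * s < 1) :
    ∃ c C, 0 < c ∧ 0 < C ∧ ∀ Z, 0 ≤ Z → c * Z - C ≤ FF s Z - κ * Z := by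
  set τ := (1 - κ * s) / 2 with hτ
  have hτ0 : 0 < τ := by rw [hτ]; linarith
  refine ⟨τ / s, (τ + |Real.log τ| + 1) / s ^ 2, by positivity, by positivity, fun Z hZ => ?_⟩
  have h := Real.log_le_sub_one_of_pos (show 0 < τ * (1 + s * Z) by positivity)
  rw [Real.log_mul hτ0.ne' (by positivity)] at h
  have h1 : Real.log (1 + s * Z) / s ^ 2 ≤ (τ * s * Z + (τ + |Real.log τ| + 1)) / s ^ 2 := by
    gcongr
    nlinarith [neg_abs_le (Real.log τ)]
  have h2 : (τ * s * Z + (τ + |Real.log τ| + 1)) / s ^ 2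
      = τ / s * Z + (τ + |Real.log τ| + 1) / s ^ 2 := by field_simp
  have h3 : Z / s - κ * Z = 2 * (τ / s * Z) := by rw [hτ]; field_simp
  unfold FF
  linarith

lemma q_bound (h : Par s l a) {Z : ℝ} (hZ : 0 ≤ Z) : |l - a * ff s Z| ≤ l + a / s := by
  have h1 := mul_nonneg h.ha.le (ff_nonneg h.hs hZ)
  have h2 := mul_le_mul_of_nonneg_left (ff_le' h.hs hZ) h.ha.le
  rw [mul_one_div] at h2
  have := h.hl
  rw [abs_le]
  constructor <;> linarith

end scalar

end Pool.Agent.MP_67db61_an.Cls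

/-!
Basic facts on radial linear equations and on counting points on the line.
-/

namespace Pool.Agent.MP_67db61_an.Cls

open Set Filter Topology MeasureTheory

variable {d : ℕ} {q w p w' p' : ℝ → ℝ} {Q : ℝ}

lemma Lin.cw (h : Lin d q w p) : Continuous w :=
  continuous_iff_continuousAt.2 fun x => (h.dw x).continuousAt

lemma basic_mono {f f' : ℝ → ℝ} {a b : ℝ} (hab : a ≤ b) (hc : Continuous f)
    (hf : ∀ x ∈ Ioo a b, HasDerivAt f (f' x) x) (h : ∀ x ∈ Ioo a b, 0 ≤ f' x) : f a ≤ f b := by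
  refine monotoneOn_of_deriv_nonneg (convex_Icc a b) hc.continuousOn (fun x hx => ?_)
    (fun x hx => ?_) (left_mem_Icc.2 hab) (right_mem_Icc.2 hab) hab
  · rw [interior_Icc] at hx
    exact (hf x hx).differentiableAt.differentiableWithinAt
  · rw [interior_Icc] at hx
    rw [(hf x hx).deriv]
    exact h x hx

lemma basic_quad {a Q u v : ℝ} (h : |a| ≤ Q) : |2 * u * v * (1 + a)| ≤ (1 + Q) * (u ^ 2 + v ^ 2) := by
  obtain ⟨h1, h2⟩ := abs_le.1 h
  have h3 : 0 ≤ 2 + Q + a := by linarith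
  have h4 : 0 ≤ Q - a := by linarith
  refine abs_le.2 ⟨?_, ?_⟩
  · nlinarith [mul_nonneg h3 (sq_nonneg (u + v)), mul_nonneg h4 (sq_nonneg (u - v))]
  · nlinarith [mul_nonneg h3 (sq_nonneg (u - v)), mul_nonneg h4 (sq_nonneg (u + v))]

lemma Lin.dp' (h : Lin d q w p) {r : ℝ} (hr : 0 < r) :
    HasDerivAt p (q r * w r - d / r * p r) r := by
  have h1 := (h.dp r).div (hasDerivAt_pow d r) (pow_ne_zero d hr.ne')
  have h2 : p =ᶠ[𝓝 r] (fun r => r ^ d * p r) / fun r : ℝ => r ^ d := by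
    filter_upwards [lt_mem_nhds hr] with t ht
    have := pow_ne_zero d ht.ne'
    simp only [Pi.div_apply]
    field_simp
  refine (h1.congr_of_eventuallyEq h2).congr_deriv ?_
  have h3 := hr.ne'
  rcases d with _ | k
  · simp
  · simp only [Nat.add_sub_cancel]
    field_simp
    ring

lemma Lin.const_mul (h : Lin d q w p) (γ : ℝ) :
    Lin d q (fun r => γ * w r) (fun r => γ * p r) := by
  refine ⟨fun r => (h.dw r).const_mul γ, fun r => ?_, continuous_const.mul h.cp, h.cq, by simp [h.p0]⟩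
  exact (((h.dp r).const_mul γ).congr_of_eventuallyEq
    (Eventually.of_forall fun t => by ring)).congr_deriv (by ring)

lemma Lin.growth (h : Lin d q w p) (hq : ∀ r, |q r| ≤ Q) {r : ℝ} (hr : 0 ≤ r) :
    w r ^ 2 + p r ^ 2 ≤ w 0 ^ 2 * Real.exp ((1 + Q) * r) := by
  have hw := h.cw
  have hp := h.cp
  have key := basic_mono (f := fun t => -((w t ^ 2 + p t ^ 2) * Real.exp (-((1 + Q) * t))))
    (f' := fun t => -((2 * w t * p t + 2 * p t * (q t * w t - d / t * p t)) *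
      Real.exp (-((1 + Q) * t)) + (w t ^ 2 + p t ^ 2) * (Real.exp (-((1 + Q) * t)) * -(1 + Q)))) hr
    (by fun_prop) (fun t ht => by
      have h1 := (((h.dw t).pow 2).add ((h.dp' ht.1).pow 2)).mul
        (((hasDerivAt_id t).const_mul (1 + Q)).neg.exp)
      exact h1.neg.congr_deriv (by simp)) (fun t ht => by
      have h1 := (abs_le.1 (basic_quad (u := w t) (v := p t) (hq t))).2
      have h2 : 0 ≤ d / t * p t ^ 2 := mul_nonneg (div_nonneg (Nat.cast_nonneg d) ht.1.le) (sq_nonneg _)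
      have h3 := Real.exp_pos (-((1 + Q) * t))
      have h4 : 0 ≤ (1 + Q) * (w t ^ 2 + p t ^ 2) - 2 * w t * p t * (1 + q t) +
        2 * (d / t * p t ^ 2) := by linarith
      nlinarith [mul_nonneg h4 h3.le])
  simp only [h.p0, mul_zero, neg_zero, Real.exp_zero, mul_one, neg_le_neg_iff] at key
  rw [Real.exp_neg, ← div_eq_mul_inv, div_le_iff₀ (Real.exp_pos _)] at key
  simpa using key

lemma Lin.lower (h : Lin d q w p) (hq : ∀ r, |q r| ≤ Q) {x y : ℝ} (hx : 0 ≤ x) (hxy : x ≤ y) :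
    x ^ (2 * d) * (w x ^ 2 + p x ^ 2) * Real.exp ((1 + Q) * x)
      ≤ y ^ (2 * d) * (w y ^ 2 + p y ^ 2) * Real.exp ((1 + Q) * y) := by
  have key := le_of_deriv_nonneg
    (f := fun t => ((t ^ d * p t) ^ 2 + (t ^ d * w t) ^ 2) * Real.exp ((1 + Q) * t))
    (f' := fun t => (2 * (t ^ d * p t) * (t ^ d * (q t * w t)) +
      2 * (t ^ d * w t) * (d * t ^ (d - 1) * w t + t ^ d * p t)) * Real.exp ((1 + Q) * t) +
      ((t ^ d * p t) ^ 2 + (t ^ d * w t) ^ 2) * (Real.exp ((1 + Q) * t) * (1 + Q))) hxy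
    (fun t => by
      have h1 := (((h.dp t).pow 2).add (((hasDerivAt_pow d t).mul (h.dw t)).pow 2)).mul
        (((hasDerivAt_id t).const_mul (1 + Q)).exp)
      exact h1.congr_deriv (by simp)) (fun t ht => by
      have ht0 : 0 ≤ t := hx.trans ht.1.le
      have h1 := (abs_le.1 (basic_quad (u := t ^ d * w t) (v := t ^ d * p t) (hq t))).1
      have h2 : 0 ≤ t ^ d * (d * t ^ (d - 1)) * w t ^ 2 := by positivity
      have h3 := Real.exp_pos ((1 + Q) * t)
      have h4 : 0 ≤ (1 + Q) * ((t ^ d * w t) ^ 2 + (t ^ d * p t) ^ 2) +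
        2 * (t ^ d * w t) * (t ^ d * p t) * (1 + q t) + 2 * (t ^ d * (d * t ^ (d - 1)) * w t ^ 2) := by
        linarith
      nlinarith [mul_nonneg h4 h3.le])
  convert key using 2 <;> ring

lemma Lin.unique (h : Lin d q w p) (h' : Lin d q w' p') (hq : ∀ r, |q r| ≤ Q) (h0 : w 0 = w' 0)
    {r : ℝ} (hr : 0 ≤ r) : w r = w' r ∧ p r = p' r := by
  have hl : Lin d q (fun r => w r - w' r) (fun r => p r - p' r) := by
    refine ⟨fun r => (h.dw r).sub (h'.dw r), fun r => ?_, h.cp.sub h'.cp, h.cq, by simp [h.p0, h'.p0]⟩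
    exact (((h.dp r).sub (h'.dp r)).congr_of_eventuallyEq
      (Eventually.of_forall fun t => by simp only [Pi.sub_apply]; ring)).congr_deriv (by ring)
  have := hl.growth hq hr
  simp only [h0, sub_self] at this
  constructor <;> nlinarith [sq_nonneg (w r - w' r), sq_nonneg (p r - p' r)]

lemma Lin.nonvanish (h : Lin d q w p) (hq : ∀ r, |q r| ≤ Q) (h0 : w 0 ≠ 0) {r : ℝ} (hr : 0 ≤ r)
    (hw : w r = 0) : p r ≠ 0 := by
  intro hp
  have hr0 : 0 < r := hr.lt_of_ne fun e => h0 (e ▸ hw)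
  have h1 : ∀ᶠ x in 𝓝[>] (0 : ℝ), w x ≠ 0 :=
    nhdsWithin_le_nhds (h.cw.continuousAt.eventually_ne h0)
  obtain ⟨x, hx, hx0, hxr⟩ := (h1.and (Ioo_mem_nhdsGT hr0)).exists
  have h2 := h.lower hq hx0.le hxr.le
  rw [hw, hp] at h2
  have h3 : 0 < x ^ (2 * d) * (w x ^ 2 + p x ^ 2) * Real.exp ((1 + Q) * x) := by positivity
  simp at h2
  linarith

lemma Lin.exists_ne (h : Lin d q w p) (hq : ∀ r, |q r| ≤ Q) (h0 : w 0 ≠ 0) {x y : ℝ} (hx : 0 ≤ x)
    (hxy : x < y) : ∃ r ∈ Ioo x y, w r ≠ 0 := by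
  by_contra hc
  push Not at hc
  have hm : (x + y) / 2 ∈ Ioo x y := ⟨by linarith, by linarith⟩
  refine h.nonvanish hq h0 (hx.trans hm.1.le) (hc _ hm) ?_
  have h1 : w =ᶠ[𝓝 ((x + y) / 2)] fun _ => 0 := by
    filter_upwards [Ioo_mem_nhds hm.1 hm.2] with t ht using hc t ht
  exact (h.dw _).unique ((hasDerivAt_const _ (0 : ℝ)).congr_of_eventuallyEq h1)

lemma Lin.spacing (h : Lin d q w p) (hq : ∀ r, |q r| ≤ Q) (h0 : w 0 ≠ 0) {x y : ℝ} (hx : 0 ≤ x)
    (hxy : x < y) (hwx : w x = 0) (hwy : w y = 0) : 1 ≤ (1 + Q) * (y - x) := by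
  have hQ : 0 ≤ Q := (abs_nonneg _).trans (hq 0)
  obtain ⟨m, hm, hmax⟩ := isCompact_Icc.exists_isMaxOn (nonempty_Icc.2 hxy.le)
    (h.cw.pow 2).continuousOn
  obtain ⟨r0, hr0, hw0⟩ := h.exists_ne hq h0 hx hxy
  have hle : ∀ r ∈ Icc x y, |w r| ≤ |w m| := fun r hr => sq_le_sq.1 (hmax hr)
  have hM : 0 < |w m| := (abs_pos.2 hw0).trans_le (hle r0 (Ioo_subset_Icc_self hr0))
  have hm0 : w m ≠ 0 := abs_pos.1 hM
  have hxm : x < m := hm.1.lt_of_ne fun e => hm0 (e ▸ hwx)
  have hmy : m < y := hm.2.lt_of_ne fun e => hm0 (e ▸ hwy)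
  have hpm : p m = 0 := by
    have := (hmax.isLocalMax (Icc_mem_nhds hxm hmy)).hasDerivAt_eq_zero ((h.dw m).pow 2)
    simpa [hm0] using this
  have hp : ∀ r ∈ Icc m y, |p r| ≤ Q * |w m| * (y - x) := fun r hr => by
    have hr0 : 0 < r := (hx.trans_lt hxm).trans_le hr.1
    have h1 := norm_image_sub_le_of_norm_deriv_le_segment' (a := m) (b := r)
      (C := r ^ d * (Q * |w m|)) (fun t _ => (h.dp t).hasDerivWithinAt) (fun t ht => by
        have ht0 : 0 ≤ t := (hx.trans hxm.le).trans ht.1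
        rw [Real.norm_eq_abs, abs_mul, abs_mul, abs_of_nonneg (pow_nonneg ht0 d)]
        exact mul_le_mul (pow_le_pow_left₀ ht0 ht.2.le d)
          (mul_le_mul (hq t) (hle t ⟨hxm.le.trans ht.1, ht.2.le.trans hr.2⟩) (abs_nonneg _) hQ)
          (by positivity) (by positivity)) r (right_mem_Icc.2 hr.1)
    rw [hpm, mul_zero, sub_zero, Real.norm_eq_abs, abs_mul, abs_of_pos (pow_pos hr0 d),
      mul_assoc] at h1
    refine (le_of_mul_le_mul_left h1 (pow_pos hr0 d)).trans ?_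
    exact mul_le_mul_of_nonneg_left (by linarith [hr.2]) (by positivity)
  have h2 := norm_image_sub_le_of_norm_deriv_le_segment' (a := m) (b := y)
    (C := Q * |w m| * (y - x)) (fun t _ => (h.dw t).hasDerivWithinAt)
    (fun t ht => hp t (Ico_subset_Icc_self ht)) y (right_mem_Icc.2 hmy.le)
  rw [hwy, zero_sub, norm_neg, Real.norm_eq_abs] at h2
  have hL : 0 < y - x := sub_pos.2 hxy
  have h3 : |w m| * 1 ≤ |w m| * (Q * (y - x) * (y - x)) := by
    have : Q * |w m| * (y - x) * (y - m) ≤ Q * |w m| * (y - x) * (y - x) :=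
      mul_le_mul_of_nonneg_left (by linarith) (by positivity)
    linarith
  have h4 := le_of_mul_le_mul_left h3 hM
  by_contra hc
  push Not at hc
  have h5 := mul_nonneg hQ hL.le
  nlinarith

lemma chain {S : Set ℝ} (hS : S.Finite) {x T c : ℝ} {Ω : ℝ → ℝ} (hc : 0 ≤ c) (hxT : x ≤ T)
    (hsub : S ⊆ Icc x T) (hΩ : MonotoneOn Ω (Icc x T))
    (h : ∀ a ∈ S, ∀ b ∈ S, a < b → c ≤ Ω b - Ω a) : ((S.ncard : ℝ) - 1) * c ≤ Ω T - Ω x := by
  obtain ⟨s, rfl⟩ := hS.exists_finset_coe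
  rw [ncard_coe_finset]
  have key : ∀ T' ∈ Icc x T, (s : Set ℝ) ⊆ Icc x T' → ((s.card : ℝ) - 1) * c ≤ Ω T' - Ω x := by
    clear hsub hS
    induction s using Finset.induction_on_max with
    | empty =>
      intro T' hT' _
      have := hΩ (left_mem_Icc.2 hxT) hT' hT'.1
      simp only [Finset.card_empty, Nat.cast_zero]
      linarith
    | insert a s ha ih =>
      intro T' hT' hs
      have has : a ∉ s := fun h => lt_irrefl a (ha a h)
      have ha' := hs (Finset.mem_coe.2 (Finset.mem_insert_self a s))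
      have haT : a ∈ Icc x T := ⟨ha'.1, ha'.2.trans hT'.2⟩
      have h1 := hΩ haT hT' ha'.2
      rw [Finset.card_insert_of_notMem has]
      push_cast
      rcases s.eq_empty_or_nonempty with rfl | hne
      · have := hΩ (left_mem_Icc.2 hxT) hT' hT'.1
        simp only [Finset.card_empty, Nat.cast_zero]
        linarith
      · have hb := s.max'_mem hne
        have hsub : ∀ t ∈ s, t ∈ insert a s := fun t ht => Finset.mem_insert_of_mem ht
        have hb' := hs (Finset.mem_coe.2 (hsub _ hb))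
        have h2 := ih (fun u hu v hv => h u (Finset.mem_coe.2 (hsub u hu)) v
          (Finset.mem_coe.2 (hsub v hv))) (s.max' hne) ⟨hb'.1, hb'.2.trans hT'.2⟩
          fun t ht => ⟨(hs (Finset.mem_coe.2 (hsub t ht))).1, s.le_max' t ht⟩
        have h3 := h _ (Finset.mem_coe.2 (hsub _ hb)) a
          (Finset.mem_coe.2 (Finset.mem_insert_self a s)) (ha _ hb)
        linarith
  exact key T (right_mem_Icc.2 hxT) hsub

lemma count_lower {S : Set ℝ} (hS : S.Finite) {x y L : ℝ} (hL : 0 < L)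
    (h : ∀ t, x ≤ t → t + L ≤ y → ∃ r ∈ S, t < r ∧ r < t + L) : (y - x) / L - 1 ≤ S.ncard := by
  rcases le_or_gt 0 ((y - x) / L) with h0 | h0
  swap
  · linarith [(Nat.cast_nonneg S.ncard : (0 : ℝ) ≤ _)]
  have key : ∀ j : Fin ⌊(y - x) / L⌋₊, ∃ r ∈ S, x + j * L < r ∧ r < x + j * L + L := fun j => by
    refine h _ (le_add_of_nonneg_right (by positivity)) ?_
    have h1 : ((j : ℕ) : ℝ) + 1 ≤ (y - x) / L :=
      le_trans (by exact_mod_cast j.2) (Nat.floor_le h0)
    rw [le_div_iff₀ hL] at h1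
    linarith
  choose z hz h1 h2 using key
  have hm : StrictMono z := fun i j hij => by
    have : ((i : ℕ) : ℝ) + 1 ≤ (j : ℕ) := by exact_mod_cast hij
    nlinarith [h2 i, h1 j]
  have h3 : ⌊(y - x) / L⌋₊ ≤ S.ncard := by
    have := ncard_le_ncard (s := range z) (range_subset_iff.2 hz) hS
    rwa [ncard_range_of_injective hm.injective, Nat.card_eq_fintype_card, Fintype.card_fin] at this
  have h4 : (⌊(y - x) / L⌋₊ : ℝ) ≤ S.ncard := by exact_mod_cast h3
  linarith [Nat.lt_floor_add_one ((y - x) / L)]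

lemma enum {S : Set ℝ} (hS : S.Finite) :
    ∃ z : ℕ → ℝ, StrictMono z ∧ ∀ r, r ∈ S ↔ ∃ i, i < S.ncard ∧ z i = r := by
  obtain ⟨B, hB⟩ := hS.bddAbove
  obtain ⟨s, rfl⟩ := hS.exists_finset_coe
  rw [ncard_coe_finset]
  let e := s.orderEmbOfFin rfl
  refine ⟨fun i => if h : i < s.card then e ⟨i, h⟩ else B + 1 + i, fun i j hij => ?_, fun r => ?_⟩
  · by_cases hj : j < s.card
    · simp only [dif_pos hj, dif_pos (hij.trans hj)]
      exact e.strictMono hij
    · have hij' : (i : ℝ) < j := by exact_mod_cast hij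
      by_cases hi : i < s.card
      · simp only [dif_pos hi, dif_neg hj]
        have := hB (Finset.mem_coe.2 (s.orderEmbOfFin_mem rfl ⟨i, hi⟩))
        linarith [(Nat.cast_nonneg j : (0 : ℝ) ≤ _)]
      · simp only [dif_neg hi, dif_neg hj]
        linarith
  · constructor
    · intro hr
      rw [← s.range_orderEmbOfFin rfl] at hr
      obtain ⟨i, rfl⟩ := hr
      exact ⟨i, i.2, by simp only [dif_pos i.2]; rfl⟩
    · rintro ⟨i, hi, rfl⟩
      simp only [dif_pos hi]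
      exact Finset.mem_coe.2 (s.orderEmbOfFin_mem rfl _)

lemma basic_bound (h : Lin d q w p) (hq : ∀ r, |q r| ≤ Q) (h0 : w 0 ≠ 0) {T : ℝ} (hT : 0 ≤ T)
    {S : Set ℝ} (hS : S.Finite) (hsub : S ⊆ {r | r ∈ Ioc 0 T ∧ w r = 0}) :
    (S.ncard : ℝ) ≤ (1 + Q) * T + 1 := by
  have hQ : 0 < 1 + Q := by linarith [(abs_nonneg _).trans (hq 0)]
  have := chain hS (Ω := fun r => (1 + Q) * r) zero_le_one hT
    (fun r hr => Ioc_subset_Icc_self (hsub hr).1)
    (fun a _ b _ hab => mul_le_mul_of_nonneg_left hab hQ.le) fun a ha b hb hab => by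
      have := h.spacing hq h0 (hsub ha).1.1.le hab (hsub ha).2 (hsub hb).2
      linarith
  linarith

lemma Lin.finite (h : Lin d q w p) (hq : ∀ r, |q r| ≤ Q) (h0 : w 0 ≠ 0) (T : ℝ) :
    {r | r ∈ Ioc 0 T ∧ w r = 0}.Finite := by
  by_contra hc
  have hi : Set.Infinite {r | r ∈ Ioc 0 T ∧ w r = 0} := hc
  obtain ⟨r, hr⟩ := hi.nonempty
  obtain ⟨t, ht, hcard⟩ := hi.exists_subset_card_eq (⌈(1 + Q) * T⌉₊ + 2)
  have := basic_bound h hq h0 (hr.1.1.le.trans hr.1.2) t.finite_toSet ht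
  rw [ncard_coe_finset, hcard] at this
  push_cast at this
  linarith [Nat.le_ceil ((1 + Q) * T)]

lemma Lin.nz_le (h : Lin d q w p) (hq : ∀ r, |q r| ≤ Q) (h0 : w 0 ≠ 0) {T : ℝ} (hT : 0 ≤ T) :
    (nz w T : ℝ) ≤ (1 + Q) * T + 1 := by
  exact basic_bound h hq h0 hT (h.finite hq h0 T) subset_rfl

lemma Lin.nz_mono (h : Lin d q w p) (hq : ∀ r, |q r| ≤ Q) (h0 : w 0 ≠ 0) {T T' : ℝ}
    (hT : T ≤ T') : nz w T ≤ nz w T' := by
  exact ncard_le_ncard (fun r hr => ⟨⟨hr.1.1, hr.1.2.trans hT⟩, hr.2⟩) (h.finite hq h0 T')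

lemma Lin.nz_split (h : Lin d q w p) (hq : ∀ r, |q r| ≤ Q) (h0 : w 0 ≠ 0) {R T : ℝ}
    (hR : 0 ≤ R) (hRT : R ≤ T) :
    nz w T = nz w R + Set.ncard {r | r ∈ Ioc R T ∧ w r = 0} := by
  unfold nz
  rw [← ncard_union_eq ?_ (h.finite hq h0 R)
    ((h.finite hq h0 T).subset fun r hr => ⟨⟨hR.trans_lt hr.1.1, hr.1.2⟩, hr.2⟩)]
  · congr 1
    ext r
    rw [← Ioc_union_Ioc_eq_Ioc hR hRT]
    exact or_and_right
  · exact disjoint_left.2 fun r hr hr' => absurd hr.1.2 (not_le.2 hr'.1.1)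

lemma nz_const_mul {γ : ℝ} (hγ : γ ≠ 0) (w : ℝ → ℝ) (T : ℝ) :
    nz (fun r => γ * w r) T = nz w T := by
  simp [nz, hγ]

end Pool.Agent.MP_67db61_an.Cls

/-!
The turning point and the action integral of the scalar autonomous equation.
-/

namespace Pool.Agent.MP_67db61_an.Cls

open Set Filter Topology MeasureTheory

variable {s l a : ℝ}

lemma act_cont (h : Par s l a) (E : ℝ) : Continuous fun x => √((E - Wp s l a x) / a) :=
  ((continuous_const.sub (continuous_Wp h.hs l a)).div_const a).sqrt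

lemma hasDerivAt_Lam (h : Par s l a) (E x : ℝ) :
    HasDerivAt (Lam s l a E) (√((E - Wp s l a x) / a)) x :=
  ((act_cont h E).integral_hasStrictDerivAt 0 x).hasDerivAt

lemma Lam_zero (s l a E : ℝ) : Lam s l a E 0 = 0 := by simp [Lam]

lemma Lam_nonneg (s l a E : ℝ) {x : ℝ} (hx : 0 ≤ x) : 0 ≤ Lam s l a E x :=
  intervalIntegral.integral_nonneg hx fun _ _ => Real.sqrt_nonneg _

lemma act_bdd (h : Par s l a) (E : ℝ) : BddAbove {x | 0 ≤ x ∧ Wp s l a x ≤ E} := by
  obtain ⟨c, C, hc, -, hF⟩ := FF_lower h.hs (κ := l / a) (by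
    rw [div_mul_eq_mul_div, div_lt_one h.ha]; exact h.hlt)
  refine ⟨1 + (E + C) / c, fun x hx => ?_⟩
  have h1 := hF (x ^ 2) (sq_nonneg x)
  have h2 : Wp s l a x = FF s (x ^ 2) - l / a * x ^ 2 := by unfold Wp; ring
  have h3 : x ^ 2 ≤ (E + C) / c := by
    rw [le_div_iff₀ hc]
    linarith [hx.2]
  nlinarith [sq_nonneg (x - 1), sq_nonneg x]

lemma act_le_zz (h : Par s l a) {E x : ℝ} (hx : 0 ≤ x) (hW : Wp s l a x ≤ E) :
    x ≤ zz s l a E := le_csSup (act_bdd h E) ⟨hx, hW⟩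

lemma act_mem (h : Par s l a) {E : ℝ} (hE : 0 ≤ E) :
    0 ≤ zz s l a E ∧ Wp s l a (zz s l a E) ≤ E := by
  have hc : IsClosed {x | 0 ≤ x ∧ Wp s l a x ≤ E} :=
    (isClosed_le continuous_const continuous_id).inter
      (isClosed_le (continuous_Wp h.hs l a) continuous_const)
  exact hc.csSup_mem ⟨0, le_rfl, by rw [Wp_zero]; exact hE⟩ (act_bdd h E)

lemma act_small (h : Par s l a) {x : ℝ} (hx : x ^ 2 ≤ l / a) :
    Wp s l a x ≤ -(x ^ 2 * (l / a) / 2) := by
  have h1 := FF_le_sq h.hs (sq_nonneg x)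
  have h2 : Wp s l a x = FF s (x ^ 2) - l / a * x ^ 2 := by unfold Wp; ring
  have h3 := mul_le_mul_of_nonneg_left hx (sq_nonneg x)
  rw [h2]
  nlinarith

lemma zz_zero_pos (h : Par s l a) : 0 < zz s l a 0 := by
  have hla : 0 < l / a := div_pos h.hl h.ha
  refine (Real.sqrt_pos.2 hla).trans_le (act_le_zz h (Real.sqrt_nonneg _) ?_)
  refine (act_small h (Real.sq_sqrt hla.le).le).trans ?_
  have : 0 ≤ √(l / a) ^ 2 * (l / a) / 2 := by positivity
  linarith

lemma zz_mono (h : Par s l a) {E E' : ℝ} (hE : 0 ≤ E) (hEE : E ≤ E') :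
    zz s l a E ≤ zz s l a E' :=
  act_le_zz h (act_mem h hE).1 ((act_mem h hE).2.trans hEE)

lemma Wp_le_of_le_zz (h : Par s l a) {E x : ℝ} (hE : 0 ≤ E) (hx : |x| ≤ zz s l a E) :
    Wp s l a x ≤ E := by
  obtain ⟨h0, h1⟩ := act_mem h hE
  have h2 : x ^ 2 ≤ zz s l a E ^ 2 := sq_le_sq' (abs_le.1 hx).1 (abs_le.1 hx).2
  have h3 := BB_nonneg h.hs (sq_nonneg x) le_rfl
  have h4 := BB_nonneg h.hs (sq_nonneg x) (sq_nonneg (zz s l a E))
  have e : ∀ y, Wp s l a y = FF s (y ^ 2) - l / a * y ^ 2 := fun y => by unfold Wp; ring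
  rw [e] at h1 ⊢
  unfold BB at h3 h4
  rw [FF_zero] at h3
  generalize zz s l a E ^ 2 = Y at *
  have h5 := sq_nonneg x
  generalize x ^ 2 = Z at *
  rcases le_total 0 (ff s Z - l / a) with h6 | h6
  · nlinarith [mul_nonneg h6 (sub_nonneg.2 h2)]
  · nlinarith [mul_nonneg (neg_nonneg.2 h6) h5]

lemma act_add (h : Par s l a) (E x y : ℝ) :
    Lam s l a E y = Lam s l a E x + ∫ t in x..y, √((E - Wp s l a t) / a) :=
  (intervalIntegral.integral_add_adjacent_intervals ((act_cont h E).intervalIntegrable _ _)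
    ((act_cont h E).intervalIntegrable _ _)).symm

lemma Lam_le (h : Par s l a) {E x : ℝ} (hE : 0 ≤ E) (hx : 0 ≤ x) :
    4 * Lam s l a E x ≤ JJ s l a E := by
  unfold JJ
  refine mul_le_mul_of_nonneg_left ?_ (by norm_num)
  rcases le_total x (zz s l a E) with h1 | h1
  · rw [act_add h E x (zz s l a E)]
    exact le_add_of_nonneg_right
      (intervalIntegral.integral_nonneg h1 fun _ _ => Real.sqrt_nonneg _)
  · rw [act_add h E (zz s l a E) x, intervalIntegral.integral_of_le h1,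
      setIntegral_eq_zero_of_forall_eq_zero fun t ht => ?_, add_zero]
    rw [Real.sqrt_eq_zero']
    refine div_nonpos_of_nonpos_of_nonneg ?_ h.ha.le
    by_contra h2
    exact absurd (act_le_zz h ((act_mem h hE).1.trans ht.1.le) (by linarith)) (not_le.2 ht.1)

lemma act_mono (h : Par s l a) {E E' x : ℝ} (hEE : E ≤ E') (hx : 0 ≤ x) :
    Lam s l a E x ≤ Lam s l a E' x :=
  intervalIntegral.integral_mono_on hx ((act_cont h E).intervalIntegrable _ _)
    ((act_cont h E').intervalIntegrable _ _) fun _ _ =>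
      Real.sqrt_le_sqrt (div_le_div_of_nonneg_right (by linarith) h.ha.le)

lemma JJ_mono (h : Par s l a) {E E' : ℝ} (hE : 0 ≤ E) (hEE : E ≤ E') :
    JJ s l a E ≤ JJ s l a E' := by
  have h1 := act_mono h hEE (act_mem h hE).1
  have h2 := Lam_le h (hE.trans hEE) (act_mem h hE).1
  unfold JJ at h2 ⊢
  linarith

lemma JJ_zero_pos (h : Par s l a) : 0 < JJ s l a 0 := by
  have hla : 0 < l / a := div_pos h.hl h.ha
  have h1 := Lam_le h le_rfl (Real.sqrt_nonneg (l / a))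
  have h2 : 0 < Lam s l a 0 √(l / a) := by
    refine intervalIntegral.intervalIntegral_pos_of_pos_on
      ((act_cont h 0).intervalIntegrable _ _) (fun t ht => ?_) (Real.sqrt_pos.2 hla)
    have h3 : t ^ 2 ≤ l / a := by
      rw [← Real.sq_sqrt hla.le]
      exact pow_le_pow_left₀ ht.1.le ht.2.le 2
    have h4 := act_small h h3
    have h5 : 0 < t ^ 2 * (l / a) / 2 := by have := ht.1; positivity
    exact Real.sqrt_pos.2 (div_pos (by linarith) h.ha)
  linarith

lemma JJ_lin (h : Par s l a) : ∃ c, 0 < c ∧ ∀ E, 0 ≤ E → c * E ≤ JJ s l a E := by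
  have hs := h.hs
  have ha := h.ha
  refine ⟨4 * (√(s / 2) * √(1 / (2 * a))), by positivity, fun E hE => ?_⟩
  have h1 := Lam_le h hE (Real.sqrt_nonneg (s / 2 * E))
  have h2 : √(s / 2 * E) * √(1 / (2 * a) * E) ≤ Lam s l a E √(s / 2 * E) := by
    have := intervalIntegral.integral_mono_on (μ := volume) (Real.sqrt_nonneg (s / 2 * E))
      (intervalIntegrable_const (c := √(1 / (2 * a) * E)))
      ((act_cont h E).intervalIntegrable _ _) fun t ht => by
        refine Real.sqrt_le_sqrt ?_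
        have h3 : t ^ 2 ≤ s / 2 * E := by
          rw [← Real.sq_sqrt (show 0 ≤ s / 2 * E by positivity)]
          exact pow_le_pow_left₀ ht.1 ht.2 2
        have h4 := FF_le hs (sq_nonneg t)
        have h5 : t ^ 2 / s ≤ E / 2 := by rw [div_le_iff₀ hs]; linarith
        have h6 : 0 ≤ l * t ^ 2 / a := by have := h.hl; positivity
        rw [show 1 / (2 * a) * E = E / 2 / a by field_simp]
        refine div_le_div_of_nonneg_right ?_ ha.le
        unfold Wp
        linarith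
    simpa [Lam] using this
  rw [Real.sqrt_mul (by positivity), Real.sqrt_mul (by positivity), mul_mul_mul_comm,
    Real.mul_self_sqrt hE, ← Real.sqrt_mul (by positivity) E] at h2
  linarith

lemma act_sqrt_add (x y : ℝ) (hy : 0 ≤ y) : √(x + y) ≤ √x + √y := by
  rw [Real.sqrt_le_iff]
  refine ⟨by positivity, ?_⟩
  have h1 : x ≤ √x ^ 2 := by rw [Real.sq_sqrt']; exact le_max_left _ _
  nlinarith [Real.sq_sqrt hy, mul_nonneg (Real.sqrt_nonneg x) (Real.sqrt_nonneg y)]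

lemma JJ_cont (h : Par s l a) {ε : ℝ} (hε : 0 < ε) :
    ∃ η, 0 < η ∧ JJ s l a η ≤ (1 + ε) * JJ s l a 0 := by
  have ha := h.ha
  have hJ := JJ_zero_pos h
  have hz : 0 < zz s l a 1 := (zz_zero_pos h).trans_le (zz_mono h le_rfl zero_le_one)
  set t := ε * JJ s l a 0 / (4 * zz s l a 1) with ht
  have ht0 : 0 < t := by positivity
  set η := min 1 (a * t ^ 2) with hη
  have hη0 : 0 < η := lt_min one_pos (by positivity)
  refine ⟨η, hη0, ?_⟩
  have h0 := (act_mem h hη0.le).1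
  have h1 : √(η / a) ≤ t := by
    rw [Real.sqrt_le_iff, div_le_iff₀ ha]
    exact ⟨ht0.le, (min_le_right _ _).trans (le_of_eq (mul_comm _ _))⟩
  have h2 : Lam s l a η (zz s l a η) ≤ Lam s l a 0 (zz s l a η) + zz s l a η * t := by
    have := intervalIntegral.integral_mono_on (μ := volume) h0
      ((act_cont h η).intervalIntegrable _ _)
      (((act_cont h 0).intervalIntegrable _ _).add (intervalIntegrable_const (c := t)))
      fun x _ => by
        rw [show (η - Wp s l a x) / a = (0 - Wp s l a x) / a + η / a by ring]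
        exact (act_sqrt_add _ _ (by positivity)).trans (add_le_add_right h1 _)
    rw [intervalIntegral.integral_add ((act_cont h 0).intervalIntegrable _ _)
      intervalIntegrable_const, intervalIntegral.integral_const, sub_zero, smul_eq_mul] at this
    exact this
  have h3 := Lam_le h le_rfl h0
  have h4 := mul_le_mul_of_nonneg_right (zz_mono h hη0.le (min_le_left _ _)) ht0.le
  have h5 : 4 * (zz s l a 1 * t) = ε * JJ s l a 0 := by rw [ht]; field_simp
  have h6 : JJ s l a η = 4 * Lam s l a η (zz s l a η) := rfl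
  linarith

/-- beyond the zero level of the potential the force is restoring -/
lemma q_neg (h : Par s l a) {x : ℝ} (hx : x ≠ 0) (hW : 0 ≤ Wp s l a x) :
    l - a * ff s (x ^ 2) < 0 := by
  have hs := h.hs
  have ha := h.ha
  have hZ : 0 < x ^ 2 := by positivity
  have h1 := DD_lower hs hZ.le
  have h2 : 0 < ff s (x ^ 2) := by unfold ff; positivity
  have h3 : 0 < x ^ 2 * ff s (x ^ 2) - l * x ^ 2 / a := by
    unfold DD at h1
    unfold Wp at hW
    have : 0 < ff s (x ^ 2) ^ 2 / 4 := by positivity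
    linarith
  rw [sub_pos, div_lt_iff₀ ha] at h3
  have h4 : x ^ 2 * l < x ^ 2 * (a * ff s (x ^ 2)) := by linarith
  linarith [lt_of_mul_lt_mul_left h4 hZ.le]

end Pool.Agent.MP_67db61_an.Cls

end

-- part MP_67db61_an.Full.Energy
section

/-!
Energy, virial and Pohozaev identities for radial solutions and the a priori bounds they give.
-/

namespace Pool.Agent.MP_67db61_an.Cls

open Set Filter Topology MeasureTheory

lemma flow_mono {f f' : ℝ → ℝ} {x y : ℝ} (hx : 0 ≤ x) (hxy : x ≤ y) (hc : Continuous f)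
    (hf : ∀ r, 0 < r → HasDerivAt f (f' r) r) (h : ∀ r ∈ Ioo x y, 0 ≤ f' r) : f x ≤ f y := by
  refine monotoneOn_of_deriv_nonneg (convex_Icc x y) hc.continuousOn (fun r hr => ?_)
    (fun r hr => ?_) (left_mem_Icc.2 hxy) (right_mem_Icc.2 hxy) hxy
  · rw [interior_Icc] at hr
    exact (hf r (hx.trans_lt hr.1)).differentiableAt.differentiableWithinAt
  · rw [interior_Icc] at hr
    rw [(hf r (hx.trans_lt hr.1)).deriv]
    exact h r hr

lemma flow_pow (n : ℕ) {r : ℝ} (hr : 0 < r) : HasDerivAt (fun r : ℝ => r ^ n) (n * r ^ n / r) r := by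
  refine (hasDerivAt_pow n r).congr_deriv ?_
  rcases n with _ | n
  · simp
  · rw [Nat.add_sub_cancel, pow_succ]; field_simp

lemma flow_abs {a x y : ℝ} (ha : 0 < a) : |x * y / a| ≤ y ^ 2 / a + 1 / a * x ^ 2 := by
  have h : |x * y| ≤ y ^ 2 + x ^ 2 := by
    rw [abs_le]; constructor <;> nlinarith [sq_nonneg (x + y), sq_nonneg (x - y)]
  rw [abs_div, abs_of_pos ha]
  calc |x * y| / a ≤ (y ^ 2 + x ^ 2) / a := by gcongr
    _ = _ := by ring

theorem flow_sys {s l1 a1 l2 a2 : ℝ} (h1 : Par s l1 a1) (h2 : Par s l2 a2) :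
    ∃ c C, ∀ (d : ℕ) (U P W Q : ℝ → ℝ),
      Lin d (fun r => l1 - a1 * ff s (U r ^ 2 + W r ^ 2)) U P →
      Lin d (fun r => l2 - a2 * ff s (U r ^ 2 + W r ^ 2)) W Q →
      Flow d s c C (fun r => U r ^ 2 + W r ^ 2) (fun r => P r ^ 2 / a1 + Q r ^ 2 / a2)
        (EnS s l1 a1 l2 a2 U P W Q) (fun r => r ^ d * (U r * P r / a1 + W r * Q r / a2)) := by
  have k1 : 0 < l1 / a1 := div_pos h1.hl h1.ha
  have k2 : 0 < l2 / a2 := div_pos h2.hl h2.ha
  have b1 : 0 < 1 / a1 := one_div_pos.2 h1.ha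
  have b2 : 0 < 1 / a2 := one_div_pos.2 h2.ha
  have hκ : max (l1 / a1) (l2 / a2) * s < 1 := by
    rcases max_choice (l1 / a1) (l2 / a2) with h | h <;> rw [h, div_mul_eq_mul_div]
    · exact (div_lt_one h1.ha).2 h1.hlt
    · exact (div_lt_one h2.ha).2 h2.hlt
  obtain ⟨c0, C0, hc0, hC0, hlo⟩ := FF_lower h1.hs hκ
  refine ⟨min c0 (min (l1 / a1) (l2 / a2)), C0 + 1 / a1 + 1 / a2, fun d U P W Q hU hW => ?_⟩
  have cU := hU.cw
  have cW := hW.cw
  have cP := hU.cp
  have cQ := hW.cp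
  have Z0 : ∀ r, 0 ≤ U r ^ 2 + W r ^ 2 := fun r => by positivity
  have ha1 := h1.ha
  have ha2 := h2.ha
  refine ⟨h1.hs, lt_min hc0 (lt_min k1 k2), by linarith, by fun_prop, by fun_prop, ?_, Z0,
    fun r => by positivity, fun r hr => ?_, fun r => ?_, by simp [hU.p0, hW.p0], fun r => ?_,
    fun r => ?_, fun r hr => ?_⟩
  · unfold EnS
    have := continuous_FF h1.hs (Z := fun r => U r ^ 2 + W r ^ 2) (by fun_prop) Z0
    fun_prop
  · have hF := (hasDerivAt_FF h1.hs (Z0 r)).comp r (((hU.dw r).pow 2).add ((hW.dw r).pow 2))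
    have := (((((((hU.dp' hr).pow 2).div_const a1).add (((hW.dp' hr).pow 2).div_const a2)).add
      hF).sub ((((hU.dw r).pow 2).const_mul l1).div_const a1)).sub
      ((((hW.dw r).pow 2).const_mul l2).div_const a2))
    refine HasDerivAt.congr_deriv (f := EnS s l1 a1 l2 a2 U P W Q) this ?_
    simp only [Nat.cast_ofNat, Nat.add_one_sub_one, pow_one]
    field_simp
    ring
  · have := (((hU.dw r).mul (hU.dp r)).div_const a1).add (((hW.dw r).mul (hW.dp r)).div_const a2)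
    have e : (fun r => r ^ d * (U r * P r / a1 + W r * Q r / a2)) =
        fun r => U r * (r ^ d * P r) / a1 + W r * (r ^ d * Q r) / a2 := by
      funext r; ring
    rw [e]
    refine HasDerivAt.congr_deriv
      (f := fun r => U r * (r ^ d * P r) / a1 + W r * (r ^ d * Q r) / a2) this ?_
    unfold EnS DD
    field_simp
    ring
  · have e1 := hlo _ (Z0 r)
    have e2 := mul_le_mul_of_nonneg_right (min_le_left c0 (min (l1 / a1) (l2 / a2))) (Z0 r)
    have e3 := mul_le_mul_of_nonneg_right (le_max_left (l1 / a1) (l2 / a2)) (sq_nonneg (U r))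
    have e4 := mul_le_mul_of_nonneg_right (le_max_right (l1 / a1) (l2 / a2)) (sq_nonneg (W r))
    unfold EnS
    rw [mul_add] at e1
    rw [div_mul_eq_mul_div] at e3 e4
    linarith
  · have e1 := FF_le_sq h1.hs (Z0 r)
    have e3 := mul_le_mul_of_nonneg_right
      ((min_le_right c0 _).trans (min_le_left (l1 / a1) (l2 / a2))) (sq_nonneg (U r))
    have e4 := mul_le_mul_of_nonneg_right
      ((min_le_right c0 _).trans (min_le_right (l1 / a1) (l2 / a2))) (sq_nonneg (W r))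
    unfold EnS
    rw [div_mul_eq_mul_div] at e3 e4
    rw [mul_add]
    linarith
  · rw [abs_mul, abs_of_nonneg (pow_nonneg hr d)]
    refine mul_le_mul_of_nonneg_left ?_ (pow_nonneg hr d)
    have e1 := flow_abs (x := U r) (y := P r) ha1
    have e2 := flow_abs (x := W r) (y := Q r) ha2
    have e3 := abs_add_le (U r * P r / a1) (W r * Q r / a2)
    have e4 := mul_nonneg hC0.le (Z0 r)
    have e5 := mul_nonneg b1.le (sq_nonneg (W r))
    have e6 := mul_nonneg b2.le (sq_nonneg (U r))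
    nlinarith

theorem flow_scalar {s l a : ℝ} (h : Par s l a) :
    ∃ c C, ∀ (d : ℕ) (U P : ℝ → ℝ), Lin d (fun r => l - a * ff s (U r ^ 2)) U P →
      Flow d s c C (fun r => U r ^ 2) (fun r => P r ^ 2 / a) (En s l a U P)
        (fun r => r ^ d * (U r * P r / a)) := by
  obtain ⟨c, C, H⟩ := flow_sys h h
  refine ⟨c, C, fun d U P hU => ?_⟩
  have := H d U P (fun _ => 0) (fun _ => 0) (by simpa using hU)
    ⟨fun r => hasDerivAt_const r 0, fun r => by simpa using hasDerivAt_const r (0 : ℝ),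
      continuous_const, by simpa using hU.cq, rfl⟩
  have e : EnS s l a l a U P (fun _ => 0) (fun _ => 0) = En s l a U P := by
    funext r; simp [EnS, En, Wp]; ring
  rw [e] at this
  simpa using this

variable {d : ℕ} {s c C : ℝ} {Z K E m : ℝ → ℝ}

lemma Flow.cD (h : Flow d s c C Z K E m) : Continuous fun r => DD s (Z r) :=
  continuous_DD h.hs h.cZ h.Z0

lemma Flow.anti (h : Flow d s c C Z K E m) {x y : ℝ} (hx : 0 ≤ x) (hxy : x ≤ y) : E y ≤ E x := by
  have := flow_mono (f := fun r => -E r) (f' := fun r => -(-(2 * d * K r / r))) hx hxy h.cE.neg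
    (fun r hr => (h.dE r hr).neg) fun r hr => by
      have := h.K0 r
      have := hx.trans_lt hr.1
      rw [neg_neg]; positivity
  simpa using this

lemma Flow.crude (h : Flow d s c C Z K E m) {x y : ℝ} (hx : 0 ≤ x) (hxy : x ≤ y) :
    x ^ (2 * d) * (E x + C) ≤ y ^ (2 * d) * (E y + C) := by
  have cE := h.cE
  refine flow_mono (f := fun r => r ^ (2 * d) * (E r + C))
    (f' := fun r => 2 * d * r ^ (2 * d) / r * (E r + C - K r)) hx hxy (by fun_prop)
    (fun r hr => ?_) fun r hr => ?_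
  · refine ((flow_pow (2 * d) hr).mul ((h.dE r hr).add_const C)).congr_deriv ?_
    push_cast
    ring
  · have h1 := hx.trans_lt hr.1
    have h2 := h.lo r
    have h3 := mul_nonneg h.hc.le (h.Z0 r)
    exact mul_nonneg (by positivity) (by linarith)

lemma Flow.bound (h : Flow d s c C Z K E m) {r M : ℝ} (hr : 0 ≤ r) (hE : E r ≤ M) :
    Z r ≤ (M + C) / c ∧ K r ≤ M + C ∧ |m r| ≤ r ^ d * ((M + C) * (1 + C / c)) := by
  have h1 := h.lo r
  have h2 := h.K0 r
  have h3 := mul_nonneg h.hc.le (h.Z0 r)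
  have h4 : Z r ≤ (M + C) / c := by
    rw [le_div_iff₀ h.hc]; linarith
  refine ⟨h4, by linarith, (h.mb r hr).trans (mul_le_mul_of_nonneg_left ?_ (pow_nonneg hr d))⟩
  have h5 := mul_le_mul_of_nonneg_left h4 h.hC.le
  have h6 : (M + C) * (1 + C / c) = M + C + C * ((M + C) / c) := by ring
  linarith

lemma Flow.virial (h : Flow d s c C Z K E m) (x y : ℝ) :
    ∫ r in x..y, r ^ d * (DD s (Z r) + E r) = 2 * (∫ r in x..y, r ^ d * K r) - m y + m x := by
  have cE := h.cE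
  have cK := h.cK
  have cD := h.cD
  have i1 : IntervalIntegrable (fun r => r ^ d * (2 * K r - E r - DD s (Z r))) volume x y :=
    Continuous.intervalIntegrable (by fun_prop) _ _
  have i2 : IntervalIntegrable (fun r => 2 * (r ^ d * K r)) volume x y :=
    Continuous.intervalIntegrable (by fun_prop) _ _
  have h1 := intervalIntegral.integral_eq_sub_of_hasDerivAt (fun r _ => h.dm r) i1
  have h2 := intervalIntegral.integral_sub i2 i1
  rw [h1, intervalIntegral.integral_const_mul] at h2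
  rw [show (fun r => r ^ d * (DD s (Z r) + E r)) =
    fun r => 2 * (r ^ d * K r) - r ^ d * (2 * K r - E r - DD s (Z r)) from funext fun r => by ring,
    h2]
  ring

lemma Flow.poho (h : Flow d s c C Z K E m) {x y : ℝ} (hx : 0 ≤ x) (hxy : x ≤ y) :
    y ^ (d + 1) * E y - x ^ (d + 1) * E x
      = (d + 1) * (∫ r in x..y, r ^ d * E r) - 2 * d * ∫ r in x..y, r ^ d * K r := by
  have cE := h.cE
  have cK := h.cK
  have i1 : IntervalIntegrable (fun r => ((d : ℝ) + 1) * (r ^ d * E r)) volume x y :=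
    Continuous.intervalIntegrable (by fun_prop) _ _
  have i2 : IntervalIntegrable (fun r => 2 * (d : ℝ) * (r ^ d * K r)) volume x y :=
    Continuous.intervalIntegrable (by fun_prop) _ _
  have h1 := intervalIntegral.integral_eq_sub_of_hasDerivAt_of_le
    (f := fun r => r ^ (d + 1) * E r) hxy (Continuous.continuousOn (by fun_prop))
    (fun r hr => ?_) (i1.sub i2)
  · rw [← h1, intervalIntegral.integral_sub i1 i2, intervalIntegral.integral_const_mul,
      intervalIntegral.integral_const_mul]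
  · have h0 := hx.trans_lt hr.1
    refine ((hasDerivAt_pow (d + 1) r).mul (h.dE r h0)).congr_deriv ?_
    rw [Nat.add_sub_cancel]
    push_cast
    field_simp
    ring

lemma Flow.diss (h : Flow d s c C Z K E m) {x y : ℝ} (hx : 0 < x) (hxy : x ≤ y) :
    d * (2 * ∫ r in x..y, K r) / y ≤ E x - E y ∧ E x - E y ≤ d * (2 * ∫ r in x..y, K r) / x := by
  have cE := h.cE
  have hI : ∀ r, HasDerivAt (fun r => ∫ t in x..r, K t) (K r) r := fun r =>
    (h.cK.integral_hasStrictDerivAt x r).hasDerivAt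
  have cI : Continuous fun r => ∫ t in x..r, K t :=
    continuous_iff_continuousAt.2 fun r => (hI r).continuousAt
  constructor
  · have := flow_mono (f := fun r => -E r - d * (2 * ∫ t in x..r, K t) / y)
      (f' := fun r => -(-(2 * d * K r / r)) - d * (2 * K r) / y) hx.le hxy (by fun_prop)
      (fun r hr => (h.dE r hr).neg.sub ((((hI r).const_mul 2).const_mul _).div_const y))
      fun r hr => by
        have h1 := h.K0 r
        have h2 := hx.trans hr.1
        have h3 : 2 * d * K r / y ≤ 2 * d * K r / r := by gcongr; exact hr.2.le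
        have h4 : d * (2 * K r) / y = 2 * d * K r / y := by ring
        linarith
    simp only [intervalIntegral.integral_same, mul_zero, zero_div, sub_zero] at this
    linarith
  · have := flow_mono (f := fun r => E r + d * (2 * ∫ t in x..r, K t) / x)
      (f' := fun r => -(2 * d * K r / r) + d * (2 * K r) / x) hx.le hxy (by fun_prop)
      (fun r hr => (h.dE r hr).add ((((hI r).const_mul 2).const_mul _).div_const x))
      fun r hr => by
        have h1 := h.K0 r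
        have h3 : 2 * d * K r / r ≤ 2 * d * K r / x := by gcongr; exact hr.1.le
        have h4 : d * (2 * K r) / x = 2 * d * K r / x := by ring
        linarith
    simp only [intervalIntegral.integral_same, mul_zero, zero_div, add_zero] at this
    linarith

end Pool.Agent.MP_67db61_an.Cls

/-!
A priori bounds from the energy, virial and Pohozaev identities.
-/

namespace Pool.Agent.MP_67db61_an.Cls

open Set Filter Topology MeasureTheory

lemma flow2_ii (d : ℕ) {f : ℝ → ℝ} (hf : Continuous f) (x y : ℝ) :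
    IntervalIntegrable (fun r => r ^ d * f r) volume x y :=
  ((continuous_pow d).mul hf).intervalIntegrable x y

lemma flow2_split {d : ℕ} {s c C : ℝ} {Z K E m : ℝ → ℝ} (h : Flow d s c C Z K E m) (x y : ℝ) :
    ∫ r in x..y, r ^ d * (DD s (Z r) + E r)
      = (∫ r in x..y, r ^ d * DD s (Z r)) + ∫ r in x..y, r ^ d * E r := by
  rw [← intervalIntegral.integral_add (flow2_ii d h.cD x y) (flow2_ii d h.cE x y)]
  simp only [mul_add]

lemma flow2_nonneg (d : ℕ) {f : ℝ → ℝ} {x y : ℝ} (hx : 0 ≤ x) (hxy : x ≤ y)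
    (hf : ∀ r ∈ Icc x y, 0 ≤ f r) : 0 ≤ ∫ r in x..y, r ^ d * f r :=
  intervalIntegral.integral_nonneg hxy fun r hr =>
    mul_nonneg (pow_nonneg (hx.trans hr.1) d) (hf r hr)

lemma flow2_ff_pos {s Z : ℝ} (hs : 0 < s) (hZ : 0 < Z) : 0 < ff s Z := by
  unfold ff
  positivity

lemma flow2_DD_ge {s Y Z : ℝ} (hs : 0 < s) (hY : 0 ≤ Y) (hYZ : Y ≤ Z) :
    ff s Y ^ 2 / 4 ≤ DD s Z := by
  refine le_trans ?_ (DD_lower hs (hY.trans hYZ))
  have h1 := ff_mono hs hY hYZ
  have h2 := ff_nonneg hs hY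
  gcongr

theorem flow_tail {d : ℕ} (hd : 2 ≤ d) {s c : ℝ} (hs : 0 < s) (hc : 0 < c) :
    ∃ η0, 0 < η0 ∧ η0 ≤ 1 ∧ ∀ (C : ℝ) (Z K E m : ℝ → ℝ) (x T : ℝ), Flow d s c C Z K E m →
      0 ≤ x → x ≤ T → E x ≤ η0 → 0 ≤ E T →
      ∫ r in x..T, r ^ d * K r ≤ 2 * x ^ (d + 1) * E x + |m T| + |m x| := by
  have hD0 : 0 < ff s (2 * c) ^ 2 / 4 := by
    have := flow2_ff_pos hs (show 0 < 2 * c by positivity)
    positivity
  set D0 := ff s (2 * c) ^ 2 / 4 with hD0def
  set t : ℝ := 1 / (2 * ((d : ℝ) + 1)) with ht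
  have ht0 : 0 < t := by positivity
  have htd : ((d : ℝ) + 1) * t = 1 / 2 := by
    rw [ht]
    field_simp
  have hd' : (2 : ℝ) ≤ d := by exact_mod_cast hd
  have ht1 : t ≤ 1 := by nlinarith
  refine ⟨min 1 (t * D0), lt_min one_pos (by positivity), min_le_left _ _, ?_⟩
  intro C Z K E m x T h hx hxT hEx hET
  have hpt : ∀ r ∈ Icc x T, r ^ d * E r ≤
      (1 - t) * (r ^ d * K r) + t * (r ^ d * (DD s (Z r) + E r)) := by
    intro r hr
    have hr0 : 0 ≤ r ^ d := pow_nonneg (hx.trans hr.1) d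
    have hDn := DD_nonneg hs (h.Z0 r)
    have key : (1 - t) * (E r - K r) ≤ t * DD s (Z r) := by
      by_cases hp : E r - K r ≤ 0
      · have := mul_nonpos_of_nonneg_of_nonpos (sub_nonneg.2 ht1) hp
        have := mul_nonneg ht0.le hDn
        linarith
      · push Not at hp
        have h1 := h.hi r
        have h2 := h.Z0 r
        have h3 : 2 * c ≤ Z r := by
          by_contra h3
          push Not at h3
          nlinarith
        have h4 : D0 ≤ DD s (Z r) := flow2_DD_ge hs (by positivity) h3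
        have h5 : E r ≤ t * D0 := (h.anti hx hr.1).trans (hEx.trans (min_le_right _ _))
        have h6 := h.K0 r
        have h7 := mul_le_mul_of_nonneg_left h4 ht0.le
        nlinarith
    have := mul_le_mul_of_nonneg_left key hr0
    nlinarith
  have hint := intervalIntegral.integral_mono_on hxT (flow2_ii d h.cE x T)
    (((flow2_ii d h.cK x T).const_mul (1 - t)).add
      ((flow2_ii d (h.cD.add h.cE) x T).const_mul t)) hpt
  rw [intervalIntegral.integral_add ((flow2_ii d h.cK x T).const_mul (1 - t))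
    ((flow2_ii d (h.cD.add h.cE) x T).const_mul t), intervalIntegral.integral_const_mul,
    intervalIntegral.integral_const_mul] at hint
  have hv := h.virial x T
  have hp := h.poho hx hxT
  have hK := flow2_nonneg d hx hxT fun r _ => h.K0 r
  have hT : 0 ≤ T ^ (d + 1) * E T := mul_nonneg (pow_nonneg (hx.trans hxT) _) hET
  simp only [Pi.add_apply] at hint
  rw [hv] at hint
  set KK := ∫ r in x..T, r ^ d * K r
  set EE := ∫ r in x..T, r ^ d * E r
  have h1 := mul_le_mul_of_nonneg_left hint (show (0 : ℝ) ≤ d + 1 by positivity)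
  have h2 : ((d : ℝ) + 1) * ((1 - t) * KK + t * (2 * KK - m T + m x))
      = (d + 1) * KK + (((d : ℝ) + 1) * t) * (KK - m T + m x) := by ring
  rw [h2, htd] at h1
  have h3 := neg_abs_le (m T)
  have h4 := le_abs_self (m x)
  have h5 := mul_le_mul_of_nonneg_right hd' hK
  linarith

theorem flow_decay {d : ℕ} (hd : 2 ≤ d) (s c C M : ℝ) :
    ∃ C', 0 < C' ∧ ∀ (Z K E m : ℝ → ℝ) (x : ℝ), Flow d s c C Z K E m → E 0 ≤ M → 1 ≤ x →
      0 ≤ E x → E x ≤ C' / x := by
  set C1 := |(M + C) * (1 + C / c)| with hC1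
  have hC10 : 0 ≤ C1 := abs_nonneg _
  refine ⟨|M| + 2 * d * C1 + 1, by positivity, ?_⟩
  intro Z K E m x h hM hx hEx
  obtain ⟨k, rfl⟩ := Nat.exists_eq_add_of_le' hd
  set P : ℝ → ℝ := fun r => ∫ t in (0 : ℝ)..r, t ^ (k + 2) * E t with hP
  have hPd : ∀ r, HasDerivAt P (r ^ (k + 2) * E r) r := fun r =>
    (((continuous_pow (k + 2)).mul h.cE).integral_hasStrictDerivAt 0 r).hasDerivAt
  have key : ∀ r, 0 ≤ r → r ^ (k + 2 + 1) * E r ≤ P r + ((k + 2 : ℕ) : ℝ) * C1 * r ^ (k + 2) := by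
    intro r hr
    have hp := h.poho le_rfl hr
    have hv := h.virial 0 r
    rw [flow2_split h, h.m0] at hv
    have hD := flow2_nonneg (k + 2) le_rfl hr fun t _ => DD_nonneg h.hs (h.Z0 t)
    have hb := (h.bound hr ((h.anti le_rfl hr).trans hM)).2.2
    have hb2 : -m r ≤ r ^ (k + 2) * C1 :=
      (neg_le_abs _).trans (hb.trans (mul_le_mul_of_nonneg_left (le_abs_self _) (by positivity)))
    have hdn : (0 : ℝ) ≤ ((k + 2 : ℕ) : ℝ) := by positivity
    have h1 := mul_le_mul_of_nonneg_left hb2 hdn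
    have h2 := mul_nonneg hdn hD
    simp only [zero_pow (Nat.succ_ne_zero _), zero_mul, sub_zero] at hp
    rw [hp]
    simp only [hP]
    have h3 := congrArg (fun u => ((k + 2 : ℕ) : ℝ) * u) hv
    linarith
  set b : ℝ := ((k + 2 : ℕ) : ℝ) * C1 with hb
  have hb0 : 0 ≤ b := by positivity
  have hx0 : 0 < x := by linarith
  have hG : ∀ r, 0 < r → HasDerivAt (fun r => P r / r - b * x ^ k * r)
      ((r ^ (k + 2) * E r * r - P r * 1) / r ^ 2 - b * x ^ k * 1) r := fun r hr =>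
    ((hPd r).div (hasDerivAt_id r) hr.ne').sub ((hasDerivAt_id r).const_mul _)
  have hanti : AntitoneOn (fun r => P r / r - b * x ^ k * r) (Icc 1 x) := by
    refine antitoneOn_of_deriv_nonpos (convex_Icc 1 x) ?_ ?_ ?_
    · intro r hr
      exact (hG r (by linarith [hr.1])).continuousAt.continuousWithinAt
    · intro r hr
      rw [interior_Icc] at hr
      exact (hG r (by linarith [hr.1])).differentiableAt.differentiableWithinAt
    · intro r hr
      rw [interior_Icc] at hr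
      have hr0 : 0 < r := by linarith [hr.1]
      rw [(hG r hr0).deriv, sub_nonpos, div_le_iff₀ (by positivity)]
      have h1 := key r hr0.le
      have h2 : r ^ k ≤ x ^ k := pow_le_pow_left₀ hr0.le hr.2.le k
      have h3 : b * r ^ (k + 2) ≤ b * x ^ k * 1 * r ^ 2 := by
        rw [pow_add, mul_one, mul_assoc b]
        gcongr
      rw [pow_succ r (k + 2)] at h1
      linarith
  have h1 := hanti (left_mem_Icc.2 hx) (right_mem_Icc.2 hx) hx
  simp only [div_one, mul_one] at h1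
  have hP1 : P 1 ≤ |M| := by
    have := intervalIntegral.integral_mono_on (μ := volume) zero_le_one
      (flow2_ii (k + 2) h.cE 0 1) (intervalIntegrable_const (c := |M|)) (fun r hr => by
        have h1 : E r ≤ |M| := ((h.anti le_rfl hr.1).trans hM).trans (le_abs_self _)
        have h2 : r ^ (k + 2) ≤ 1 := pow_le_one₀ hr.1 hr.2
        have h3 : 0 ≤ r ^ (k + 2) := pow_nonneg hr.1 _
        have h4 := mul_le_mul_of_nonneg_left h1 h3
        have h5 := mul_le_mul_of_nonneg_right h2 (abs_nonneg M)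
        linarith)
    simpa using this
  have h2 : P x ≤ (|M| + b * x ^ k * x) * x := by
    rw [← div_le_iff₀ hx0]
    have : 0 ≤ b * x ^ k := by positivity
    linarith
  have h3 := key x hx0.le
  have h4 : |M| * x ≤ |M| * x ^ (k + 2) :=
    mul_le_mul_of_nonneg_left (le_self_pow₀ hx (by omega)) (abs_nonneg _)
  rw [le_div_iff₀ hx0]
  have h5 : 0 < x ^ (k + 2) := by positivity
  refine le_of_mul_le_mul_left ?_ h5
  have h6 : b * x ^ k * x * x = b * x ^ (k + 2) := by ring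
  have h7 : x ^ (k + 2) * (|M| + 2 * ((k + 2 : ℕ) : ℝ) * C1 + 1)
      = |M| * x ^ (k + 2) + 2 * (b * x ^ (k + 2)) + x ^ (k + 2) := by
    rw [hb]
    ring
  rw [pow_succ x (k + 2)] at h3
  nlinarith

lemma flow2_crude {d : ℕ} {s c C M : ℝ} {Z K E m : ℝ → ℝ} (h : Flow d s c C Z K E m)
    (hM : E 0 ≤ M) {T R : ℝ} (hT : 0 ≤ T) (hTR : T ≤ R) :
    ∫ r in (0 : ℝ)..T, r ^ d * K r ≤ R ^ (d + 1) * |M + C| := by
  have := intervalIntegral.integral_mono_on (μ := volume) hT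
    (flow2_ii d h.cK 0 T) (intervalIntegrable_const (c := R ^ d * |M + C|)) (fun r hr => by
      have h1 : K r ≤ |M + C| :=
        (h.bound hr.1 ((h.anti le_rfl hr.1).trans hM)).2.1.trans (le_abs_self _)
      exact mul_le_mul (pow_le_pow_left₀ hr.1 (hr.2.trans hTR) d) h1 (h.K0 r)
        (pow_nonneg (hT.trans hTR) d))
  rw [intervalIntegral.integral_const, sub_zero, smul_eq_mul] at this
  refine this.trans ?_
  have hR : 0 ≤ R := hT.trans hTR
  rw [pow_succ', mul_assoc]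
  gcongr

theorem flow_total {d : ℕ} (hd : 2 ≤ d) (s c C M : ℝ) :
    ∃ C', 0 < C' ∧ ∀ (Z K E m : ℝ → ℝ) (T : ℝ), Flow d s c C Z K E m → E 0 ≤ M → 0 ≤ T →
      0 ≤ E T → m T = 0 →
      ∫ r in (0 : ℝ)..T, r ^ d * (K r + Z r) ≤ C' ∧ ∫ r in (0 : ℝ)..T, r ^ d * DD s (Z r) ≤ C' := by
  by_cases hsc : 0 < s ∧ 0 < c
  swap
  · exact ⟨1, one_pos, fun Z K E m T h => absurd ⟨h.hs, h.hc⟩ hsc⟩
  obtain ⟨hs, hc⟩ := hsc
  obtain ⟨η0, hη0, hη1, htail⟩ := flow_tail hd hs hc
  obtain ⟨C0, hC0, hdec⟩ := flow_decay hd s c C M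
  set R := max 1 (C0 / η0) with hR
  have hR1 : 1 ≤ R := le_max_left _ _
  have hR0 : 0 < R := by linarith
  set A := R ^ (d + 1) * |M + C| + 2 * R ^ (d + 1) + R ^ d * |(M + C) * (1 + C / c)| with hA
  have hA0 : 0 < A := by positivity
  have hD1 : 0 < ff s c ^ 2 / 4 := by
    have := flow2_ff_pos hs hc
    positivity
  set D1 := ff s c ^ 2 / 4 with hD1def
  set C4 := |M + C| / c / D1 with hC4
  have hC40 : 0 ≤ C4 := by positivity
  have hc2 : 0 < 2 / c := by positivity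
  refine ⟨(2 + 2 / c + 2 * C4) * A, by positivity, ?_⟩
  intro Z K E m T h hM hT hET hmT
  have hKK : ∫ r in (0 : ℝ)..T, r ^ d * K r ≤ A := by
    have p1 : 0 ≤ 2 * R ^ (d + 1) := by positivity
    have p2 : 0 ≤ R ^ d * |(M + C) * (1 + C / c)| := by positivity
    by_cases hTR : T ≤ R
    · have := flow2_crude h hM hT hTR
      linarith
    · push Not at hTR
      have h1 := flow2_crude h hM hR0.le le_rfl
      have hER : 0 ≤ E R := hET.trans (h.anti hR0.le hTR.le)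
      have h2 : E R ≤ η0 := by
        refine (hdec Z K E m R h hM hR1 hER).trans ?_
        rw [div_le_iff₀ hR0, ← div_le_iff₀' hη0]
        exact le_max_right _ _
      have h3 := htail C Z K E m R T h hR0.le hTR.le h2 hET
      rw [hmT, abs_zero, add_zero] at h3
      have h4 := (h.bound hR0.le ((h.anti le_rfl hR0.le).trans hM)).2.2
      have h5 : R ^ d * ((M + C) * (1 + C / c)) ≤ R ^ d * |(M + C) * (1 + C / c)| :=
        mul_le_mul_of_nonneg_left (le_abs_self _) (by positivity)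
      have h6 := mul_le_mul_of_nonneg_left (h2.trans hη1) p1
      rw [← intervalIntegral.integral_add_adjacent_intervals (flow2_ii d h.cK 0 R)
        (flow2_ii d h.cK R T)]
      linarith
  have hE0 : ∀ r ∈ Icc 0 T, 0 ≤ E r := fun r hr => hET.trans (h.anti hr.1 hr.2)
  have hDD : ∫ r in (0 : ℝ)..T, r ^ d * DD s (Z r) ≤ 2 * A := by
    have hv := h.virial 0 T
    rw [flow2_split h, h.m0, hmT] at hv
    have := flow2_nonneg d le_rfl hT hE0
    linarith
  have hpt : ∀ r ∈ Icc 0 T, r ^ d * (K r + Z r) ≤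
      (1 + 2 / c) * (r ^ d * K r) + C4 * (r ^ d * DD s (Z r)) := by
    intro r hr
    have hr0 : 0 ≤ r ^ d := pow_nonneg hr.1 d
    have hDn := DD_nonneg hs (h.Z0 r)
    have hKn := h.K0 r
    have key : Z r ≤ 2 / c * K r + C4 * DD s (Z r) := by
      by_cases hZ : Z r ≤ c
      · have h1 := h.hi r
        have h2 := h.Z0 r
        have h3 := hE0 r hr
        have h4 : Z r ≤ 2 / c * K r := by
          rw [div_mul_eq_mul_div, le_div_iff₀ hc]
          nlinarith
        have := mul_nonneg hC40 hDn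
        linarith
      · push Not at hZ
        have h1 : D1 ≤ DD s (Z r) := flow2_DD_ge hs hc.le hZ.le
        have h2 : Z r ≤ |M + C| / c :=
          (h.bound hr.1 ((h.anti le_rfl hr.1).trans hM)).1.trans
            (div_le_div_of_nonneg_right (le_abs_self _) hc.le)
        have h3 : |M + C| / c = C4 * D1 := by
          rw [hC4]
          field_simp
        have h4 := mul_le_mul_of_nonneg_left h1 hC40
        have := mul_nonneg hc2.le hKn
        linarith
    have := mul_le_mul_of_nonneg_left key hr0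
    nlinarith
  have hint := intervalIntegral.integral_mono_on hT (flow2_ii d (h.cK.add h.cZ) 0 T)
    (((flow2_ii d h.cK 0 T).const_mul (1 + 2 / c)).add
      ((flow2_ii d h.cD 0 T).const_mul C4)) hpt
  rw [intervalIntegral.integral_add ((flow2_ii d h.cK 0 T).const_mul _)
    ((flow2_ii d h.cD 0 T).const_mul C4), intervalIntegral.integral_const_mul,
    intervalIntegral.integral_const_mul] at hint
  simp only [Pi.add_apply] at hint
  have h1 := mul_le_mul_of_nonneg_left hKK (show 0 ≤ 1 + 2 / c by positivity)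
  have h2 := mul_le_mul_of_nonneg_left hDD hC40
  have h3 := mul_nonneg hc2.le hA0.le
  have h4 := mul_nonneg hC40 hA0.le
  constructor <;> nlinarith

theorem flow_inner {d : ℕ} (hd : 1 ≤ d) (s c C : ℝ) :
    ∃ C', 0 < C' ∧ ∀ (Z K E m : ℝ → ℝ) (x R : ℝ), Flow d s c C Z K E m → 0 ≤ x → x ≤ R →
      E R ≤ 1 → ∫ r in (0 : ℝ)..x, r ^ d * DD s (Z r) ≤ C' * R * x ^ d := by
  by_cases hsc : 0 < s ∧ 0 < c ∧ 0 < C
  swap
  · exact ⟨1, one_pos, fun Z K E m x R h => absurd ⟨h.hs, h.hc, h.hC⟩ hsc⟩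
  obtain ⟨hs, hc, hC⟩ := hsc
  obtain ⟨k, rfl⟩ := Nat.exists_eq_add_of_le' hd
  set A := 1 + s * ((1 + C) / c) with hA
  have hA0 : 0 < A := by positivity
  set C5 := (A + ((2 * (k + 1) : ℕ) : ℝ)) / s ^ 2 with hC5
  have hC50 : 0 < C5 := by positivity
  refine ⟨C5, hC50, ?_⟩
  intro Z K E m x R h hx hxR hER
  have hR : 0 ≤ R := hx.trans hxR
  have hpt : ∀ r ∈ Icc 0 x, r ^ (k + 1) * DD s (Z r) ≤ C5 * R * x ^ k := by
    intro r hr
    rcases hr.1.eq_or_lt with h0 | h0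
    · rw [← h0, zero_pow (Nat.succ_ne_zero _), zero_mul]
      positivity
    have hrR : r ≤ R := hr.2.trans hxR
    set u := R / r with hu
    have hu1 : 1 ≤ u := (one_le_div h0).2 hrR
    have hu0 : 0 < u := by linarith
    have hup : 1 ≤ u ^ (2 * (k + 1)) := one_le_pow₀ hu1
    have h1 := h.crude h0.le hrR
    have h2 : E r + C ≤ (1 + C) * u ^ (2 * (k + 1)) := by
      rw [hu, div_pow, ← mul_div_assoc, le_div_iff₀ (by positivity)]
      have : R ^ (2 * (k + 1)) * (E R + C) ≤ R ^ (2 * (k + 1)) * (1 + C) := by gcongr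
      linarith
    have h3 : Z r ≤ (1 + C) / c * u ^ (2 * (k + 1)) := by
      rw [div_mul_eq_mul_div, le_div_iff₀ hc]
      have := h.lo r
      have := h.K0 r
      linarith
    have h4 : 1 + s * Z r ≤ A * u ^ (2 * (k + 1)) := by
      have := mul_le_mul_of_nonneg_left h3 hs.le
      rw [hA]
      nlinarith
    have hZ := h.Z0 r
    have h5 : Real.log (1 + s * Z r) ≤ (A + ((2 * (k + 1) : ℕ) : ℝ)) * u := by
      refine (Real.log_le_log (by positivity) h4).trans ?_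
      rw [Real.log_mul hA0.ne' (by positivity), Real.log_pow]
      have e1 := Real.log_le_self hA0.le
      have e2 := Real.log_le_self hu0.le
      have e3 : A ≤ A * u := le_mul_of_one_le_right hA0.le hu1
      have e4 := mul_le_mul_of_nonneg_left e2 (Nat.cast_nonneg (α := ℝ) (2 * (k + 1)))
      linarith
    have h6 : DD s (Z r) ≤ C5 * u := by
      refine (DD_le_log hs hZ).trans ?_
      rw [hC5, div_mul_eq_mul_div]
      gcongr
    have h7 : r ^ (k + 1) * (C5 * u) = C5 * R * r ^ k := by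
      rw [hu]
      field_simp
      ring
    calc r ^ (k + 1) * DD s (Z r) ≤ r ^ (k + 1) * (C5 * u) := by gcongr
      _ = C5 * R * r ^ k := h7
      _ ≤ C5 * R * x ^ k := by gcongr; exact hr.2
  have := intervalIntegral.integral_mono_on (μ := volume) hx
    (flow2_ii (k + 1) h.cD 0 x) (intervalIntegrable_const (c := C5 * R * x ^ k)) hpt
  rw [intervalIntegral.integral_const, sub_zero, smul_eq_mul] at this
  refine this.trans (le_of_eq ?_)
  ring

end Pool.Agent.MP_67db61_an.Cls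

end

-- part MP_67db61_an.Full.Action
section

/-!
The calibration inequality between two zeros, and the action bound on a nodal interval.
-/

namespace Pool.Agent.MP_67db61_an.Cls

open Set Filter Topology MeasureTheory

variable {d : ℕ} {s l a : ℝ}

lemma calib_int {g : ℝ → ℝ} (hg : Continuous g) (x r : ℝ) :
    HasDerivAt (fun r => ∫ t in x..r, g t) (g r) r :=
  intervalIntegral.integral_hasDerivAt_right (hg.intervalIntegrable _ _)
    (hg.stronglyMeasurableAtFilter _ _) hg.continuousAt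

lemma calib_step (h : Par s l a) {Z v u : ℝ → ℝ} (cZ : Continuous Z) (Z0 : ∀ r, 0 ≤ Z r)
    (hv : Lin d (fun r => l - a * ff s (Z r)) v u) {x E σ b c : ℝ} (hx : 0 ≤ x) (hE : 0 ≤ E)
    (hσ : σ ^ 2 = 1) (hb : x ≤ b) (hbc : b ≤ c) (hz : ∀ r ∈ Ioo b c, |v r| ≤ zz s l a E) :
    (∫ t in x..b, t ^ d * (DD s (Z t) + E)) + b ^ d * u b * v b / a
        - x ^ d * ((∫ t in x..b, BB s (Z t) (v t ^ 2)) + 2 * σ * Lam s l a E (v b))
      ≤ (∫ t in x..c, t ^ d * (DD s (Z t) + E)) + c ^ d * u c * v c / a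
        - x ^ d * ((∫ t in x..c, BB s (Z t) (v t ^ 2)) + 2 * σ * Lam s l a E (v c)) := by
  have c1 : Continuous fun t => t ^ d * (DD s (Z t) + E) :=
    (continuous_pow d).mul ((continuous_DD h.hs cZ Z0).add continuous_const)
  have c2 : Continuous fun t => BB s (Z t) (v t ^ 2) :=
    continuous_BB h.hs cZ Z0 (hv.cw.pow 2) fun t => sq_nonneg _
  refine le_of_deriv_nonneg (f := fun r => (∫ t in x..r, t ^ d * (DD s (Z t) + E))
      + r ^ d * u r * v r / a - x ^ d * ((∫ t in x..r, BB s (Z t) (v t ^ 2))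
        + 2 * σ * Lam s l a E (v r))) hbc
    (fun r => ((calib_int c1 x r).add (((hv.dp r).mul (hv.dw r)).div_const a)).sub
      (((calib_int c2 x r).add
        (((hasDerivAt_Lam h E (v r)).comp r (hv.dw r)).const_mul (2 * σ))).const_mul (x ^ d)))
    fun r hr => ?_
  have ha := h.ha
  have hW := Wp_le_of_le_zz h hE (hz r hr)
  have hB := BB_nonneg h.hs (Z0 r) (sq_nonneg (v r))
  set S := √((E - Wp s l a (v r)) / a) with hS
  have hS2 : a * S ^ 2 = E - Wp s l a (v r) := by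
    rw [hS, Real.sq_sqrt (div_nonneg (sub_nonneg.2 hW) ha.le)]
    field_simp
  have e : r ^ d * (DD s (Z r) + E)
      + (r ^ d * ((l - a * ff s (Z r)) * v r) * v r + r ^ d * u r * u r) / a
      = r ^ d * (BB s (Z r) (v r ^ 2) + (u r ^ 2 / a + a * S ^ 2)) := by
    rw [hS2]
    unfold DD BB Wp
    field_simp
    ring
  have h1 : 2 * σ * (S * u r) ≤ u r ^ 2 / a + a * S ^ 2 := by
    have : 0 ≤ (σ * u r - a * S) ^ 2 / a := by positivity
    have e2 : (σ * u r - a * S) ^ 2 / a = σ ^ 2 * u r ^ 2 / a + a * S ^ 2 - 2 * σ * (S * u r) := by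
      field_simp
      ring
    rw [e2, hσ, one_mul] at this
    linarith
  have h2 : x ^ d ≤ r ^ d := pow_le_pow_left₀ hx (hb.trans hr.1.le) d
  have h3 : 0 ≤ BB s (Z r) (v r ^ 2) + (u r ^ 2 / a + a * S ^ 2) := by positivity
  have h4 := mul_le_mul_of_nonneg_right h2 h3
  have h5 := mul_le_mul_of_nonneg_left (add_le_add_right h1 (BB s (Z r) (v r ^ 2)))
    (pow_nonneg hx d)
  rw [e]
  linarith

theorem calib (h : Par s l a) {Z w p : ℝ → ℝ} (cZ : Continuous Z) (Z0 : ∀ r, 0 ≤ Z r)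
    (hw : Lin d (fun r => l - a * ff s (Z r)) w p) (h0 : w 0 ≠ 0) {x y E : ℝ} (hx : 0 ≤ x)
    (hxy : x < y) (hwx : w x = 0) (hwy : w y = 0) (hE : 0 ≤ E) :
    ∃ γ m : ℝ, m ∈ Ioo x y ∧ γ * w m = zz s l a E ∧ p m = 0 ∧
      (∀ r ∈ Icc x y, |γ * w r| ≤ zz s l a E) ∧
      x ^ d * (JJ s l a E + ∫ r in x..y, BB s (Z r) ((γ * w r) ^ 2))
        ≤ ∫ r in x..y, r ^ d * (DD s (Z r) + E) := by
  have hq : ∀ r, |l - a * ff s (Z r)| ≤ l + a / s := fun r => q_bound h (Z0 r)
  obtain ⟨m, hm, hmax⟩ := (isCompact_Icc (a := x) (b := y)).exists_isMaxOn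
    (nonempty_Icc.2 hxy.le) (hw.cw.pow 2).continuousOn
  obtain ⟨r0, hr0, hne⟩ := hw.exists_ne hq h0 hx hxy
  have hmax' : ∀ r ∈ Icc x y, w r ^ 2 ≤ w m ^ 2 := fun r hr => hmax hr
  have hwm : w m ≠ 0 := by
    intro e
    have h1 := hmax' r0 (Ioo_subset_Icc_self hr0)
    rw [e] at h1
    exact hne (by nlinarith [sq_nonneg (w r0)])
  have hmI : m ∈ Ioo x y :=
    ⟨lt_of_le_of_ne hm.1 fun e => hwm (e ▸ hwx), lt_of_le_of_ne hm.2 fun e => hwm (e ▸ hwy)⟩
  have hpm : p m = 0 := by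
    have h1 := (hmax.isLocalMax (Icc_mem_nhds hmI.1 hmI.2)).hasDerivAt_eq_zero ((hw.dw m).pow 2)
    simpa [hwm] using h1
  have hz0 : 0 ≤ zz s l a E := (zz_zero_pos h).le.trans (zz_mono h le_rfl hE)
  have hγ : zz s l a E / w m * w m = zz s l a E := div_mul_cancel₀ _ hwm
  have hbd : ∀ r ∈ Icc x y, |zz s l a E / w m * w r| ≤ zz s l a E := by
    intro r hr
    have h1 : |w r| ≤ |w m| := sq_le_sq.1 (hmax' r hr)
    calc |zz s l a E / w m * w r| ≤ |zz s l a E / w m * w m| := by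
          rw [abs_mul, abs_mul]
          exact mul_le_mul_of_nonneg_left h1 (abs_nonneg _)
      _ = zz s l a E := by rw [hγ, abs_of_nonneg hz0]
  refine ⟨zz s l a E / w m, m, hmI, hγ, hpm, hbd, ?_⟩
  have hv := hw.const_mul (zz s l a E / w m)
  have h1 := calib_step h cZ Z0 hv (σ := 1) hx hE (by norm_num) le_rfl hm.1
    fun r hr => hbd r ⟨hr.1.le, hr.2.le.trans hm.2⟩
  have h2 := calib_step h cZ Z0 hv (σ := -1) hx hE (by norm_num) hm.1 hm.2
    fun r hr => hbd r ⟨hm.1.trans hr.1.le, hr.2.le⟩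
  simp only [hwx, hwy, hγ, mul_zero, Lam_zero, intervalIntegral.integral_same, zero_div,
    add_zero] at h1 h2
  unfold JJ
  linarith

theorem calib' (h : Par s l a) {Z w p : ℝ → ℝ} (cZ : Continuous Z) (Z0 : ∀ r, 0 ≤ Z r)
    (hw : Lin d (fun r => l - a * ff s (Z r)) w p) (h0 : w 0 ≠ 0) {x y E : ℝ} (hx : 0 ≤ x)
    (hxy : x < y) (hwx : w x = 0) (hwy : w y = 0) (hE : 0 ≤ E) :
    x ^ d * JJ s l a E ≤ ∫ r in x..y, r ^ d * (DD s (Z r) + E) := by
  obtain ⟨γ, m, -, -, -, -, H⟩ := calib h cZ Z0 hw h0 hx hxy hwx hwy hE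
  refine le_trans (mul_le_mul_of_nonneg_left (le_add_of_nonneg_right ?_) (pow_nonneg hx d)) H
  exact intervalIntegral.integral_nonneg hxy.le fun r _ => BB_nonneg h.hs (Z0 r) (sq_nonneg _)

lemma calib_right {P : ℝ → ℝ} {k c : ℝ} (hP : HasDerivAt P k c) (hk : k < 0) (h0 : P c = 0) :
    {r | P r ≤ 0} ∈ 𝓝[>] c := by
  have h1 := (hasDerivAt_iff_tendsto_slope.1 hP).eventually (gt_mem_nhds hk)
  have h2 : ∀ᶠ r in 𝓝[>] c, slope P c r < 0 :=
    h1.filter_mono (nhdsWithin_mono _ fun r hr => ne_of_gt hr)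
  filter_upwards [h2, self_mem_nhdsWithin] with r hr hrc
  rw [slope_def_field, h0, sub_zero, div_neg_iff] at hr
  have : c < r := hrc
  rcases hr with hr | hr
  · linarith [hr.2]
  · exact hr.1.le

lemma calib_side (h : Par s l a) {U P : ℝ → ℝ}
    (hU : Lin d (fun r => l - a * ff s (U r ^ 2)) U P) {x E σ b c : ℝ} (hσ : σ ^ 2 = 1)
    (hbc : b ≤ c) (hP : ∀ r ∈ Ioo b c, 0 ≤ σ * P r) (hE : ∀ r ∈ Ioo b c, En s l a U P r ≤ E) :
    σ * Lam s l a E (U b) - ∫ t in x..b, P t ^ 2 / a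
      ≤ σ * Lam s l a E (U c) - ∫ t in x..c, P t ^ 2 / a := by
  have c1 : Continuous fun t => P t ^ 2 / a := (hU.cp.pow 2).div_const a
  refine le_of_deriv_nonneg (f := fun r => σ * Lam s l a E (U r) - ∫ t in x..r, P t ^ 2 / a) hbc
    (fun r => (((hasDerivAt_Lam h E (U r)).comp r (hU.dw r)).const_mul σ).sub (calib_int c1 x r))
    fun r hr => ?_
  have ha := h.ha
  have h1 := hE r hr
  unfold En at h1
  have h2 : σ * P r / a ≤ √((E - Wp s l a (U r)) / a) := by
    refine Real.le_sqrt_of_sq_le ?_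
    rw [div_pow, mul_pow, hσ, one_mul, sq a, ← div_div]
    gcongr
    linarith
  have h3 := mul_le_mul_of_nonneg_left h2 (hP r hr)
  have e : σ * P r * (σ * P r / a) = σ ^ 2 * (P r ^ 2 / a) := by ring
  rw [e, hσ] at h3
  linarith

lemma calib_own (h : Par s l a) {U P : ℝ → ℝ}
    (hU : Lin d (fun r => l - a * ff s (U r ^ 2)) U P) {x y : ℝ} (hx : 0 ≤ x) (hxy : x < y)
    (hpos : ∀ r ∈ Ioo x y, 0 < U r) (hE : 0 ≤ En s l a U P y) :
    2 * ∫ r in x..y, P r ^ 2 / a ≤ JJ s l a (En s l a U P x) := by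
  obtain ⟨c, C, hF⟩ := flow_scalar h
  have F := hF d U P hU
  have hE0 : ∀ r ∈ Icc x y, 0 ≤ En s l a U P r := fun r hr =>
    hE.trans (F.anti (hx.trans hr.1) hr.2)
  have hE1 : ∀ r ∈ Icc x y, En s l a U P r ≤ En s l a U P x := fun r hr => F.anti hx hr.1
  have hU0 : Icc x y ⊆ {r | 0 ≤ U r} := by
    rw [← closure_Ioo hxy.ne]
    exact (isClosed_le continuous_const hU.cw).closure_subset_iff.2 fun r hr => (hpos r hr).le
  have hstay : ∀ r ∈ Ioc x y, P r ≤ 0 → Icc r y ⊆ {t | P t ≤ 0} := by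
    intro r hr hP
    refine IsClosed.Icc_subset_of_forall_mem_nhdsWithin
      ((isClosed_le hU.cp continuous_const).inter isClosed_Icc) hP fun t ht => ?_
    have htI : t ∈ Ioo x y := ⟨hr.1.trans_le ht.2.1, ht.2.2⟩
    rcases (show P t ≤ 0 from ht.1).eq_or_lt with e | e
    · have h1 := hE0 t (Ioo_subset_Icc_self htI)
      have h2 : 0 ≤ Wp s l a (U t) := by simpa [En, e] using h1
      have h3 := q_neg h (hpos t htI).ne' h2
      refine calib_right (hU.dp' (hx.trans_lt htI.1)) ?_ e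
      rw [e, mul_zero, sub_zero]
      exact mul_neg_of_neg_of_pos h3 (hpos t htI)
    · refine mem_nhdsWithin_of_mem_nhds ?_
      filter_upwards [hU.cp.continuousAt.eventually (gt_mem_nhds e)] with z hz using hz.le
  set S : Set ℝ := {r | r ∈ Ioc x y ∧ (P r ≤ 0 ∨ r = y)} with hS
  have hyS : y ∈ S := ⟨⟨hxy, le_rfl⟩, Or.inr rfl⟩
  have hb : BddBelow S := ⟨x, fun r hr => hr.1.1.le⟩
  have hm1 : x ≤ sInf S := le_csInf ⟨y, hyS⟩ fun r hr => hr.1.1.le
  have hm2 : sInf S ≤ y := csInf_le hb hyS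
  have h1 := calib_side h hU (x := x) (E := En s l a U P x) (σ := 1) (by norm_num) hm1
    (fun r hr => by
      by_contra hc
      exact notMem_of_lt_csInf hr.2 hb ⟨⟨hr.1, hr.2.le.trans hm2⟩, Or.inl (by linarith)⟩)
    fun r hr => hE1 r ⟨hr.1.le, hr.2.le.trans hm2⟩
  have h2 := calib_side h hU (x := x) (E := En s l a U P x) (σ := -1) (by norm_num) hm2
    (fun r hr => by
      obtain ⟨t, ht, htr⟩ := exists_lt_of_csInf_lt ⟨y, hyS⟩ hr.1
      rcases ht.2 with e | e
      · have : P r ≤ 0 := hstay t ht.1 e ⟨htr.le, hr.2.le⟩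
        linarith
      · linarith [hr.2])
    fun r hr => hE1 r ⟨hm1.trans hr.1.le, hr.2.le⟩
  have h3 := Lam_nonneg s l a (En s l a U P x) (hU0 (left_mem_Icc.2 hxy.le))
  have h4 := Lam_nonneg s l a (En s l a U P x) (hU0 (right_mem_Icc.2 hxy.le))
  have h5 := Lam_le h (hE0 x (left_mem_Icc.2 hxy.le)) (hU0 ⟨hm1, hm2⟩)
  rw [intervalIntegral.integral_same] at h1
  linarith

theorem own_le (h : Par s l a) {U P : ℝ → ℝ}
    (hU : Lin d (fun r => l - a * ff s (U r ^ 2)) U P) {x y : ℝ} (hx : 0 ≤ x) (hxy : x ≤ y)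
    (hne : ∀ r ∈ Ioo x y, U r ≠ 0) (hE : 0 ≤ En s l a U P y) :
    2 * ∫ r in x..y, P r ^ 2 / a ≤ JJ s l a (En s l a U P x) := by
  rcases hxy.eq_or_lt with e | hxy
  · subst e
    have := Lam_le h hE le_rfl
    rw [Lam_zero] at this
    rw [intervalIntegral.integral_same]
    linarith
  by_cases hp : ∀ r ∈ Ioo x y, 0 < U r
  · exact calib_own h hU hx hxy hp hE
  push Not at hp
  obtain ⟨r0, hr0, h0⟩ := hp
  have hneg : ∀ r ∈ Ioo x y, 0 < -1 * U r := by
    intro r hr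
    by_contra hc
    obtain ⟨t, ht, e⟩ := isPreconnected_Ioo.intermediate_value hr0 hr hU.cw.continuousOn
      (show (0 : ℝ) ∈ Icc (U r0) (U r) from ⟨h0, by linarith⟩)
    exact hne t ht e
  have hV : Lin d (fun r => l - a * ff s ((-1 * U r) ^ 2)) (fun r => -1 * U r)
      (fun r => -1 * P r) := by
    simpa using hU.const_mul (-1)
  have eE : En s l a (fun r => -1 * U r) (fun r => -1 * P r) = En s l a U P := by
    funext r
    simp [En, Wp]
  have := calib_own h hV hx hxy hneg (by rwa [eE])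
  rw [eE] at this
  simpa using this

end Pool.Agent.MP_67db61_an.Cls

/-!
Upper bounds for the distance of zeros and for their number.
-/

namespace Pool.Agent.MP_67db61_an.Cls

open Set Filter Topology MeasureTheory

variable {s l a : ℝ}

theorem zero_gap (d : ℕ) (h : Par s l a) {η : ℝ} (hη : 0 < η) (M : ℝ) :
    ∃ L, 0 < L ∧ ∀ (U P : ℝ → ℝ) (x : ℝ), Lin d (fun r => l - a * ff s (U r ^ 2)) U P → 0 ≤ x →
      En s l a U P x ≤ M → η ≤ En s l a U P (x + L) → ∃ r, x < r ∧ r < x + L ∧ U r = 0 := by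
  obtain ⟨c, C, hF⟩ := flow_scalar h
  obtain ⟨C1, hC1⟩ : ∃ C1, C1 = (M + C) * (1 + C / c) := ⟨_, rfl⟩
  obtain ⟨L, hL⟩ : ∃ L, L = (d + 1) * (|JJ s l a M| + 2 * |C1|) / η + 1 := ⟨_, rfl⟩
  have hL0 : 0 < L := by rw [hL]; positivity
  refine ⟨L, hL0, fun U P x hU hx hM hE => ?_⟩
  by_contra hno
  have F := hF d U P hU
  obtain ⟨y, hy⟩ : ∃ y, y = x + L := ⟨_, rfl⟩
  rw [← hy] at hE hno
  have hxy : x ≤ y := by linarith
  have hy0 : 0 < y := by linarith
  have hyd : 0 < y ^ d := pow_pos hy0 d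
  have hxd : x ^ d ≤ y ^ d := pow_le_pow_left₀ hx hxy d
  have hEx : En s l a U P y ≤ En s l a U P x := F.anti hx hxy
  have h1 := own_le h hU hx hxy (fun r hr h0 => hno ⟨r, hr.1, hr.2, h0⟩) (by linarith)
  have h2 := JJ_mono h (show 0 ≤ En s l a U P x by linarith) hM
  have h3 := F.virial x y
  have h4 := (F.bound hx hM).2.2
  have h5 := (F.bound hy0.le (hEx.trans hM)).2.2
  rw [← hC1] at h4 h5
  have cD := F.cD
  have cE := F.cE
  have cK := F.cK
  have h6 : ∫ r in x..y, r ^ d * η ≤ ∫ r in x..y, r ^ d * (DD s (U r ^ 2) + En s l a U P r) := by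
    refine intervalIntegral.integral_mono_on hxy (Continuous.intervalIntegrable (by fun_prop) _ _)
      (Continuous.intervalIntegrable (by fun_prop) _ _) fun r hr => ?_
    have a1 := F.anti (hx.trans hr.1) hr.2
    have a2 := DD_nonneg h.hs (sq_nonneg (U r))
    exact mul_le_mul_of_nonneg_left (by linarith) (pow_nonneg (hx.trans hr.1) d)
  have h7 : ∫ r in x..y, r ^ d * (P r ^ 2 / a) ≤ ∫ r in x..y, y ^ d * (P r ^ 2 / a) :=
    intervalIntegral.integral_mono_on hxy (Continuous.intervalIntegrable (by fun_prop) _ _)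
      (Continuous.intervalIntegrable (by fun_prop) _ _) fun r hr =>
      mul_le_mul_of_nonneg_right (pow_le_pow_left₀ (hx.trans hr.1) hr.2 d) (F.K0 r)
  rw [intervalIntegral.integral_const_mul] at h7
  rw [intervalIntegral.integral_mul_const, integral_pow] at h6
  have h8 : y ^ d * L / (d + 1) * η ≤ (y ^ (d + 1) - x ^ (d + 1)) / (d + 1) * η := by
    refine mul_le_mul_of_nonneg_right (div_le_div_of_nonneg_right ?_ (by positivity)) hη.le
    have := mul_le_mul_of_nonneg_right hxd hx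
    rw [pow_succ, pow_succ, show L = y - x by linarith]
    linarith
  have h9 : y ^ d * L / (d + 1) * η =
      y ^ d * (|JJ s l a M| + 2 * |C1|) + y ^ d * η / (d + 1) := by
    rw [hL]; field_simp
  have h10 : 0 < y ^ d * η / (d + 1) := by positivity
  have h11 := mul_le_mul_of_nonneg_left ((h1.trans h2).trans (le_abs_self _)) hyd.le
  have h12 := mul_le_mul_of_nonneg_left (le_abs_self C1) hyd.le
  have h13 : x ^ d * C1 ≤ y ^ d * |C1| :=
    mul_le_mul hxd (le_abs_self C1) (by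
      have := F.hC
      have := F.hc
      have : 0 ≤ M := by linarith
      rw [hC1]; positivity) hyd.le
  have h14 := (abs_le.1 h4).2
  have h15 := (abs_le.1 h5).1
  linarith

theorem cnt {d : ℕ} (hd : 2 ≤ d) (h : Par s l a) {l' a' : ℝ} (h' : Par s l' a') :
    ∃ C η0, 0 < C ∧ 0 < η0 ∧ ∀ (η : ℝ) (U P w p : ℝ → ℝ) (T R : ℝ), Mem d s l a η U P T →
      Lin d (fun r => l' - a' * ff s (U r ^ 2)) w p → w 0 ≠ 0 → 1 ≤ R →
      (R ≤ T → En s l a U P R ≤ η0) → (nz w T : ℝ) ≤ C * R := by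
  obtain ⟨c, C, hF⟩ := flow_scalar h
  by_cases hc : 0 < c ∧ 0 < C
  swap
  · exact ⟨1, 1, one_pos, one_pos, fun η U P w p T R hM =>
      absurd ⟨(hF d U P hM.lin).hc, (hF d U P hM.lin).hC⟩ hc⟩
  obtain ⟨hc, hC⟩ := hc
  obtain ⟨η0, hη0, hη1, ht⟩ := flow_tail hd h.hs hc
  obtain ⟨C1, hC1⟩ : ∃ C1, C1 = (1 + C) * (1 + C / c) := ⟨_, rfl⟩
  have hC10 : 0 < C1 := by rw [hC1]; positivity
  have hJ := JJ_zero_pos h'
  have ha := h.ha
  have hQ : 0 < l' + a' / s := by
    have := h'.hl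
    have := h'.ha
    have := h'.hs
    positivity
  obtain ⟨A, hA⟩ : ∃ A, A = (4 + 3 / a + 3 * C1) / JJ s l' a' 0 := ⟨_, rfl⟩
  have hA0 : 0 < A := by rw [hA]; positivity
  refine ⟨3 + (l' + a' / s) + A, η0, by positivity, hη0, fun η U P w p T R hM hw h0 hR hE => ?_⟩
  have hq : ∀ r, |l' - a' * ff s (U r ^ 2)| ≤ l' + a' / s := fun r => q_bound h' (sq_nonneg _)
  have hR0 : 0 < R := by linarith
  have h1 := hw.nz_le hq h0 hR0.le
  have hAR : 0 < A * R := by positivity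
  rcases le_total T R with hT | hT
  · have h2 : (nz w T : ℝ) ≤ nz w R := by exact_mod_cast hw.nz_mono hq h0 hT
    linarith
  have F := hF d U P hM.lin
  have cD := F.cD
  have cE := F.cE
  have hRd : 0 < R ^ d := pow_pos hR0 d
  have hint : ∀ x y : ℝ, IntervalIntegrable (fun r => r ^ d * DD s (U r ^ 2)) volume x y :=
    fun x y => Continuous.intervalIntegrable (by fun_prop) _ _
  have hsub : ∀ x y : ℝ, (∫ r in R..y, r ^ d * DD s (U r ^ 2)) -
      ∫ r in R..x, r ^ d * DD s (U r ^ 2) = ∫ r in x..y, r ^ d * DD s (U r ^ 2) := fun x y =>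
    intervalIntegral.integral_interval_sub_left (hint _ _) (hint _ _)
  have h2 := chain (S := {r | r ∈ Ioc R T ∧ w r = 0}) (x := R) (T := T)
    (c := R ^ d * JJ s l' a' 0) (Ω := fun x => ∫ r in R..x, r ^ d * DD s (U r ^ 2))
    ((hw.finite hq h0 T).subset fun r hr => ⟨⟨hR0.trans hr.1.1, hr.1.2⟩, hr.2⟩) (by positivity) hT
    (fun r hr => ⟨hr.1.1.le, hr.1.2⟩)
    (fun x hx y _ hxy => by
      have := intervalIntegral.integral_nonneg (μ := volume) hxy
        (f := fun r => r ^ d * DD s (U r ^ 2)) fun r hr =>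
          mul_nonneg (pow_nonneg (hR0.le.trans (hx.1.trans hr.1)) d) (DD_nonneg h.hs (sq_nonneg _))
      have := hsub x y
      dsimp only
      linarith)
    (fun x hx y hy hxy => by
      have a1 := calib' h' F.cZ F.Z0 hw h0 (hR0.le.trans hx.1.1.le) hxy hx.2 hy.2 le_rfl
      simp only [add_zero] at a1
      rw [hsub]
      exact (mul_le_mul_of_nonneg_right (pow_le_pow_left₀ hR0.le hx.1.1.le d) hJ.le).trans a1)
  rw [hsub] at h2
  have h3 : ∫ r in R..T, r ^ d * DD s (U r ^ 2) ≤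
      ∫ r in R..T, r ^ d * (DD s (U r ^ 2) + En s l a U P r) := by
    refine intervalIntegral.integral_mono_on hT (hint _ _)
      (Continuous.intervalIntegrable (by fun_prop) _ _) fun r hr => ?_
    have a1 := F.anti (hR0.le.trans hr.1) hr.2
    have a2 := hM.E0
    exact mul_le_mul_of_nonneg_left (by linarith) (pow_nonneg (hR0.le.trans hr.1) d)
  have h4 := F.virial R T
  have h5 := ht C _ _ _ _ R T F hR0.le hT (hE hT) hM.E0
  have h6 := (F.bound hR0.le ((hE hT).trans hη1)).2.2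
  rw [← hC1] at h6
  have h7 : |T ^ d * (U T * P T / a)| ≤ 1 / a := by
    rw [← mul_div_assoc, abs_div, abs_of_pos ha, abs_mul, abs_of_nonneg (pow_nonneg hM.T0.le d)]
    exact div_le_div_of_nonneg_right hM.bd ha.le
  have h8 : 1 / a ≤ R ^ d * R * (1 / a) :=
    le_mul_of_one_le_left (by positivity) (one_le_mul_of_one_le_of_one_le (one_le_pow₀ hR) hR)
  have h9 : R ^ d * C1 ≤ R ^ d * R * C1 := by
    have : R ^ d ≤ R ^ d * R := le_mul_of_one_le_right hRd.le hR
    exact mul_le_mul_of_nonneg_right this hC10.le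
  have h10 : 2 * R ^ (d + 1) * En s l a U P R ≤ 2 * (R ^ d * R) := by
    rw [pow_succ]
    exact mul_le_of_le_one_right (by positivity) ((hE hT).trans hη1)
  have h11 : ((Set.ncard {r | r ∈ Ioc R T ∧ w r = 0} : ℝ) - 1) * (R ^ d * JJ s l' a' 0) ≤
      A * R * (R ^ d * JJ s l' a' 0) := by
    have e : A * R * (R ^ d * JJ s l' a' 0) =
        4 * (R ^ d * R) + 3 * (R ^ d * R * (1 / a)) + 3 * (R ^ d * R * C1) := by
      rw [hA]; field_simp
    have b1 := neg_abs_le (T ^ d * (U T * P T / a))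
    have b2 := le_abs_self (R ^ d * (U R * P R / a))
    linarith
  have h12 := le_of_mul_le_mul_right h11 (by positivity)
  rw [hw.nz_split hq h0 hR0.le hT]
  push_cast
  linarith

end Pool.Agent.MP_67db61_an.Cls

/-!
The strict gap in the calibration inequality in the non-symmetric case.
-/

namespace Pool.Agent.MP_67db61_an.Cls

open Set Filter Topology MeasureTheory

lemma gap_lip {f f' : ℝ → ℝ} {x y C : ℝ} (hf : ∀ r, HasDerivAt f (f' r) r)
    (hC : ∀ r ∈ Icc x y, |f' r| ≤ C) {a b : ℝ} (ha : a ∈ Icc x y) (hb : b ∈ Icc x y) :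
    |f b - f a| ≤ C * |b - a| :=
  (convex_Icc x y).norm_image_sub_le_of_norm_hasDerivWithin_le
    (fun r _ => (hf r).hasDerivWithinAt) hC ha hb

/-- a uniformly convex function cannot stay small on an interval -/
lemma gap_conv {d : ℕ} {e e' h : ℝ → ℝ} {x r0 τ c δ : ℝ} (he : ∀ r, HasDerivAt e (e' r) r)
    (he' : ∀ r, HasDerivAt (fun r => r ^ d * e' r) (r ^ d * h r) r) (hx : 0 < x) (hτ : 0 ≤ τ)
    (h1 : x ≤ r0 - τ) (h2 : r0 + τ ≤ 2 * x) (hc : 0 ≤ c)
    (hI : ∀ r ∈ Icc (r0 - τ) (r0 + τ), c ≤ h r ∧ |e r| ≤ δ) :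
    c / 2 ^ d * τ ^ 2 / 2 ≤ 2 * δ := by
  have hxd : 0 < x ^ d := pow_pos hx d
  have h2d : (0 : ℝ) < 2 ^ d := by positivity
  have hm : ∀ a b, r0 - τ ≤ a → a ≤ b → b ≤ r0 + τ →
      a ^ d * e' a - x ^ d * c * a ≤ b ^ d * e' b - x ^ d * c * b := fun a b ha hab hb =>
    le_of_deriv_nonneg (f := fun r => r ^ d * e' r - x ^ d * c * r)
      (f' := fun r => r ^ d * h r - x ^ d * c * 1) hab
      (fun r => (he' r).sub ((hasDerivAt_id r).const_mul _)) fun r hr => by
        have a1 := (hI r ⟨by linarith [hr.1], by linarith [hr.2]⟩).1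
        have a2 : x ^ d ≤ r ^ d := pow_le_pow_left₀ hx.le (by linarith [hr.1]) d
        have := mul_le_mul a2 a1 hc (hxd.le.trans a2)
        linarith
  have hψ : ∀ r, HasDerivAt (fun r => e r - c / 2 ^ d * (r - r0) ^ 2 / 2)
      (e' r - c / 2 ^ d * (r - r0)) r := fun r => by
    refine ((he r).sub (((((hasDerivAt_id r).sub_const r0).pow 2).const_mul
      (c / 2 ^ d)).div_const 2)).congr_deriv ?_
    simp
    ring
  have hpow : ∀ r, r0 - τ ≤ r → r ≤ r0 + τ → 0 < r ^ d ∧ r ^ d ≤ 2 ^ d * x ^ d := fun r a b =>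
    ⟨pow_pos (by linarith) d, by
      rw [← mul_pow]; exact pow_le_pow_left₀ (by linarith) (by linarith) d⟩
  have key : ∀ u t R : ℝ, 0 < R → R ≤ 2 ^ d * x ^ d → 0 ≤ t → x ^ d * c * t ≤ R * u →
      c / 2 ^ d * t ≤ u := fun u t R hR hR' ht h => by
    have hu : 0 ≤ u := nonneg_of_mul_nonneg_right (le_trans (by positivity) h) hR
    have h3 : x ^ d * (c * t) ≤ x ^ d * (2 ^ d * u) := by
      have := mul_le_mul_of_nonneg_right hR' hu
      linarith
    rw [div_mul_eq_mul_div, div_le_iff₀ h2d]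
    linarith [le_of_mul_le_mul_left h3 hxd]
  have b0 := abs_le.1 (hI r0 ⟨by linarith, by linarith⟩).2
  have p0 := (hpow r0 (by linarith) (by linarith)).1
  rcases le_total 0 (e' r0) with h0 | h0
  · have b1 := abs_le.1 (hI (r0 + τ) ⟨by linarith, le_rfl⟩).2
    have := le_of_deriv_nonneg (show r0 ≤ r0 + τ by linarith) hψ fun r hr => by
      have a1 := hm r0 r (by linarith) hr.1.le hr.2.le
      obtain ⟨a2, a3⟩ := hpow r (by linarith [hr.1]) hr.2.le
      have a4 := mul_nonneg p0.le h0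
      exact sub_nonneg.2 (key _ _ _ a2 a3 (by linarith [hr.1]) (by linarith))
    rw [sub_self, add_sub_cancel_left] at this
    linarith [b0.1, b1.2]
  · have b1 := abs_le.1 (hI (r0 - τ) ⟨le_rfl, by linarith⟩).2
    have := le_of_deriv_nonpos (show r0 - τ ≤ r0 by linarith) hψ fun r hr => by
      have a1 := hm r r0 hr.1.le hr.2.le (by linarith)
      obtain ⟨a2, a3⟩ := hpow r hr.1.le (by linarith [hr.2])
      have a4 := mul_nonpos_of_nonneg_of_nonpos p0.le h0
      have := key (-e' r) (r0 - r) _ a2 a3 (by linarith [hr.2]) (by linarith)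
      linarith
    rw [sub_self, sub_sub_cancel_left, neg_sq] at this
    linarith [b0.1, b1.2]

/-- two close positive solutions of different equations -/
lemma gap_pos {d : ℕ} {q1 q2 W Q v p : ℝ → ℝ} (hW : Lin d q2 W Q) (hv : Lin d q1 v p)
    {x r0 τ ζ c σ Q2 δ : ℝ} (hx : 0 < x) (hτ : 0 ≤ τ) (h1 : x ≤ r0 - τ) (h2 : r0 + τ ≤ 2 * x)
    (hc : 0 ≤ c) (hζ : 0 ≤ ζ) (hσ : |σ| = 1) (hQ : Q2 * δ ≤ c * ζ / 4)
    (hI : ∀ r ∈ Icc (r0 - τ) (r0 + τ),
      ζ / 2 ≤ v r ∧ |W r - v r| ≤ δ ∧ c ≤ σ * (q2 r - q1 r) ∧ |q2 r| ≤ Q2) :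
    c * ζ / 4 / 2 ^ d * τ ^ 2 / 2 ≤ 2 * δ := by
  refine gap_conv (e := fun r => σ * (W r - v r)) (e' := fun r => σ * (Q r - p r))
    (h := fun r => σ * (q2 r * W r - q1 r * v r))
    (fun r => ((hW.dw r).sub (hv.dw r)).const_mul σ) (fun r => ?_) hx hτ h1 h2 (by positivity)
    fun r hr => ?_
  · refine ((((hW.dp r).sub (hv.dp r)).const_mul σ).congr_deriv (by ring)).congr_of_eventuallyEq
      (Eventually.of_forall fun t => ?_)
    simp only [Pi.sub_apply]
    ring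
  · obtain ⟨a1, a2, a3, a4⟩ := hI r hr
    refine ⟨?_, by rw [abs_mul, hσ, one_mul]; exact a2⟩
    have b1 : c * (ζ / 2) ≤ σ * (q2 r - q1 r) * v r :=
      mul_le_mul a3 a1 (by positivity) (hc.trans a3)
    have b2 : |σ * (q2 r * (W r - v r))| ≤ Q2 * δ := by
      rw [abs_mul, hσ, one_mul, abs_mul]
      exact mul_le_mul a4 a2 (abs_nonneg _) ((abs_nonneg _).trans a4)
    have b3 := (abs_le.1 b2).1
    have b4 : σ * (q2 r * W r - q1 r * v r) =
        σ * (q2 r - q1 r) * v r + σ * (q2 r * (W r - v r)) := by ring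
    linarith

lemma gap_sign {W : ℝ → ℝ} (hW : Continuous W) {a b : ℝ} (hab : a ≤ b)
    (h : ∀ r ∈ Icc a b, W r ≠ 0) : ∃ ε : ℝ, ε ^ 2 = 1 ∧ ∀ r ∈ Icc a b, 0 ≤ ε * W r := by
  have ha : a ∈ Icc a b := left_mem_Icc.2 hab
  rcases le_total 0 (W a) with h0 | h0
  · refine ⟨1, by norm_num, fun r hr => ?_⟩
    by_contra hc
    obtain ⟨z, hz, e⟩ := isPreconnected_Icc.intermediate_value hr ha hW.continuousOn
      (show (0 : ℝ) ∈ Icc (W r) (W a) from ⟨by linarith, h0⟩)
    exact h z hz e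
  · refine ⟨-1, by norm_num, fun r hr => ?_⟩
    by_contra hc
    obtain ⟨z, hz, e⟩ := isPreconnected_Icc.intermediate_value ha hr hW.continuousOn
      (show (0 : ℝ) ∈ Icc (W a) (W r) from ⟨h0, by linarith⟩)
    exact h z hz e

/-- a level at which the two coefficients differ -/
lemma gap_g {s l1 a1 l2 a2 z : ℝ} (hs : 0 < s) (hns : l1 ≠ l2 ∨ a1 ≠ a2) (hz : 0 < z) :
    ∃ ζ σ c ν : ℝ, 0 < ζ ∧ ζ ≤ z ∧ |σ| = 1 ∧ 0 < c ∧ 0 < ν ∧ ν ≤ ζ / 4 ∧
      ∀ t, |t - ζ| ≤ 2 * ν → c ≤ σ * (l2 - a2 * ff s (t ^ 2) - (l1 - a1 * ff s (t ^ 2))) := by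
  set g : ℝ → ℝ := fun t => l2 - a2 * ff s (t ^ 2) - (l1 - a1 * ff s (t ^ 2)) with hg
  have cf : Continuous fun t : ℝ => ff s (t ^ 2) :=
    continuous_ff' hs (by fun_prop) fun _ => sq_nonneg _
  have cg : Continuous g := by rw [hg]; fun_prop
  obtain ⟨ζ, h0, h1, h2⟩ : ∃ ζ, 0 < ζ ∧ ζ ≤ z ∧ g ζ ≠ 0 := by
    by_contra hc
    push Not at hc
    have e1 := hc z hz le_rfl
    have e2 := hc (z / 2) (by positivity) (by linarith)
    have e3 : 0 < ff s (z ^ 2) - ff s ((z / 2) ^ 2) := by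
      rw [ff_sub hs (sq_nonneg _) (sq_nonneg _)]
      have : 0 < z ^ 2 - (z / 2) ^ 2 := by nlinarith
      positivity
    simp only [hg] at e1 e2
    have e4 : (a1 - a2) * (ff s (z ^ 2) - ff s ((z / 2) ^ 2)) = 0 := by linarith
    have e5 : a1 = a2 := sub_eq_zero.1 ((mul_eq_zero.1 e4).resolve_right e3.ne')
    rcases hns with h | h
    · rw [e5] at e1
      exact h (by linarith)
    · exact h e5
  obtain ⟨σ, hσ, h3⟩ : ∃ σ : ℝ, |σ| = 1 ∧ 0 < σ * g ζ := by
    rcases lt_or_gt_of_ne h2 with h | h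
    · exact ⟨-1, by simp, by linarith⟩
    · exact ⟨1, by simp, by linarith⟩
  obtain ⟨η, hη, h4⟩ := Metric.continuous_iff.1 (cg.const_mul σ) ζ (σ * g ζ / 2) (by positivity)
  refine ⟨ζ, σ, σ * g ζ / 2, min (η / 3) (ζ / 4), h0, h1, hσ, by positivity, by positivity,
    min_le_right _ _, fun t ht => ?_⟩
  have h5 := h4 t (by rw [Real.dist_eq]; linarith [min_le_left (η / 3) (ζ / 4)])
  rw [Real.dist_eq, abs_lt] at h5
  show σ * g ζ / 2 ≤ σ * g t
  linarith [h5.1]

/-- a point where the squares differ -/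
lemma gap_pt (d : ℕ) {s l1 a1 l2 a2 ζ σ c ν τ : ℝ} (h2 : Par s l2 a2) (hζ : 0 < ζ) (hσ : |σ| = 1)
    (hc : 0 < c) (hν : 0 < ν) (hν' : ν ≤ ζ / 4) (hτ : 0 < τ)
    (hg : ∀ t, |t - ζ| ≤ 2 * ν → c ≤ σ * (l2 - a2 * ff s (t ^ 2) - (l1 - a1 * ff s (t ^ 2)))) :
    ∃ δ, 0 < δ ∧ ∀ (W Q v p : ℝ → ℝ) (x r0 : ℝ),
      Lin d (fun r => l2 - a2 * ff s (W r ^ 2)) W Q →
      Lin d (fun r => l1 - a1 * ff s (W r ^ 2)) v p → 0 < x → x ≤ r0 - τ → r0 + τ ≤ 2 * x →
      (∀ r ∈ Icc (r0 - τ) (r0 + τ), |v r - ζ| ≤ ν) →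
      ∃ r ∈ Icc (r0 - τ) (r0 + τ), δ ≤ |W r ^ 2 - v r ^ 2| := by
  have hQ : 0 < l2 + a2 / s := by
    have := h2.hs; have := h2.hl; have := h2.ha; positivity
  obtain ⟨δ, d0, d1, d2, d3⟩ : ∃ δ, 0 < δ ∧ δ ≤ ν ∧ (l2 + a2 / s) * δ ≤ c * ζ / 4 ∧
      2 * δ < c * ζ / 4 / 2 ^ d * τ ^ 2 / 2 := by
    have k0 : 0 < c * ζ / 4 / 2 ^ d * τ ^ 2 / 2 := by positivity
    generalize c * ζ / 4 / 2 ^ d * τ ^ 2 / 2 = k at k0
    refine ⟨min ν (min (c * ζ / 4 / (l2 + a2 / s)) (k / 3)), by positivity, min_le_left _ _, ?_, ?_⟩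
    · rw [← le_div_iff₀' hQ]
      exact (min_le_right _ _).trans (min_le_left _ _)
    · linarith [(min_le_right ν _).trans (min_le_right (c * ζ / 4 / (l2 + a2 / s)) (k / 3))]
  refine ⟨δ * (ζ / 2), by positivity, fun W Q v p x r0 hW hv hx h1 h2' hI => ?_⟩
  by_contra hcon
  push Not at hcon
  have hv2 : ∀ r ∈ Icc (r0 - τ) (r0 + τ), ζ / 2 ≤ v r := fun r hr => by
    linarith [(abs_le.1 (hI r hr)).1]
  obtain ⟨ε, e1, e2⟩ := gap_sign hW.cw (show r0 - τ ≤ r0 + τ by linarith) fun r hr h0 => by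
    have a1 := (abs_lt.1 (hcon r hr)).1
    have a2 := pow_le_pow_left₀ (by positivity) (hv2 r hr) 2
    have a3 : δ * (ζ / 2) ≤ ζ / 4 * (ζ / 2) := by gcongr; linarith
    rw [h0] at a1
    nlinarith
  refine absurd (gap_pos (hW.const_mul ε) hv hx hτ.le h1 h2' hc.le hζ.le hσ d2 fun r hr => ?_)
    (not_le.2 d3)
  have a0 : (ε * W r) ^ 2 = W r ^ 2 := by rw [mul_pow, e1, one_mul]
  have a1 : |ε * W r - v r| ≤ δ := by
    have b1 := hcon r hr
    have b2 := hv2 r hr
    have b3 := e2 r hr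
    rw [← a0, sq_sub_sq, abs_mul, abs_of_nonneg (by linarith)] at b1
    have b4 : ζ / 2 * |ε * W r - v r| ≤ (ε * W r + v r) * |ε * W r - v r| := by
      gcongr; linarith
    exact le_of_mul_le_mul_left (a := ζ / 2) (by linarith) (by positivity)
  refine ⟨hv2 r hr, a1, ?_, q_bound h2 (sq_nonneg _)⟩
  rw [← a0]
  refine hg _ ?_
  linarith [abs_sub_le (ε * W r) (v r) ζ, hI r hr]

/-- derivative bound between two zeros -/
lemma gap_der {d : ℕ} {q v p : ℝ → ℝ} (hv : Lin d q v p) {x y m Q Z H : ℝ} (hx : 0 < x)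
    (hy : y ≤ 2 * x) (hH : y - x ≤ H) (hm : m ∈ Icc x y) (hp : p m = 0) (hq : ∀ r, |q r| ≤ Q)
    (hZ : ∀ r ∈ Icc x y, |v r| ≤ Z) {r : ℝ} (hr : r ∈ Icc x y) : |p r| ≤ 2 ^ d * Q * Z * H := by
  have hQ : 0 ≤ Q := (abs_nonneg _).trans (hq 0)
  have hZ0 : 0 ≤ Z := (abs_nonneg _).trans (hZ r hr)
  have h1 := gap_lip (C := (2 * x) ^ d * (Q * Z)) hv.dp (fun t ht => by
    have t0 : 0 ≤ t := hx.le.trans ht.1
    have t1 : t ≤ 2 * x := ht.2.trans hy
    rw [abs_mul, abs_mul, abs_of_nonneg (pow_nonneg t0 d)]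
    have := hq t
    have := hZ t ht
    gcongr) hm hr
  have h2 : |r - m| ≤ H := abs_le.2 ⟨by linarith [hr.1, hm.2], by linarith [hr.2, hm.1]⟩
  have r0 : 0 ≤ r := hx.le.trans hr.1
  simp only [hp, mul_zero, sub_zero] at h1
  rw [abs_mul, abs_of_nonneg (pow_nonneg r0 d)] at h1
  refine le_of_mul_le_mul_left (a := x ^ d) ?_ (pow_pos hx d)
  calc x ^ d * |p r| ≤ r ^ d * |p r| := by gcongr; exact hr.1
    _ ≤ (2 * x) ^ d * (Q * Z) * H := h1.trans (by gcongr)
    _ = _ := by rw [mul_pow]; ring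

theorem gap (d : ℕ) {s l1 a1 l2 a2 : ℝ} (h1 : Par s l1 a1) (h2 : Par s l2 a2)
    (hns : l1 ≠ l2 ∨ a1 ≠ a2) (M B H : ℝ) :
    ∃ δ, 0 < δ ∧ ∀ (W Q w p : ℝ → ℝ) (x y E : ℝ),
      Lin d (fun r => l2 - a2 * ff s (W r ^ 2)) W Q →
      Lin d (fun r => l1 - a1 * ff s (W r ^ 2)) w p → w 0 ≠ 0 → 0 < x → x < y → y ≤ 2 * x →
      y - x ≤ H → w x = 0 → w y = 0 → 0 ≤ E → E ≤ M → (∀ r ∈ Icc x y, |W r| ≤ B ∧ |Q r| ≤ B) →
      x ^ d * (JJ s l1 a1 E + δ) ≤ ∫ r in x..y, r ^ d * (DD s (W r ^ 2) + E) := by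
  obtain ⟨ζ, σ, c, ν, hζ, hζ', hσ, hc, hν, hν', hg⟩ := gap_g h1.hs hns (zz_zero_pos h1)
  have hs := h1.hs
  have hQ : 0 < l1 + a1 / s := by
    have := h1.hl; have := h1.ha; positivity
  obtain ⟨Z, hZ0, hZ⟩ : ∃ Z, 0 ≤ Z ∧ zz s l1 a1 M ≤ Z := ⟨_, abs_nonneg _, le_abs_self _⟩
  obtain ⟨C1, hC1, hC1'⟩ : ∃ C1, 0 < C1 ∧ 2 ^ d * (l1 + a1 / s) * Z * H ≤ C1 :=
    ⟨|_| + 1, by positivity, (le_abs_self _).trans (le_add_of_nonneg_right zero_le_one)⟩
  obtain ⟨τ, hτ, hτ'⟩ : ∃ τ, 0 < τ ∧ C1 * τ = ν := ⟨ν / C1, by positivity, by field_simp⟩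
  obtain ⟨δ, hδ, hpt⟩ := gap_pt d h2 hζ hσ hc hν hν' hτ hg
  obtain ⟨C2, hC2, hC2'⟩ : ∃ C2, 0 < C2 ∧ 2 * (B * B) + 2 * (Z * C1) ≤ C2 :=
    ⟨|_| + 1, by positivity, (le_abs_self _).trans (le_add_of_nonneg_right zero_le_one)⟩
  obtain ⟨τ2, t0, t1, t2⟩ : ∃ τ2, 0 < τ2 ∧ τ2 ≤ τ ∧ C2 * τ2 ≤ δ / 2 :=
    ⟨min τ (δ / 2 / C2), by positivity, min_le_left _ _, by
      rw [← le_div_iff₀' hC2]; exact min_le_right _ _⟩
  refine ⟨τ2 * ((δ / 2) ^ 2 / (4 * (1 + s * (B ^ 2 + Z ^ 2)) ^ 2)), by positivity,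
    fun W Q w p x y E hW hw w0 hx hxy hy hH hwx hwy hE hEM hB => ?_⟩
  have cW := hW.cw
  obtain ⟨γ, m, hm, hγ, hpm, hb, hI⟩ := calib h1 (Z := fun r => W r ^ 2) (by fun_prop)
    (fun _ => sq_nonneg _) hw w0 hx.le hxy hwx hwy hE
  refine le_trans (mul_le_mul_of_nonneg_left (add_le_add_right ?_ _) (pow_nonneg hx.le d)) hI
  have hv := hw.const_mul γ
  have cv := hv.cw
  have vx : γ * w x = 0 := by rw [hwx, mul_zero]
  have vy : γ * w y = 0 := by rw [hwy, mul_zero]
  have hvZ : ∀ r ∈ Icc x y, |γ * w r| ≤ Z := fun r hr =>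
    (hb r hr).trans ((zz_mono h1 hE hEM).trans hZ)
  have hd : ∀ r ∈ Icc x y, |γ * p r| ≤ C1 := fun r hr =>
    (gap_der hv hx hy hH (Ioo_subset_Icc_self hm) (by simp [hpm])
      (fun _ => q_bound h1 (sq_nonneg _)) hvZ hr).trans hC1'
  obtain ⟨r0, hr0, e0⟩ := isPreconnected_Icc.intermediate_value (left_mem_Icc.2 hxy.le)
    (Ioo_subset_Icc_self hm) cv.continuousOn
    (show ζ ∈ Icc (γ * w x) (γ * w m) from
      ⟨by linarith, by rw [hγ]; exact hζ'.trans (zz_mono h1 le_rfl hE)⟩)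
  simp only at e0
  have l1' := gap_lip hv.dw hd (left_mem_Icc.2 hxy.le) hr0
  have l2' := gap_lip hv.dw hd (right_mem_Icc.2 hxy.le) hr0
  simp only [e0, vx, vy, sub_zero, abs_of_pos hζ] at l1' l2'
  rw [abs_of_nonneg (sub_nonneg.2 hr0.1)] at l1'
  rw [abs_of_nonpos (sub_nonpos.2 hr0.2)] at l2'
  have m1 : 2 * τ ≤ r0 - x := le_of_mul_le_mul_left (a := C1) (by linarith) hC1
  have m2 : 2 * τ ≤ -(r0 - y) := le_of_mul_le_mul_left (a := C1) (by linarith) hC1
  obtain ⟨r1, hr1, e1⟩ := hpt W Q _ _ x r0 hW hv hx (by linarith) (by linarith) fun r hr => by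
    have a1 := gap_lip hv.dw hd hr0 (b := r) ⟨by linarith [hr.1], by linarith [hr.2]⟩
    have a2 : |r - r0| ≤ τ := abs_le.2 ⟨by linarith [hr.1], by linarith [hr.2]⟩
    have a3 := mul_le_mul_of_nonneg_left a2 hC1.le
    simp only [e0] at a1
    linarith
  have x1 : x ≤ r1 := by linarith [hr1.1]
  have y1 : r1 + τ2 ≤ y := by linarith [hr1.2]
  have cB : Continuous fun r => BB s (W r ^ 2) ((γ * w r) ^ 2) :=
    continuous_BB hs (by fun_prop) (fun _ => sq_nonneg _) (cv.pow 2) fun _ => sq_nonneg _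
  refine le_trans ?_ (intervalIntegral.integral_mono_interval x1 (by linarith) y1
    (Eventually.of_forall fun r => BB_nonneg hs (sq_nonneg _) (sq_nonneg _))
    (cB.intervalIntegrable _ _))
  refine le_trans (le_of_eq ?_) (intervalIntegral.integral_mono_on (by linarith)
    (intervalIntegrable_const (c := (δ / 2) ^ 2 / (4 * (1 + s * (B ^ 2 + Z ^ 2)) ^ 2)))
    (cB.intervalIntegrable _ _) fun r hr => ?_)
  · rw [intervalIntegral.integral_const, add_sub_cancel_left, smul_eq_mul]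
  have hr' : r ∈ Icc x y := ⟨by linarith [hr.1], by linarith [hr.2]⟩
  have a1 := gap_lip (f := fun r => W r ^ 2 - (γ * w r) ^ 2)
    (f' := fun r => 2 * (W r * Q r) - 2 * (γ * w r * (γ * p r))) (C := C2) (x := x) (y := y)
    (fun r => (((hW.dw r).pow 2).sub ((hv.dw r).pow 2)).congr_deriv (by simp; ring))
    (fun t ht => by
      have b1 : |W t * Q t| ≤ B * B := by
        rw [abs_mul]
        exact mul_le_mul (hB t ht).1 (hB t ht).2 (abs_nonneg _) ((abs_nonneg _).trans (hB t ht).1)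
      have b2 : |γ * w t * (γ * p t)| ≤ Z * C1 := by
        rw [abs_mul]
        exact mul_le_mul (hvZ t ht) (hd t ht) (abs_nonneg _) hZ0
      rw [abs_le] at b1 b2 ⊢
      constructor <;> linarith [b1.1, b1.2, b2.1, b2.2])
    (a := r1) (b := r) ⟨x1, by linarith⟩ hr'
  have a2 : |r - r1| ≤ τ2 := abs_le.2 ⟨by linarith [hr.1], by linarith [hr.2]⟩
  have a3 := mul_le_mul_of_nonneg_left a2 hC2.le
  have a4 : δ / 2 ≤ |(γ * w r) ^ 2 - W r ^ 2| := by
    have := abs_sub_abs_le_abs_sub (W r1 ^ 2 - (γ * w r1) ^ 2) (W r ^ 2 - (γ * w r) ^ 2)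
    rw [abs_sub_comm] at a1 ⊢
    linarith
  have a5 := sq_le_sq' (abs_le.1 (hB r hr').1).1 (abs_le.1 (hB r hr').1).2
  have a6 := sq_le_sq' (abs_le.1 (hvZ r hr')).1 (abs_le.1 (hvZ r hr')).2
  refine le_trans ?_ (BB_lower hs (sq_nonneg _) (sq_nonneg _) (M := B ^ 2 + Z ^ 2)
    (by linarith [sq_nonneg Z]) (by linarith [sq_nonneg B]))
  rw [← sq_abs ((γ * w r) ^ 2 - W r ^ 2)]
  gcongr

end Pool.Agent.MP_67db61_an.Cls

/-!
Summing the calibration inequality over all zeros of a linear solution.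
-/

namespace Pool.Agent.MP_67db61_an.Cls

open Set Filter Topology MeasureTheory

lemma cross_low {F : ℝ → ℝ} (hF : ∀ a b, 0 ≤ a → 0 ≤ b → IntervalIntegrable F volume a b)
    (h0 : ∀ r, 0 ≤ r → 0 ≤ F r) {u v c a b : ℝ} (hc : 0 ≤ c) (huv : u ≤ v)
    (hF' : ∀ r ∈ Icc u v, c ≤ F r) (ha : 0 ≤ a) (hab : a ≤ b) :
    c * (max u (min b v) - max u (min a v)) ≤ ∫ r in a..b, F r := by
  have hb := ha.trans hab
  by_cases h : max a u ≤ min b v
  · have h1 := (le_max_left a u).trans h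
    have h2 := (le_max_right a u).trans h
    have h3 : 0 ≤ max a u := ha.trans (le_max_left _ _)
    rw [max_eq_right h2, min_eq_left (h1.trans (min_le_right _ _)), max_comm]
    refine le_trans ?_ (intervalIntegral.integral_mono_interval (le_max_left a u) h
      (min_le_left b v) ?_ (hF a b ha hb))
    · refine le_trans (le_of_eq ?_) (intervalIntegral.integral_mono_on (f := fun _ => c) h
        intervalIntegrable_const (hF _ _ h3 (h3.trans h)) fun r hr =>
          hF' r ⟨(le_max_right _ _).trans hr.1, hr.2.trans (min_le_right _ _)⟩)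
      simp [mul_comm]
    · exact (ae_restrict_iff' measurableSet_Ioc).2
        (Eventually.of_forall fun r hr => h0 r (ha.trans hr.1.le))
  · refine le_trans (mul_nonpos_of_nonneg_of_nonpos hc ?_)
      (intervalIntegral.integral_nonneg hab fun r hr => h0 r (ha.trans hr.1))
    simp only [max_def, min_def] at h ⊢
    split_ifs at h ⊢ <;> linarith

/-- a step function -/
noncomputable def crossStep (t r : ℝ) : ℝ := if t < r then 1 else 0

/-- a step function -/
noncomputable def crossStep' (t r : ℝ) : ℝ := if t ≤ r then 1 else 0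

lemma cross_step (t : ℝ) {a b : ℝ} (h : a ≤ b) : crossStep t a ≤ crossStep t b := by
  unfold crossStep
  split_ifs <;> linarith

lemma cross_step' (t : ℝ) {a b : ℝ} (h : a ≤ b) : crossStep' t a ≤ crossStep' t b := by
  unfold crossStep'
  split_ifs <;> linarith

lemma cross_base (d : ℕ) {J J0 a b ω ρ1 R μ : ℝ} (ha : 0 < a) (hab : a < b) (hω : 0 < ω)
    (hsp : 1 ≤ ω * (b - a)) (hρ1 : 0 < ρ1) (hR : 0 < R) (hμ : 0 ≤ μ) (hJ0 : 0 ≤ J0) (hJ : J0 ≤ J)
    (h1 : μ ≤ R ^ d * J0) (h2 : ρ1 ≤ b → μ ≤ b ^ d * J) :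
    μ * (1 - (ω * min b (ρ1 + 1 / ω) + d * min b R / ρ1 + crossStep R b
      - (ω * min a (ρ1 + 1 / ω) + d * min a R / ρ1 + crossStep R a))) ≤ a ^ d * J := by
  have hb := ha.trans hab
  have e0 : 0 ≤ a ^ d * J := mul_nonneg (by positivity) (hJ0.trans hJ)
  have e1 : ω * min a (ρ1 + 1 / ω) ≤ ω * min b (ρ1 + 1 / ω) := by gcongr
  have e2 : d * min a R / ρ1 ≤ d * min b R / ρ1 := by gcongr
  have e3 := cross_step R hab.le
  have hω' : 0 < 1 / ω := by positivity
  rcases lt_or_ge a ρ1 with h | h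
  · refine le_trans (mul_nonpos_of_nonneg_of_nonpos hμ ?_) e0
    have : 1 + ω * a ≤ ω * min b (ρ1 + 1 / ω) := by
      rw [mul_min_of_nonneg _ _ hω.le, mul_add, mul_one_div_cancel hω.ne']
      exact le_min (by linarith) (by nlinarith)
    rw [min_eq_left (by linarith : a ≤ ρ1 + 1 / ω)]
    linarith
  rcases le_or_gt b R with h' | h'
  · have e4 := one_add_mul_le_pow (a := a / b - 1) (by have := div_pos ha hb; linarith) d
    have e5 : d * (b - a) / b ≤ d * (b - a) / ρ1 := by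
      have := sub_pos.2 hab
      gcongr
      linarith
    have e6 : (d : ℝ) * (a / b - 1) = -(d * (b - a) / b) := by field_simp; ring
    have e7 : a ^ d * J = (a / b) ^ d * (b ^ d * J) := by rw [div_pow]; field_simp
    have e8 : (d : ℝ) * (b - a) / ρ1 = d * b / ρ1 - d * a / ρ1 := by ring
    rw [add_sub_cancel, e6] at e4
    rw [min_eq_left h', min_eq_left (hab.le.trans h'), e7, mul_comm μ]
    exact mul_le_mul (by linarith) (h2 (by linarith)) hμ (by positivity)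
  rcases le_or_gt a R with h'' | h''
  · refine le_trans (mul_nonpos_of_nonneg_of_nonpos hμ ?_) e0
    rw [crossStep, crossStep, if_pos h', if_neg (not_lt.2 h'')]
    linarith
  · refine le_trans (mul_le_of_le_one_right hμ (by linarith)) (h1.trans ?_)
    gcongr

theorem cross (d : ℕ) {s l1 a1 l2 a2 : ℝ} (h1 : Par s l1 a1) (h2 : Par s l2 a2)
    (hns : l1 ≠ l2 ∨ a1 ≠ a2) {η1 : ℝ} (hη1 : 0 < η1) (M B : ℝ) :
    ∃ δ C, 0 < δ ∧ 0 < C ∧ ∀ (W Q w p g : ℝ → ℝ) (T ρ ρ1 R μ : ℝ),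
      Lin d (fun r => l2 - a2 * ff s (W r ^ 2)) W Q →
      Lin d (fun r => l1 - a1 * ff s (W r ^ 2)) w p → w 0 ≠ 0 → AntitoneOn g (Ici 0) →
      (∀ r, 0 ≤ r → 0 ≤ g r) → 0 < ρ → ρ ≤ T → 0 < ρ1 → 0 < R → 0 ≤ μ →
      μ ≤ R ^ d * JJ s l1 a1 0 → (∀ r, ρ1 ≤ r → μ ≤ r ^ d * JJ s l1 a1 (g r)) → η1 ≤ g ρ →
      g (ρ / 2) ≤ M → (∀ r ∈ Icc (ρ / 2) ρ, |W r| ≤ B ∧ |Q r| ≤ B) →
      μ * (nz w T - C * ρ1 - d * R / ρ1 - 3) + δ * ρ ^ (d + 1) - C * ρ ^ d
        ≤ ∫ r in (0 : ℝ)..T, r ^ d * (DD s (W r ^ 2) + g r) := by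
  obtain ⟨K, hK⟩ : ∃ K, K = |JJ s l1 a1 M| := ⟨_, rfl⟩
  have hK0 : 0 ≤ K := hK ▸ abs_nonneg _
  obtain ⟨H, hH⟩ : ∃ H, H = 2 * K / η1 + 1 := ⟨_, rfl⟩
  have hH0 : 0 < H := by rw [hH]; positivity
  have hHK : 2 * K ≤ η1 * H := by
    rw [hH, mul_add, mul_div_cancel₀ _ hη1.ne']
    linarith
  obtain ⟨δ0, hδ0, hgap⟩ := gap d h1 h2 hns M B H
  obtain ⟨δ, hδ, hδ1, hδ2⟩ : ∃ δ, 0 < δ ∧ δ * H ≤ δ0 ∧ δ ≤ η1 / 2 :=
    ⟨min (δ0 / H) (η1 / 2), by positivity, (le_div_iff₀ hH0).1 (min_le_left _ _), min_le_right _ _⟩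
  obtain ⟨ω, hω⟩ : ∃ ω, ω = 1 + (l1 + a1 / s) := ⟨_, rfl⟩
  have hω0 : 0 < ω := by
    have := h1.hs; have := h1.hl; have := h1.ha
    rw [hω]; positivity
  refine ⟨δ / 2 ^ (d + 1), ω + 2 * K, by positivity, by positivity, ?_⟩
  intro W Q w p g T ρ ρ1 R μ hW hw h0 hg g0 hρ hT hρ1 hR hμ hμ1 hμ2 hη hM hB
  have hq : ∀ r, |l1 - a1 * ff s (W r ^ 2)| ≤ l1 + a1 / s := fun r => q_bound h1 (sq_nonneg _)
  have cZ : Continuous fun r => W r ^ 2 := hW.cw.pow 2
  have cD : Continuous fun r => DD s (W r ^ 2) := continuous_DD h1.hs cZ fun _ => sq_nonneg _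
  have D0 : ∀ r, 0 ≤ DD s (W r ^ 2) := fun r => DD_nonneg h1.hs (sq_nonneg _)
  set F : ℝ → ℝ := fun r => r ^ d * (DD s (W r ^ 2) + g r) with hF
  have iF : ∀ a b, 0 ≤ a → 0 ≤ b → IntervalIntegrable F volume a b := fun a b ha hb =>
    ((cD.intervalIntegrable a b).add (AntitoneOn.intervalIntegrable
      (hg.mono fun r hr => (le_min ha hb).trans hr.1))).continuousOn_mul (by fun_prop)
  have F0 : ∀ r, 0 ≤ r → 0 ≤ F r := fun r hr =>
    mul_nonneg (pow_nonneg hr d) (add_nonneg (D0 r) (g0 r hr))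
  have Fl : ∀ a r, 0 ≤ a → a ≤ r → r ≤ ρ → a ^ d * η1 ≤ F r := fun a r ha h h' =>
    mul_le_mul (by gcongr) (le_add_of_nonneg_of_le (D0 r)
      (hη.trans (hg (ha.trans h) hρ.le h'))) hη1.le (pow_nonneg (ha.trans h) d)
  have hρ2 : 0 < ρ / 2 := half_pos hρ
  have low : ∀ a b, 0 ≤ a → a ≤ b → (ρ / 2) ^ d * δ *
      (max (ρ / 2) (min b ρ) - max (ρ / 2) (min a ρ)) ≤ ∫ r in a..b, F r := fun a b ha hab =>
    cross_low iF F0 (by positivity) (by linarith) (fun r hr => le_trans (by gcongr; linarith)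
      (Fl _ r hρ2.le hr.1 hr.2)) ha hab
  have dI : ∀ a b, 0 ≤ a → 0 ≤ b → (∫ r in (0 : ℝ)..b, F r) - ∫ r in (0 : ℝ)..a, F r =
      ∫ r in a..b, F r := fun a b ha hb =>
    intervalIntegral.integral_interval_sub_left (iF 0 b le_rfl hb) (iF 0 a le_rfl ha)
  have J0 := JJ_zero_pos h1
  have key : ∀ a b, 0 < a → a < b → w a = 0 → w b = 0 → a ^ d * JJ s l1 a1 (g b) +
      (ρ / 2) ^ d * δ * (max (ρ / 2) (min b ρ) - max (ρ / 2) (min a ρ)) -
      ρ ^ d * K * (crossStep' (ρ / 2) b + crossStep ρ b - (crossStep' (ρ / 2) a + crossStep ρ a))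
        ≤ ∫ r in a..b, F r := by
    intro a b ha hab wa wb
    have hb := ha.trans hab
    have m1 : ∫ r in a..b, r ^ d * (DD s (W r ^ 2) + g b) ≤ ∫ r in a..b, F r :=
      intervalIntegral.integral_mono_on hab.le (Continuous.intervalIntegrable (by fun_prop) _ _)
        (iF a b ha.le hb.le) fun r hr => mul_le_mul_of_nonneg_left
          (add_le_add_right (hg (ha.le.trans hr.1) hb.le hr.2) _) (pow_nonneg (ha.le.trans hr.1) d)
    have m2 := (calib' h1 cZ (fun _ => sq_nonneg _) hw h0 ha.le hab wa wb (g0 b hb.le)).trans m1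
    have s1 := cross_step' (ρ / 2) hab.le
    have s2 := cross_step ρ hab.le
    have m3 : 0 ≤ ρ ^ d * K * (crossStep' (ρ / 2) b + crossStep ρ b -
        (crossStep' (ρ / 2) a + crossStep ρ a)) := mul_nonneg (by positivity) (by linarith)
    rcases le_or_gt b (ρ / 2) with c1 | c1
    · rw [max_eq_left ((min_le_left _ _).trans c1),
        max_eq_left ((min_le_left _ _).trans (hab.le.trans c1))]
      linarith
    rcases le_or_gt ρ a with c2 | c2
    · rw [min_eq_right c2, min_eq_right (c2.trans hab.le)]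
      linarith
    have gM : g b ≤ M := (hg hρ2.le hb.le c1.le).trans hM
    have JK : JJ s l1 a1 (g b) ≤ K := (JJ_mono h1 (g0 b hb.le) gM).trans (hK ▸ le_abs_self _)
    by_cases c3 : ρ / 2 ≤ a ∧ b ≤ ρ
    · rw [min_eq_left c3.2, min_eq_left c2.le, max_eq_right c3.1, max_eq_right c1.le]
      have hba := sub_pos.2 hab
      have p1 : (ρ / 2) ^ d ≤ a ^ d := by gcongr; exact c3.1
      have p2 : 0 < a ^ d := pow_pos ha d
      rcases le_or_gt (b - a) H with c4 | c4
      · have m4 := (hgap W Q w p a b (g b) hW hw h0 ha hab (by linarith [c3.1, c3.2]) c4 wa wb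
          (g0 b hb.le) gM fun r hr => hB r ⟨c3.1.trans hr.1, hr.2.trans c3.2⟩).trans m1
        have m5 : (ρ / 2) ^ d * δ * (b - a) ≤ a ^ d * δ0 := by
          rw [mul_assoc]
          exact mul_le_mul p1 (le_trans (by gcongr) hδ1) (by positivity) p2.le
        linarith
      · have m4 := cross_low iF F0 (c := a ^ d * η1) (by positivity) hab.le
          (fun r hr => Fl a r ha.le hr.1 (hr.2.trans c3.2)) ha.le hab.le
        rw [min_self, min_eq_left hab.le, max_self, max_eq_right hab.le] at m4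
        have m5 : (ρ / 2) ^ d * δ * (b - a) ≤ a ^ d * (η1 / 2) * (b - a) := by gcongr
        have m6 : a ^ d * JJ s l1 a1 (g b) ≤ a ^ d * (η1 / 2 * (b - a)) :=
          mul_le_mul_of_nonneg_left (by nlinarith) p2.le
        linarith
    · have m4 := low a b ha.le hab.le
      have m5 : a ^ d * JJ s l1 a1 (g b) ≤ ρ ^ d * K :=
        (mul_le_mul_of_nonneg_left JK (pow_nonneg ha.le d)).trans (by gcongr)
      have m6 : 1 ≤ crossStep' (ρ / 2) b + crossStep ρ b -
          (crossStep' (ρ / 2) a + crossStep ρ a) := by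
        rcases not_and_or.1 c3 with c | c
        · rw [crossStep', crossStep', if_pos c1.le, if_neg c]
          linarith
        · rw [crossStep, crossStep, if_pos (not_le.1 c), if_neg (not_lt.2 c2.le)]
          linarith
      have m7 := le_mul_of_one_le_right (by positivity : 0 ≤ ρ ^ d * K) m6
      linarith
  have hT0 := hρ.trans_le hT
  have main := chain (hw.finite hq h0 T) (x := 0) (T := T) (Ω := fun r => (∫ t in (0 : ℝ)..r, F t) -
    (ρ / 2) ^ d * δ * max (ρ / 2) (min r ρ) + ρ ^ d * K * (crossStep' (ρ / 2) r + crossStep ρ r) +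
    μ * (ω * min r (ρ1 + 1 / ω) + d * min r R / ρ1 + crossStep R r)) hμ hT0.le
    (fun r hr => ⟨hr.1.1.le, hr.1.2⟩) ?_ ?_
  · have t1 : crossStep' (ρ / 2) T + crossStep ρ T ≤ 2 := by
      unfold crossStep crossStep'
      split_ifs <;> norm_num
    have t2 : ω * min T (ρ1 + 1 / ω) ≤ ω * ρ1 + 1 := by
      rw [← mul_one_div_cancel hω0.ne', ← mul_add, mul_one_div_cancel hω0.ne']
      exact mul_le_mul_of_nonneg_left (min_le_right _ _) hω0.le
    have t3 : d * min T R / ρ1 ≤ d * R / ρ1 := by gcongr; exact min_le_right _ _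
    have t4 : crossStep R T ≤ 1 := by
      unfold crossStep
      split_ifs <;> norm_num
    have t5 := mul_le_mul_of_nonneg_left t1 (by positivity : 0 ≤ ρ ^ d * K)
    have t6 := mul_le_mul_of_nonneg_left (add_le_add (add_le_add t2 t3) t4) hμ
    have t7 : δ / 2 ^ (d + 1) * ρ ^ (d + 1) = (ρ / 2) ^ d * δ * (ρ - ρ / 2) := by
      rw [div_pow]; field_simp; ring
    have t8 : 0 ≤ μ * (K * ρ1) := by positivity
    have t9 : 0 ≤ ω * ρ ^ d := by positivity
    rw [min_eq_right hT, max_eq_right (by linarith : ρ / 2 ≤ ρ), min_eq_left hρ.le,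
      max_eq_left hρ2.le, min_eq_left hR.le, min_eq_left (by positivity : 0 ≤ ρ1 + 1 / ω),
      show crossStep' (ρ / 2) 0 = 0 from if_neg (not_le.2 hρ2),
      show crossStep ρ 0 = 0 from if_neg (not_lt.2 hρ.le),
      show crossStep R 0 = 0 from if_neg (not_lt.2 hR.le), intervalIntegral.integral_same] at main
    unfold nz
    rw [t7]
    simp only [mul_zero, zero_div, add_zero] at main
    linarith
  · intro a ha b hb hab
    have u1 := low a b ha.1 hab
    have u2 := dI a b ha.1 hb.1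
    have u3 := mul_le_mul_of_nonneg_left (add_le_add (cross_step' (ρ / 2) hab) (cross_step ρ hab))
      (by positivity : 0 ≤ ρ ^ d * K)
    have u4 : μ * (ω * min a (ρ1 + 1 / ω) + d * min a R / ρ1 + crossStep R a) ≤
        μ * (ω * min b (ρ1 + 1 / ω) + d * min b R / ρ1 + crossStep R b) := by
      have := cross_step R hab
      gcongr
    beta_reduce
    linarith
  · intro a ha b hb hab
    have u1 := key a b ha.1.1 hab ha.2 hb.2
    have u2 := dI a b ha.1.1.le hb.1.1.le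
    have u3 := cross_base d ha.1.1 hab hω0 (hω ▸ hw.spacing hq h0 ha.1.1.le hab ha.2 hb.2) hρ1 hR
      hμ J0.le (JJ_mono h1 le_rfl (g0 b hb.1.1.le)) hμ1 (hμ2 b)
    linarith

end Pool.Agent.MP_67db61_an.Cls

end
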