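import Pool.Agent.MP_67db61_an.Mg.Full_Action

/-!
Adiabatic invariance of the weighted action, as a statement on real sequences.
-/

namespace Pool.Agent.MP_67db61_an.Cls

open Set Filter Topology

/-- the hypotheses on the sequences -/
structure SeqH (d : ℕ) (δ ρ : ℝ) (N : ℕ) (z e J κ : ℕ → ℝ) : Prop where
  hδ : 0 < δ
  hρ : 0 < ρ
  z0 : ρ ≤ z 0
  hz : ∀ i, i < N → z i < z (i + 1) ∧ z (i + 1) ≤ z i + δ * ρ
  Jpos : ∀ i, i ≤ N → 0 < J i
  Janti : ∀ i, i < N → J (i + 1) ≤ J i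
  hκ : ∀ i, i < N → κ i ≤ J i ∧ d * κ i / z (i + 1) ≤ e i - e (i + 1) ∧
    e i - e (i + 1) ≤ d * κ i / z i
  hA : ∀ i, i < N → ∀ j, j ≤ i →
    z i ^ d * J j ≤ z (i + 1) ^ d * (κ i + (e j - e (i + 1)) * (z (i + 1) - z i))
  hB : ∀ i, i < N → ∀ j, i < j → j ≤ N →
    z i ^ d * J j ≤ z (i + 1) ^ d * κ i - z i ^ d * ((e (i + 1) - e j) * (z (i + 1) - z i))

namespace SeqH

variable {d N : ℕ} {δ ρ : ℝ} {z e J κ : ℕ → ℝ}

theorem zmono (h : SeqH d δ ρ N z e J κ) (i k : ℕ) (hk : i + k ≤ N) :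
    z i ≤ z (i + k) ∧ z (i + k) ≤ z i + k * (δ * ρ) := by
  induction k with
  | zero => simp
  | succ k ih =>
    obtain ⟨h1, h2⟩ := ih (by omega)
    obtain ⟨h3, h4⟩ := h.hz (i + k) (by omega)
    rw [← add_assoc]
    push_cast
    constructor <;> linarith

theorem zρ (h : SeqH d δ ρ N z e J κ) (i : ℕ) (hi : i ≤ N) : ρ ≤ z i := by
  have := (h.zmono 0 i (by omega)).1
  rw [zero_add] at this
  exact h.z0.trans this

theorem zpos (h : SeqH d δ ρ N z e J κ) (i : ℕ) (hi : i ≤ N) : 0 < z i :=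
  h.hρ.trans_le (h.zρ i hi)

theorem zratio (h : SeqH d δ ρ N z e J κ) (i k : ℕ) (hk : i + k ≤ N) :
    z (i + k) ≤ (1 + k * δ) * z i := by
  have h1 := (h.zmono i k hk).2
  have h2 := h.zρ i (by omega)
  have h3 : (k : ℝ) * δ * ρ ≤ k * δ * z i :=
    mul_le_mul_of_nonneg_left h2 (mul_nonneg (Nat.cast_nonneg k) h.hδ.le)
  nlinarith

theorem Jmono (h : SeqH d δ ρ N z e J κ) (i k : ℕ) (hk : i + k ≤ N) : J (i + k) ≤ J i := by
  induction k with
  | zero => simp
  | succ k ih =>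
    rw [← add_assoc]
    exact (h.Janti (i + k) (by omega)).trans (ih (by omega))

theorem gone (h : SeqH d δ ρ N z e J κ) : 1 ≤ (1 + δ) ^ d :=
  one_le_pow₀ (by linarith [h.hδ])

theorem logg (h : SeqH d δ ρ N z e J κ) : Real.log ((1 + δ) ^ d) ≤ d * δ := by
  rw [Real.log_pow]
  have := Real.log_le_sub_one_of_pos (x := 1 + δ) (by linarith [h.hδ])
  exact mul_le_mul_of_nonneg_left (by linarith) (Nat.cast_nonneg d)

theorem zpow (h : SeqH d δ ρ N z e J κ) (i : ℕ) (hi : i < N) :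
    z (i + 1) ^ d ≤ (1 + δ) ^ d * z i ^ d := by
  rw [← mul_pow]
  have := h.zratio i 1 (by omega)
  rw [Nat.cast_one, one_mul] at this
  exact pow_le_pow_left₀ (h.zpos _ (by omega)).le this d

theorem κlow (h : SeqH d δ ρ N z e J κ) (i : ℕ) (hi : i < N) :
    0 < κ i ∧ J (i + 1) ≤ (1 + δ) ^ d * κ i := by
  have h1 := h.hB i hi (i + 1) (by omega) (by omega)
  rw [sub_self, zero_mul, mul_zero, sub_zero] at h1
  have hz : 0 < z i ^ d := pow_pos (h.zpos i hi.le) d
  have hz' : 0 < z (i + 1) ^ d := pow_pos (h.zpos (i + 1) hi) d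
  have hJ := h.Jpos (i + 1) hi
  have hk : 0 < κ i := pos_of_mul_pos_of_pos_left' h1 hz hJ hz'
  refine ⟨hk, ?_⟩
  have h2 := mul_le_mul_of_nonneg_right (h.zpow i hi) hk.le
  have h3 : z i ^ d * J (i + 1) ≤ z i ^ d * ((1 + δ) ^ d * κ i) := by nlinarith
  exact le_of_mul_le_mul_left h3 hz
where
  pos_of_mul_pos_of_pos_left' {a b c k : ℝ} (h1 : a * b ≤ c * k) (ha : 0 < a) (hb : 0 < b)
      (hc : 0 < c) : 0 < k := by
    by_contra hk
    have := mul_pos ha hb
    nlinarith [mul_nonneg hc.le (neg_nonneg.2 (not_lt.1 hk))]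

theorem eup (h : SeqH d δ ρ N z e J κ) (i k : ℕ) (hk : i + k ≤ N) :
    e i - e (i + k) ≤ d * k * (J i / z i) := by
  induction k with
  | zero => simp
  | succ k ih =>
    have h1 := ih (by omega)
    obtain ⟨h2, -, h3⟩ := h.hκ (i + k) (by omega)
    have h4 : κ (i + k) / z (i + k) ≤ J i / z i :=
      div_le_div₀ (h.Jpos i (by omega)).le (h2.trans (h.Jmono i k (by omega)))
        (h.zpos i (by omega)) (h.zmono i k (by omega)).1
    have h5 := mul_le_mul_of_nonneg_left h4 (Nat.cast_nonneg (α := ℝ) d)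
    rw [mul_div_assoc] at h3
    rw [← add_assoc]
    push_cast
    linarith

theorem elow (h : SeqH d δ ρ N z e J κ) (i k : ℕ) (hk : i + k ≤ N) :
    d * k * (J (i + k) / ((1 + δ) ^ d * z (i + k))) ≤ e i - e (i + k) := by
  have hg : 0 < (1 + δ) ^ d := one_pos.trans_le h.gone
  induction k with
  | zero => simp
  | succ k ih =>
    have h1 := ih (by omega)
    obtain ⟨-, h3, -⟩ := h.hκ (i + k) (by omega)
    have hz := h.zpos (i + k) (by omega)
    have hz' := h.zpos (i + k + 1) (by omega)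
    have h4 : J (i + k + 1) / ((1 + δ) ^ d * z (i + k + 1)) ≤
        J (i + k) / ((1 + δ) ^ d * z (i + k)) :=
      div_le_div₀ (h.Jpos _ (by omega)).le (h.Janti _ (by omega)) (mul_pos hg hz)
        (mul_le_mul_of_nonneg_left (h.hz _ (by omega)).1.le hg.le)
    have h5 : J (i + k + 1) / ((1 + δ) ^ d * z (i + k + 1)) ≤ κ (i + k) / z (i + k + 1) := by
      rw [div_le_div_iff₀ (mul_pos hg hz') hz']
      have := mul_le_mul_of_nonneg_right (h.κlow (i + k) (by omega)).2 hz'.le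
      linarith
    have h6 := mul_le_mul_of_nonneg_left h5 (Nat.cast_nonneg (α := ℝ) d)
    have h7 := mul_le_mul_of_nonneg_left h4
      (mul_nonneg (Nat.cast_nonneg (α := ℝ) d) (Nat.cast_nonneg (α := ℝ) k))
    rw [mul_div_assoc] at h3
    rw [← add_assoc]
    push_cast
    linarith

theorem ubd (h : SeqH d δ ρ N z e J κ) (i : ℕ) (hi : i < N) :
    (z (i + 1) - z i) / z (i + 1) ≤ Real.log (z (i + 1)) - Real.log (z i) ∧
      Real.log (z (i + 1)) - Real.log (z i) ≤ (z (i + 1) - z i) / z i := by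
  have hz := h.zpos i hi.le
  have hz' := h.zpos (i + 1) hi
  have h1 := Real.log_le_sub_one_of_pos (div_pos hz hz')
  have h2 := Real.log_le_sub_one_of_pos (div_pos hz' hz)
  rw [Real.log_div hz.ne' hz'.ne'] at h1
  rw [Real.log_div hz'.ne' hz.ne'] at h2
  rw [sub_div, sub_div, div_self hz.ne', div_self hz'.ne']
  constructor <;> linarith

theorem lbd (h : SeqH d δ ρ N z e J κ) (i j : ℕ) (hi : i < N) (hj : j ≤ N) :
    0 ≤ (z (i + 1) - z i) / z j ∧ (z (i + 1) - z i) / z j ≤ δ := by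
  have hz := h.zpos j hj
  obtain ⟨h1, h2⟩ := h.hz i hi
  refine ⟨div_nonneg (by linarith) hz.le, ?_⟩
  rw [div_le_iff₀ hz]
  have := mul_le_mul_of_nonneg_left (h.zρ j hj) h.hδ.le
  linarith

theorem xmono (h : SeqH d δ ρ N z e J κ) (i k : ℕ) (hk : i + k ≤ N) :
    0 ≤ Real.log (z (i + k)) - Real.log (z i) ∧
      Real.log (z (i + k)) - Real.log (z i) ≤ k * δ := by
  have hz := h.zpos i (by omega)
  have hz' := h.zpos (i + k) hk
  have hk0 : 0 < 1 + (k : ℝ) * δ := by have := h.hδ; positivity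
  constructor
  · exact sub_nonneg.2 (Real.log_le_log hz (h.zmono i k hk).1)
  · have h1 := Real.log_le_log hz' (h.zratio i k hk)
    rw [Real.log_mul hk0.ne' hz.ne'] at h1
    have h2 := Real.log_le_sub_one_of_pos hk0
    linarith

theorem Lmono (h : SeqH d δ ρ N z e J κ) (i k : ℕ) (hk : i + k ≤ N) :
    Real.log (J (i + k)) ≤ Real.log (J i) :=
  Real.log_le_log (h.Jpos _ hk) (h.Jmono i k hk)

theorem stepA (h : SeqH d δ ρ N z e J κ) {m : ℕ}
    (hc : (1 + δ) ^ d * (m + 1) * (1 + (m + 1) * δ) ≤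
      (m + 2) * (1 - (1 + δ) ^ d * (d * (m + 1)) * δ)) (i : ℕ) (hi : i + m < N) :
    Real.log (J i) - Real.log (J (i + m)) ≤
      d * δ + d * (m + 2) * (Real.log (z (i + m + 1)) - Real.log (z (i + m))) := by
  have hδ := h.hδ
  have hg : 0 < (1 + δ) ^ d := one_pos.trans_le h.gone
  set g := (1 + δ) ^ d with hgd
  have hzi := h.zpos i (by omega)
  have hzt := h.zpos (i + m) hi.le
  have hzt' := h.zpos (i + m + 1) hi
  have hJi := h.Jpos i (by omega)
  have hJt := h.Jpos (i + m) hi.le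
  set l := z (i + m + 1) - z (i + m) with hl
  have hl0 : 0 < l := sub_pos.2 (h.hz _ hi).1
  set u := Real.log (z (i + m + 1)) - Real.log (z (i + m)) with hu
  -- the main inequality
  have h1 := h.hA (i + m) hi i (by omega)
  have h2 := h.eup i (m + 1) (by omega)
  rw [← add_assoc] at h2
  push_cast at h2
  have h3 : κ (i + m) + (e i - e (i + m + 1)) * l ≤ J (i + m) + d * (m + 1) * (J i / z i) * l := by
    have := mul_le_mul_of_nonneg_right h2 hl0.le
    linarith [(h.hκ (i + m) hi).1]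
  have h4 : 0 ≤ J (i + m) + d * (m + 1) * (J i / z i) * l := by positivity
  have h5 : z (i + m) ^ d * J i ≤
      z (i + m) ^ d * (g * (J (i + m) + d * (m + 1) * (J i / z i) * l)) := by
    have a1 := mul_le_mul_of_nonneg_left h3 (pow_pos hzt' d).le
    have a2 := mul_le_mul_of_nonneg_right (h.zpow (i + m) hi) h4
    calc _ ≤ _ := h1
      _ ≤ _ := a1
      _ ≤ _ := a2
      _ = _ := by ring
  have h6 := le_of_mul_le_mul_left h5 (pow_pos hzt d)
  set y := g * (d * (m + 1)) * (l / z i) with hy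
  have h7 : J i * (1 - y) ≤ g * J (i + m) := by
    have : g * (J (i + m) + d * (m + 1) * (J i / z i) * l) = g * J (i + m) + J i * y := by
      rw [hy]; field_simp
    linarith
  obtain ⟨hb0, hb1⟩ := h.lbd (i + m) i hi (by omega)
  have hgd0 : 0 ≤ g * (d * (m + 1)) := by positivity
  have hy0 : 0 ≤ y := mul_nonneg hgd0 hb0
  have hy1 : y ≤ g * (d * (m + 1)) * δ := mul_le_mul_of_nonneg_left hb1 hgd0
  have hp : 0 < 1 - g * (d * (m + 1)) * δ := by
    have : 0 < g * (m + 1) * (1 + (m + 1) * δ) := by positivity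
    have h2 : (0 : ℝ) < m + 2 := by positivity
    exact pos_of_mul_pos_left' h2 (this.trans_le hc)
  have hp' : 0 < 1 - y := by linarith
  have h8 := Real.log_le_log (mul_pos hJi hp') h7
  rw [Real.log_mul hJi.ne' hp'.ne', Real.log_mul hg.ne' hJt.ne'] at h8
  have h9 : -Real.log (1 - y) ≤ y / (1 - y) := by
    have := Real.log_le_sub_one_of_pos (inv_pos.2 hp')
    rw [Real.log_inv] at this
    have e1 : (1 - y)⁻¹ - 1 = y / (1 - y) := by field_simp; ring
    linarith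
  have h10 : l / z i ≤ (1 + (m + 1) * δ) * u := by
    have a1 := h.zratio i (m + 1) (by omega)
    rw [← add_assoc] at a1
    push_cast at a1
    have a2 := (h.ubd (i + m) hi).1
    have a3 : l / z i ≤ (1 + (m + 1) * δ) * (l / z (i + m + 1)) := by
      rw [← mul_div_assoc, div_le_div_iff₀ hzi hzt']
      nlinarith
    exact a3.trans (mul_le_mul_of_nonneg_left a2 (by positivity))
  have hu0 : 0 ≤ u := by
    have := (h.xmono (i + m) 1 hi).1
    exact this
  have h11 : y / (1 - y) ≤ d * (m + 2) * u := by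
    rw [div_le_iff₀ hp']
    have a1 : y ≤ g * (d * (m + 1)) * ((1 + (m + 1) * δ) * u) :=
      mul_le_mul_of_nonneg_left h10 hgd0
    have a2 := mul_le_mul_of_nonneg_left hc (mul_nonneg (Nat.cast_nonneg (α := ℝ) d) hu0)
    have a3 : (d : ℝ) * (m + 2) * u * (1 - g * (d * (m + 1)) * δ) ≤ d * (m + 2) * u * (1 - y) :=
      mul_le_mul_of_nonneg_left (by linarith) (by positivity)
    nlinarith
  linarith [h.logg]
where
  pos_of_mul_pos_left' {a b : ℝ} (ha : 0 < a) (hab : 0 < a * b) : 0 < b :=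
    (pos_iff_pos_of_mul_pos hab).1 ha

theorem stepB (h : SeqH d δ ρ N z e J κ) {n : ℕ}
    (hc : ((n : ℝ) - 1) * ((1 + δ) ^ d * (1 + (n + 1) * δ) * (1 + d * n * δ)) ≤ n)
    (i : ℕ) (hi : i + (n + 1) ≤ N) :
    d * (n - 1) * (Real.log (z (i + 1)) - Real.log (z i)) - d * δ ≤
      Real.log (J i) - Real.log (J (i + (n + 1))) := by
  have hδ := h.hδ
  have hg1 := h.gone
  have hg : 0 < (1 + δ) ^ d := one_pos.trans_le h.gone
  set g := (1 + δ) ^ d with hgd
  have hiN : i < N := by omega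
  have hzi := h.zpos i (by omega)
  have hzt := h.zpos (i + (n + 1)) hi
  have hJi := h.Jpos i (by omega)
  have hJt := h.Jpos (i + (n + 1)) hi
  set l := z (i + 1) - z i with hl
  have hl0 : 0 < l := sub_pos.2 (h.hz _ hiN).1
  set u := Real.log (z (i + 1)) - Real.log (z i) with hu
  have h1 := h.hB i hiN (i + (n + 1)) (by omega) hi
  have h2 := h.elow (i + 1) n (by omega)
  rw [show i + 1 + n = i + (n + 1) by omega] at h2
  set t := i + (n + 1) with ht
  have h3 : z i ^ d * J t ≤ z i ^ d * (g * J i - d * n * (J t / (g * z t)) * l) := by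
    have a1 := mul_le_mul_of_nonneg_right (h.zpow i hiN) (h.κlow i hiN).1.le
    have a2 := mul_le_mul_of_nonneg_left (h.hκ i hiN).1 (mul_pos hg (pow_pos hzi d)).le
    have a3 := mul_le_mul_of_nonneg_left (mul_le_mul_of_nonneg_right h2 hl0.le) (pow_pos hzi d).le
    calc _ ≤ _ := h1
      _ ≤ g * z i ^ d * J i - z i ^ d * (d * n * (J t / (g * z t)) * l) := by linarith
      _ = _ := by ring
  have h6 := le_of_mul_le_mul_left h3 (pow_pos hzi d)
  set y := d * n * (l / z t / g) with hy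
  have h7 : J t * (1 + y) ≤ g * J i := by
    have : d * n * (J t / (g * z t)) * l = J t * y := by
      rw [hy]; field_simp
    linarith
  obtain ⟨hb0, hb1⟩ := h.lbd i t hiN hi
  have hdn : (0 : ℝ) ≤ d * n := by positivity
  have hy0 : 0 ≤ y := by positivity
  have hy1 : y ≤ d * n * δ :=
    mul_le_mul_of_nonneg_left ((div_le_self hb0 hg1).trans hb1) hdn
  have hp' : 0 < 1 + y := by linarith
  have h8 := Real.log_le_log (mul_pos hJt hp') h7
  rw [Real.log_mul hJt.ne' hp'.ne', Real.log_mul hg.ne' hJi.ne'] at h8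
  have h9 : y / (1 + y) ≤ Real.log (1 + y) := by
    have := Real.log_le_sub_one_of_pos (inv_pos.2 hp')
    rw [Real.log_inv] at this
    have e1 : (1 + y)⁻¹ - 1 = -(y / (1 + y)) := by field_simp; ring
    linarith
  have hn1 : 0 < 1 + ((n : ℝ) + 1) * δ := by positivity
  have h10 : u ≤ g * (1 + (n + 1) * δ) * (l / z t / g) := by
    have a1 := h.zratio i (n + 1) hi
    push_cast at a1
    have a2 := (h.ubd i hiN).2
    have a3 : l / z i ≤ (1 + (n + 1) * δ) * (l / z t) := by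
      rw [← mul_div_assoc, div_le_div_iff₀ hzi hzt]
      nlinarith
    have a4 : g * (1 + (n + 1) * δ) * (l / z t / g) = (1 + (n + 1) * δ) * (l / z t) := by
      field_simp
    rw [a4]
    exact a2.trans a3
  have hu0 : 0 ≤ u := (h.xmono i 1 hiN).1
  have h11 : d * (n - 1) * u ≤ y / (1 + y) := by
    rcases le_total ((n : ℝ) - 1) 0 with hn | hn
    · have : (d : ℝ) * (n - 1) * u ≤ 0 :=
        mul_nonpos_of_nonpos_of_nonneg (mul_nonpos_of_nonneg_of_nonpos (Nat.cast_nonneg d) hn) hu0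
      exact this.trans (by positivity)
    rw [le_div_iff₀ hp']
    have hw : 0 ≤ l / z t / g := by positivity
    have a1 : u * (1 + y) ≤ g * (1 + (n + 1) * δ) * (l / z t / g) * (1 + d * n * δ) :=
      mul_le_mul h10 (by linarith) hp'.le (by positivity)
    have a2 := mul_le_mul_of_nonneg_left a1 (mul_nonneg (Nat.cast_nonneg (α := ℝ) d) hn)
    have a3 := mul_le_mul_of_nonneg_left hc (mul_nonneg (Nat.cast_nonneg (α := ℝ) d) hw)
    calc _ = d * (n - 1) * (u * (1 + y)) := by ring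
      _ ≤ _ := a2
      _ = d * (l / z t / g) * ((n - 1) * (g * (1 + (n + 1) * δ) * (1 + d * n * δ))) := by ring
      _ ≤ _ := a3
      _ = _ := by rw [hy]; ring
  linarith [h.logg]

end SeqH

theorem seq_shift (L : ℕ → ℝ) (m a : ℕ) :
    ∑ t ∈ Finset.range m, L (a + t) - ∑ t ∈ Finset.range m, L (a + 1 + t) = L a - L (a + m) := by
  induction m with
  | zero => simp
  | succ m ih =>
    rw [Finset.sum_range_succ, Finset.sum_range_succ, show a + 1 + m = a + (m + 1) by omega]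
    linarith

namespace SeqH

variable {d N : ℕ} {δ ρ : ℝ} {z e J κ : ℕ → ℝ}

theorem sum_bd (h : SeqH d δ ρ N z e J κ) (m a : ℕ) (ha : a + m ≤ N) :
    m * Real.log (J (a + m)) ≤ ∑ t ∈ Finset.range m, Real.log (J (a + t)) ∧
      ∑ t ∈ Finset.range m, Real.log (J (a + t)) ≤ m * Real.log (J a) := by
  constructor
  · have := Finset.card_nsmul_le_sum (Finset.range m) (fun t => Real.log (J (a + t)))
      (Real.log (J (a + m))) (fun t ht => by
        have ht' := Finset.mem_range.1 ht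
        have := h.Lmono (a + t) (m - t) (by omega)
        rwa [show a + t + (m - t) = a + m by omega] at this)
    simpa using this
  · have := Finset.sum_le_card_nsmul (Finset.range m) (fun t => Real.log (J (a + t)))
      (Real.log (J a)) (fun t ht => h.Lmono a t (by have := Finset.mem_range.1 ht; omega))
    simpa using this

theorem sumA (h : SeqH d δ ρ N z e J κ) {m : ℕ}
    (hc : (1 + δ) ^ d * (m + 1) * (1 + (m + 1) * δ) ≤
      (m + 2) * (1 - (1 + δ) ^ d * (d * (m + 1)) * δ)) (a k : ℕ) (hk : a + k + m ≤ N) :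
    ∑ t ∈ Finset.range m, Real.log (J (a + t)) - ∑ t ∈ Finset.range m, Real.log (J (a + k + t)) ≤
      k * (d * δ) + d * (m + 2) * (Real.log (z (a + k + m)) - Real.log (z (a + m))) := by
  induction k with
  | zero => simp
  | succ k ih =>
    have h1 := ih (by omega)
    have h2 := h.stepA hc (a + k) (by omega)
    have h3 := seq_shift (fun t => Real.log (J t)) m (a + k)
    rw [← add_assoc, show a + k + 1 + m = a + k + m + 1 by omega]
    push_cast
    linarith

theorem sumB (h : SeqH d δ ρ N z e J κ) {n : ℕ}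
    (hc : ((n : ℝ) - 1) * ((1 + δ) ^ d * (1 + (n + 1) * δ) * (1 + d * n * δ)) ≤ n)
    (a k : ℕ) (hk : a + k + (n + 1) ≤ N) :
    d * (n - 1) * (Real.log (z (a + k)) - Real.log (z a)) - k * (d * δ) ≤
      ∑ t ∈ Finset.range (n + 1), Real.log (J (a + t)) -
        ∑ t ∈ Finset.range (n + 1), Real.log (J (a + k + t)) := by
  induction k with
  | zero => simp
  | succ k ih =>
    have h1 := ih (by omega)
    have h2 := h.stepB hc (a + k) (by omega)
    have h3 := seq_shift (fun t => Real.log (J t)) (n + 1) (a + k)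
    rw [← add_assoc]
    push_cast
    linarith

theorem final (h : SeqH d δ ρ N z e J κ) {n : ℕ} {K : ℝ} (hK : N * δ ≤ K)
    (hcA : (1 + δ) ^ d * ((n + 1 : ℕ) + 1) * (1 + ((n + 1 : ℕ) + 1) * δ) ≤
      ((n + 1 : ℕ) + 2) * (1 - (1 + δ) ^ d * (d * ((n + 1 : ℕ) + 1)) * δ))
    (hcB : ((n : ℝ) - 1) * ((1 + δ) ^ d * (1 + (n + 1) * δ) * (1 + d * n * δ)) ≤ n)
    (i j : ℕ) (hi : n + 1 ≤ i) (hij : i ≤ j) (hj : j + (n + 1) ≤ N) :
    (n + 1) * |Real.log (z i ^ d * J i) - Real.log (z j ^ d * J j)| ≤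
      3 * d * K + (n + 1) * (d * (n + 1) * δ) := by
  have hδ := h.hδ
  have hd : (0 : ℝ) ≤ d := Nat.cast_nonneg d
  have hn : (0 : ℝ) < n + 1 := by positivity
  have hKk : ∀ k : ℕ, k ≤ N → (k : ℝ) * δ ≤ K := fun k hk =>
    (mul_le_mul_of_nonneg_right (Nat.cast_le.2 hk) hδ.le).trans hK
  have hK0 : 0 ≤ K := by simpa using hKk 0 (by omega)
  rw [Real.log_mul (pow_pos (h.zpos i (by omega)) d).ne' (h.Jpos i (by omega)).ne',
    Real.log_mul (pow_pos (h.zpos j (by omega)) d).ne' (h.Jpos j (by omega)).ne',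
    Real.log_pow, Real.log_pow, ← abs_of_pos hn, ← abs_mul, abs_of_pos hn, abs_le]
  constructor
  · rcases lt_or_ge j (i + (n + 1)) with hc | hc
    · obtain ⟨k, rfl⟩ := Nat.exists_eq_add_of_le hij
      have h1 := h.Lmono i k (by omega)
      have h2 := (h.xmono i k (by omega)).2
      have h3 : (k : ℝ) * δ ≤ (n + 1) * δ :=
        mul_le_mul_of_nonneg_right (by exact_mod_cast (by omega : k ≤ n + 1)) hδ.le
      have h4 := mul_le_mul_of_nonneg_left (h2.trans h3) (mul_nonneg hn.le hd)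
      have h5 := mul_le_mul_of_nonneg_left h1 hn.le
      have h6 := mul_nonneg hd hK0
      nlinarith
    · obtain ⟨k, rfl⟩ : ∃ k, j = i + k + (n + 1) := ⟨j - (i + (n + 1)), by omega⟩
      have h1 := h.sumB hcB i k (by omega)
      have h2 := (h.sum_bd (n + 1) i (by omega)).2
      have h3 := (h.sum_bd (n + 1) (i + k) (by omega)).1
      have h4 := (h.xmono (i + k) (n + 1) (by omega)).2
      have h5 := (h.xmono i k (by omega)).2
      have h6 := hKk k (by omega)
      push_cast at h2 h3 h4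
      have h7 := mul_le_mul_of_nonneg_left h4 (mul_nonneg hn.le hd)
      have h8 := mul_le_mul_of_nonneg_left (h5.trans h6) hd
      have h9 := mul_le_mul_of_nonneg_left h6 hd
      nlinarith
  · obtain ⟨a, rfl⟩ : ∃ a, i = a + (n + 1) := ⟨i - (n + 1), by omega⟩
    obtain ⟨k, rfl⟩ : ∃ k, j = a + k := ⟨j - a, by omega⟩
    have h1 := h.sumA hcA a k hj
    have h2 := (h.sum_bd (n + 1) a (by omega)).1
    have h3 := (h.sum_bd (n + 1) (a + k) hj).2
    have h4 := (h.xmono (a + k) (n + 1) hj).2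
    have h5 := (h.xmono (a + (n + 1)) k (by omega)).2
    rw [show a + (n + 1) + k = a + k + (n + 1) by omega] at h5
    have h6 := hKk k (by omega)
    push_cast at h1 h2 h3 h4
    have h7 := mul_le_mul_of_nonneg_left h4 (mul_nonneg hn.le hd)
    have h8 := mul_le_mul_of_nonneg_left (h5.trans h6) hd
    have h9 := mul_le_mul_of_nonneg_left h6 hd
    nlinarith

end SeqH

theorem seq (d : ℕ) {ε K : ℝ} (hε : 0 < ε) (hK : 0 < K) :
    ∃ m : ℕ, 1 ≤ m ∧ ∃ δ0, 0 < δ0 ∧ ∀ (δ ρ : ℝ) (N : ℕ) (z e J κ : ℕ → ℝ), 0 < δ → δ ≤ δ0 →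
      0 < ρ → N * δ ≤ K → ρ ≤ z 0 → (∀ i, i < N → z i < z (i + 1) ∧ z (i + 1) ≤ z i + δ * ρ) →
      (∀ i, i ≤ N → 0 < J i) → (∀ i, i < N → J (i + 1) ≤ J i) →
      (∀ i, i < N → κ i ≤ J i ∧ d * κ i / z (i + 1) ≤ e i - e (i + 1) ∧
        e i - e (i + 1) ≤ d * κ i / z i) →
      (∀ i, i < N → ∀ j, j ≤ i →
        z i ^ d * J j ≤ z (i + 1) ^ d * (κ i + (e j - e (i + 1)) * (z (i + 1) - z i))) →
      (∀ i, i < N → ∀ j, i < j → j ≤ N →
        z i ^ d * J j ≤ z (i + 1) ^ d * κ i - z i ^ d * ((e (i + 1) - e j) * (z (i + 1) - z i))) →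
      ∀ i j, m ≤ i → i ≤ j → j + m ≤ N →
        |Real.log (z i ^ d * J i) - Real.log (z j ^ d * J j)| ≤ ε := by
  obtain ⟨n, hn⟩ := exists_nat_ge (6 * d * K / ε)
  refine ⟨n + 1, by omega, ?_⟩
  have e1 : ∀ᶠ δ : ℝ in 𝓝 0, (1 + δ) ^ d * ((n + 1 : ℕ) + 1) * (1 + ((n + 1 : ℕ) + 1) * δ) <
      ((n + 1 : ℕ) + 2) * (1 - (1 + δ) ^ d * (d * ((n + 1 : ℕ) + 1)) * δ) :=
    ContinuousAt.eventually_lt (by fun_prop) (by fun_prop) (by simp)
  have e2 : ∀ᶠ δ : ℝ in 𝓝 0,
      ((n : ℝ) - 1) * ((1 + δ) ^ d * (1 + (n + 1) * δ) * (1 + d * n * δ)) < n :=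
    ContinuousAt.eventually_lt (by fun_prop) (by fun_prop) (by simp)
  have e3 : ∀ᶠ δ : ℝ in 𝓝 0, (d : ℝ) * (n + 1) * δ < ε / 2 :=
    ContinuousAt.eventually_lt (by fun_prop) (by fun_prop) (by simpa using hε)
  obtain ⟨r, hr, hall⟩ := Metric.eventually_nhds_iff.1 (e1.and (e2.and e3))
  refine ⟨r / 2, by positivity, ?_⟩
  intro δ ρ N z e J κ hδ hδ0 hρ hN z0 hz Jpos Janti hκ hA hB i j hi hij hj
  obtain ⟨c1, c2, c3⟩ := hall (y := δ) (by
    rw [Real.dist_eq, sub_zero, abs_of_pos hδ]; linarith)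
  have h := SeqH.final ⟨hδ, hρ, z0, hz, Jpos, Janti, hκ, hA, hB⟩ hN c1.le c2.le i j hi hij hj
  have hn1 : (0 : ℝ) < n + 1 := by positivity
  rw [div_le_iff₀ hε] at hn
  have h2 := mul_le_mul_of_nonneg_left c3.le hn1.le
  refine le_of_mul_le_mul_left (h.trans ?_) hn1
  nlinarith

end Pool.Agent.MP_67db61_an.Cls

/-!
The energy of a scalar solution with many zeros, by adiabatic invariance.
-/

namespace Pool.Agent.MP_67db61_an.Cls

open Set Filter Topology MeasureTheory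

variable {d : ℕ} {s l a : ℝ}

lemma own_flow (h : Par s l a) :
    ∃ c C, 0 < c ∧ 0 < C ∧ ∀ (d : ℕ) (U P : ℝ → ℝ), Lin d (fun r => l - a * ff s (U r ^ 2)) U P →
      Flow d s c C (fun r => U r ^ 2) (fun r => P r ^ 2 / a) (En s l a U P)
        (fun r => r ^ d * (U r * P r / a)) := by
  obtain ⟨c, C, H⟩ := flow_scalar h
  have h0 := H 0 (fun _ => 0) (fun _ => 0)
    ⟨fun r => hasDerivAt_const _ _, fun r => by simpa using hasDerivAt_const r (0 : ℝ),
      continuous_const, continuous_const, rfl⟩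
  exact ⟨c, C, h0.hc, h0.hC, H⟩

lemma own_enum {U : ℝ → ℝ} {ρ R L : ℝ} (hfin : {r | r ∈ Icc ρ R ∧ U r = 0}.Finite)
    (hρ : ρ + L ≤ R) (hz : ∀ t, ρ ≤ t → t + L ≤ R → ∃ r, t < r ∧ r < t + L ∧ U r = 0) :
    ∃ (N : ℕ) (z : ℕ → ℝ), N + 1 = {r | r ∈ Icc ρ R ∧ U r = 0}.ncard ∧ StrictMono z ∧
      (∀ i, i ≤ N → ρ ≤ z i ∧ z i ≤ R ∧ U (z i) = 0) ∧
      (∀ i, i < N → ∀ r ∈ Ioo (z i) (z (i + 1)), U r ≠ 0) ∧ z 0 ≤ ρ + L ∧ R - L ≤ z N ∧
      ∀ i, i < N → z (i + 1) ≤ z i + L := by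
  obtain ⟨z, hm, hS⟩ := enum hfin
  have hz' : ∀ t, ρ ≤ t → t + L ≤ R → ∃ j, j < {r | r ∈ Icc ρ R ∧ U r = 0}.ncard ∧ t < z j ∧
      z j < t + L := by
    intro t h1 h2
    obtain ⟨r, h3, h4, h5⟩ := hz t h1 h2
    obtain ⟨j, hj, rfl⟩ := (hS r).1 ⟨⟨by linarith, by linarith⟩, h5⟩
    exact ⟨j, hj, h3, h4⟩
  obtain ⟨j0, hj0, -, hj0'⟩ := hz' ρ le_rfl hρ
  obtain ⟨N, hN⟩ : ∃ N, N + 1 = {r | r ∈ Icc ρ R ∧ U r = 0}.ncard := ⟨_, Nat.succ_pred_eq_of_pos
    (Nat.zero_lt_of_lt hj0)⟩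
  have hmem : ∀ i, i ≤ N → ρ ≤ z i ∧ z i ≤ R ∧ U (z i) = 0 := fun i hi => by
    have := (hS (z i)).2 ⟨i, by omega, rfl⟩
    exact ⟨this.1.1, this.1.2, this.2⟩
  refine ⟨N, z, hN, hm, hmem, fun i hi r hr h0 => ?_,
    (hm.monotone (Nat.zero_le j0)).trans hj0'.le, ?_, fun i hi => ?_⟩
  · obtain ⟨j, -, rfl⟩ := (hS r).1 ⟨⟨(hmem i hi.le).1.trans hr.1.le,
      hr.2.le.trans (hmem (i + 1) hi).2.1⟩, h0⟩
    have h1 := hm.lt_iff_lt.1 hr.1
    have h2 := hm.lt_iff_lt.1 hr.2
    omega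
  · obtain ⟨j, hj, h1, -⟩ := hz' (R - L) (by linarith) (by linarith)
    exact h1.le.trans (hm.monotone (by omega))
  · rcases le_total (z i + L) R with h | h
    · obtain ⟨j, -, h1, h2⟩ := hz' (z i) (hmem i hi.le).1 h
      exact (hm.monotone (Nat.succ_le_of_lt (hm.lt_iff_lt.1 h1))).trans h2.le
    · exact (hmem (i + 1) hi).2.1.trans h

lemma own_swing (h : Par s l a) {c C : ℝ} {U P : ℝ → ℝ}
    (hU : Lin d (fun r => l - a * ff s (U r ^ 2)) U P) (h0 : U 0 ≠ 0)
    (F : Flow d s c C (fun r => U r ^ 2) (fun r => P r ^ 2 / a) (En s l a U P)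
      (fun r => r ^ d * (U r * P r / a))) {x y : ℝ} (hx : 0 < x) (hxy : x < y) (ux : U x = 0)
    (uy : U y = 0) :
    2 * ∫ r in x..y, r ^ d * (P r ^ 2 / a) ≤ y ^ d * (2 * ∫ r in x..y, P r ^ 2 / a) ∧
    (∀ E, En s l a U P x ≤ E → 0 ≤ E → x ^ d * JJ s l a E
      ≤ y ^ d * ((2 * ∫ r in x..y, P r ^ 2 / a) + (E - En s l a U P y) * (y - x))) ∧
    ∀ E, E ≤ En s l a U P y → 0 ≤ E → x ^ d * JJ s l a E
      ≤ y ^ d * (2 * ∫ r in x..y, P r ^ 2 / a) - x ^ d * ((En s l a U P y - E) * (y - x)) := by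
  have cK := F.cK
  have cE := F.cE
  have cD := F.cD
  have h1 : 2 * ∫ r in x..y, r ^ d * (P r ^ 2 / a) ≤ y ^ d * (2 * ∫ r in x..y, P r ^ 2 / a) := by
    have := intervalIntegral.integral_mono_on (μ := volume) hxy.le
      (f := fun r => r ^ d * (P r ^ 2 / a)) (g := fun r => y ^ d * (P r ^ 2 / a))
      (Continuous.intervalIntegrable (by fun_prop) _ _)
      (Continuous.intervalIntegrable (by fun_prop) _ _) fun r hr =>
        mul_le_mul_of_nonneg_right (pow_le_pow_left₀ (hx.le.trans hr.1) hr.2 d) (F.K0 r)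
    rw [intervalIntegral.integral_const_mul] at this
    linarith
  have h2 : ∀ E, 0 ≤ E → x ^ d * JJ s l a E ≤ y ^ d * (2 * ∫ r in x..y, P r ^ 2 / a)
      + ∫ r in x..y, r ^ d * (E - En s l a U P r) := by
    intro E hE
    have h3 := calib' h F.cZ F.Z0 hU h0 hx.le hxy ux uy hE
    have h4 := F.virial x y
    have h5 : ∫ r in x..y, r ^ d * (DD s (U r ^ 2) + E)
        = (∫ r in x..y, r ^ d * (DD s (U r ^ 2) + En s l a U P r))
          + ∫ r in x..y, r ^ d * (E - En s l a U P r) := by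
      rw [← intervalIntegral.integral_add (Continuous.intervalIntegrable (by fun_prop) _ _)
        (Continuous.intervalIntegrable (by fun_prop) _ _)]
      congr 1
      funext r
      ring
    simp only [ux, uy, zero_mul, zero_div, mul_zero] at h4
    linarith
  refine ⟨h1, fun E hE hE0 => ?_, fun E hE hE0 => ?_⟩
  · have := intervalIntegral.integral_mono_on (μ := volume) hxy.le
      (f := fun r => r ^ d * (E - En s l a U P r)) (g := fun _ => y ^ d * (E - En s l a U P y))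
      (Continuous.intervalIntegrable (by fun_prop) _ _)
      (Continuous.intervalIntegrable (by fun_prop) _ _) fun r hr =>
        mul_le_mul (pow_le_pow_left₀ (hx.le.trans hr.1) hr.2 d)
          (sub_le_sub_left (F.anti (hx.le.trans hr.1) hr.2) E)
          (sub_nonneg.2 ((F.anti hx.le hr.1).trans hE)) (pow_nonneg (hx.le.trans hxy.le) d)
    rw [intervalIntegral.integral_const, smul_eq_mul] at this
    linarith [h2 E hE0]
  · have := intervalIntegral.integral_mono_on (μ := volume) hxy.le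
      (f := fun r => r ^ d * (E - En s l a U P r)) (g := fun _ => x ^ d * (E - En s l a U P y))
      (Continuous.intervalIntegrable (by fun_prop) _ _)
      (Continuous.intervalIntegrable (by fun_prop) _ _) fun r hr => by
        have h3 := F.anti (hx.le.trans hr.1) hr.2
        have h4 := pow_le_pow_left₀ hx.le hr.1 d
        have h5 := pow_nonneg hx.le d
        nlinarith
    rw [intervalIntegral.integral_const, smul_eq_mul] at this
    linarith [h2 E hE0]

lemma own_inner {c C : ℝ} {Z K E m : ℝ → ℝ} (F : Flow d s c C Z K E m) {x : ℝ} (hx : 0 ≤ x)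
    (hm : m x = 0) : 2 * ∫ r in (0 : ℝ)..x, r ^ d * K r
      = x ^ (d + 1) * E x + (d + 1) * ∫ r in (0 : ℝ)..x, r ^ d * DD s (Z r) := by
  have cE := F.cE
  have cD := F.cD
  have h1 := F.poho le_rfl hx
  have h2 := F.virial 0 x
  simp only [mul_add] at h2
  rw [intervalIntegral.integral_add (Continuous.intervalIntegrable (by fun_prop) _ _)
    (Continuous.intervalIntegrable (by fun_prop) _ _), hm, F.m0] at h2
  rw [zero_pow (Nat.succ_ne_zero d)] at h1
  linear_combination (-1 : ℝ) * h1 - (d + 1) * h2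

lemma own_log {A B ε : ℝ} (hA : 0 < A) (hB : 0 < B) (h : |Real.log A - Real.log B| ≤ ε) :
    A ≤ Real.exp ε * B ∧ B ≤ Real.exp ε * A := by
  rw [abs_le] at h
  constructor
  · rw [← Real.exp_log hA, ← Real.exp_log hB, ← Real.exp_add, Real.exp_le_exp]
    linarith [h.2]
  · rw [← Real.exp_log hA, ← Real.exp_log hB, ← Real.exp_add, Real.exp_le_exp]
    linarith [h.1]

lemma own_small (d m : ℕ) {ε η C δ0 : ℝ} (hε : 0 < ε) (hη : 0 < η) (hδ0 : 0 < δ0) :
    ∃ δ1, 0 < δ1 ∧ ∀ δ, 0 < δ → δ ≤ δ1 → δ ≤ δ0 ∧ (m + 1) * δ ≤ 1 ∧ Real.exp (d * δ) ≤ 1 + ε ∧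
      (1 - ε) * (Real.exp (d * δ) * Real.exp (ε / 2)) ≤ (1 - (m + 1) * δ) ^ d ∧
      η + C ≤ (1 - (m + 1) * δ) ^ (2 * d) * (2 * η + C) := by
  have h1 : (1 - ε) * Real.exp (ε / 2) < 1 := by
    have h2 := Real.add_one_lt_exp (show -ε ≠ 0 by linarith)
    have h3 : Real.exp (-ε) * Real.exp (ε / 2) < 1 := by
      rw [← Real.exp_add, Real.exp_lt_one_iff]
      linarith
    nlinarith [Real.exp_pos (ε / 2)]
  have H : ∀ᶠ δ in 𝓝 (0 : ℝ), δ < δ0 ∧ (m + 1) * δ < 1 ∧ Real.exp (d * δ) < 1 + ε ∧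
      (1 - ε) * (Real.exp (d * δ) * Real.exp (ε / 2)) < (1 - (m + 1) * δ) ^ d ∧
      η + C < (1 - (m + 1) * δ) ^ (2 * d) * (2 * η + C) := by
    refine Eventually.and ?_ (Eventually.and ?_ (Eventually.and ?_ (Eventually.and ?_ ?_))) <;>
      refine ContinuousAt.eventually_lt (by fun_prop) (by fun_prop) ?_
    · exact hδ0
    · simp
    · simpa using hε
    · simpa using h1
    · simp
      linarith
  obtain ⟨δ1, hδ1, H⟩ := Metric.eventually_nhds_iff.1 H
  refine ⟨δ1 / 2, half_pos hδ1, fun δ h0 h => ?_⟩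
  obtain ⟨a1, a2, a3, a4, a5⟩ := H (y := δ) (by rw [Real.dist_eq, sub_zero, abs_of_pos h0]; linarith)
  exact ⟨a1.le, a2.le, a3.le, a4.le, a5.le⟩

lemma own_eps {ε : ℝ} (hε : 0 < ε) (hε4 : ε ≤ 1 / 4) :
    Real.exp (ε / 2) ≤ 1 + ε ∧ (1 + ε) ^ 2 ≤ 2 ∧ (1 + ε) * (1 + ε) ^ 2 ≤ 1 + 4 * ε := by
  have h1 := Real.add_one_le_exp (-(ε / 2))
  have h2 : Real.exp (ε / 2) * Real.exp (-(ε / 2)) = 1 := by rw [← Real.exp_add]; simp
  exact ⟨by nlinarith [Real.exp_pos (ε / 2)], by nlinarith, by nlinarith [sq_nonneg ε]⟩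

theorem own {d : ℕ} (hd : 2 ≤ d) {s l a : ℝ} (h : Par s l a) :
    ∃ C η0, 0 < C ∧ 0 < η0 ∧ ∀ ε η : ℝ, 0 < ε → ε ≤ 1 / 4 → 0 < η → η ≤ ε → 2 * η ≤ η0 →
      JJ s l a (2 * η) ≤ (1 + ε) * JJ s l a 0 → ∃ R0, 1 ≤ R0 ∧ ∀ (U P : ℝ → ℝ) (T R : ℝ),
        Mem d s l a η U P T → R0 ≤ R → R ≤ T → En s l a U P R = η →
        (∃ Nb : ℕ, Nb ≤ nz U T ∧ (Nb : ℝ) ≤ C * R ∧
          ∫ r in (0 : ℝ)..T, r ^ d * (DD s (U r ^ 2) + En s l a U P r)
            ≤ R ^ d * JJ s l a 0 * Nb + C * ε * R ^ (d + 1)) ∧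
        ∀ r, ε * R ≤ r → r ≤ R →
          (1 - ε) * (R ^ d * JJ s l a 0) ≤ r ^ d * JJ s l a (En s l a U P r) := by
  obtain ⟨c, C0, hc, hC0, HF⟩ := own_flow h
  obtain ⟨η0, hη0, -, HT⟩ := flow_tail hd h.hs hc
  obtain ⟨Ci, hCi, HI⟩ := flow_inner (d := d) (by omega) s c C0
  obtain ⟨cJ, hcJ, HJ⟩ := JJ_lin h
  have hJ0 := JJ_zero_pos h
  have ha := h.ha
  set ω := 1 + (l + a / s) with hω
  have hω0 : 0 < ω := by have := h.hl; have := h.hs; positivity
  refine ⟨ω + 2 * JJ s l a 0 / cJ + (d + 1) * Ci + 4 * ω * JJ s l a 0 + 8 + 3 / a, η0,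
    by positivity, hη0, fun ε η hε hε4 hη hηε hη2 hJη => ?_⟩
  obtain ⟨L, hL, HL⟩ := zero_gap d h hη ((η + C0) * (2 / ε) ^ (2 * d))
  obtain ⟨m, -, δ0, hδ0, HS⟩ := seq d (half_pos hε) (show 0 < ω * (2 * L / ε) by positivity)
  obtain ⟨δ1, hδ1, Hδ⟩ := own_small d m (C := C0) hε hη hδ0
  refine ⟨max (1 / ε) (2 * L / (ε * δ1)), le_max_of_le_left (by rw [le_div_iff₀ hε]; linarith),
    fun U P T R hM hR0 hRT hER => ?_⟩
  have hεR : 1 ≤ ε * R := by
    have := (le_max_left _ _).trans hR0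
    rwa [div_le_iff₀' hε] at this
  have hR : 0 < R := (mul_pos_iff_of_pos_left hε).1 (by linarith)
  have F := HF d U P hM.lin
  have hq : ∀ r, |l - a * ff s (U r ^ 2)| ≤ l + a / s := fun r => q_bound h (sq_nonneg _)
  set ρ := ε * R / 2 with hρ
  have hρ0 : 0 < ρ := by positivity
  have hρR : 8 * ρ ≤ R := by linarith [mul_le_mul_of_nonneg_right hε4 hR.le]
  set δ := L / ρ with hδ
  have hδρ : δ * ρ = L := div_mul_cancel₀ _ hρ0.ne'
  have hδpos : 0 < δ := by positivity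
  obtain ⟨d0, d1, d2, d3, d4⟩ := Hδ δ hδpos (by
    have := (le_max_right _ _).trans hR0
    rw [div_le_iff₀ (by positivity)] at this
    rw [hδ, div_le_iff₀ hρ0, hρ]
    linarith)
  have hmL : (m + 1) * L ≤ ρ := by
    rw [← hδρ]
    linarith [mul_le_mul_of_nonneg_right d1 hρ0.le]
  have hLρ : L ≤ ρ := by linarith [mul_nonneg (Nat.cast_nonneg m : (0 : ℝ) ≤ m) hL.le]
  have hE0 : ∀ r, 0 ≤ r → r ≤ T → 0 ≤ En s l a U P r := fun r h1 h2 => hM.E0.trans (F.anti h1 h2)
  have hsub : {r | r ∈ Icc ρ R ∧ U r = 0} ⊆ {r | r ∈ Ioc 0 R ∧ U r = 0} :=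
    fun r hr => ⟨⟨hρ0.trans_le hr.1.1, hr.1.2⟩, hr.2⟩
  obtain ⟨N, z, hN, hz, zm, zne, z0, zN, zs⟩ := own_enum (L := L)
    ((hM.lin.finite hq hM.ne R).subset hsub) (by linarith) fun t h1 h2 => by
      refine HL U P t hM.lin (by linarith) ((F.anti hρ0.le h1).trans ?_)
        (hER ▸ F.anti (by linarith) h2)
      have h3 := F.crude hρ0.le (show ρ ≤ R by linarith)
      rw [hER, show R = ρ * (2 / ε) by rw [hρ]; field_simp, mul_pow, mul_assoc] at h3
      have := le_of_mul_le_mul_left h3 (by positivity)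
      linarith
  have hNz : N + 1 ≤ nz U R := hN ▸ ncard_le_ncard hsub (hM.lin.finite hq hM.ne R)
  have hNR : (N : ℝ) ≤ ω * R := by
    have h1 := hM.lin.nz_le hq hM.ne hR.le
    have h2 : ((N + 1 : ℕ) : ℝ) ≤ nz U R := by exact_mod_cast hNz
    push_cast at h2
    linarith
  have zp : ∀ i, i ≤ N → 0 < z i := fun i hi => hρ0.trans_le (zm i hi).1
  have zT : ∀ i, i ≤ N → z i ≤ T := fun i hi => (zm i hi).2.1.trans hRT
  have zE : ∀ i, i ≤ N → 0 ≤ En s l a U P (z i) := fun i hi => hE0 _ (zp i hi).le (zT i hi)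
  have zanti : ∀ i j, i ≤ j → j ≤ N → En s l a U P (z j) ≤ En s l a U P (z i) := fun i j h1 h2 =>
    F.anti (zp i (h1.trans h2)).le (hz.monotone h1)
  have zJ : ∀ i, i ≤ N → JJ s l a 0 ≤ JJ s l a (En s l a U P (z i)) := fun i hi =>
    JJ_mono h le_rfl (zE i hi)
  have zlin : ∀ k i, i + k ≤ N → z (i + k) ≤ z i + k * L := by
    intro k
    induction k with
    | zero => simp
    | succ k ih =>
      intro i hi
      have h1 := ih i (by omega)
      have h2 := zs (i + k) (by omega)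
      push_cast
      rw [← add_assoc]
      linarith
  have sw := fun i (hi : i < N) => own_swing h hM.lin hM.ne F (zp i hi.le) (hz (Nat.lt_succ_self i))
    (zm i hi.le).2.2 (zm (i + 1) hi).2.2
  have kJ : ∀ i, i < N → 2 * ∫ r in z i..z (i + 1), P r ^ 2 / a
      ≤ JJ s l a (En s l a U P (z i)) := fun i hi =>
    own_le h hM.lin (zp i hi.le).le (hz (Nat.lt_succ_self i)).le (zne i hi) (zE (i + 1) hi)
  have HA := HS δ ρ N z (fun i => En s l a U P (z i)) (fun i => JJ s l a (En s l a U P (z i)))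
    (fun i => 2 * ∫ r in z i..z (i + 1), P r ^ 2 / a) hδpos d0 hρ0
    (by
      have : ω * (2 * L / ε) = ω * R * δ := by rw [hδ, hρ]; field_simp
      rw [this]
      exact mul_le_mul_of_nonneg_right hNR hδpos.le)
    (zm 0 (Nat.zero_le N)).1 (fun i hi => ⟨hz (Nat.lt_succ_self i), hδρ ▸ zs i hi⟩)
    (fun i hi => hJ0.trans_le (zJ i hi))
    (fun i hi => JJ_mono h (zE (i + 1) hi) (zanti i (i + 1) (Nat.le_succ i) hi))
    (fun i hi => ⟨kJ i hi, F.diss (zp i hi.le) (hz (Nat.lt_succ_self i)).le⟩)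
    (fun i hi j hj => (sw i hi).2.1 _ (zanti j i hj hi.le) (zE j (by omega)))
    (fun i hi j hj hjN => (sw i hi).2.2 _ (zanti (i + 1) j hj hjN) (zE j hjN))
  have hmN : 2 * m ≤ N := by
    by_contra hlt
    have h1 := zlin N 0 (by omega)
    have h2 : (N : ℝ) ≤ 2 * m := by exact_mod_cast (by omega : N ≤ 2 * m)
    rw [zero_add] at h1
    linarith [mul_le_mul_of_nonneg_right h2 hL.le]
  obtain ⟨j, rfl⟩ : ∃ j, N = j + m := ⟨N - m, by omega⟩
  have hmj : m ≤ j := by omega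
  have hjN : j ≤ j + m := Nat.le_add_right j m
  have zj : R * (1 - (m + 1) * δ) ≤ z j := by
    have h1 := zlin m j le_rfl
    have h2 : (m + 1) * L ≤ R * ((m + 1) * δ) := by
      rw [← hδρ]
      have : 0 ≤ (m + 1 : ℝ) * δ := by positivity
      linarith [mul_le_mul_of_nonneg_right (show ρ ≤ R by linarith) this]
    linarith
  have hβ : 0 ≤ 1 - (m + 1 : ℝ) * δ := sub_nonneg.2 d1
  have Ej : En s l a U P (z j) ≤ 2 * η := by
    have h1 := F.crude (zp j hjN).le (zm j hjN).2.1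
    have h2 := pow_le_pow_left₀ (mul_nonneg hR.le hβ) zj (2 * d)
    rw [hER] at h1
    rw [mul_pow] at h2
    have h3 := mul_le_mul_of_nonneg_left d4 (pow_nonneg hR.le (2 * d))
    have h4 := mul_le_mul_of_nonneg_right h2 (show 0 ≤ 2 * η + C0 by positivity)
    have h5 : z j ^ (2 * d) * (En s l a U P (z j) + C0) ≤ z j ^ (2 * d) * (2 * η + C0) := by
      linarith
    linarith [le_of_mul_le_mul_left h5 (pow_pos (zp j hjN) _)]
  set μ := R ^ d * JJ s l a 0 with hμ
  have hμ0 : 0 < μ := by positivity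
  have Mj1 : z j ^ d * JJ s l a (En s l a U P (z j)) ≤ (1 + ε) * μ := by
    have := mul_le_mul (pow_le_pow_left₀ (zp j hjN).le (zm j hjN).2.1 d)
      ((JJ_mono h (zE j hjN) Ej).trans hJη) (hJ0.le.trans (zJ j hjN)) (pow_nonneg hR.le d)
    rw [hμ]
    linarith
  have Mj2 : (1 - (m + 1) * δ) ^ d * μ ≤ z j ^ d * JJ s l a 0 := by
    have := pow_le_pow_left₀ (mul_nonneg hR.le hβ) zj d
    rw [mul_pow] at this
    rw [hμ]
    linarith [mul_le_mul_of_nonneg_right this hJ0.le]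
  have HM := fun i (h1 : m ≤ i) (h2 : i ≤ j) => own_log
    (mul_pos (pow_pos (zp i (h2.trans hjN)) d) (hJ0.trans_le (zJ i (h2.trans hjN))))
    (mul_pos (pow_pos (zp j hjN) d) (hJ0.trans_le (zJ j hjN))) (HA i j h1 h2 le_rfl)
  have hg : ∀ i, i < j + m → z (i + 1) ^ d ≤ Real.exp (d * δ) * z i ^ d := by
    intro i hi
    rw [Real.exp_nat_mul, ← mul_pow]
    refine pow_le_pow_left₀ (zp (i + 1) hi).le ?_ d
    have h1 := zs i hi
    have h2 := (zm i hi.le).1
    have h3 := mul_le_mul_of_nonneg_right (Real.add_one_le_exp δ) (zp i hi.le).le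
    linarith [mul_le_mul_of_nonneg_left h2 hδpos.le]
  obtain ⟨he, he2, he3⟩ := own_eps hε hε4
  have Mi : ∀ i, m ≤ i → i ≤ j → z i ^ d * JJ s l a (En s l a U P (z i)) ≤ (1 + ε) ^ 2 * μ :=
    fun i h1 h2 => ((HM i h1 h2).1.trans (mul_le_mul he Mj1
      (mul_nonneg (pow_nonneg (zp j hjN).le d) (hJ0.le.trans (zJ j hjN))) (by positivity))).trans
        (le_of_eq (by ring))
  have hzm : z m ≤ ε * R := by
    have := zlin m 0 (by omega)
    rw [zero_add] at this
    linarith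
  refine ⟨⟨j - m, ?_, ?_, ?_⟩, fun r hr1 hr2 => ?_⟩
  · exact le_trans (by omega) (hNz.trans (hM.lin.nz_mono hq hM.ne hRT))
  · have h1 : ((j - m : ℕ) : ℝ) ≤ (j + m : ℕ) := by exact_mod_cast (by omega : j - m ≤ j + m)
    refine (h1.trans hNR).trans (mul_le_mul_of_nonneg_right ?_ hR.le)
    have : 0 ≤ 2 * JJ s l a 0 / cJ + (d + 1) * Ci + 4 * ω * JJ s l a 0 + 8 + 3 / a := by positivity
    linarith
  · have cK := F.cK
    have iK : ∀ x y, IntervalIntegrable (fun r => r ^ d * (P r ^ 2 / a)) volume x y :=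
      fun x y => Continuous.intervalIntegrable (by fun_prop) _ _
    have hmN' : m ≤ j + m := by omega
    have b1 : 2 * ∫ r in (0 : ℝ)..z m, r ^ d * (P r ^ 2 / a)
        ≤ (2 * JJ s l a 0 / cJ + (d + 1) * Ci) * ε * R ^ (d + 1) := by
      rw [own_inner F (zp m hmN').le (by simp [(zm m hmN').2.2])]
      have h1 := HI _ _ _ _ _ R F (zp m hmN').le (zm m hmN').2.1 (by linarith)
      have h2 : z m ^ d ≤ ε * R ^ d := by
        refine (pow_le_pow_left₀ (zp m hmN').le hzm d).trans ?_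
        rw [mul_pow]
        exact mul_le_mul_of_nonneg_right (pow_le_of_le_one hε.le (by linarith) (by omega))
          (pow_nonneg hR.le d)
      have h3 : Ci * R * z m ^ d ≤ Ci * R * (ε * R ^ d) :=
        mul_le_mul_of_nonneg_left h2 (by positivity)
      have h4 := mul_le_mul_of_nonneg_left (HJ _ (zE m hmN')) (pow_nonneg (zp m hmN').le d)
      have h5 : z m ^ d * En s l a U P (z m) ≤ 2 * μ / cJ := by
        rw [le_div_iff₀ hcJ]
        have := Mi m le_rfl hmj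
        linarith [mul_le_mul_of_nonneg_right he2 hμ0.le]
      have h6 := mul_le_mul hzm h5
        (mul_nonneg (pow_nonneg (zp m hmN').le d) (zE m hmN')) (by positivity)
      have h7 := mul_le_mul_of_nonneg_left (h1.trans h3) (show (0 : ℝ) ≤ d + 1 by positivity)
      have e : ε * R * (2 * μ / cJ) + (d + 1) * (Ci * R * (ε * R ^ d))
          = (2 * JJ s l a 0 / cJ + (d + 1) * Ci) * ε * R ^ (d + 1) := by rw [hμ]; ring
      rw [← e, pow_succ]
      linarith
    have b2 : ∀ k, m + k ≤ j → 2 * ∫ r in z m..z (m + k), r ^ d * (P r ^ 2 / a)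
        ≤ k * ((1 + 4 * ε) * μ) := by
      intro k
      induction k with
      | zero => simp
      | succ k ih =>
        intro hk
        have hi : m + k < j + m := by omega
        have h1 := ih (by omega)
        have h2 := (sw (m + k) hi).1
        have h3 := mul_le_mul (hg (m + k) hi) (kJ (m + k) hi)
          (mul_nonneg zero_le_two (intervalIntegral.integral_nonneg
            (hz (Nat.lt_succ_self _)).le fun r _ => F.K0 r))
          (mul_nonneg (Real.exp_pos _).le (pow_nonneg (zp _ hi.le).le d))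
        have h4 := mul_le_mul d2 (Mi (m + k) (by omega) (by omega))
          (mul_nonneg (pow_nonneg (zp _ hi.le).le d) (hJ0.le.trans (zJ _ hi.le))) (by positivity)
        have h5 : (1 + ε) * ((1 + ε) ^ 2 * μ) ≤ (1 + 4 * ε) * μ := by
          rw [← mul_assoc]
          exact mul_le_mul_of_nonneg_right he3 hμ0.le
        rw [← add_assoc, ← intervalIntegral.integral_add_adjacent_intervals (iK _ (z (m + k)))
          (iK _ _)]
        push_cast
        linarith
    have b3 := b2 (j - m) (by omega)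
    rw [show m + (j - m) = j by omega] at b3
    have b4 := HT _ _ _ _ _ _ T F (zp j hjN).le (zT j hjN) (by linarith) hM.E0
    have b5 : |T ^ d * (U T * P T / a)| ≤ 1 / a := by
      rw [abs_mul, abs_div, abs_of_pos ha, abs_of_pos (pow_pos hM.T0 d), ← mul_div_assoc]
      exact div_le_div_of_nonneg_right hM.bd ha.le
    have b6 : z j ^ (d + 1) * En s l a U P (z j) ≤ R ^ (d + 1) * (2 * ε) :=
      mul_le_mul (pow_le_pow_left₀ (zp j hjN).le (zm j hjN).2.1 _) (by linarith) (zE j hjN)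
        (by positivity)
    have b7 : 3 / a ≤ 3 / a * ε * R ^ (d + 1) := by
      have h1 : 1 ≤ R ^ d := one_le_pow₀ (by linarith)
      rw [mul_assoc, pow_succ]
      exact le_mul_of_one_le_right (by positivity)
        (by linarith [one_le_mul_of_one_le_of_one_le hεR h1])
    have b8 : ((j - m : ℕ) : ℝ) * (4 * ε * μ) ≤ 4 * ω * JJ s l a 0 * ε * R ^ (d + 1) := by
      have h1 : ((j - m : ℕ) : ℝ) ≤ (j + m : ℕ) := by exact_mod_cast (by omega : j - m ≤ j + m)
      refine (mul_le_mul_of_nonneg_right (h1.trans hNR) (by positivity)).trans (le_of_eq ?_)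
      rw [hμ]
      ring
    have b9 : 0 ≤ ω * ε * R ^ (d + 1) := by positivity
    simp only [(zm j hjN).2.2, zero_mul, zero_div, mul_zero, abs_zero] at b4
    rw [F.virial 0 T, ← intervalIntegral.integral_add_adjacent_intervals (iK 0 (z m)) (iK _ T),
      ← intervalIntegral.integral_add_adjacent_intervals (iK (z m) (z j)) (iK _ T), F.m0]
    have b10 := neg_abs_le (T ^ d * (U T * P T / a))
    have e3 : 3 / a = 3 * (1 / a) := by ring
    linarith
  · have hr0 : 0 < r := by linarith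
    have hεg : 1 - ε ≤ (1 - (m + 1 : ℝ) * δ) ^ d := by
      refine le_trans (le_mul_of_one_le_right (by linarith) ?_) d3
      exact one_le_mul_of_one_le_of_one_le (Real.one_le_exp (by positivity))
        (Real.one_le_exp (by positivity))
    rcases le_or_gt (z j) r with hr | hr
    · refine ((mul_le_mul_of_nonneg_right hεg hμ0.le).trans Mj2).trans ?_
      exact mul_le_mul (pow_le_pow_left₀ (zp j hjN).le hr d)
        (JJ_mono h le_rfl (hE0 r hr0.le (hr2.trans hRT))) hJ0.le (pow_nonneg hr0.le d)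
    · have hex : ∃ i, m ≤ i ∧ r ≤ z (i + 1) := ⟨j, hmj, hr.le.trans (hz (Nat.lt_succ_self j)).le⟩
      obtain ⟨i, h1, h2, h3, h4⟩ : ∃ i, m ≤ i ∧ i + 1 ≤ j ∧ z i ≤ r ∧ r ≤ z (i + 1) := by
        classical
        have h5 := Nat.find_spec hex
        have h6 : z (Nat.find hex) ≤ r := by
          rcases h5.1.eq_or_lt with e | e
          · rw [← e]
            linarith
          · obtain ⟨k, hk⟩ : ∃ k, Nat.find hex = k + 1 := ⟨_, (Nat.succ_pred_eq_of_pos
              (Nat.zero_lt_of_lt e)).symm⟩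
            have := Nat.find_min hex (m := k) (by omega)
            rw [hk]
            exact le_of_not_ge fun h7 => this ⟨by omega, h7⟩
        exact ⟨_, h5.1, hz.lt_iff_lt.1 (h6.trans_lt hr), h6, h5.2⟩
      have hi : i < j + m := by omega
      have hJi := hJ0.le.trans (zJ (i + 1) hi)
      have h5 := (HM (i + 1) (by omega) h2).2
      have h6 := mul_le_mul_of_nonneg_right (hg i hi) hJi
      have h7 : z i ^ d * JJ s l a (En s l a U P (z (i + 1))) ≤ r ^ d * JJ s l a (En s l a U P r) :=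
        mul_le_mul (pow_le_pow_left₀ (zp i hi.le).le h3 d)
          (JJ_mono h (zE (i + 1) hi) (F.anti hr0.le h4)) hJi (pow_nonneg hr0.le d)
      have h8 := mul_le_mul_of_nonneg_left (zJ j hjN) (pow_nonneg (zp j hjN).le d)
      have h9 := mul_le_mul_of_nonneg_right d3 hμ0.le
      have h10 := mul_le_mul_of_nonneg_left h6 (Real.exp_pos (ε / 2)).le
      have h11 := mul_le_mul_of_nonneg_left h7
        (mul_pos (Real.exp_pos (d * δ)) (Real.exp_pos (ε / 2))).le
      refine le_of_mul_le_mul_left ?_ (mul_pos (Real.exp_pos (d * δ)) (Real.exp_pos (ε / 2)))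
      linarith

end Pool.Agent.MP_67db61_an.Cls
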