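import Pool.Agent.MP_67db61_an.Mg.Full_Action
import Pool.Agent.MP_67db61_an.Mg.Full_Adiabatic

-- part MP_67db61_an.Full.Family
section

/-!
Solutions with large initial amplitude have many zeros on a fixed interval.
-/

namespace Pool.Agent.MP_67db61_an.Cls

open Set Filter Topology MeasureTheory

lemma large_anti {f f' : ℝ → ℝ} {a b : ℝ} (hab : a ≤ b)
    (hf : ∀ x ∈ Icc a b, HasDerivAt f (f' x) x) (h : ∀ x ∈ Icc a b, f' x ≤ 0) : f b ≤ f a := by
  refine antitoneOn_of_deriv_nonpos (convex_Icc a b)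
    (fun x hx => (hf x hx).continuousAt.continuousWithinAt)
    (fun x hx => (hf x (interior_subset hx)).differentiableAt.differentiableWithinAt)
    (fun x hx => ?_) (left_mem_Icc.2 hab) (right_mem_Icc.2 hab) hab
  rw [(hf x (interior_subset hx)).deriv]
  exact h x (interior_subset hx)

lemma large_abs {u v E : ℝ} (hE : 1 ≤ E) (h : u ^ 2 + v ^ 2 ≤ E) : |u| ≤ E ∧ |v| ≤ E := by
  constructor <;> refine abs_le_of_sq_le_sq' ?_ (by linarith) |> abs_le.2 <;>
    nlinarith [sq_nonneg u, sq_nonneg v]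

/-- uniform two-sided bounds for normalized solutions on `[1, R]` -/
lemma large_bounds (d : ℕ) {Q R : ℝ} (hQ : 0 ≤ Q) (hR : 1 ≤ R) :
    ∃ c C, 0 < c ∧ 0 < C ∧ ∀ q φ ψ : ℝ → ℝ, Lin d q φ ψ → (∀ r, |q r| ≤ Q) → φ 0 = 1 →
      ∀ r ∈ Icc 1 R, c ≤ φ r ^ 2 + ψ r ^ 2 ∧ |φ r| ≤ C ∧ |ψ r| ≤ C := by
  set E := Real.exp ((1 + Q) * R) with hE
  have hE1 : 1 ≤ E := Real.one_le_exp (by positivity)
  set r0 := 1 / (2 * E) with hr0
  have hr0p : 0 < r0 := by positivity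
  have hr01 : r0 ≤ 1 := by
    rw [hr0, div_le_one (by positivity)]
    linarith
  refine ⟨r0 ^ (2 * d) / 4 / (R ^ (2 * d) * E), E, by positivity, by positivity,
    fun q φ ψ h hq h0 r hr => ?_⟩
  have hb : ∀ t, 0 ≤ t → t ≤ R → |φ t| ≤ E ∧ |ψ t| ≤ E := fun t ht htR => by
    refine large_abs hE1 ((h.growth hq ht).trans ?_)
    rw [h0, one_pow, one_mul]
    exact Real.exp_le_exp.2 (by gcongr)
  refine ⟨?_, hb r (by linarith [hr.1]) hr.2⟩
  have h1 : -φ r0 - E * r0 ≤ -φ 0 - E * 0 := by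
    refine large_anti (f := fun t => -φ t - E * t) (f' := fun t => -ψ t - E * 1) hr0p.le
      (fun t _ => (h.dw t).neg.sub ((hasDerivAt_id t).const_mul E)) fun t ht => ?_
    have := (abs_le.1 (hb t ht.1 (by linarith [ht.2])).2).1
    linarith
  have h2 : E * r0 = 1 / 2 := by
    rw [hr0]
    field_simp
  have h3 : 1 / 4 ≤ φ r0 ^ 2 + ψ r0 ^ 2 := by
    have : 1 / 2 ≤ φ r0 := by linarith
    nlinarith [sq_nonneg (ψ r0)]
  have h4 := h.lower hq hr0p.le (hr01.trans hr.1)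
  have h5 : 1 ≤ Real.exp ((1 + Q) * r0) := Real.one_le_exp (by positivity)
  have h6 : Real.exp ((1 + Q) * r) ≤ E := Real.exp_le_exp.2 (by gcongr; exact hr.2)
  have h7 : r ^ (2 * d) ≤ R ^ (2 * d) := pow_le_pow_left₀ (by linarith [hr.1]) hr.2 _
  rw [div_le_iff₀ (by positivity)]
  calc r0 ^ (2 * d) / 4 = r0 ^ (2 * d) * (1 / 4) * 1 := by ring
    _ ≤ r0 ^ (2 * d) * (φ r0 ^ 2 + ψ r0 ^ 2) * Real.exp ((1 + Q) * r0) := by gcongr
    _ ≤ _ := h4
    _ ≤ R ^ (2 * d) * (φ r ^ 2 + ψ r ^ 2) * E := by gcongr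
    _ = _ := by ring

/-- the time spent near the zeros of a normalized solution is small -/
lemma large_int (d : ℕ) {Q R : ℝ} (hQ : 0 ≤ Q) (hR : 1 ≤ R) :
    ∃ C, 0 < C ∧ ∀ (q φ ψ I g : ℝ → ℝ) (k x y : ℝ), Lin d q φ ψ → (∀ r, |q r| ≤ Q) → φ 0 = 1 →
      1 ≤ k → (∀ r, HasDerivAt I (g r) r) → (∀ r, g r ≤ 1 / (1 + (k * φ r) ^ 2)) →
      1 ≤ x → x ≤ y → y ≤ R → I y - I x ≤ C / k := by
  obtain ⟨c, C, hc, hC, hb⟩ := large_bounds d hQ hR
  set B := 2 * (Q + d) * C + 1 with hB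
  have hB0 : 0 < B := by positivity
  refine ⟨(4 * C + B * R) / c, by positivity, fun q φ ψ I g k x y h hq h0 hk hI hg hx hxy hy => ?_⟩
  have hk0 : 0 < k := by linarith
  have hat : ∀ u : ℝ, |Real.arctan u| ≤ 2 := fun u => by
    have h1 := Real.arctan_lt_pi_div_two u
    have h2 := Real.neg_pi_div_two_lt_arctan u
    have h3 := Real.pi_le_four
    rw [abs_le]
    constructor <;> linarith
  have hmem : ∀ t ∈ Icc x y, t ∈ Icc 1 R := fun t ht => ⟨hx.trans ht.1, ht.2.trans hy⟩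
  have h1 := large_anti (f := fun t => k * c * I t - Real.arctan (k * φ t) * ψ t - B * t)
    (f' := fun t => k * c * g t - (1 / (1 + (k * φ t) ^ 2) * (k * ψ t) * ψ t
      + Real.arctan (k * φ t) * (q t * φ t - d / t * ψ t)) - B * 1) hxy
    (fun t ht => (((hI t).const_mul _).sub ((((h.dw t).const_mul k).arctan).mul
      (h.dp' (by linarith [ht.1])))).sub ((hasDerivAt_id t).const_mul B)) fun t ht => by
      obtain ⟨b1, b2, b3⟩ := hb q φ ψ h hq h0 t (hmem t ht)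
      have ht1 : 1 ≤ t := hx.trans ht.1
      have e1 : |q t * φ t - d / t * ψ t| ≤ (Q + d) * C := by
        refine (abs_sub _ _).trans ?_
        rw [abs_mul, abs_mul, abs_of_nonneg (show (0 : ℝ) ≤ d / t by positivity), add_mul]
        have : (d : ℝ) / t ≤ d := div_le_self (by positivity) ht1
        gcongr
        exact hq t
      have e2 : |Real.arctan (k * φ t) * (q t * φ t - d / t * ψ t)| ≤ 2 * ((Q + d) * C) := by
        rw [abs_mul]
        gcongr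
        exact hat _
      have e3 : k * c * g t ≤ 1 / (1 + (k * φ t) ^ 2) * (k * ψ t) * ψ t + 1 := by
        have hp : 0 < 1 + (k * φ t) ^ 2 := by positivity
        calc k * c * g t ≤ k * c * (1 / (1 + (k * φ t) ^ 2)) := by gcongr; exact hg t
          _ ≤ k * (φ t ^ 2 + ψ t ^ 2) * (1 / (1 + (k * φ t) ^ 2)) := by gcongr
          _ = 1 / (1 + (k * φ t) ^ 2) * (k * ψ t) * ψ t + k * φ t ^ 2 / (1 + (k * φ t) ^ 2) := by
            ring
          _ ≤ _ := by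
            gcongr
            rw [div_le_one hp]
            nlinarith [mul_nonneg (mul_nonneg hk0.le (sub_nonneg.2 hk)) (sq_nonneg (φ t))]
      have e4 := (abs_le.1 e2).1
      linarith
  have hend : ∀ t ∈ Icc x y, |Real.arctan (k * φ t) * ψ t| ≤ 2 * C := fun t ht => by
    rw [abs_mul]
    gcongr
    · exact hat _
    · exact (hb q φ ψ h hq h0 t (hmem t ht)).2.2
  have h2 := (abs_le.1 (hend x (left_mem_Icc.2 hxy))).1
  have h3 := (abs_le.1 (hend y (right_mem_Icc.2 hxy))).2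
  have h4 : B * y - B * x ≤ B * R := by nlinarith
  rw [div_div, le_div_iff₀ (by positivity)]
  nlinarith

/-- an interval without zeros is short (Riccati angle) -/
lemma large_zero {d : ℕ} {q w p I g : ℝ → ℝ} {κ x y : ℝ} (h : Lin d q w p) (hκ : 0 < κ)
    (hI : ∀ r, HasDerivAt I (g r) r) (hg : ∀ r, 0 ≤ g r) (hq : ∀ r, q r ≤ κ * g r - κ ^ 2)
    (hx : 0 < x) (hd : d ≤ κ * x) (hxy : x ≤ y) (hw : ∀ r ∈ Icc x y, w r ≠ 0) :
    κ / 2 * (y - x) ≤ 4 + (I y - I x) := by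
  have h1 := large_anti (f := fun t => Real.arctan (p t / (κ * w t)) + κ / 2 * t - I t)
    (f' := fun t => 1 / (1 + (p t / (κ * w t)) ^ 2) *
      (((q t * w t - d / t * p t) * (κ * w t) - p t * (κ * p t)) / (κ * w t) ^ 2)
      + κ / 2 * 1 - g t) hxy
    (fun t ht => ((((h.dp' (hx.trans_le ht.1)).div ((h.dw t).const_mul κ)
      (mul_ne_zero hκ.ne' (hw t ht))).arctan).add ((hasDerivAt_id t).const_mul _)).sub (hI t))
    fun t ht => by
      have hwt := hw t ht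
      have ht0 : 0 < t := hx.trans_le ht.1
      have hS : 0 < (κ * w t) ^ 2 + p t ^ 2 := by positivity
      have e : 1 / (1 + (p t / (κ * w t)) ^ 2) *
          (((q t * w t - d / t * p t) * (κ * w t) - p t * (κ * p t)) / (κ * w t) ^ 2)
          = (κ * q t * w t ^ 2 - d / t * (κ * w t * p t) - κ * p t ^ 2)
            / ((κ * w t) ^ 2 + p t ^ 2) := by
        field_simp
      have e1 : (d : ℝ) / t ≤ κ := by
        rw [div_le_iff₀ ht0]
        nlinarith [ht.1]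
      have e0 : (0 : ℝ) ≤ d / t := by positivity
      have e2 : -(d / t * (κ * w t * p t)) ≤ κ / 2 * ((κ * w t) ^ 2 + p t ^ 2) := by
        nlinarith [mul_nonneg e0 (sq_nonneg (κ * w t + p t)), mul_nonneg (sub_nonneg.2 e1) hS.le]
      have e3 : κ * q t * w t ^ 2 ≤ κ * (κ * g t - κ ^ 2) * w t ^ 2 := by gcongr; exact hq t
      have e4 : (κ * q t * w t ^ 2 - d / t * (κ * w t * p t) - κ * p t ^ 2)
          / ((κ * w t) ^ 2 + p t ^ 2) ≤ g t - κ / 2 := by
        rw [div_le_iff₀ hS]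
        nlinarith [mul_nonneg (hg t) (sq_nonneg (p t))]
      rw [e]
      linarith
  have h2 := Real.arctan_lt_pi_div_two (p x / (κ * w x))
  have h3 := Real.neg_pi_div_two_lt_arctan (p y / (κ * w y))
  have h4 := Real.pi_le_four
  linarith

theorem large (d : ℕ) {s l a : ℝ} (h : Par s l a) (Q : ℝ) (K : ℕ) :
    ∃ R0 M, 0 < R0 ∧ 0 < M ∧ ∀ (Z φ ψ q w p : ℝ → ℝ) (A T : ℝ), M ≤ A → R0 ≤ T → Lin d q φ ψ →
      (∀ r, |q r| ≤ Q) → φ 0 = 1 → Continuous Z → (∀ r, (A * φ r) ^ 2 ≤ Z r) →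
      Lin d (fun r => l - a * ff s (Z r)) w p → w 0 ≠ 0 → K ≤ nz w T := by
  have hs := h.hs
  have ha := h.ha
  have hω : 0 < a / s - l := by
    rw [sub_pos, lt_div_iff₀ hs]
    exact h.hlt
  obtain ⟨κ, hκ, eκ⟩ : ∃ κ, 0 < κ ∧ κ ^ 2 = a / s - l :=
    ⟨_, Real.sqrt_pos.2 hω, Real.sq_sqrt hω.le⟩
  obtain ⟨σ, hσ, eσ⟩ : ∃ σ, 0 < σ ∧ σ ^ 2 = s := ⟨_, Real.sqrt_pos.2 hs, Real.sq_sqrt hs.le⟩
  set x0 := 1 + d / κ with hx0
  set L := 12 / κ + 2 with hL
  set b := a / (s * κ) with hb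
  have hb0 : 0 < b := by positivity
  have hL0 : 0 < L := by positivity
  have hx1 : 1 ≤ x0 := le_add_of_nonneg_right (by positivity)
  have hR : 1 ≤ x0 + (K + 1) * L := hx1.trans (le_add_of_nonneg_right (by positivity))
  obtain ⟨C, hC, hint⟩ := large_int d (abs_nonneg Q) hR
  refine ⟨x0 + (K + 1) * L, (1 + b * C) / σ, by positivity, by positivity,
    fun Z φ ψ q w p A T hA hT hφ hq h0 cZ hZ hw hw0 => ?_⟩
  have hZ0 : ∀ r, 0 ≤ Z r := fun r => (sq_nonneg _).trans (hZ r)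
  have hk : 1 + b * C ≤ σ * A := by
    rw [div_le_iff₀ hσ] at hA
    linarith
  have hk1 : 1 ≤ σ * A := le_trans (le_add_of_nonneg_right (by positivity)) hk
  have hpos : ∀ r, 0 < 1 + s * Z r := fun r => by have := hZ0 r; positivity
  have cg : Continuous fun r => 1 / (1 + s * Z r) :=
    continuous_const.div (by fun_prop) fun r => (hpos r).ne'
  have hI : ∀ r, HasDerivAt (fun r => ∫ t in (0 : ℝ)..r, 1 / (1 + s * Z t)) (1 / (1 + s * Z r)) r :=
    fun r => (cg.integral_hasStrictDerivAt 0 r).hasDerivAt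
  have hfin := hw.finite (fun r => q_bound h (hZ0 r)) hw0 T
  have key := count_lower hfin (x := x0) (y := x0 + (K + 1) * L) hL0 fun t ht htL => by
    by_contra hne
    have hκL : 0 ≤ 12 / κ := by positivity
    have hnz : ∀ r ∈ Icc (t + 1) (t + 1 + 12 / κ), w r ≠ 0 := fun r hr hr0 =>
      hne ⟨r, ⟨⟨by linarith [hr.1], by linarith [hr.2]⟩, hr0⟩, by linarith [hr.1],
        by linarith [hr.2]⟩
    have h1 := large_zero (κ := κ) hw hκ (fun r => (hI r).const_mul b)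
      (fun r => by have := hpos r; positivity) (fun r => by
        have h1 := (hpos r).ne'
        have e1 : ff s (Z r) = 1 / s - 1 / s * (1 / (1 + s * Z r)) := by
          unfold ff
          rw [div_eq_iff h1, sub_mul, mul_assoc, one_div_mul_cancel h1]
          field_simp
          ring
        rw [eκ, hb, e1]
        refine le_of_eq ?_
        generalize 1 / (1 + s * Z r) = z
        field_simp
        ring) (by linarith) (by
        have e : κ * x0 = κ + d := by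
          rw [hx0]
          field_simp
        nlinarith) (by linarith) hnz
    have h2 := hint q φ ψ _ _ (σ * A) (t + 1) (t + 1 + 12 / κ) hφ
      (fun r => (hq r).trans (le_abs_self Q)) h0 hk1 hI (fun r => by
        refine one_div_le_one_div_of_le (by positivity) ?_
        rw [mul_assoc, mul_pow, eσ]
        gcongr
        exact hZ r) (by linarith) (by linarith) (by linarith)
    have h3 : b * (C / (σ * A)) ≤ 1 := by
      rw [← mul_div_assoc, div_le_one (by linarith)]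
      linarith
    have h4 : κ / 2 * (t + 1 + 12 / κ - (t + 1)) = 6 := by
      field_simp
      ring
    have h5 := mul_le_mul_of_nonneg_left h2 hb0.le
    rw [mul_sub] at h5
    linarith
  have e : (x0 + (K + 1) * L - x0) / L - 1 = K := by
    field_simp
    ring
  rw [e] at key
  exact_mod_cast key

end Pool.Agent.MP_67db61_an.Cls

/-!
The Pruefer angle counts zeros.
-/

namespace Pool.Agent.MP_67db61_an.Cls

open Set Filter Topology MeasureTheory

variable {w p θ ρ : ℝ → ℝ}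

lemma angle_local (hw : ∀ r, HasDerivAt w (p r) r) (cθ : Continuous θ)
    (h : ∀ r, 0 ≤ r → 0 < ρ r ∧ w r = ρ r * Real.sin (θ r) ∧ p r = ρ r * Real.cos (θ r))
    {x : ℝ} (hx : 0 ≤ x) (m : ℕ) (hm : θ x = m * Real.pi) :
    ∀ᶠ r in 𝓝[≠] x, 0 ≤ r → 0 < (θ r - m * Real.pi) * (r - x) := by
  have hw0 : w x = 0 := by rw [(h x hx).2.1, hm, Real.sin_nat_mul_pi, mul_zero]
  have hp : 0 < (-1) ^ m * p x := by
    rw [(h x hx).2.2, hm, Real.cos_nat_mul_pi, mul_left_comm, ← mul_pow]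
    simpa using (h x hx).1
  have h1 := (hasDerivAt_iff_tendsto_slope.1 ((hw x).const_mul ((-1) ^ m))).eventually
    (lt_mem_nhds hp)
  have h2 : ∀ᶠ r in 𝓝 x, |θ r - m * Real.pi| < Real.pi :=
    ContinuousAt.eventually_lt (by fun_prop) continuousAt_const (by simpa [hm] using Real.pi_pos)
  filter_upwards [h1, nhdsWithin_le_nhds h2, self_mem_nhdsWithin] with r h3 h4 h5 hr
  have h6 : Real.sin (θ r - m * Real.pi) = (-1) ^ m * Real.sin (θ r) := by
    rw [Real.sin_sub_nat_mul_pi]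
  rw [slope_def_field, hw0, mul_zero, sub_zero, (h r hr).2.1, mul_left_comm, ← h6, mul_div_assoc,
    mul_pos_iff_of_pos_left (h r hr).1, div_pos_iff] at h3
  rw [abs_lt] at h4
  rcases h3 with ⟨h7, h8⟩ | ⟨h7, h8⟩
  · refine mul_pos (lt_of_not_ge fun h9 => ?_) h8
    linarith [Real.sin_nonpos_of_nonpos_of_neg_pi_le h9 h4.1.le]
  · refine mul_pos_of_neg_of_neg (lt_of_not_ge fun h9 => ?_) h8
    linarith [Real.sin_nonneg_of_nonneg_of_le_pi h9 h4.2.le]

theorem angle_up (hw : ∀ r, HasDerivAt w (p r) r) (cθ : Continuous θ)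
    (h : ∀ r, 0 ≤ r → 0 < ρ r ∧ w r = ρ r * Real.sin (θ r) ∧ p r = ρ r * Real.cos (θ r))
    {x y : ℝ} (hx : 0 ≤ x) (hxy : x < y) (m : ℕ) (hm : m * Real.pi ≤ θ x) :
    m * Real.pi < θ y := by
  have H : Icc x y ⊆ {r | m * Real.pi ≤ θ r} := by
    refine IsClosed.Icc_subset_of_forall_exists_gt
      ((isClosed_le continuous_const cθ).inter isClosed_Icc) hm fun r hr t ht => ?_
    have hr0 : 0 ≤ r := hx.trans hr.2.1
    have : ∀ᶠ u in 𝓝[>] r, m * Real.pi ≤ θ u := by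
      rcases (show m * Real.pi ≤ θ r from hr.1).eq_or_lt with e | e
      · filter_upwards [nhdsGT_le_nhdsNE r (angle_local hw cθ h hr0 m e.symm),
          self_mem_nhdsWithin] with u hu hu'
        have := (mul_pos_iff_of_pos_right (sub_pos.2 hu')).1 (hu (hr0.trans (le_of_lt hu')))
        linarith
      · exact nhdsWithin_le_nhds ((cθ.continuousAt.eventually (lt_mem_nhds e)).mono
          fun u hu => hu.le)
    obtain ⟨u, h1, h2⟩ := (this.and (Ioc_mem_nhdsGT ht)).exists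
    exact ⟨u, h1, h2⟩
  refine lt_of_le_of_ne (H (right_mem_Icc.2 hxy.le)) fun e => ?_
  obtain ⟨u, h1, h2⟩ := (((angle_local hw cθ h (hx.trans hxy.le) m e.symm).filter_mono
    (nhdsLT_le_nhdsNE y)).and (Ioo_mem_nhdsLT hxy)).exists
  have h3 : m * Real.pi ≤ θ u := H ⟨h2.1.le, h2.2.le⟩
  nlinarith [h1 (hx.trans h2.1.le), h2.2]

theorem angle_nz (hw : ∀ r, HasDerivAt w (p r) r) (cθ : Continuous θ)
    (h : ∀ r, 0 ≤ r → 0 < ρ r ∧ w r = ρ r * Real.sin (θ r) ∧ p r = ρ r * Real.cos (θ r))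
    (h0 : θ 0 = Real.pi / 2) {T : ℝ} (hT : 0 ≤ T) (m : ℕ) :
    m ≤ nz w T ↔ m * Real.pi ≤ θ T := by
  have hπ := Real.pi_pos
  have pos : ∀ r, 0 ≤ r → 0 < θ r := fun r hr => by
    rcases hr.eq_or_lt with rfl | hr
    · rw [h0]; positivity
    · simpa using angle_up hw cθ h le_rfl hr 0 (by rw [h0]; simp; positivity)
  have int : ∀ r ∈ {r | r ∈ Ioc 0 T ∧ w r = 0}, ∃ j : ℕ, 1 ≤ j ∧ θ r = j * Real.pi := by
    intro r hr
    have h1 := (h r hr.1.1.le).2.1
    rw [hr.2, eq_comm, mul_eq_zero, Real.sin_eq_zero_iff] at h1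
    obtain ⟨j, hj⟩ := h1.resolve_left (h r hr.1.1.le).1.ne'
    have h2 : (0 : ℝ) < j := (mul_pos_iff_of_pos_right hπ).1 (hj ▸ pos r hr.1.1.le)
    have h3 : 0 < j := by exact_mod_cast h2
    lift j to ℕ using h3.le
    exact ⟨j, by exact_mod_cast h3, by exact_mod_cast hj.symm⟩
  choose! j hj1 hj using int
  have inj : InjOn j {r | r ∈ Ioc 0 T ∧ w r = 0} := fun a ha b hb e => by
    rcases lt_trichotomy a b with h1 | h1 | h1
    · have := angle_up hw cθ h ha.1.1.le h1 (j a) (hj a ha).ge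
      rw [hj b hb, e] at this
      exact absurd this (lt_irrefl _)
    · exact h1
    · have := angle_up hw cθ h hb.1.1.le h1 (j b) (hj b hb).ge
      rw [hj a ha, e] at this
      exact absurd this (lt_irrefl _)
  have maps : ∀ r ∈ {r | r ∈ Ioc 0 T ∧ w r = 0}, j r ∈ (Finset.Icc 1 ⌊θ T / Real.pi⌋₊ : Set ℕ) := by
    intro r hr
    rw [Finset.coe_Icc]
    refine ⟨hj1 r hr, Nat.le_floor ((le_div_iff₀ hπ).2 ?_)⟩
    rcases hr.1.2.eq_or_lt with e | e
    · rw [← hj r hr, e]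
    · exact (angle_up hw cθ h hr.1.1.le e (j r) (hj r hr).ge).le
  constructor
  · intro hm
    have h1 := hm.trans (Set.ncard_le_ncard_of_injOn j maps inj (Finset.finite_toSet _))
    rw [Set.ncard_coe_finset, Nat.card_Icc, Nat.add_sub_cancel,
      Nat.le_floor_iff (div_pos (pos T hT) hπ).le, le_div_iff₀ hπ] at h1
    exact h1
  · intro hm
    have ex : ∀ i ∈ (Finset.Icc 1 m : Set ℕ), ∃ r ∈ {r | r ∈ Ioc 0 T ∧ w r = 0},
        θ r = i * Real.pi := by
      intro i hi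
      rw [Finset.coe_Icc] at hi
      have h1 : (1 : ℝ) ≤ i := by exact_mod_cast hi.1
      have h2 : (i : ℝ) ≤ m := by exact_mod_cast hi.2
      obtain ⟨r, hr, e⟩ := intermediate_value_Ioc hT cθ.continuousOn
        (show i * Real.pi ∈ Ioc (θ 0) (θ T) from ⟨by rw [h0]; nlinarith, by nlinarith⟩)
      exact ⟨r, ⟨hr, by rw [(h r hr.1.le).2.1, e, Real.sin_nat_mul_pi, mul_zero]⟩, e⟩
    choose! g hg hg' using ex
    have := Set.ncard_le_ncard_of_injOn g hg (fun a ha b hb e => by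
      have h1 := hg' a ha
      rw [e, hg' b hb] at h1
      exact_mod_cast (mul_right_cancel₀ hπ.ne' h1).symm)
      (Set.Finite.of_injOn maps inj (Finset.finite_toSet _))
    simpa [nz] using this

theorem exists_angle {w p : ℝ × ℝ → ℝ → ℝ} (cw : Continuous fun x : (ℝ × ℝ) × ℝ => w x.1 x.2)
    (cp : Continuous fun x : (ℝ × ℝ) × ℝ => p x.1 x.2)
    (hne : ∀ x r, 0 ≤ r → w x r = 0 → p x r ≠ 0) (h0 : ∀ x, w x 0 = 1) (hp : ∀ x, p x 0 = 0) :
    ∃ θ ρ : ℝ × ℝ → ℝ → ℝ, (Continuous fun x : (ℝ × ℝ) × ℝ => θ x.1 x.2) ∧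
      (∀ x, θ x 0 = Real.pi / 2) ∧ ∀ x r, 0 ≤ r →
        0 < ρ x r ∧ w x r = ρ x r * Real.sin (θ x r) ∧ p x r = ρ x r * Real.cos (θ x r) := by
  have c1 := cw.comp (f := fun x : (ℝ × ℝ) × ℝ => (x.1, max x.2 0)) (by fun_prop)
  have c2 := cp.comp (f := fun x : (ℝ × ℝ) × ℝ => (x.1, max x.2 0)) (by fun_prop)
  obtain ⟨ω, cω, hω⟩ := Pool.Agent.Lib.PlaneTop.hasLogOn_of_convex
    (F := fun x : (ℝ × ℝ) × ℝ => (w x.1 (max x.2 0) : ℂ) - (p x.1 (max x.2 0) : ℂ) * Complex.I)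
    convex_univ ((Complex.continuous_ofReal.comp c1).sub
      ((Complex.continuous_ofReal.comp c2).mul continuous_const)).continuousOn
    fun x _ e => hne x.1 _ (le_max_right _ _) (by simpa using congrArg Complex.re e)
      (by simpa using congrArg Complex.im e)
  rw [continuousOn_univ] at cω
  have e0 : ∀ x, Complex.exp (ω (x, 0)) = 1 := fun x => by simp [hω _ (mem_univ _), h0, hp]
  have e1 : ∀ x, ω (x, 0) = ω (0, 0) := fun x => by
    simpa using Pool.Agent.Lib.PlaneTop.log_sub_const (ω := fun x : ℝ × ℝ => ω (x, 0))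
      (ω' := fun _ => 0) isPreconnected_univ
      (cω.comp (f := fun x : ℝ × ℝ => (x, (0 : ℝ))) (by fun_prop)).continuousOn continuousOn_const
      (fun x _ => by simp [e0]) (mem_univ x) (mem_univ 0)
  refine ⟨fun x r => (ω (x, r) - ω (0, 0)).im + Real.pi / 2,
    fun x r => Real.exp (ω (x, r) - ω (0, 0)).re, by fun_prop, fun x => by simp [e1 x],
    fun x r hr => ⟨Real.exp_pos _, ?_⟩⟩
  have e2 : Complex.exp (ω (x, r) - ω (0, 0)) = w x r - p x r * Complex.I := by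
    rw [Complex.exp_sub, e0, div_one, hω _ (mem_univ _)]
    simp only [max_eq_left hr]
  rw [Real.sin_add_pi_div_two, Real.cos_add_pi_div_two, mul_neg, ← Complex.exp_re,
    ← Complex.exp_im, e2]
  simp

end Pool.Agent.MP_67db61_an.Cls

/-!
The two-parameter family of normalized radial solutions.
-/

namespace Pool.Agent.MP_67db61_an.Cls

open Set Filter Topology MeasureTheory

theorem exist_fixed {Λ : Type*} [TopologicalSpace Λ] (k : ℕ) {B C : ℝ} (hC : 0 < C)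
    (N : Λ × ℝ → ℝ × ℝ → ℝ × ℝ) (hN : Continuous fun p : (Λ × ℝ) × (ℝ × ℝ) => N p.1 p.2)
    (hB : ∀ p, ‖N p 0‖ ≤ B) (hL : ∀ p m m', dist (N p m) (N p m') ≤ C * dist m m') :
    ∃ g : Λ → ℝ → ℝ × ℝ, (Continuous fun p : Λ × ℝ => g p.1 p.2) ∧ ∀ l t,
      g l t = N (l, t) (Yof k 0 (fun x => (g l x).1) (max t 0),
        Yof k 0 (fun x => (g l x).2) (max t 0)) := by
  let G : BoundedContinuousFunction (Λ × ℝ) (ℝ × ℝ) → Λ → ℝ → ℝ × ℝ :=
    fun w l t => Real.exp (C * max t 0) • w (l, t)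
  have hG : ∀ w, Continuous fun p : Λ × ℝ => G w p.1 p.2 := fun w => by
    have := w.continuous
    simp only [G]
    fun_prop
  let M : BoundedContinuousFunction (Λ × ℝ) (ℝ × ℝ) → Λ × ℝ → ℝ × ℝ := fun w p =>
    (Yof k 0 (fun x => (G w p.1 x).1) (max p.2 0), Yof k 0 (fun x => (G w p.1 x).2) (max p.2 0))
  have hM : ∀ w, Continuous (M w) := fun w =>
    ((continuous_Yof k 0 (G := fun l x => (G w l x).1) (hG w).fst).comp
      (f := fun p : Λ × ℝ => (p.1, max p.2 0)) (by fun_prop)).prodMk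
    ((continuous_Yof k 0 (G := fun l x => (G w l x).2) (hG w).snd).comp
      (f := fun p : Λ × ℝ => (p.1, max p.2 0)) (by fun_prop))
  have key : ∀ w w' p, Real.exp (-(C * max p.2 0)) * dist (N p (M w p)) (N p (M w' p))
      ≤ 1 / 2 * dist w w' := fun w w' p => by
    have hl : ∀ w : BoundedContinuousFunction (Λ × ℝ) (ℝ × ℝ), Continuous (G w p.1) := fun w =>
      (hG w).comp (f := fun x : ℝ => (p.1, x)) (by fun_prop)
    have hd : ∀ x, 0 ≤ x → dist (G w p.1 x) (G w' p.1 x) ≤ dist w w' * Real.exp (C * x) := by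
      intro x hx
      simp only [G]
      rw [dist_smul₀, max_eq_left hx, Real.norm_eq_abs, abs_of_pos (Real.exp_pos _), mul_comm]
      exact mul_le_mul_of_nonneg_right (BoundedContinuousFunction.dist_coe_le_dist _)
        (Real.exp_pos _).le
    have h1 := Yof_lip k 0 (hl w).fst (hl w').fst hC dist_nonneg
      (fun x hx => le_trans (by rw [← Real.dist_eq, Prod.dist_eq]; exact le_max_left _ _)
        (hd x hx)) (le_max_right p.2 0)
    have h2 := Yof_lip k 0 (hl w).snd (hl w').snd hC dist_nonneg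
      (fun x hx => le_trans (by rw [← Real.dist_eq, Prod.dist_eq]; exact le_max_right _ _)
        (hd x hx)) (le_max_right p.2 0)
    have h3 : dist (M w p) (M w' p) ≤ dist w w' * Real.exp (C * max p.2 0) / (2 * C) := by
      rw [Prod.dist_eq]
      exact max_le h1 h2
    have h4 := (hL p _ _).trans (mul_le_mul_of_nonneg_left h3 hC.le)
    refine (mul_le_mul_of_nonneg_left h4 (Real.exp_pos _).le).trans (le_of_eq ?_)
    rw [Real.exp_neg]
    field_simp
  have hM0 : ∀ p, M 0 p = 0 := fun p => by simp [M, G, Yof, I1]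
  let Φ : BoundedContinuousFunction (Λ × ℝ) (ℝ × ℝ) → BoundedContinuousFunction (Λ × ℝ) (ℝ × ℝ) :=
    fun w => BoundedContinuousFunction.ofNormedAddCommGroup
      (fun p => Real.exp (-(C * max p.2 0)) • N p (M w p))
      ((by fun_prop : Continuous fun p : Λ × ℝ => Real.exp (-(C * max p.2 0))).smul
        (hN.comp (f := fun p : Λ × ℝ => (p, M w p)) (continuous_id.prodMk (hM w))))
      (1 / 2 * dist w 0 + B)
      (fun p => by
        rw [norm_smul, Real.norm_eq_abs, abs_of_pos (Real.exp_pos _)]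
        have h1 := key w 0 p
        rw [hM0, dist_eq_norm] at h1
        have h2 : Real.exp (-(C * max p.2 0)) ≤ 1 :=
          Real.exp_le_one_iff.2 (neg_nonpos.2 (mul_nonneg hC.le (le_max_right _ _)))
        have h3 := norm_le_norm_sub_add (N p (M w p)) (N p 0)
        have h4 := hB p
        nlinarith [norm_nonneg (N p 0), Real.exp_pos (-(C * max p.2 0))])
  have hΦ : ContractingWith (1 / 2) Φ := by
    refine ⟨by norm_num, LipschitzWith.of_dist_le_mul fun w w' => ?_⟩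
    refine (BoundedContinuousFunction.dist_le (by positivity)).2 fun p => ?_
    change dist (Real.exp (-(C * max p.2 0)) • N p (M w p))
      (Real.exp (-(C * max p.2 0)) • N p (M w' p)) ≤ _
    rw [dist_smul₀, Real.norm_eq_abs, abs_of_pos (Real.exp_pos _)]
    push_cast
    exact key w w' p
  let w := ContractingWith.fixedPoint Φ hΦ
  have hw : Φ w = w := hΦ.fixedPoint_isFixedPt
  refine ⟨G w, hG w, fun l t => ?_⟩
  have h1 : w (l, t) = Real.exp (-(C * max t 0)) • N (l, t) (M w (l, t)) := by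
    conv_lhs => rw [← hw]
    rfl
  change Real.exp (C * max t 0) • w (l, t) = N (l, t) (M w (l, t))
  rw [h1, smul_smul, ← Real.exp_add, add_neg_cancel, Real.exp_zero, one_smul]

lemma exist_lin {k : ℕ} (a : ℝ) {G q : ℝ → ℝ} (hG : Continuous G) (hq : Continuous q)
    (hGq : ∀ r, G (r ^ 2) = q r * (a + Yof k 0 G (r ^ 2))) :
    Lin k q (fun r => a + Yof k 0 G (r ^ 2)) (fun r => 2 * r * I1 k G (r ^ 2)) where
  dw r := ((HasDerivAt.comp (h₂ := Yof k 0 G) (h := fun x : ℝ => x ^ 2) r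
    (hasDerivAt_Yof k 0 hG (r ^ 2)) (hasDerivAt_pow 2 r)).const_add a).congr_deriv
      (by push_cast; ring)
  dp r := by
    simp only [flux_eq, ← hGq]
    exact ((show Continuous fun x : ℝ => x ^ k * G (x ^ 2) by
      fun_prop).integral_hasStrictDerivAt 0 r).hasDerivAt
  cp := by have := continuous_I1' k hG; fun_prop
  cq := hq
  p0 := by simp

lemma exist_lip {s : ℝ} (hs : 0 < s) {U W U' W' δ : ℝ} (h1 : |U - U'| ≤ δ) (h2 : |W - W'| ≤ δ) :
    |ff s (U ^ 2 + W ^ 2) * U - ff s (U' ^ 2 + W' ^ 2) * U'| ≤ 4 / s * δ := by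
  have hδ : 0 ≤ δ := (abs_nonneg _).trans h1
  obtain ⟨Z, hZ⟩ : ∃ Z, Z = U ^ 2 + W ^ 2 := ⟨_, rfl⟩
  obtain ⟨Z', hZ'⟩ : ∃ Z, Z = U' ^ 2 + W' ^ 2 := ⟨_, rfl⟩
  have z0 : 0 ≤ Z := by rw [hZ]; positivity
  have z0' : 0 ≤ Z' := by rw [hZ']; positivity
  have e1 : |Z - Z'| ≤ (|U| + |U'| + |W| + |W'|) * δ := by
    rw [show Z - Z' = (U + U') * (U - U') + (W + W') * (W - W') by rw [hZ, hZ']; ring]
    refine (abs_add_le _ _).trans ?_
    rw [abs_mul, abs_mul]
    have a1 := mul_le_mul (abs_add_le U U') h1 (abs_nonneg _) (by positivity)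
    have a2 := mul_le_mul (abs_add_le W W') h2 (abs_nonneg _) (by positivity)
    linarith
  have e2 : (|U| + |U'| + |W| + |W'|) * |U'| ≤ 3 * (Z + Z') := by
    rw [hZ, hZ', ← sq_abs U, ← sq_abs W, ← sq_abs U', ← sq_abs W']
    nlinarith [sq_nonneg (|U| - |U'|), sq_nonneg (|W| - |U'|), sq_nonneg (|W'| - |U'|),
      sq_nonneg |U|, sq_nonneg |W|, sq_nonneg |W'|, sq_nonneg |U'|]
  have e3 : |(ff s Z - ff s Z') * U'| ≤ 3 / s * δ := by
    have hp : 0 < (1 + s * Z) * (1 + s * Z') := by positivity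
    have e4 : (ff s Z - ff s Z') * U' = (Z - Z') * U' / ((1 + s * Z) * (1 + s * Z')) := by
      unfold ff
      field_simp
      ring
    rw [e4, abs_div, abs_of_pos hp, div_le_iff₀ hp, abs_mul]
    have a1 := mul_le_mul_of_nonneg_right e1 (abs_nonneg U')
    have a2 := mul_le_mul_of_nonneg_right e2 hδ
    have a3 : 3 * (Z + Z') * δ ≤ 3 / s * δ * ((1 + s * Z) * (1 + s * Z')) := by
      rw [show 3 / s * δ * ((1 + s * Z) * (1 + s * Z'))
        = 3 * (Z + Z') * δ + 3 / s * δ * (1 + s * Z * (s * Z')) by field_simp; ring]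
      exact le_add_of_nonneg_right (by positivity)
    nlinarith
  have e5 : |ff s Z * (U - U')| ≤ 1 / s * δ := by
    rw [abs_mul, abs_of_nonneg (ff_nonneg hs z0)]
    exact mul_le_mul (ff_le' hs z0) h1 (abs_nonneg _) (by positivity)
  rw [← hZ, ← hZ', show ff s Z * U - ff s Z' * U' = ff s Z * (U - U') + (ff s Z - ff s Z') * U' by
    ring]
  refine (abs_add_le _ _).trans ((add_le_add e5 e3).trans (le_of_eq ?_))
  ring

lemma exist_lip' {s l a : ℝ} (h : Par s l a) {U W U' W' δ : ℝ} (h1 : |U - U'| ≤ δ)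
    (h2 : |W - W'| ≤ δ) : |(l - a * ff s (U ^ 2 + W ^ 2)) * U -
      (l - a * ff s (U' ^ 2 + W' ^ 2)) * U'| ≤ (l + a * (4 / s)) * δ := by
  rw [show (l - a * ff s (U ^ 2 + W ^ 2)) * U - (l - a * ff s (U' ^ 2 + W' ^ 2)) * U' =
    l * (U - U') - a * (ff s (U ^ 2 + W ^ 2) * U - ff s (U' ^ 2 + W' ^ 2) * U') by ring]
  refine (abs_sub _ _).trans ?_
  rw [abs_mul, abs_mul, abs_of_pos h.hl, abs_of_pos h.ha, add_mul, mul_assoc a]
  exact add_le_add (mul_le_mul_of_nonneg_left h1 h.hl.le)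
    (mul_le_mul_of_nonneg_left (exist_lip h.hs h1 h2) h.ha.le)

lemma exist_fst (a : ℝ) (m m' : ℝ × ℝ) : |a + m.1 - (a + m'.1)| ≤ dist m m' := by
  rw [add_sub_add_left_eq_sub, ← Real.dist_eq, Prod.dist_eq]
  exact le_max_left _ _

lemma exist_snd (a : ℝ) (m m' : ℝ × ℝ) : |a + m.2 - (a + m'.2)| ≤ dist m m' := by
  rw [add_sub_add_left_eq_sub, ← Real.dist_eq, Prod.dist_eq]
  exact le_max_right _ _

theorem exists_family (d : ℕ) {s l1 a1 l2 a2 : ℝ} (h1 : Par s l1 a1) (h2 : Par s l2 a2)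
    {A B : ℝ × ℝ → ℝ} (cA : Continuous A) (cB : Continuous B) {M : ℝ} (hA : ∀ x, |A x| ≤ M)
    (hB : ∀ x, |B x| ≤ M) :
    ∃ φ1 ψ1 φ2 ψ2 : ℝ × ℝ → ℝ → ℝ, (Continuous fun x : (ℝ × ℝ) × ℝ => φ1 x.1 x.2) ∧
      (Continuous fun x : (ℝ × ℝ) × ℝ => ψ1 x.1 x.2) ∧
      (Continuous fun x : (ℝ × ℝ) × ℝ => φ2 x.1 x.2) ∧
      (Continuous fun x : (ℝ × ℝ) × ℝ => ψ2 x.1 x.2) ∧ ∀ x, φ1 x 0 = 1 ∧ φ2 x 0 = 1 ∧
        Lin d (fun r => l1 - a1 * ff s ((A x * φ1 x r) ^ 2 + (B x * φ2 x r) ^ 2)) (φ1 x) (ψ1 x) ∧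
        Lin d (fun r => l2 - a2 * ff s ((A x * φ1 x r) ^ 2 + (B x * φ2 x r) ^ 2)) (φ2 x) (ψ2 x) := by
  have hs := h1.hs
  have p1 : 0 < l1 + a1 * (4 / s) := by have := h1.hl; have := h1.ha; positivity
  have p2 : 0 < l2 + a2 * (4 / s) := by have := h2.hl; have := h2.ha; positivity
  have p3 : 0 < l1 + a1 / s := by have := h1.hl; have := h1.ha; positivity
  have p4 : 0 < l2 + a2 / s := by have := h2.hl; have := h2.ha; positivity
  have cf : Continuous fun p : ((ℝ × ℝ) × ℝ) × (ℝ × ℝ) =>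
      ff s ((A p.1.1 + p.2.1) ^ 2 + (B p.1.1 + p.2.2) ^ 2) :=
    continuous_ff' hs (by fun_prop) fun _ => by positivity
  obtain ⟨g, cg, hg⟩ := exist_fixed (Λ := ℝ × ℝ) d
    (B := (l1 + a1 / s) * M + (l2 + a2 / s) * M) (add_pos p1 p2)
    (fun p m => ((l1 - a1 * ff s ((A p.1 + m.1) ^ 2 + (B p.1 + m.2) ^ 2)) * (A p.1 + m.1),
      (l2 - a2 * ff s ((A p.1 + m.1) ^ 2 + (B p.1 + m.2) ^ 2)) * (B p.1 + m.2)))
    (by fun_prop)
    (fun p => by
      have hM : 0 ≤ M := (abs_nonneg _).trans (hA p.1)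
      rw [Prod.norm_mk, Prod.fst_zero, Prod.snd_zero, add_zero, add_zero, Real.norm_eq_abs,
        Real.norm_eq_abs, abs_mul, abs_mul]
      exact max_le ((mul_le_mul (q_bound h1 (by positivity)) (hA _) (abs_nonneg _) p3.le).trans
        (le_add_of_nonneg_right (by positivity)))
        ((mul_le_mul (q_bound h2 (by positivity)) (hB _) (abs_nonneg _) p4.le).trans
        (le_add_of_nonneg_left (by positivity))))
    (fun p m m' => by
      rw [Prod.dist_eq, Real.dist_eq, Real.dist_eq, add_mul]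
      refine max_le ((exist_lip' h1 (exist_fst _ m m') (exist_snd _ m m')).trans
        (le_add_of_nonneg_right (by positivity))) ?_
      rw [add_comm ((A p.1 + m.1) ^ 2), add_comm ((A p.1 + m'.1) ^ 2)]
      exact (exist_lip' h2 (exist_snd _ m m') (exist_fst _ m m')).trans
        (le_add_of_nonneg_left (by positivity)))
  obtain ⟨Z, hZ⟩ : ∃ Z : (ℝ × ℝ) × ℝ → ℝ, Z = fun p =>
      (A p.1 + Yof d 0 (fun x => (g p.1 x).1) (max p.2 0)) ^ 2 +
        (B p.1 + Yof d 0 (fun x => (g p.1 x).2) (max p.2 0)) ^ 2 := ⟨_, rfl⟩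
  have Z0 : ∀ p, 0 ≤ Z p := fun p => by rw [hZ]; positivity
  have cZ : Continuous Z := by
    have c1 := (continuous_Yof d 0 (G := fun l x => (g l x).1) cg.fst).comp
      (f := fun p : (ℝ × ℝ) × ℝ => (p.1, max p.2 0)) (by fun_prop)
    have c2 := (continuous_Yof d 0 (G := fun l x => (g l x).2) cg.snd).comp
      (f := fun p : (ℝ × ℝ) × ℝ => (p.1, max p.2 0)) (by fun_prop)
    rw [hZ]
    exact (((cA.comp continuous_fst).add c1).pow 2).add (((cB.comp continuous_fst).add c2).pow 2)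
  have cf' : Continuous fun p => ff s (Z p) := continuous_ff' hs cZ Z0
  obtain ⟨u, cu, hu⟩ := exist_fixed (Λ := ℝ × ℝ) d
    (B := (l1 + a1 / s) + (l2 + a2 / s)) (add_pos p3 p4)
    (fun p m => ((l1 - a1 * ff s (Z p)) * (1 + m.1), (l2 - a2 * ff s (Z p)) * (1 + m.2)))
    (by
      have : Continuous fun p : ((ℝ × ℝ) × ℝ) × (ℝ × ℝ) => ff s (Z p.1) := cf'.comp continuous_fst
      fun_prop)
    (fun p => by
      rw [Prod.norm_mk, Prod.fst_zero, Prod.snd_zero, add_zero, mul_one, mul_one, Real.norm_eq_abs,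
        Real.norm_eq_abs]
      exact max_le ((q_bound h1 (Z0 p)).trans (le_add_of_nonneg_right p4.le))
        ((q_bound h2 (Z0 p)).trans (le_add_of_nonneg_left p3.le)))
    (fun p m m' => by
      rw [Prod.dist_eq, Real.dist_eq, Real.dist_eq, ← mul_sub, ← mul_sub, abs_mul, abs_mul]
      exact max_le (mul_le_mul ((q_bound h1 (Z0 p)).trans (le_add_of_nonneg_right p4.le))
        (exist_fst _ m m') (abs_nonneg _) (by positivity))
        (mul_le_mul ((q_bound h2 (Z0 p)).trans (le_add_of_nonneg_left p3.le))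
        (exist_snd _ m m') (abs_nonneg _) (by positivity)))
  refine ⟨fun x r => 1 + Yof d 0 (fun t => (u x t).1) (r ^ 2),
    fun x r => 2 * r * I1 d (fun t => (u x t).1) (r ^ 2),
    fun x r => 1 + Yof d 0 (fun t => (u x t).2) (r ^ 2),
    fun x r => 2 * r * I1 d (fun t => (u x t).2) (r ^ 2),
    continuous_const.add ((continuous_Yof d 0 (G := fun l x => (u l x).1) cu.fst).comp
      (f := fun p : (ℝ × ℝ) × ℝ => (p.1, p.2 ^ 2)) (by fun_prop)),
    (continuous_const.mul continuous_snd).mul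
      ((continuous_I1 d (G := fun l x => (u l x).1) cu.fst).comp
        (f := fun p : (ℝ × ℝ) × ℝ => (p.1, p.2 ^ 2)) (by fun_prop)),
    continuous_const.add ((continuous_Yof d 0 (G := fun l x => (u l x).2) cu.snd).comp
      (f := fun p : (ℝ × ℝ) × ℝ => (p.1, p.2 ^ 2)) (by fun_prop)),
    (continuous_const.mul continuous_snd).mul
      ((continuous_I1 d (G := fun l x => (u l x).2) cu.snd).comp
        (f := fun p : (ℝ × ℝ) × ℝ => (p.1, p.2 ^ 2)) (by fun_prop)), fun x => ?_⟩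
  have cgx : Continuous (g x) := cg.comp (f := fun t : ℝ => (x, t)) (by fun_prop)
  have cux : Continuous (u x) := cu.comp (f := fun t : ℝ => (x, t)) (by fun_prop)
  have cq : Continuous fun r : ℝ => ff s (Z (x, r ^ 2)) :=
    cf'.comp (f := fun r : ℝ => (x, r ^ 2)) (by fun_prop)
  have m2 : ∀ r : ℝ, max (r ^ 2) 0 = r ^ 2 := fun r => max_eq_left (sq_nonneg r)
  have L1 := exist_lin (k := d) 1 (q := fun r => l1 - a1 * ff s (Z (x, r ^ 2))) cux.fst
    (by fun_prop) (fun r => by rw [hu x (r ^ 2), m2])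
  have L2 := exist_lin (k := d) 1 (q := fun r => l2 - a2 * ff s (Z (x, r ^ 2))) cux.snd
    (by fun_prop) (fun r => by rw [hu x (r ^ 2), m2])
  have K1 := exist_lin (k := d) (A x) (q := fun r => l1 - a1 * ff s (Z (x, r ^ 2))) cgx.fst
    (by fun_prop) (fun r => by rw [hg x (r ^ 2), hZ, m2]; simp only [m2])
  have K2 := exist_lin (k := d) (B x) (q := fun r => l2 - a2 * ff s (Z (x, r ^ 2))) cgx.snd
    (by fun_prop) (fun r => by rw [hg x (r ^ 2), hZ, m2]; simp only [m2])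
  have E : ∀ r : ℝ, Z (x, r ^ 2) = (A x * (1 + Yof d 0 (fun t => (u x t).1) (r ^ 2))) ^ 2 +
      (B x * (1 + Yof d 0 (fun t => (u x t).2) (r ^ 2))) ^ 2 := fun r => by
    have e1 := (K1.unique (L1.const_mul (A x)) (fun r => q_bound h1 (Z0 _))
      (by simp [Yof_zero]) (abs_nonneg r)).1
    have e2 := (K2.unique (L2.const_mul (B x)) (fun r => q_bound h2 (Z0 _))
      (by simp [Yof_zero]) (abs_nonneg r)).1
    simp only [sq_abs] at e1 e2
    rw [← e1, ← e2, hZ]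
    simp only [m2]
  simp only [E] at L1 L2
  exact ⟨by simp [Yof_zero], by simp [Yof_zero], L1, L2⟩

end Pool.Agent.MP_67db61_an.Cls

/-!
From a radial profile to a classical solution on Euclidean space.
-/

namespace Pool.Agent.MP_67db61_an.Cls

open Set Filter Topology MeasureTheory

lemma pack_cont {d : ℕ} {q w p : ℝ → ℝ} (h : Lin d q w p) :
    Continuous fun t : ℝ => q (√t) * w (√t) :=
  (h.cq.comp Real.continuous_sqrt).mul (h.cw.comp Real.continuous_sqrt)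

lemma pack_rep {d : ℕ} {q w p : ℝ → ℝ} (h : Lin d q w p) {r : ℝ} (hr : 0 ≤ r) :
    p r = 2 * r * I1 d (fun t => q (√t) * w (√t)) (r ^ 2) ∧
      w r = Yof d (w 0) (fun t => q (√t) * w (√t)) (r ^ 2) := by
  have cG := pack_cont h
  have cq := h.cq
  have cw := h.cw
  have h1 : ∀ r, 0 ≤ r → p r = 2 * r * I1 d (fun t => q (√t) * w (√t)) (r ^ 2) := by
    intro r hr
    rcases hr.eq_or_lt with rfl | hr'
    · simp [h.p0]
    refine mul_left_cancel₀ (pow_pos hr' d).ne' ?_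
    have e := intervalIntegral.integral_eq_sub_of_hasDerivAt (a := 0) (b := r)
      (fun x _ => h.dp x) (Continuous.intervalIntegrable (by fun_prop) _ _)
    rw [h.p0, mul_zero, sub_zero] at e
    rw [flux_eq, ← e]
    refine intervalIntegral.integral_congr fun x hx => ?_
    rw [uIcc_of_le hr] at hx
    simp only [Real.sqrt_sq hx.1]
  refine ⟨h1 r hr, ?_⟩
  have cI := continuous_I1' d cG
  have e1 := intervalIntegral.integral_eq_sub_of_hasDerivAt (a := 0) (b := r)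
    (fun x _ => h.dw x) (h.cp.intervalIntegrable _ _)
  have e2 := intervalIntegral.integral_eq_sub_of_hasDerivAt (a := 0) (b := r)
    (f := fun x => Yof d (w 0) (fun t => q (√t) * w (√t)) (x ^ 2))
    (f' := fun x => 2 * x * I1 d (fun t => q (√t) * w (√t)) (x ^ 2))
    (fun x _ => (HasDerivAt.comp (h₂ := Yof d (w 0) fun t => q (√t) * w (√t))
      (h := fun x : ℝ => x ^ 2) x (hasDerivAt_Yof d (w 0) cG (x ^ 2))
        (hasDerivAt_pow 2 x)).congr_deriv (by push_cast; ring))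
    (Continuous.intervalIntegrable (by fun_prop) _ _)
  have e3 : ∫ x in (0 : ℝ)..r, p x =
      ∫ x in (0 : ℝ)..r, 2 * x * I1 d (fun t => q (√t) * w (√t)) (x ^ 2) :=
    intervalIntegral.integral_congr fun x hx => h1 x (by rw [uIcc_of_le hr] at hx; exact hx.1)
  rw [show (0 : ℝ) ^ 2 = 0 by norm_num, Yof_zero] at e2
  linarith

lemma pack_int {g : ℝ → ℝ} (hg : Continuous g) (h0 : ∀ r, 0 ≤ r → 0 ≤ g r) {C : ℝ}
    (hC : ∀ T, 0 ≤ T → ∫ r in (0 : ℝ)..T, g r ≤ C) {f : ℝ → ℝ} (hf : Continuous f) (k : ℝ)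
    (h : ∀ r, 0 < r → |f r| ≤ k * g r) : IntegrableOn f (Ioi 0) := by
  have i : IntegrableOn g (Ioi 0) := by
    refine integrableOn_Ioi_of_intervalIntegral_norm_bounded C 0 (b := fun T : ℝ => T)
      (l := atTop) (fun T => (hg.integrableOn_Icc).mono_set Ioc_subset_Icc_self) tendsto_id ?_
    filter_upwards [eventually_ge_atTop 0] with T hT
    refine le_trans (le_of_eq (intervalIntegral.integral_congr fun x hx => ?_)) (hC T hT)
    rw [uIcc_of_le hT] at hx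
    exact Real.norm_of_nonneg (h0 x hx.1)
  exact Integrable.mono' (i.const_mul k) hf.aestronglyMeasurable
    ((ae_restrict_iff' measurableSet_Ioi).2 (ae_of_all _ h))

lemma pack_comp (k : ℕ) {s α l a b : ℝ} (hs : 0 < s) (c : ℝ) {G1 G2 : ℝ → ℝ} (c1 : Continuous G1)
    (c2 : Continuous G2)
    (h : ∀ t, 0 ≤ t → G1 t = (l - α * ff s (Yof k a G1 t ^ 2 + Yof k b G2 t ^ 2)) * Yof k a G1 t)
    (i1 : IntegrableOn (fun r => r ^ k * Yof k a G1 (r ^ 2) ^ 2) (Ioi 0))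
    (i2 : IntegrableOn (fun r => r ^ k * (2 * r * I1 k G1 (r ^ 2)) ^ 2) (Ioi 0)) :
    ContDiff ℝ 2 (fun x : EuclideanSpace ℝ (Fin (k + 1)) => c * Yof k a G1 (‖x‖ ^ 2)) ∧
    MemLp (fun x : EuclideanSpace ℝ (Fin (k + 1)) => c * Yof k a G1 (‖x‖ ^ 2)) 2 ∧
    MemLp (gradient fun x : EuclideanSpace ℝ (Fin (k + 1)) => c * Yof k a G1 (‖x‖ ^ 2)) 2 ∧
    ∀ x, Laplacian.laplacian
      (fun x : EuclideanSpace ℝ (Fin (k + 1)) => c * Yof k a G1 (‖x‖ ^ 2)) x
        = c * G1 (‖x‖ ^ 2) := by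
  have d1 := contDiff_one_of (hasDerivAt_Yof k a c1) (continuous_I1' k c1)
  have d2 := contDiff_one_of (hasDerivAt_Yof k b c2) (continuous_I1' k c2)
  have eY := fun r : ℝ => Yof_congr k a h (sq_nonneg r)
  have eI := fun r : ℝ => I1_congr k h (sq_nonneg r)
  have := radial_pack k a c (contDiff_src (α := α) (l := l) hs d1 d2)
    (by simpa only [← eY] using i1) (by simpa only [← eI] using i2)
  simp only [← eY] at this
  refine ⟨this.1, this.2.1, this.2.2.1, fun x => ?_⟩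
  rw [this.2.2.2 x, h _ (sq_nonneg _)]

lemma pack_two {d : ℕ} {q w p g : ℝ → ℝ} (h : Lin d q w p) {a C : ℝ} (ha : 0 < a)
    (hg : Continuous g) (hC : ∀ T, 0 ≤ T → ∫ r in (0 : ℝ)..T, r ^ d * g r ≤ C)
    (hw : ∀ r, p r ^ 2 / a + w r ^ 2 ≤ g r) :
    IntegrableOn (fun r => r ^ d * Yof d (w 0) (fun t => q (√t) * w (√t)) (r ^ 2) ^ 2) (Ioi 0) ∧
      IntegrableOn (fun r => r ^ d * (2 * r * I1 d (fun t => q (√t) * w (√t)) (r ^ 2)) ^ 2)
        (Ioi 0) := by
  have cw := h.cw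
  have cp := h.cp
  have h0 : ∀ r, 0 ≤ r → 0 ≤ r ^ d * g r := fun r hr =>
    mul_nonneg (pow_nonneg hr d) (le_trans (by positivity) (hw r))
  have i1 : IntegrableOn (fun r => r ^ d * w r ^ 2) (Ioi 0) :=
    pack_int (by fun_prop) h0 hC (by fun_prop) 1 fun r hr => by
      rw [abs_of_nonneg (by positivity), one_mul]
      refine mul_le_mul_of_nonneg_left (le_trans ?_ (hw r)) (by positivity)
      exact le_add_of_nonneg_left (by positivity)
  have i2 : IntegrableOn (fun r => r ^ d * p r ^ 2) (Ioi 0) :=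
    pack_int (by fun_prop) h0 hC (by fun_prop) a fun r hr => by
      rw [abs_of_nonneg (by positivity), mul_left_comm]
      refine mul_le_mul_of_nonneg_left ?_ (by positivity)
      rw [← div_le_iff₀' ha]
      exact le_trans (le_add_of_nonneg_right (by positivity)) (hw r)
  exact ⟨i1.congr_fun (fun r hr => by simp only [← (pack_rep h (le_of_lt hr)).2]) measurableSet_Ioi,
    i2.congr_fun (fun r hr => by simp only [← (pack_rep h (le_of_lt hr)).1]) measurableSet_Ioi⟩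

theorem pack {d : ℕ} {s l1 a1 l2 a2 : ℝ} (h1 : Par s l1 a1) (h2 : Par s l2 a2)
    {U P W Q : ℝ → ℝ} (hU : Lin d (fun r => l1 - a1 * ff s (U r ^ 2 + W r ^ 2)) U P)
    (hW : Lin d (fun r => l2 - a2 * ff s (U r ^ 2 + W r ^ 2)) W Q) (U0 : U 0 ≠ 0) (W0 : W 0 ≠ 0)
    {C : ℝ} (hC : ∀ T, 0 ≤ T →
      ∫ r in (0 : ℝ)..T, r ^ d * (P r ^ 2 / a1 + Q r ^ 2 / a2 + (U r ^ 2 + W r ^ 2)) ≤ C) :
    ∃ u v : EuclideanSpace ℝ (Fin (d + 1)) → ℝ, u 0 ≠ 0 ∧ v 0 ≠ 0 ∧
      ContDiff ℝ 2 u ∧ ContDiff ℝ 2 v ∧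
      MemLp u 2 ∧ MemLp (gradient u) 2 ∧ MemLp v 2 ∧ MemLp (gradient v) 2 ∧
      (∀ x, -Laplacian.laplacian u x + l1 * u x
        = a1 * u x * (a1 * u x ^ 2 + a2 * v x ^ 2) / (1 + s * (a1 * u x ^ 2 + a2 * v x ^ 2))) ∧
      (∀ x, -Laplacian.laplacian v x + l2 * v x
        = a2 * v x * (a1 * u x ^ 2 + a2 * v x ^ 2)
          / (1 + s * (a1 * u x ^ 2 + a2 * v x ^ 2))) := by
  have cU := hU.cw
  have cW := hW.cw
  have cP := hU.cp
  have cQ := hW.cp
  have ha1 := h1.ha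
  have ha2 := h2.ha
  have cg : Continuous fun r => P r ^ 2 / a1 + Q r ^ 2 / a2 + (U r ^ 2 + W r ^ 2) := by fun_prop
  have i1 := pack_two hU ha1 cg hC fun r => by
    have : 0 ≤ Q r ^ 2 / a2 := by positivity
    linarith [sq_nonneg (W r)]
  have i2 := pack_two hW ha2 cg hC fun r => by
    have : 0 ≤ P r ^ 2 / a1 := by positivity
    linarith [sq_nonneg (U r)]
  have c1 := pack_cont hU
  have c2 := pack_cont hW
  have r1 := fun t (ht : 0 ≤ t) => (pack_rep hU (Real.sqrt_nonneg t)).2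
  have r2 := fun t (ht : 0 ≤ t) => (pack_rep hW (Real.sqrt_nonneg t)).2
  obtain ⟨G1, hG1⟩ : ∃ G : ℝ → ℝ,
    G = fun t => (l1 - a1 * ff s (U (√t) ^ 2 + W (√t) ^ 2)) * U (√t) := ⟨_, rfl⟩
  obtain ⟨G2, hG2⟩ : ∃ G : ℝ → ℝ,
    G = fun t => (l2 - a2 * ff s (U (√t) ^ 2 + W (√t) ^ 2)) * W (√t) := ⟨_, rfl⟩
  simp only [← hG1] at i1 c1 r1
  simp only [← hG2] at i2 c2 r2
  have e1 : ∀ t, 0 ≤ t → G1 t = (l1 - a1 * ff s (Yof d (U 0) G1 t ^ 2 + Yof d (W 0) G2 t ^ 2)) *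
      Yof d (U 0) G1 t := fun t ht => by
    have s1 := r1 t ht
    have s2 := r2 t ht
    rw [Real.sq_sqrt ht] at s1 s2
    rw [← s1, ← s2, hG1]
  have e2 : ∀ t, 0 ≤ t → G2 t = (l2 - a2 * ff s (Yof d (W 0) G2 t ^ 2 + Yof d (U 0) G1 t ^ 2)) *
      Yof d (W 0) G2 t := fun t ht => by
    have s1 := r1 t ht
    have s2 := r2 t ht
    rw [Real.sq_sqrt ht] at s1 s2
    rw [← s1, ← s2, hG2, add_comm]
  obtain ⟨u1, u2, u3, u4⟩ := pack_comp d h1.hs (1 / √a1) c1 c2 e1 i1.1 i1.2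
  obtain ⟨v1, v2, v3, v4⟩ := pack_comp d h1.hs (1 / √a2) c2 c1 e2 i2.1 i2.2
  have ea : ∀ γ y : ℝ, 0 < γ → γ * (1 / √γ * y) ^ 2 = y ^ 2 := fun γ y hγ => by
    rw [mul_pow, div_pow, Real.sq_sqrt hγ.le]
    field_simp
  refine ⟨_, _, ?_, ?_, u1, v1, u2, u3, v2, v3, fun x => ?_, fun x => ?_⟩
  · simp only [norm_zero, ne_eq, OfNat.ofNat_ne_zero, not_false_eq_true, zero_pow, Yof_zero]
    exact mul_ne_zero (by positivity) U0
  · simp only [norm_zero, ne_eq, OfNat.ofNat_ne_zero, not_false_eq_true, zero_pow, Yof_zero]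
    exact mul_ne_zero (by positivity) W0
  · rw [u4, ea _ _ ha1, ea _ _ ha2, e1 _ (sq_nonneg _), ff]
    ring
  · rw [v4, ea _ _ ha1, ea _ _ ha2, e2 _ (sq_nonneg _), ff, add_comm (Yof d (W 0) G2 _ ^ 2)]
    ring

end Pool.Agent.MP_67db61_an.Cls

end

-- part MP_67db61_an.Full.Shooting
section

/-!
A pair of node numbers that separates the two semitrivial branches.
-/

namespace Pool.Agent.MP_67db61_an.Cls

open Set Filter Topology MeasureTheory

variable {d : ℕ} {s l a : ℝ}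

lemma sep_crude {c C : ℝ} {Z K E m : ℝ → ℝ} (F : Flow d s c C Z K E m) {x R Λ : ℝ} (hx : 0 < x)
    (hxR : x ≤ R) (hΛ : R ≤ Λ * x) (hE : E R ≤ 1) : E x ≤ Λ ^ (2 * d) * (1 + C) := by
  have h1 := F.crude hx.le hxR
  have h2 := pow_le_pow_left₀ (hx.le.trans hxR) hΛ (2 * d)
  have hC := F.hC
  have h3 := mul_le_mul_of_nonneg_left (show E R + C ≤ 1 + C by linarith)
    (pow_nonneg (hx.le.trans hxR) (2 * d))
  have h4 := mul_le_mul_of_nonneg_right h2 (show 0 ≤ 1 + C by linarith)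
  rw [mul_pow] at h4
  have h5 : x ^ (2 * d) * (E x + C) ≤ x ^ (2 * d) * (Λ ^ (2 * d) * (1 + C)) := by linarith
  linarith [le_of_mul_le_mul_left h5 (pow_pos hx _)]

/-- everything that is needed about a scalar solution with many zeros -/
structure Pk (d : ℕ) (s l a l' a' C η1 ε η : ℝ) (U P : ℝ → ℝ) (T R : ℝ) : Prop where
  R1 : 1 ≤ R
  RT : R ≤ T
  ER : En s l a U P R = η
  up : ∃ Nb : ℕ, Nb ≤ nz U T ∧ (Nb : ℝ) ≤ C * R ∧
    ∫ r in (0 : ℝ)..T, r ^ d * (DD s (U r ^ 2) + En s l a U P r)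
      ≤ R ^ d * JJ s l a 0 * Nb + C * ε * R ^ (d + 1)
  lo : ∀ r, ε * R ≤ r → r ≤ R →
    (1 - ε) * (R ^ d * JJ s l a 0) ≤ r ^ d * JJ s l a (En s l a U P r)
  half : η1 ≤ En s l a U P (R / 2)
  RN : R ≤ C * (nz U T + 1)
  NR : ∀ w p, Lin d (fun r => l' - a' * ff s (U r ^ 2)) w p → w 0 ≠ 0 → (nz w T : ℝ) ≤ C * R

lemma sep_pack (hd : 2 ≤ d) (h : Par s l a) {l' a' : ℝ} (h' : Par s l' a') :
    ∃ C η0 η1, 0 < C ∧ 0 < η0 ∧ 0 < η1 ∧ ∀ ε η : ℝ, 0 < ε → ε ≤ 1 / 4 → 0 < η → η ≤ ε →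
      2 * η ≤ η0 → JJ s l a (2 * η) ≤ (1 + ε) * JJ s l a 0 → ∀ R1, ∃ N0 : ℕ,
        ∀ (U P : ℝ → ℝ) (T : ℝ), Mem d s l a η U P T → N0 ≤ nz U T →
          ∃ R, R1 ≤ R ∧ Pk d s l a l' a' C η1 ε η U P T R := by
  obtain ⟨c, C0, hc, hC0, HF⟩ := own_flow h
  obtain ⟨C1, e1, hC1, he1, H1⟩ := own hd h
  obtain ⟨C2, e2, hC2, he2, H2⟩ := cnt hd h h
  obtain ⟨C3, e3, hC3, he3, H3⟩ := cnt hd h h'
  obtain ⟨η1, hη1, Hη1⟩ := JJ_cont h one_pos
  obtain ⟨L, hL, HL⟩ := zero_gap d h hη1 (4 ^ (2 * d) * (1 + C0))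
  have hJ0 := JJ_zero_pos h
  refine ⟨C1 + C3 + 4 * L, min e1 (min e2 e3), η1, by positivity, by positivity, hη1,
    fun ε η hε hε4 hη hηε hη0 hJ R1 => ?_⟩
  simp only [le_min_iff] at hη0
  obtain ⟨R0, hR0, H⟩ := H1 ε η hε hε4 hη hηε hη0.1 hJ
  refine ⟨⌈C2 * max R0 R1⌉₊ + 1, fun U P T hM hN => ?_⟩
  have F := HF d U P hM.lin
  have hq : ∀ r, |l - a * ff s (U r ^ 2)| ≤ l + a / s := fun r => q_bound h (sq_nonneg _)
  have h1 : ¬(max R0 R1 ≤ T → En s l a U P (max R0 R1) ≤ e2) := fun h1 => by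
    have h2 := H2 η U P U P T _ hM hM.lin hM.ne (le_max_of_le_left hR0) h1
    have h3 : ((⌈C2 * max R0 R1⌉₊ + 1 : ℕ) : ℝ) ≤ nz U T := by exact_mod_cast hN
    push_cast at h3
    linarith [Nat.le_ceil (C2 * max R0 R1)]
  push Not at h1
  obtain ⟨R, hR, hER⟩ := intermediate_value_Icc' h1.1 F.cE.continuousOn
    (show η ∈ Icc _ _ from ⟨hM.E1, by linarith [h1.2]⟩)
  have hR1 : 1 ≤ R := hR0.trans ((le_max_left _ _).trans hR.1)
  obtain ⟨⟨Nb, n1, n2, n3⟩, lo⟩ := H U P T R hM ((le_max_left _ _).trans hR.1) hR.2 hER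
  have half : η1 ≤ En s l a U P (R / 2) := by
    by_contra hlt
    have h2 := lo (R / 2) (by nlinarith) (by linarith)
    have h3 := (JJ_mono h (hM.E0.trans (F.anti (by linarith) (by linarith [hR.2])))
      (not_le.1 hlt).le).trans Hη1
    have h4 : (R / 2) ^ d * 2 ^ 2 ≤ R ^ d := by
      refine (mul_le_mul_of_nonneg_left (pow_le_pow_right₀ one_le_two hd) (by positivity)).trans ?_
      rw [← mul_pow, div_mul_cancel₀ _ two_ne_zero]
    have h5 := mul_le_mul_of_nonneg_left h3 (show 0 ≤ (R / 2) ^ d by positivity)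
    have h6 := mul_le_mul_of_nonneg_right h4 hJ0.le
    have h7 : 0 < R ^ d * JJ s l a 0 := by positivity
    nlinarith
  have hCR : ∀ x y : ℝ, 0 ≤ y → x ≤ C1 + C3 + 4 * L → x * y ≤ (C1 + C3 + 4 * L) * y :=
    fun x y hy hx => mul_le_mul_of_nonneg_right hx hy
  refine ⟨R, (le_max_right _ _).trans hR.1, hR1, hR.2, hER,
    ⟨Nb, n1, n2.trans (hCR _ _ (by linarith) (by linarith)), ?_⟩, lo, half, ?_, fun w p hw w0 =>
      (H3 η U P w p T R hM hw w0 hR1 fun _ => by linarith [hη0.2.2]).trans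
        (hCR _ _ (by linarith) (by linarith))⟩
  · have := hCR C1 (ε * R ^ (d + 1)) (by positivity) (by linarith)
    linarith
  · have h2 := count_lower (hM.lin.finite hq hM.ne T) (x := R / 4) (y := R / 2) hL
      fun t h1 h2 => by
        obtain ⟨r, h3, h4, h5⟩ := HL U P t hM.lin (by linarith)
          ((F.anti (by linarith) h1).trans (sep_crude F (by linarith) (by linarith)
            (show R ≤ 4 * (R / 4) by linarith) (by linarith)))
          (half.trans (F.anti (by linarith) h2))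
        exact ⟨r, ⟨⟨by linarith, by linarith [hR.2]⟩, h5⟩, h3, h4⟩
    rw [sub_le_iff_le_add, div_le_iff₀ hL] at h2
    have h3 := hCR (4 * L) (nz U T + 1) (by positivity) (by linarith)
    unfold nz at h3 ⊢
    linarith

lemma sep_int {E g : ℝ → ℝ} {R T T' : ℝ} (cE : Continuous E) (hR : 0 ≤ R) (hRT : R ≤ T)
    (hT' : 0 ≤ T') (hE : ∀ r, 0 ≤ r → r ≤ T → 0 ≤ E r) (hg : ∀ r, g r = if r ≤ R then E r else 0)
    (ig : ∀ x y, 0 ≤ x → 0 ≤ y → IntervalIntegrable (fun r => r ^ d * g r) volume x y) :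
    ∫ r in (0 : ℝ)..T', r ^ d * g r ≤ ∫ r in (0 : ℝ)..T, r ^ d * E r := by
  have h1 : ∫ r in (0 : ℝ)..T', r ^ d * g r ≤ ∫ r in (0 : ℝ)..max T' R, r ^ d * g r := by
    refine intervalIntegral.integral_mono_interval le_rfl hT' (le_max_left _ _) ?_
      (ig _ _ le_rfl (le_max_of_le_left hT'))
    refine (ae_restrict_iff' measurableSet_Ioc).2 (ae_of_all _ fun r hr => ?_)
    refine mul_nonneg (pow_nonneg hr.1.le d) ?_
    rw [hg]
    split_ifs with h
    · exact hE r hr.1.le (h.trans hRT)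
    · exact le_rfl
  have h2 : ∫ r in R..max T' R, r ^ d * g r = 0 := by
    rw [intervalIntegral.integral_of_le (le_max_right _ _)]
    refine setIntegral_eq_zero_of_forall_eq_zero fun r hr => ?_
    rw [hg, if_neg (not_le.2 hr.1), mul_zero]
  have h3 : ∫ r in (0 : ℝ)..R, r ^ d * g r = ∫ r in (0 : ℝ)..R, r ^ d * E r := by
    refine intervalIntegral.integral_congr fun r hr => ?_
    rw [uIcc_of_le hR] at hr
    simp only [hg, if_pos hr.2]
  have h4 : ∫ r in (0 : ℝ)..R, r ^ d * E r ≤ ∫ r in (0 : ℝ)..T, r ^ d * E r := by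
    refine intervalIntegral.integral_mono_interval le_rfl hR hRT ?_
      (Continuous.intervalIntegrable (by fun_prop) _ _)
    exact (ae_restrict_iff' measurableSet_Ioc).2 (ae_of_all _ fun r hr =>
      mul_nonneg (pow_nonneg hr.1.le d) (hE r hr.1.le hr.2))
  rw [← intervalIntegral.integral_add_adjacent_intervals (ig 0 R le_rfl hR)
    (ig R _ hR (le_max_of_le_right hR))] at h1
  linarith

lemma sep_half (d : ℕ) {s l1 a1 l2 a2 : ℝ} (h1 : Par s l1 a1) (h2 : Par s l2 a2)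
    (hns : l1 ≠ l2 ∨ a1 ≠ a2) {C η1 Λ : ℝ} (hC : 0 < C) (hη1 : 0 < η1) (hΛ : 0 < Λ) :
    ∃ δ A B, 0 < δ ∧ 0 < A ∧ 0 < B ∧ ∀ (U P W Q w p : ℝ → ℝ) (T T' R R' ρ ε η : ℝ),
      Mem d s l1 a1 η U P T → Mem d s l2 a2 η W Q T' → Pk d s l1 a1 l2 a2 C η1 ε η U P T R →
      Lin d (fun r => l1 - a1 * ff s (W r ^ 2)) w p → w 0 ≠ 0 → nz U T ≤ nz w T' + 2 →
      0 < ε → ε ≤ 1 → η ≤ 1 → 0 < ρ → 2 * ρ ≤ R → 2 * ρ ≤ R' → R ≤ Λ * ρ → R' ≤ Λ * ρ → R' ≤ T' →
      En s l2 a2 W Q R' = η →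
      (∫ r in (0 : ℝ)..T, r ^ d * DD s (U r ^ 2)) + δ * ρ ^ (d + 1)
        ≤ (∫ r in (0 : ℝ)..T', r ^ d * DD s (W r ^ 2)) + ε * A * ρ ^ (d + 1) + B / ε * ρ ^ d := by
  obtain ⟨c1, C1, -, hC1, F1⟩ := own_flow h1
  obtain ⟨c2, C2, hc2, hC2, F2⟩ := own_flow h2
  set M := (2 * Λ) ^ (2 * d) * (1 + C2) with hM
  have hM0 : 0 < M := by positivity
  have ha2 := h2.ha
  obtain ⟨δ, C3, hδ, hC3, H⟩ := cross d h1 h2 hns hη1 ((2 * Λ) ^ (2 * d) * (1 + C1))
    (1 + (M + C2) / c2 + a2 * (M + C2))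
  have hJ := JJ_zero_pos h1
  refine ⟨δ, (C + (C + C3) * JJ s l1 a1 0) * Λ ^ (d + 1), JJ s l1 a1 0 * (5 + d) * Λ ^ d + C3, hδ,
    by positivity, by positivity,
    fun U P W Q w p T T' R R' ρ ε η mU mW pk hw w0 hN hε hε1 hη hρ r1 r2 r3 r4 r5 hE => ?_⟩
  have FU := F1 d U P mU.lin
  have FW := F2 d W Q mW.lin
  have hR : 0 < R := by linarith
  have hE0 : ∀ r, 0 ≤ r → r ≤ T → 0 ≤ En s l1 a1 U P r := fun r h1 h2 => mU.E0.trans (FU.anti h1 h2)
  set g : ℝ → ℝ := fun r => if r ≤ R then En s l1 a1 U P r else 0 with hg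
  have ganti : AntitoneOn g (Ici 0) := fun x hx y _ hxy => by
    simp only [hg]
    split_ifs with e1 e2 e2
    · exact FU.anti hx hxy
    · exact absurd (hxy.trans e1) e2
    · exact hE0 x hx (e2.trans pk.RT)
    · exact le_rfl
  have ig : ∀ x y, 0 ≤ x → 0 ≤ y → IntervalIntegrable (fun r => r ^ d * g r) volume x y :=
    fun x y hx hy => ((ganti.mono fun r hr => le_trans (le_min hx hy) hr.1).intervalIntegrable
      (μ := volume)).continuousOn_mul (by fun_prop)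
  have hμ : 0 < R ^ d * JJ s l1 a1 0 := by positivity
  have hμ1 : (1 - ε) * (R ^ d * JJ s l1 a1 0) ≤ R ^ d * JJ s l1 a1 0 := by
    linarith [mul_pos hε hμ]
  have K := H W Q w p g T' ρ (ε * R) R ((1 - ε) * (R ^ d * JJ s l1 a1 0)) mW.lin hw w0 ganti
    (fun r hr => by
      simp only [hg]
      split_ifs with e
      · exact hE0 r hr (e.trans pk.RT)
      · exact le_rfl) hρ (by linarith) (by positivity) hR
    (mul_nonneg (by linarith) hμ.le) hμ1
    (fun r hr => by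
      simp only [hg]
      split_ifs with e
      · exact pk.lo r hr e
      · exact hμ1.trans (mul_le_mul_of_nonneg_right
          (pow_le_pow_left₀ hR.le (not_le.1 e).le d) hJ.le))
    (by
      simp only [hg, if_pos (show ρ ≤ R by linarith)]
      exact pk.half.trans (FU.anti hρ.le (by linarith)))
    (by
      simp only [hg, if_pos (show ρ / 2 ≤ R by linarith)]
      exact sep_crude FU (half_pos hρ) (by linarith) (by linarith) (pk.ER.le.trans hη))
    (fun r hr => by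
      have e1 : En s l2 a2 W Q r ≤ M := (FW.anti (half_pos hρ).le hr.1).trans
        (sep_crude FW (half_pos hρ) (show ρ / 2 ≤ R' by linarith) (by linarith) (hE.le.trans hη))
      obtain ⟨b1, b2, -⟩ := FW.bound ((half_pos hρ).le.trans hr.1) e1
      rw [div_le_iff₀' ha2] at b2
      have e2 : ∀ x : ℝ, |x| ≤ 1 + x ^ 2 := fun x => by
        rw [← sq_abs]
        nlinarith [sq_nonneg (|x| - 1)]
      have e3 : 0 ≤ (M + C2) / c2 := by positivity
      have e4 : 0 ≤ a2 * (M + C2) := by positivity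
      exact ⟨by linarith [e2 (W r)], by linarith [e2 (Q r)]⟩)
  obtain ⟨Nb, n1, n2, n3⟩ := pk.up
  have cD := FU.cD
  have cD' := FW.cD
  have cE := FU.cE
  simp only [mul_add] at n3 K
  rw [intervalIntegral.integral_add (Continuous.intervalIntegrable (by fun_prop) _ _)
    (Continuous.intervalIntegrable (by fun_prop) _ _)] at n3
  rw [intervalIntegral.integral_add (Continuous.intervalIntegrable (by fun_prop) _ _)
    (ig _ _ le_rfl mW.T0.le), mul_div_mul_right _ _ hR.ne'] at K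
  have k1 := sep_int cE hR.le pk.RT mW.T0.le hE0 (fun r => rfl) ig
  have k2 : (Nb : ℝ) ≤ nz w T' + 2 := by exact_mod_cast n1.trans hN
  have k3 := mul_le_mul_of_nonneg_left k2 (mul_nonneg (sub_nonneg.2 hε1) hμ.le)
  have k4 := mul_le_mul_of_nonneg_left n2 (mul_pos hε hμ).le
  have k5 := mul_le_mul_of_nonneg_right hμ1 (show 0 ≤ C3 * (ε * R) + d / ε + 5 by positivity)
  have k6 : R ^ (d + 1) ≤ Λ ^ (d + 1) * ρ ^ (d + 1) := by
    rw [← mul_pow]
    exact pow_le_pow_left₀ hR.le r3 _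
  have k7 : R ^ d ≤ Λ ^ d * ρ ^ d := by
    rw [← mul_pow]
    exact pow_le_pow_left₀ hR.le r3 _
  have k8 := mul_le_mul_of_nonneg_left k6
    (show 0 ≤ ε * (C + (C + C3) * JJ s l1 a1 0) by positivity)
  have k9 : (1 : ℝ) ≤ 1 / ε := by rw [le_div_iff₀ hε]; linarith
  have k10 := mul_le_mul_of_nonneg_left k7 (show 0 ≤ JJ s l1 a1 0 * (5 + d) / ε by positivity)
  have k11 := mul_le_mul_of_nonneg_left k9 (show 0 ≤ 5 * (R ^ d * JJ s l1 a1 0) by positivity)
  have k12 := mul_le_mul_of_nonneg_left k9 (show 0 ≤ C3 * ρ ^ d by positivity)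
  rw [pow_succ R] at k8 n3
  simp only [div_eq_mul_inv] at K k5 k10 k11 k12 ⊢
  linarith

theorem sep_contra (hd : 2 ≤ d) {s l1 a1 l2 a2 : ℝ} (h1 : Par s l1 a1) (h2 : Par s l2 a2)
    (hns : l1 ≠ l2 ∨ a1 ≠ a2) :
    ∃ η, 0 < η ∧ ∃ (N0 : ℕ) (C C' : ℝ), 0 < C ∧ 0 < C' ∧
      (∀ (U P w p : ℝ → ℝ) (T : ℝ), Mem d s l1 a1 η U P T →
        Lin d (fun r => l2 - a2 * ff s (U r ^ 2)) w p → w 0 ≠ 0 → N0 ≤ nz U T →
        (nz w T : ℝ) ≤ C * (nz U T + 1)) ∧
      (∀ (U P w p : ℝ → ℝ) (T : ℝ), Mem d s l2 a2 η U P T →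
        Lin d (fun r => l1 - a1 * ff s (U r ^ 2)) w p → w 0 ≠ 0 → N0 ≤ nz U T →
        (nz w T : ℝ) ≤ C' * (nz U T + 1)) ∧
      ∀ (U P w p W Q w' p' : ℝ → ℝ) (T T' : ℝ), Mem d s l1 a1 η U P T →
        Lin d (fun r => l2 - a2 * ff s (U r ^ 2)) w p → w 0 ≠ 0 → Mem d s l2 a2 η W Q T' →
        Lin d (fun r => l1 - a1 * ff s (W r ^ 2)) w' p' → w' 0 ≠ 0 → N0 ≤ nz U T → N0 ≤ nz W T' →
        nz W T' ≤ nz w T + 2 → nz U T ≤ nz w' T' + 2 → False := by
  obtain ⟨C1, e1, η1, hC1, he1, hη1, H1⟩ := sep_pack hd h1 h2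
  obtain ⟨C2, e2, η2, hC2, he2, hη2, H2⟩ := sep_pack hd h2 h1
  have hΛ : 0 < 2 * ((C1 + 3) * (C2 + 3)) := by positivity
  obtain ⟨δ1, A1, B1, hδ1, hA1, hB1, K1⟩ := sep_half d h1 h2 hns hC1 hη1 hΛ
  obtain ⟨δ2, A2, B2, hδ2, hA2, hB2, K2⟩ := sep_half d h2 h1 (hns.imp Ne.symm Ne.symm) hC2 hη2 hΛ
  obtain ⟨ε, hε, hε4, hεδ⟩ : ∃ ε, 0 < ε ∧ ε ≤ 1 / 4 ∧ ε * (A1 + A2) ≤ δ1 :=
    ⟨min (1 / 4) (δ1 / (A1 + A2)), by positivity, min_le_left _ _,
      (le_div_iff₀ (by positivity)).1 (min_le_right _ _)⟩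
  obtain ⟨j1, hj1, J1⟩ := JJ_cont h1 hε
  obtain ⟨j2, hj2, J2⟩ := JJ_cont h2 hε
  obtain ⟨η, hη, n1, n2, n3, n4, n5⟩ : ∃ η, 0 < η ∧ η ≤ ε ∧ 2 * η ≤ e1 ∧ 2 * η ≤ e2 ∧
      2 * η ≤ j1 ∧ 2 * η ≤ j2 := by
    have : ∀ᶠ η in 𝓝[>] (0 : ℝ), 0 < η ∧ η ≤ ε ∧ 2 * η ≤ e1 ∧ 2 * η ≤ e2 ∧
        2 * η ≤ j1 ∧ 2 * η ≤ j2 := by
      have e : ∀ x : ℝ, 0 < x → ∀ᶠ η in 𝓝[>] (0 : ℝ), 2 * η ≤ x := fun x hx =>
        mem_of_superset (Ioo_mem_nhdsGT (half_pos hx)) fun η hη => by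
          change 2 * η ≤ x
          linarith [hη.2]
      filter_upwards [self_mem_nhdsWithin, e ε hε, e _ he1, e _ he2, e _ hj1, e _ hj2]
        with η h0 a1 a2 a3 a4 a5
      exact ⟨h0, by linarith [mem_Ioi.1 h0], a2, a3, a4, a5⟩
    exact this.exists
  obtain ⟨N1, P1⟩ := H1 ε η hε hε4 hη n1 n2 ((JJ_mono h1 (by linarith) n4).trans J1)
    (2 * ((B1 / ε + B2 / ε) / δ2) + 1)
  obtain ⟨N2, P2⟩ := H2 ε η hε hε4 hη n1 n3 ((JJ_mono h2 (by linarith) n5).trans J2)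
    (2 * ((B1 / ε + B2 / ε) / δ2) + 1)
  refine ⟨η, hη, max N1 N2, C1 * C1, C2 * C2, by positivity, by positivity,
    fun U P w p T mU hw w0 hN => ?_, fun U P w p T mU hw w0 hN => ?_,
    fun U P w p W Q w' p' T T' mU hw w0 mW hw' w0' hN hN' c1 c2 => ?_⟩
  · obtain ⟨R, -, pk⟩ := P1 U P T mU ((le_max_left _ _).trans hN)
    linarith [pk.NR w p hw w0, mul_le_mul_of_nonneg_left pk.RN hC1.le]
  · obtain ⟨R, -, pk⟩ := P2 U P T mU ((le_max_right _ _).trans hN)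
    linarith [pk.NR w p hw w0, mul_le_mul_of_nonneg_left pk.RN hC2.le]
  obtain ⟨R, hR, pk⟩ := P1 U P T mU ((le_max_left _ _).trans hN)
  obtain ⟨R', hR', pk'⟩ := P2 W Q T' mW ((le_max_right _ _).trans hN')
  have rat : ∀ (C C' R R' : ℝ) (N q : ℕ), 0 < C → 0 < C' → 1 ≤ R' → R ≤ C * (N + 1) →
      N ≤ q + 2 → (q : ℝ) ≤ C' * R' → R ≤ (C + 3) * (C' + 3) * R' := by
    intro C C' R R' N q hC hC' r1 r2 r3 r4
    have r5 : (N : ℝ) ≤ q + 2 := by exact_mod_cast r3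
    have r6 := mul_le_mul_of_nonneg_left (show (N : ℝ) + 1 ≤ (C' + 3) * R' by linarith) hC.le
    have r7 : 0 ≤ (C' + 3) * R' := by positivity
    linarith
  have r1 := rat C1 C2 R R' _ _ hC1 hC2 pk'.R1 pk.RN c2 (pk'.NR w' p' hw' w0')
  have r2 := rat C2 C1 R' R _ _ hC2 hC1 pk.R1 pk'.RN c1 (pk.NR w p hw w0)
  have r0 : 1 ≤ (C1 + 3) * (C2 + 3) := one_le_mul_of_one_le_of_one_le (by linarith) (by linarith)
  have hR1 := pk.R1
  have hR1' := pk'.R1
  obtain ⟨ρ, s1, s2, s3, s4, s5⟩ : ∃ ρ, (B1 / ε + B2 / ε) / δ2 < ρ ∧ 2 * ρ ≤ R ∧ 2 * ρ ≤ R' ∧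
      R ≤ 2 * ((C1 + 3) * (C2 + 3)) * ρ ∧ R' ≤ 2 * ((C1 + 3) * (C2 + 3)) * ρ := by
    rcases le_total R R' with e | e
    · exact ⟨R / 2, by linarith, by linarith, by linarith,
        by linarith [le_mul_of_one_le_left (show 0 ≤ R by linarith) r0], by linarith⟩
    · exact ⟨R' / 2, by linarith, by linarith, by linarith, by linarith,
        by linarith [le_mul_of_one_le_left (show 0 ≤ R' by linarith) r0]⟩
  have hρ : 0 < ρ := lt_trans (by positivity) s1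
  have k1 := K1 U P W Q w' p' T T' R R' ρ ε η mU mW pk hw' w0' c2 hε (by linarith) (by linarith)
    hρ s2 s3 s4 s5 pk'.RT pk'.ER
  have k2 := K2 W Q U P w p T' T R' R ρ ε η mW mU pk' hw w0 c1 hε (by linarith) (by linarith)
    hρ s3 s2 s5 s4 pk.RT pk.ER
  rw [div_lt_iff₀ hδ2] at s1
  have k3 := mul_lt_mul_of_pos_right s1 (pow_pos hρ d)
  have k4 := mul_le_mul_of_nonneg_right hεδ (pow_pos hρ (d + 1)).le
  rw [pow_succ] at k1 k2 k4
  linarith

theorem sep {d : ℕ} (hd : 2 ≤ d) {s l1 a1 l2 a2 : ℝ} (h1 : Par s l1 a1) (h2 : Par s l2 a2)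
    (hns : l1 ≠ l2 ∨ a1 ≠ a2) :
    ∃ η, 0 < η ∧ ∃ k l : ℕ, 3 ≤ k ∧ 3 ≤ l ∧
      (∀ (U P w p : ℝ → ℝ) (T : ℝ), Mem d s l1 a1 η U P T →
        Lin d (fun r => l2 - a2 * ff s (U r ^ 2)) w p → w 0 ≠ 0 → k ≤ nz U T + 1 → nz U T ≤ k →
        nz w T + 2 ≤ l) ∧
      (∀ (U P w p : ℝ → ℝ) (T : ℝ), Mem d s l2 a2 η U P T →
        Lin d (fun r => l1 - a1 * ff s (U r ^ 2)) w p → w 0 ≠ 0 → l ≤ nz U T + 1 → nz U T ≤ l →
        nz w T + 2 ≤ k) := by
  classical
  obtain ⟨η, hη, N0, C, C', hC, hC', B1, B2, H⟩ := sep_contra hd h1 h2 hns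
  have cl : ∀ (C : ℝ) (q N k : ℕ), 0 < C → (q : ℝ) ≤ C * (N + 1) → N ≤ k → q ≤ ⌈C * (k + 1)⌉₊ := by
    intro C q N k hC e1 e2
    have e3 : (N : ℝ) ≤ k := by exact_mod_cast e2
    have e4 := mul_le_mul_of_nonneg_left (add_le_add_left e3 1) hC.le
    exact_mod_cast (e1.trans e4).trans (Nat.le_ceil _)
  obtain ⟨k, hk, hk'⟩ : ∃ k : ℕ, N0 + 3 ≤ k ∧ ⌈C' * ((N0 + 3 : ℕ) + 1)⌉₊ + 2 ≤ k :=
    ⟨_, le_max_left _ _, le_max_right _ _⟩
  have hex : ∃ l : ℕ, N0 + 3 ≤ l ∧ ∀ (U P w p : ℝ → ℝ) (T : ℝ), Mem d s l1 a1 η U P T →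
      Lin d (fun r => l2 - a2 * ff s (U r ^ 2)) w p → w 0 ≠ 0 → k ≤ nz U T + 1 → nz U T ≤ k →
      nz w T + 2 ≤ l := by
    refine ⟨N0 + 3 + ⌈C * (k + 1)⌉₊, by omega, fun U P w p T mU hw w0 e1 e2 => ?_⟩
    have := cl C _ _ k hC (B1 U P w p T mU hw w0 (by omega)) e2
    omega
  have hl := Nat.find_spec hex
  refine ⟨η, hη, k, Nat.find hex, by omega, by omega, hl.2, fun W Q w' p' T' mW hw' w0' e1 e2 => ?_⟩
  rcases hl.1.eq_or_lt with e | e
  · have := cl C' _ _ (N0 + 3) hC' (B2 W Q w' p' T' mW hw' w0' (by omega)) (by omega)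
    omega
  · have h3 := Nat.find_min hex (m := Nat.find hex - 1) (by omega)
    push Not at h3
    obtain ⟨U, P, w, p, T, mU, hw, w0, e3, e4, e5⟩ := h3 (by omega)
    by_contra e6
    exact H U P w p W Q w' p' T T' mU hw w0 mW hw' w0' (by omega) (by omega) (by omega) (by omega)

end Pool.Agent.MP_67db61_an.Cls

/-!
Shooting on finite intervals and the passage to the half line.
-/

namespace Pool.Agent.MP_67db61_an.Cls

open Set Filter Topology MeasureTheory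

variable {d : ℕ} {s l1 a1 l2 a2 A B : ℝ} {φ1 ψ1 φ2 ψ2 θ1 ρ1 θ2 ρ2 : ℝ → ℝ}

lemma few_zeros {l a : ℝ} (h : Par s l a) {Z w p : ℝ → ℝ} (cZ : Continuous Z) (Z0 : ∀ r, 0 ≤ Z r)
    (hw : Lin d (fun r => l - a * ff s (Z r)) w p) (h0 : w 0 ≠ 0) {R T : ℝ} (hR : 0 ≤ R)
    (hI : ∀ x y, R < x → x < y → y ≤ T →
      ∫ r in x..y, r ^ d * DD s (Z r) < x ^ d * JJ s l a 0) :
    Set.ncard {r | r ∈ Ioc R T ∧ w r = 0} ≤ 1 := by
  have key : ∀ x ∈ {r | r ∈ Ioc R T ∧ w r = 0}, ∀ y ∈ {r | r ∈ Ioc R T ∧ w r = 0}, ¬x < y :=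
    fun x hx y hy hxy => by
      have := calib' h cZ Z0 hw h0 (hR.trans hx.1.1.le) hxy hx.2 hy.2 le_rfl
      simp only [add_zero] at this
      linarith [hI x y hx.1.1 hxy hy.1.2]
  have hs : {r | r ∈ Ioc R T ∧ w r = 0}.Subsingleton := fun x hx y hy =>
    le_antisymm (not_lt.1 (key y hy x hx)) (not_lt.1 (key x hx y hy))
  exact (Set.ncard_le_one hs.finite).2 fun x hx y hy => hs hx hy

lemma exists_small {f : ℝ → ℝ} (cf : Continuous f) (f0 : ∀ r, 0 ≤ r → 0 ≤ f r) {C κ T0 : ℝ}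
    (hC : ∀ T, 0 ≤ T → ∫ r in (0 : ℝ)..T, f r ≤ C) (hκ : 0 < κ) (hT : 0 ≤ T0) :
    ∃ T, T0 ≤ T ∧ f T ≤ κ := by
  by_contra hcon
  push Not at hcon
  have h0 : 0 ≤ C := by simpa using hC 0 le_rfl
  have hL : 0 < C / κ + 1 := by positivity
  have h1 := hC (T0 + (C / κ + 1)) (by linarith)
  have h2 : 0 ≤ ∫ r in (0 : ℝ)..T0, f r := intervalIntegral.integral_nonneg hT fun r hr => f0 r hr.1
  have h3 := intervalIntegral.integral_mono_on (μ := volume) (f := fun _ => κ) (g := f)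
    (show T0 ≤ T0 + (C / κ + 1) by linarith) intervalIntegrable_const (cf.intervalIntegrable _ _)
    fun r hr => (hcon r hr.1).le
  rw [← intervalIntegral.integral_add_adjacent_intervals (cf.intervalIntegrable 0 T0)
    (cf.intervalIntegrable _ _)] at h1
  rw [intervalIntegral.integral_const, smul_eq_mul, add_sub_cancel_left, add_mul,
    div_mul_cancel₀ _ hκ.ne'] at h3
  linarith

/-- a normalized solution with its two Pruefer angles -/
structure Sol (d : ℕ) (s l1 a1 l2 a2 A B : ℝ) (φ1 ψ1 φ2 ψ2 θ1 ρ1 θ2 ρ2 : ℝ → ℝ) : Prop where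
  h1 : Lin d (fun r => l1 - a1 * ff s ((A * φ1 r) ^ 2 + (B * φ2 r) ^ 2)) φ1 ψ1
  h2 : Lin d (fun r => l2 - a2 * ff s ((A * φ1 r) ^ 2 + (B * φ2 r) ^ 2)) φ2 ψ2
  i1 : φ1 0 = 1
  i2 : φ2 0 = 1
  c1 : Continuous θ1
  c2 : Continuous θ2
  t1 : θ1 0 = Real.pi / 2
  t2 : θ2 0 = Real.pi / 2
  p1 : ∀ r, 0 ≤ r → 0 < ρ1 r ∧ φ1 r = ρ1 r * Real.sin (θ1 r) ∧ ψ1 r = ρ1 r * Real.cos (θ1 r)
  p2 : ∀ r, 0 ≤ r → 0 < ρ2 r ∧ φ2 r = ρ2 r * Real.sin (θ2 r) ∧ ψ2 r = ρ2 r * Real.cos (θ2 r)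

lemma Sol.swap (h : Sol d s l1 a1 l2 a2 A B φ1 ψ1 φ2 ψ2 θ1 ρ1 θ2 ρ2) :
    Sol d s l2 a2 l1 a1 B A φ2 ψ2 φ1 ψ1 θ2 ρ2 θ1 ρ1 :=
  ⟨by simpa only [add_comm] using h.h2, by simpa only [add_comm] using h.h1, h.i2, h.i1, h.c2,
    h.c1, h.t2, h.t1, h.p2, h.p1⟩

lemma EnS_swap (s l1 a1 l2 a2 : ℝ) (U P W Q : ℝ → ℝ) (r : ℝ) :
    EnS s l2 a2 l1 a1 W Q U P r = EnS s l1 a1 l2 a2 U P W Q r := by
  unfold EnS
  rw [add_comm (W r ^ 2)]
  ring

lemma Sol.nz_iff (h : Sol d s l1 a1 l2 a2 A B φ1 ψ1 φ2 ψ2 θ1 ρ1 θ2 ρ2) {T : ℝ} (hT : 0 ≤ T)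
    (m : ℕ) : m ≤ nz φ1 T ↔ m * Real.pi ≤ θ1 T :=
  angle_nz h.h1.dw h.c1 h.p1 h.t1 hT m

lemma Sol.ne (h : Sol d s l1 a1 l2 a2 A B φ1 ψ1 φ2 ψ2 θ1 ρ1 θ2 ρ2) : φ1 0 ≠ 0 :=
  h.i1 ▸ one_ne_zero

lemma Sol.cZ (h : Sol d s l1 a1 l2 a2 A B φ1 ψ1 φ2 ψ2 θ1 ρ1 θ2 ρ2) :
    Continuous fun r => (A * φ1 r) ^ 2 + (B * φ2 r) ^ 2 := by
  have := h.h1.cw
  have := h.h2.cw
  fun_prop

lemma Sol.zero (h : Sol d s l1 a1 l2 a2 A B φ1 ψ1 φ2 ψ2 θ1 ρ1 θ2 ρ2) {T : ℝ} (hT : 0 ≤ T) {m : ℕ}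
    (hm : θ1 T = m * Real.pi) : φ1 T = 0 := by
  rw [(h.p1 T hT).2.1, hm, Real.sin_nat_mul_pi, mul_zero]

lemma Sol.angle_le (h1 : Par s l1 a1) (h : Sol d s l1 a1 l2 a2 A B φ1 ψ1 φ2 ψ2 θ1 ρ1 θ2 ρ2) {T : ℝ}
    (hT : 0 ≤ T) : θ1 T ≤ ((1 + (l1 + a1 / s)) * T + 2) * Real.pi := by
  have h2 := h.h1.nz_le (fun r => q_bound h1 (by positivity)) h.ne hT
  have h3 := (h.nz_iff hT (nz φ1 T + 1)).not.1 (by omega)
  push_cast at h3
  exact (not_le.1 h3).le.trans (mul_le_mul_of_nonneg_right (by linarith) Real.pi_pos.le)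

lemma Sol.origin (h1 : Par s l1 a1) (h : Sol d s l1 a1 l2 a2 0 0 φ1 ψ1 φ2 ψ2 θ1 ρ1 θ2 ρ2) {T : ℝ}
    (hT : 0 ≤ T) {m : ℕ} (hm : 2 ≤ m) : θ1 T < m * Real.pi := by
  have h2 : nz φ1 T ≤ 1 := few_zeros h1 h.cZ (fun r => by positivity) h.h1 h.ne le_rfl
    fun x y hx _ _ => by
      have := mul_pos (pow_pos hx d) (JJ_zero_pos h1)
      simpa [DD, FF_zero] using this
  exact not_le.1 ((h.nz_iff hT m).not.1 (by omega))

lemma Sol.excl (h1 : Par s l1 a1) (h : Sol d s l1 a1 l2 a2 A 0 φ1 ψ1 φ2 ψ2 θ1 ρ1 θ2 ρ2) {η : ℝ}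
    {k l : ℕ} (hk : 2 ≤ k)
    (S : ∀ (U P w p : ℝ → ℝ) (T : ℝ), Mem d s l1 a1 η U P T →
      Lin d (fun r => l2 - a2 * ff s (U r ^ 2)) w p → w 0 ≠ 0 → k + 1 ≤ nz U T + 1 →
      nz U T ≤ k + 1 → nz w T + 2 ≤ l + 1) {T : ℝ} (hT : 0 < T)
    (E0 : 0 ≤ EnS s l1 a1 l2 a2 (fun r => A * φ1 r) (fun r => A * ψ1 r) (fun r => 0 * φ2 r)
      (fun r => 0 * ψ2 r) T)
    (E1 : EnS s l1 a1 l2 a2 (fun r => A * φ1 r) (fun r => A * ψ1 r) (fun r => 0 * φ2 r)
      (fun r => 0 * ψ2 r) T ≤ η) (bd : T ^ d * |A * φ1 T * (A * ψ1 T)| ≤ 1)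
    (t1 : k * Real.pi ≤ θ1 T) (t2 : θ1 T ≤ (k + 1 : ℕ) * Real.pi) (t3 : l * Real.pi ≤ θ2 T) :
    False := by
  rcases eq_or_ne A 0 with rfl | hA
  · exact absurd t1 (not_le.2 (h.origin h1 hT.le hk))
  have e : EnS s l1 a1 l2 a2 (fun r => A * φ1 r) (fun r => A * ψ1 r) (fun r => 0 * φ2 r)
      (fun r => 0 * ψ2 r) T = En s l1 a1 (fun r => A * φ1 r) (fun r => A * ψ1 r) T := by
    simp [EnS, En, Wp, add_sub_assoc]
  rw [e] at E0 E1
  have n1 := (h.nz_iff hT.le k).2 t1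
  have n2 := (h.nz_iff hT.le (k + 2)).not.2 (by
    push_cast at t2 ⊢
    linarith [Real.pi_pos])
  have n3 := (h.swap.nz_iff hT.le l).2 t3
  have := S (fun r => A * φ1 r) (fun r => A * ψ1 r) φ2 ψ2 T
    ⟨by simpa using h.h1.const_mul A, by simpa [h.i1] using hA, hT, E0, E1, bd⟩
    (by simpa using h.h2) h.swap.ne (by rw [nz_const_mul hA]; omega)
    (by rw [nz_const_mul hA]; omega)
  omega

lemma Sol.window (h1 : Par s l1 a1) (h : Sol d s l1 a1 l2 a2 A B φ1 ψ1 φ2 ψ2 θ1 ρ1 θ2 ρ2)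
    {L C R r : ℝ} {k : ℕ} (hk : θ1 L = (k + 1 : ℕ) * Real.pi) (hr : 0 ≤ r) (hrL : r ≤ L)
    (hC : ∫ r in (0 : ℝ)..L, r ^ d * DD s ((A * φ1 r) ^ 2 + (B * φ2 r) ^ 2) ≤ C) (hR : 0 ≤ R)
    (hCR : C < R ^ d * JJ s l1 a1 0) :
    θ1 r ≤ (k + 1 : ℕ) * Real.pi ∧ (R ≤ r → k * Real.pi ≤ θ1 r) := by
  refine ⟨?_, fun hRr => ?_⟩
  · rcases hrL.eq_or_lt with rfl | hlt
    · exact hk.le
    · by_contra hc
      exact absurd hk (angle_up h.h1.dw h.c1 h.p1 hr hlt (k + 1) (not_le.1 hc).le).ne'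
  · have cD := continuous_DD h1.hs h.cZ fun r => by positivity
    have n1 := (h.nz_iff (hr.trans hrL) (k + 1)).2 hk.ge
    have n2 := h.h1.nz_split (fun r => q_bound h1 (by positivity)) h.ne hr hrL
    have n3 := few_zeros h1 h.cZ (fun r => by positivity) h.h1 h.ne (T := L) hr
      fun x y hx hxy hy => by
        refine lt_of_le_of_lt ((intervalIntegral.integral_mono_interval (hr.trans hx.le) hxy.le hy
          ?_ (Continuous.intervalIntegrable (by fun_prop) _ _)).trans hC) (hCR.trans_le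
            (mul_le_mul_of_nonneg_right (pow_le_pow_left₀ hR (hRr.trans hx.le) d)
              (JJ_zero_pos h1).le))
        exact (ae_restrict_iff' measurableSet_Ioc).2 (ae_of_all _ fun r hr =>
          mul_nonneg (pow_nonneg hr.1.le d) (DD_nonneg h1.hs (by positivity)))
    exact (h.nz_iff hr k).1 (by omega)

lemma shoot {G1 G2 : ℝ × ℝ → ℝ} (c1 : Continuous G1) (c2 : Continuous G2) {M K : ℝ} (hM : 0 < M)
    (hK : 0 ≤ K) (b1 : ∀ x, G1 x ≤ K) (b2 : ∀ x, G2 x ≤ K) (r1 : ∀ y, 0 ≤ G1 (M, y))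
    (r2 : ∀ y, 0 ≤ G2 (y, M)) (e0 : ∀ x, x.1 < 0 → x.2 < 0 → G1 x < 0)
    (e1 : ∀ x, x.2 < 0 → G1 x = 0 → G2 x < 0) (e2 : ∀ x, x.1 < 0 → G2 x = 0 → G1 x < 0) :
    ∃ x ∈ Icc ((-1, -1) : ℝ × ℝ) (M, M), G1 x = 0 ∧ G2 x = 0 := by
  obtain ⟨a, ha, b, hb, h⟩ := Pool.Agent.Lib.PlaneTop.miranda
    (u := fun a b => ((G1 (-1 + (M + 1) * a, -1 + (M + 1) * b) + K * min (-1 + (M + 1) * a) 0 : ℝ)
      : ℂ) + ((G2 (-1 + (M + 1) * a, -1 + (M + 1) * b) + K * min (-1 + (M + 1) * b) 0 : ℝ) : ℂ)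
        * Complex.I) (by fun_prop)
    (fun t _ => by simpa using b1 _) (fun t _ => by simpa [hM.le] using r1 _)
    (fun t _ => by simpa using b2 _) (fun t _ => by simpa [hM.le] using r2 _)
  have hx : ∀ a ∈ Icc (0 : ℝ) 1, -1 ≤ -1 + (M + 1) * a ∧ -1 + (M + 1) * a ≤ M := fun a ha =>
    ⟨by nlinarith [ha.1], by nlinarith [ha.2]⟩
  refine ⟨(-1 + (M + 1) * a, -1 + (M + 1) * b), ⟨⟨(hx a ha).1, (hx b hb).1⟩,
    ⟨(hx a ha).2, (hx b hb).2⟩⟩, ?_⟩
  generalize -1 + (M + 1) * a = x at h ⊢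
  generalize -1 + (M + 1) * b = y at h ⊢
  have g1 : G1 (x, y) + K * min x 0 = 0 := by simpa using congrArg Complex.re h
  have g2 : G2 (x, y) + K * min y 0 = 0 := by simpa using congrArg Complex.im h
  have k1 := mul_nonpos_of_nonneg_of_nonpos hK (min_le_right x 0)
  have k2 := mul_nonpos_of_nonneg_of_nonpos hK (min_le_right y 0)
  rcases le_or_gt 0 x with h1 | h1 <;> rcases le_or_gt 0 y with h2 | h2
  · rw [min_eq_right h1] at g1
    rw [min_eq_right h2] at g2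
    exact ⟨by linarith, by linarith⟩
  · rw [min_eq_right h1] at g1
    linarith [e1 (x, y) h2 (by linarith)]
  · rw [min_eq_right h2] at g2
    linarith [e2 (x, y) h1 (by linarith)]
  · linarith [e0 (x, y) h1 h2]

lemma exists_sol_family (d : ℕ) (h1 : Par s l1 a1) (h2 : Par s l2 a2) {A B : ℝ × ℝ → ℝ}
    (cA : Continuous A) (cB : Continuous B) {M : ℝ} (hA : ∀ x, |A x| ≤ M) (hB : ∀ x, |B x| ≤ M) :
    ∃ φ1 ψ1 φ2 ψ2 θ1 ρ1 θ2 ρ2 : ℝ × ℝ → ℝ → ℝ,
      (Continuous fun x : (ℝ × ℝ) × ℝ => φ1 x.1 x.2) ∧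
      (Continuous fun x : (ℝ × ℝ) × ℝ => ψ1 x.1 x.2) ∧
      (Continuous fun x : (ℝ × ℝ) × ℝ => φ2 x.1 x.2) ∧
      (Continuous fun x : (ℝ × ℝ) × ℝ => ψ2 x.1 x.2) ∧
      (Continuous fun x : (ℝ × ℝ) × ℝ => θ1 x.1 x.2) ∧
      (Continuous fun x : (ℝ × ℝ) × ℝ => θ2 x.1 x.2) ∧
      ∀ x, Sol d s l1 a1 l2 a2 (A x) (B x) (φ1 x) (ψ1 x) (φ2 x) (ψ2 x) (θ1 x) (ρ1 x) (θ2 x)
        (ρ2 x) := by
  obtain ⟨φ1, ψ1, φ2, ψ2, c1, c2, c3, c4, H⟩ := exists_family d h1 h2 cA cB hA hB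
  obtain ⟨θ1, ρ1, c5, t1, p1⟩ := exists_angle c1 c2 (fun x r hr => (H x).2.2.1.nonvanish
    (fun r => q_bound h1 (by positivity)) ((H x).1 ▸ one_ne_zero) hr) (fun x => (H x).1)
    fun x => (H x).2.2.1.p0
  obtain ⟨θ2, ρ2, c6, t2, p2⟩ := exists_angle c3 c4 (fun x r hr => (H x).2.2.2.nonvanish
    (fun r => q_bound h2 (by positivity)) ((H x).2.1 ▸ one_ne_zero) hr) (fun x => (H x).2.1)
    fun x => (H x).2.2.2.p0
  exact ⟨φ1, ψ1, φ2, ψ2, θ1, ρ1, θ2, ρ2, c1, c2, c3, c4, c5, c6, fun x =>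
    ⟨(H x).2.2.1, (H x).2.2.2, (H x).1, (H x).2.1,
      c5.comp (f := fun r : ℝ => (x, r)) (by fun_prop),
      c6.comp (f := fun r : ℝ => (x, r)) (by fun_prop), t1 x, t2 x, p1 x, p2 x⟩⟩

theorem exists_radial {d : ℕ} (hd : 2 ≤ d) {s l1 a1 l2 a2 : ℝ} (h1 : Par s l1 a1)
    (h2 : Par s l2 a2) (hns : l1 ≠ l2 ∨ a1 ≠ a2) :
    ∃ U P W Q : ℝ → ℝ, Lin d (fun r => l1 - a1 * ff s (U r ^ 2 + W r ^ 2)) U P ∧
      Lin d (fun r => l2 - a2 * ff s (U r ^ 2 + W r ^ 2)) W Q ∧ U 0 ≠ 0 ∧ W 0 ≠ 0 ∧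
      ∃ C, ∀ T, 0 ≤ T →
        ∫ r in (0 : ℝ)..T, r ^ d * (P r ^ 2 / a1 + Q r ^ 2 / a2 + (U r ^ 2 + W r ^ 2)) ≤ C := by
  obtain ⟨η, hη, k, l, hk, hl, S1, S2⟩ := sep hd h1 h2 hns
  obtain ⟨k, rfl⟩ : ∃ k', k = k' + 1 := ⟨k - 1, by omega⟩
  obtain ⟨l, rfl⟩ : ∃ l', l = l' + 1 := ⟨l - 1, by omega⟩
  have hs := h1.hs
  have ha1 := h1.ha
  have ha2 := h2.ha
  have hQ1 : 0 < l1 + a1 / s := by have := h1.hl; positivity
  have hQ2 : 0 < l2 + a2 / s := by have := h2.hl; positivity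
  obtain ⟨Ra, Ma, -, hMa, La⟩ := large d h1 (l1 + a1 / s + (l2 + a2 / s)) (k + 1)
  obtain ⟨Rb, Mb, -, -, Lb⟩ := large d h2 (l1 + a1 / s + (l2 + a2 / s)) (l + 1)
  set M := max Ma Mb with hMdef
  have hM : 0 < M := lt_max_of_lt_left hMa
  have hcl : ∀ x : ℝ, |max 0 (min x M)| ≤ M := fun x => by
    rw [abs_of_nonneg (le_max_left _ _)]
    exact max_le hM.le (min_le_right _ _)
  obtain ⟨A, B, cA, cB, hA, hB, AM, BM, A0, B0⟩ : ∃ A B : ℝ × ℝ → ℝ, Continuous A ∧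
      Continuous B ∧ (∀ x, |A x| ≤ M) ∧ (∀ x, |B x| ≤ M) ∧ (∀ y, A (M, y) = M) ∧
      (∀ y, B (y, M) = M) ∧ (∀ x, x.1 < 0 → A x = 0) ∧ ∀ x, x.2 < 0 → B x = 0 :=
    ⟨fun x => max 0 (min x.1 M), fun x => max 0 (min x.2 M), by fun_prop, by fun_prop,
      fun x => hcl _, fun x => hcl _, fun y => by simp [hM.le], fun y => by simp [hM.le],
      fun x hx => max_eq_left (min_le_of_left_le hx.le),
      fun x hx => max_eq_left (min_le_of_left_le hx.le)⟩
  obtain ⟨φ1, ψ1, φ2, ψ2, θ1, ρ1, θ2, ρ2, c1, c2, c3, c4, c5, c6, H⟩ :=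
    exists_sol_family d h1 h2 cA cB hA hB
  obtain ⟨c, C, HF⟩ := flow_sys h1 h2
  have F := fun x => HF d _ _ _ _ ((H x).h1.const_mul (A x)) ((H x).h2.const_mul (B x))
  set E : ℝ × ℝ → ℝ → ℝ := fun x => EnS s l1 a1 l2 a2 (fun r => A x * φ1 x r)
    (fun r => A x * ψ1 x r) (fun r => B x * φ2 x r) (fun r => B x * ψ2 x r) with hE
  have E0 : ∀ x, E x 0 ≤ 2 * M ^ 2 / s := fun x => by
    have e1 := sq_le_sq' (abs_le.1 (hA x)).1 (abs_le.1 (hA x)).2
    have e2 := sq_le_sq' (abs_le.1 (hB x)).1 (abs_le.1 (hB x)).2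
    have e3 := FF_le hs (show 0 ≤ A x ^ 2 + B x ^ 2 by positivity)
    have e4 : (A x ^ 2 + B x ^ 2) / s ≤ 2 * M ^ 2 / s := by gcongr; linarith
    have e5 : 0 ≤ l1 * A x ^ 2 / a1 := by have := h1.hl; positivity
    have e6 : 0 ≤ l2 * B x ^ 2 / a2 := by have := h2.hl; positivity
    simp only [hE, EnS, (H x).i1, (H x).i2, (H x).h1.p0, (H x).h2.p0, mul_one, mul_zero]
    norm_num
    linarith
  obtain ⟨C1, hC1, D1⟩ := flow_decay hd s c C (2 * M ^ 2 / s)
  obtain ⟨C2, hC2, D2⟩ := flow_total hd s c C (2 * M ^ 2 / s)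
  have small : ∀ x T, max 1 (C1 / η) ≤ T → 0 ≤ E x T → E x T ≤ η := fun x T hT h0 => by
    have e1 := (le_max_left _ _).trans hT
    have e2 := (le_max_right _ _).trans hT
    refine (D1 _ _ _ _ T (F x) (E0 x) e1 h0).trans ?_
    rw [div_le_iff₀ hη] at e2
    rw [div_le_iff₀ (by linarith)]
    linarith
  have Ez : ∀ x T, A x * φ1 x T = 0 → B x * φ2 x T = 0 → 0 ≤ E x T := fun x T e1 e2 => by
    simp only [hE, EnS, e1, e2]
    norm_num [FF_zero]
    positivity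
  have ex1 : ∀ x T, B x = 0 → max 1 (C1 / η) ≤ T → 0 ≤ E x T →
      T ^ d * |A x * φ1 x T * (A x * ψ1 x T)| ≤ 1 → k * Real.pi ≤ θ1 x T →
      θ1 x T ≤ (k + 1 : ℕ) * Real.pi → l * Real.pi ≤ θ2 x T → False := by
    intro x T e hT h0 bd t1 t2 t3
    have e1 := small x T hT h0
    have hx := H x
    simp only [hE] at h0 e1
    rw [e] at hx h0 e1
    exact hx.excl h1 (by omega) S1 (by linarith [le_max_left 1 (C1 / η)]) h0 e1 bd t1 t2 t3
  have ex2 : ∀ x T, A x = 0 → max 1 (C1 / η) ≤ T → 0 ≤ E x T →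
      T ^ d * |B x * φ2 x T * (B x * ψ2 x T)| ≤ 1 → l * Real.pi ≤ θ2 x T →
      θ2 x T ≤ (l + 1 : ℕ) * Real.pi → k * Real.pi ≤ θ1 x T → False := by
    intro x T e hT h0 bd t1 t2 t3
    have e1 := small x T hT h0
    have hx := (H x).swap
    simp only [hE] at h0 e1
    rw [← EnS_swap] at h0 e1
    rw [e] at hx h0 e1
    exact hx.excl h2 (by omega) S2 (by linarith [le_max_left 1 (C1 / η)]) h0 e1 bd t1 t2 t3
  have hπ := Real.pi_pos
  have fin : ∀ L, max (max 1 (C1 / η)) (max Ra Rb) ≤ L → ∃ x ∈ Icc ((-1, -1) : ℝ × ℝ) (M, M),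
      θ1 x L = (k + 1 : ℕ) * Real.pi ∧ θ2 x L = (l + 1 : ℕ) * Real.pi := by
    intro L hL
    have L1 := (le_max_left _ _).trans hL
    have L2 := (le_max_right _ _).trans hL
    have L0 : 0 ≤ L := by linarith [le_max_left 1 (C1 / η)]
    have k0 : (0 : ℝ) ≤ (k + 1 : ℕ) * Real.pi := by positivity
    have l0 : (0 : ℝ) ≤ (l + 1 : ℕ) * Real.pi := by positivity
    have K1 : 0 ≤ ((1 + (l1 + a1 / s)) * L + 2) * Real.pi := by positivity
    have K2 : 0 ≤ ((1 + (l2 + a2 / s)) * L + 2) * Real.pi := by positivity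
    obtain ⟨x, hx, g1, g2⟩ := shoot (G1 := fun x => θ1 x L - (k + 1 : ℕ) * Real.pi)
      (G2 := fun x => θ2 x L - (l + 1 : ℕ) * Real.pi)
      ((c5.comp (f := fun x : ℝ × ℝ => (x, L)) (by fun_prop)).sub continuous_const)
      ((c6.comp (f := fun x : ℝ × ℝ => (x, L)) (by fun_prop)).sub continuous_const) hM
      (add_nonneg K1 K2) (fun x => by linarith [(H x).angle_le h1 L0])
      (fun x => by linarith [(H x).swap.angle_le h2 L0])
      (fun y => sub_nonneg.2 (((H _).nz_iff L0 _).1 (La _ _ _ _ _ _ (A (M, y)) L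
        ((le_max_left _ _).trans (AM y).ge) ((le_max_left _ _).trans L2) (H _).h1
        (fun r => (q_bound h1 (by positivity)).trans (by linarith)) (H _).i1 (H _).cZ
        (fun r => le_add_of_nonneg_right (sq_nonneg _)) (H _).h1 (H _).ne)))
      (fun y => sub_nonneg.2 (((H _).swap.nz_iff L0 _).1 (Lb _ _ _ _ _ _ (B (y, M)) L
        ((le_max_right _ _).trans (BM y).ge) ((le_max_right _ _).trans L2) (H _).h2
        (fun r => (q_bound h2 (by positivity)).trans (by linarith)) (H _).i2 (H _).cZ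
        (fun r => le_add_of_nonneg_left (sq_nonneg _)) (H _).h2 (H _).swap.ne)))
      (fun x x1 x2 => by
        have hx := H x
        rw [A0 x x1, B0 x x2] at hx
        exact sub_neg.2 (hx.origin h1 L0 (by omega)))
      (fun x x2 g => by
        have e := (H x).zero L0 (sub_eq_zero.1 g)
        by_contra hc
        refine ex1 x L (B0 x x2) L1 (Ez x L (by simp [e]) (by simp [B0 x x2])) (by simp [e])
          ?_ (sub_eq_zero.1 g).le ?_ <;> push_cast at g hc <;> linarith)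
      (fun x x1 g => by
        have e := (H x).swap.zero L0 (sub_eq_zero.1 g)
        by_contra hc
        refine ex2 x L (A0 x x1) L1 (Ez x L (by simp [A0 x x1]) (by simp [e])) (by simp [e])
          ?_ (sub_eq_zero.1 g).le ?_ <;> push_cast at g hc <;> linarith)
    exact ⟨x, hx, sub_eq_zero.1 g1, sub_eq_zero.1 g2⟩
  obtain ⟨R, hR, R1, R2⟩ : ∃ R, 0 ≤ R ∧ C2 < R ^ d * JJ s l1 a1 0 ∧ C2 < R ^ d * JJ s l2 a2 0 := by
    have t := tendsto_pow_atTop (α := ℝ) (show d ≠ 0 by omega)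
    exact ((eventually_ge_atTop 0).and (((t.atTop_mul_const (JJ_zero_pos h1)).eventually_gt_atTop
      C2).and ((t.atTop_mul_const (JJ_zero_pos h2)).eventually_gt_atTop C2))).exists
  set f : ℝ × ℝ → ℝ → ℝ := fun x r => r ^ d * ((A x * ψ1 x r) ^ 2 / a1 + (B x * ψ2 x r) ^ 2 / a2
    + ((A x * φ1 x r) ^ 2 + (B x * φ2 x r) ^ 2)) with hf
  have cf : Continuous fun x : (ℝ × ℝ) × ℝ => f x.1 x.2 := by
    simp only [hf]
    fun_prop
  have cf' : ∀ x, Continuous (f x) := fun x => cf.comp (f := fun r : ℝ => (x, r)) (by fun_prop)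
  have f0 : ∀ x r, 0 ≤ r → 0 ≤ f x r := fun x r hr => by
    simp only [hf]
    positivity
  have good : ∀ L, max (max 1 (C1 / η)) (max Ra Rb) ≤ L → ∃ x ∈ Icc ((-1, -1) : ℝ × ℝ) (M, M),
      ∀ r, 0 ≤ r → r ≤ L → 0 ≤ E x r ∧ ∫ t in (0 : ℝ)..r, f x t ≤ C2 ∧
        θ1 x r ≤ (k + 1 : ℕ) * Real.pi ∧ θ2 x r ≤ (l + 1 : ℕ) * Real.pi ∧
        (R ≤ r → k * Real.pi ≤ θ1 x r) ∧ (R ≤ r → l * Real.pi ≤ θ2 x r) := by
    intro L hL
    obtain ⟨x, hx, g1, g2⟩ := fin L hL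
    have L0 : 0 ≤ L := by linarith [le_max_left 1 (C1 / η), (le_max_left _ _).trans hL]
    have z1 := (H x).zero L0 g1
    have z2 := (H x).swap.zero L0 g2
    have e := Ez x L (by simp [z1]) (by simp [z2])
    obtain ⟨i1, i2⟩ := D2 _ _ _ _ L (F x) (E0 x) L0 e (by simp [z1, z2])
    refine ⟨x, hx, fun r hr hrL => ?_⟩
    have w1 := (H x).window h1 g1 hr hrL i2 hR R1
    have w2 := (H x).swap.window h2 g2 hr hrL (by simpa only [add_comm] using i2) hR R2
    refine ⟨e.trans ((F x).anti hr hrL), le_trans ?_ i1, w1.1, w2.1, w1.2, w2.2⟩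
    exact intervalIntegral.integral_mono_interval le_rfl hr hrL
      ((ae_restrict_iff' measurableSet_Ioc).2 (ae_of_all _ fun r hr => f0 x r hr.1.le))
      ((cf' x).intervalIntegrable _ _)
  choose X hX HX using fun j : ℕ => good (max (max 1 (C1 / η)) (max Ra Rb) + j)
    (le_add_of_nonneg_right (Nat.cast_nonneg j))
  obtain ⟨x, -, σ, hσ, hx⟩ := isCompact_Icc.tendsto_subseq hX
  have ev : ∀ r : ℝ, ∀ᶠ j in atTop, r ≤ max (max 1 (C1 / η)) (max Ra Rb) + (σ j : ℕ) := fun r =>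
    (tendsto_atTop_add_const_left _ _
      (tendsto_natCast_atTop_atTop.comp hσ.tendsto_atTop)).eventually_ge_atTop r
  have lim : ∀ (g g' : ℝ × ℝ → ℝ) (r : ℝ), Continuous g → Continuous g' →
      (∀ j, r ≤ max (max 1 (C1 / η)) (max Ra Rb) + (j : ℕ) → g (X j) ≤ g' (X j)) → g x ≤ g' x :=
    fun g g' r cg cg' h => le_of_tendsto_of_tendsto ((cg.tendsto x).comp hx)
      ((cg'.tendsto x).comp hx) ((ev r).mono fun j hj => h (σ j) hj)
  have sl : ∀ {g : ℝ × ℝ → ℝ → ℝ}, (Continuous fun x : (ℝ × ℝ) × ℝ => g x.1 x.2) → ∀ r,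
      Continuous fun x => g x r := fun cg r => cg.comp (f := fun x : ℝ × ℝ => (x, r)) (by fun_prop)
  have I : ∀ T, 0 ≤ T → ∫ t in (0 : ℝ)..T, f x t ≤ C2 := fun T hT =>
    lim (fun x => ∫ t in (0 : ℝ)..T, f x t) (fun _ => C2) T
      (intervalIntegral.continuous_parametric_intervalIntegral_of_continuous' cf 0 T)
      continuous_const fun j hj => (HX j T hT hj).2.1
  obtain ⟨T, hT, hfT⟩ := exists_small (cf' x) (f0 x) I (κ := 1 / (1 + a1 + a2)) (by positivity)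
    (le_max_of_le_left hR : 0 ≤ max R (max 1 (C1 / η)))
  have T1 := (le_max_left _ _).trans hT
  have T2 := (le_max_right _ _).trans hT
  have T0 := hR.trans T1
  have e0 : 0 ≤ E x T := by
    refine lim (fun _ => 0) (fun x => E x T) T continuous_const ?_ fun j hj => (HX j T T0 hj).1
    have := sl c1 T
    have := sl c2 T
    have := sl c3 T
    have := sl c4 T
    have := continuous_FF hs (Z := fun x => (A x * φ1 x T) ^ 2 + (B x * φ2 x T) ^ 2) (by fun_prop)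
      fun x => by positivity
    simp only [hE, EnS]
    fun_prop
  have t1 := lim (fun x => θ1 x T) (fun _ => (k + 1 : ℕ) * Real.pi) T (sl c5 T) continuous_const
    fun j hj => (HX j T T0 hj).2.2.1
  have t2 := lim (fun x => θ2 x T) (fun _ => (l + 1 : ℕ) * Real.pi) T (sl c6 T) continuous_const
    fun j hj => (HX j T T0 hj).2.2.2.1
  have t3 := lim (fun _ => k * Real.pi) (fun x => θ1 x T) T continuous_const (sl c5 T)
    fun j hj => (HX j T T0 hj).2.2.2.2.1 T1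
  have t4 := lim (fun _ => l * Real.pi) (fun x => θ2 x T) T continuous_const (sl c6 T)
    fun j hj => (HX j T T0 hj).2.2.2.2.2 T1
  have bd : ∀ u p a K : ℝ, 0 < a → a ≤ a1 + a2 → p ^ 2 / a + u ^ 2 ≤ K →
      T ^ d * K ≤ 1 / (1 + a1 + a2) → T ^ d * |u * p| ≤ 1 := by
    intro u p a K ha e1 e2 e3
    rw [le_div_iff₀ (by positivity), mul_assoc] at e3
    refine le_trans (mul_le_mul_of_nonneg_left ?_ (pow_nonneg T0 d)) e3
    have e4 : p ^ 2 = a * (p ^ 2 / a) := by field_simp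
    have e5 : 0 ≤ p ^ 2 / a := by positivity
    have e6 : |u * p| ≤ u ^ 2 + p ^ 2 := by
      rw [abs_le]
      constructor <;> linarith [sq_nonneg (u + p), sq_nonneg (u - p), sq_nonneg u, sq_nonneg p]
    have e7 := mul_le_mul e1 (show p ^ 2 / a ≤ K by linarith [sq_nonneg u]) e5 (by positivity)
    linarith
  have q1 : 0 ≤ (A x * ψ1 x T) ^ 2 / a1 := by positivity
  have q2 : 0 ≤ (B x * ψ2 x T) ^ 2 / a2 := by positivity
  refine ⟨_, _, _, _, (H x).h1.const_mul (A x), (H x).h2.const_mul (B x), fun e => ?_,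
    fun e => ?_, C2, I⟩
  · refine ex2 x T (by simpa [(H x).i1] using e) T2 e0 (bd _ _ a2 _ ha2 (by linarith) ?_ hfT)
      t4 t2 t3
    linarith [sq_nonneg (A x * φ1 x T)]
  · refine ex1 x T (by simpa [(H x).i2] using e) T2 e0 (bd _ _ a1 _ ha1 (by linarith) ?_ hfT)
      t3 t1 t4
    linarith [sq_nonneg (B x * φ2 x T)]

end Pool.Agent.MP_67db61_an.Cls

end

-- part MP_67db61_an.Full.Weak
section

/-!
Classical solutions of finite energy are weak solutions against all `H¹` test functions, and the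
testing argument that bounds the saturation parameter.
-/

namespace Pool.Agent.MP_67db61_an.Cls

open Set Filter Topology MeasureTheory

variable {E : Type*} [NormedAddCommGroup E] [InnerProductSpace ℝ E] [FiniteDimensional ℝ E]
  [MeasurableSpace E] [BorelSpace E]

theorem weak_grad {u : E → ℝ} (hu : ContDiff ℝ 1 u) {φ : E → ℝ} (hφ : ContDiff ℝ (⊤ : ℕ∞) φ)
    (hc : HasCompactSupport φ) (e : E) :
    ∫ x, u x * fderiv ℝ φ x e = -∫ x, inner ℝ (gradient u x) e * φ x := by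
  have hφ1 : ContDiff ℝ 1 φ := hφ.of_le (by exact_mod_cast le_top)
  have cφ : Continuous fun x => fderiv ℝ φ x e :=
    (hφ1.continuous_fderiv one_ne_zero).clm_apply continuous_const
  have cu : Continuous fun x => fderiv ℝ u x e :=
    (hu.continuous_fderiv one_ne_zero).clm_apply continuous_const
  simp only [inner_gradient_left]
  exact integral_mul_fderiv_eq_neg_fderiv_mul_of_integrable
    ((cu.mul hφ1.continuous).integrable_of_hasCompactSupport hc.mul_left)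
    ((hu.continuous.mul cφ).integrable_of_hasCompactSupport (hc.fderiv_apply ℝ e).mul_left)
    ((hu.continuous.mul hφ1.continuous).integrable_of_hasCompactSupport hc.mul_left)
    (fun x _ => hu.differentiable one_ne_zero x) (fun x _ => hφ1.differentiable one_ne_zero x)

/-- The mollifier of radius `1 / (n + 1)`. -/
noncomputable def weakBump (E : Type*) [NormedAddCommGroup E] (n : ℕ) : ContDiffBump (0 : E) where
  rIn := 1 / ((n : ℝ) + 1) / 2
  rOut := 1 / ((n : ℝ) + 1)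
  rIn_pos := by positivity
  rIn_lt_rOut := half_lt_self (by positivity)

/-- The mollification of `k` at scale `1 / (n + 1)`. -/
noncomputable def weakMoll (n : ℕ) (k : E → ℝ) : E → ℝ :=
  convolution ((weakBump E n).normed volume) k (ContinuousLinearMap.lsmul ℝ ℝ) volume

lemma weak_moll_contDiff (n : ℕ) {k : E → ℝ} (hk : Continuous k) :
    ContDiff ℝ (⊤ : ℕ∞) (weakMoll n k) :=
  (weakBump E n).hasCompactSupport_normed.contDiff_convolution_left _
    (weakBump E n).contDiff_normed hk.locallyIntegrable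

lemma weak_moll_supp (n : ℕ) {k : E → ℝ} (hc : HasCompactSupport k) :
    HasCompactSupport (weakMoll n k) :=
  (weakBump E n).hasCompactSupport_normed.convolution _ hc

lemma weak_moll_fderiv (n : ℕ) {k : E → ℝ} (hk : ContDiff ℝ 1 k) (hc : HasCompactSupport k)
    (x e : E) : fderiv ℝ (weakMoll n k) x e = weakMoll n (fun y => fderiv ℝ k y e) x := by
  have hl : LocallyIntegrable ((weakBump E n).normed volume) volume :=
    (weakBump E n).continuous_normed.locallyIntegrable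
  have h1 := (hc.hasFDerivAt_convolution_right (ContinuousLinearMap.lsmul ℝ ℝ) hl hk x).fderiv
  unfold weakMoll
  rw [h1]
  exact convolution_precompR_apply _ hl (hc.fderiv ℝ) (hk.continuous_fderiv one_ne_zero) x e

lemma weak_moll_tendsto {φ k : E → ℝ} (hφ : LocallyIntegrable φ) (hk : Continuous k)
    (hc : HasCompactSupport k) :
    Tendsto (fun n => ∫ x, φ x * weakMoll n k x) atTop (𝓝 (∫ x, φ x * k x)) := by
  obtain ⟨C, hC⟩ := hk.bounded_above_of_compact_support hc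
  obtain ⟨R, -, hR⟩ := hc.exists_pos_le_norm
  have hr : ∀ n : ℕ, (weakBump E n).rOut ≤ 1 := fun n => by
    change 1 / ((n : ℝ) + 1) ≤ 1
    rw [div_le_one (by positivity)]
    linarith [Nat.cast_nonneg (α := ℝ) n]
  have hb : ∀ n x, ‖weakMoll n k x‖ ≤ 3 * C := fun n x => by
    have h1 : dist (weakMoll n k x) (k x) ≤ 2 * C :=
      (weakBump E n).dist_normed_convolution_le hk.aestronglyMeasurable fun y _ => by
        rw [dist_eq_norm]
        linarith [norm_sub_le (k y) (k x), hC y, hC x]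
    rw [dist_eq_norm] at h1
    linarith [norm_sub_norm_le (weakMoll n k x) (k x), hC x]
  have hz : ∀ n x, R + 1 < ‖x‖ → weakMoll n k x = 0 := fun n x hx => by
    have h0 : k x = 0 := hR x (by linarith)
    have h1 : dist (weakMoll n k x) (k x) ≤ 0 :=
      (weakBump E n).dist_normed_convolution_le hk.aestronglyMeasurable fun y hy => by
        rw [Metric.mem_ball, dist_eq_norm] at hy
        have h2 : k y = 0 := hR y (by
          linarith [norm_sub_norm_le x y, norm_sub_rev x y, hr n])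
        rw [h0, h2, dist_self]
    rw [h0] at h1
    exact dist_le_zero.1 h1
  have hi : IntegrableOn (fun x => ‖φ x‖ * (3 * C)) (Metric.closedBall 0 (R + 1)) :=
    (hφ.integrableOn_isCompact (isCompact_closedBall 0 (R + 1))).norm.mul_const _
  refine tendsto_integral_of_dominated_convergence
    ((Metric.closedBall (0 : E) (R + 1)).indicator fun x => ‖φ x‖ * (3 * C))
    (fun n => hφ.aestronglyMeasurable.mul
      (weak_moll_contDiff n hk).continuous.aestronglyMeasurable)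
    ((integrable_indicator_iff Metric.isClosed_closedBall.measurableSet).2 hi)
    (fun n => ae_of_all _ fun x => ?_) (ae_of_all _ fun x => ?_)
  · by_cases hx : x ∈ Metric.closedBall (0 : E) (R + 1)
    · rw [indicator_of_mem hx, norm_mul]
      exact mul_le_mul_of_nonneg_left (hb n x) (norm_nonneg _)
    · rw [indicator_of_notMem hx, hz n x (by simpa using hx)]
      simp
  · exact (ContDiffBump.convolution_tendsto_right_of_continuous (φ := weakBump E)
      tendsto_one_div_add_atTop_nhds_zero_nat hk x).const_mul _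

/-- The weak gradient identity extends to compactly supported `C¹` test functions. -/
lemma weak_ext {φ : E → ℝ} {g : E → E} (hφ : MemLp φ 2) (hg : MemLp g 2)
    (hw : ∀ ψ : E → ℝ, ContDiff ℝ (⊤ : ℕ∞) ψ → HasCompactSupport ψ → ∀ e : E,
      ∫ x, φ x * fderiv ℝ ψ x e = -∫ x, inner ℝ (g x) e * ψ x)
    {ψ : E → ℝ} (hψ : ContDiff ℝ 1 ψ) (hc : HasCompactSupport ψ) (e : E) :
    ∫ x, φ x * fderiv ℝ ψ x e = -∫ x, inner ℝ (g x) e * ψ x := by
  have h1 := weak_moll_tendsto (hφ.locallyIntegrable one_le_two)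
    ((hψ.continuous_fderiv one_ne_zero).clm_apply (continuous_const (y := e)))
    (hc.fderiv_apply ℝ e)
  have h2 := (weak_moll_tendsto ((hg.inner_const (𝕜 := ℝ) e).locallyIntegrable one_le_two)
    hψ.continuous hc).neg
  refine tendsto_nhds_unique h1 (h2.congr fun n => ?_)
  rw [← hw _ (weak_moll_contDiff n hψ.continuous) (weak_moll_supp n hc) e]
  simp only [weak_moll_fderiv n hψ hc]

/-- Green's formula for a weakly differentiable function against a cut-off gradient field. -/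
lemma weak_cut {u : E → ℝ} (hu : ContDiff ℝ 2 u) {φ : E → ℝ} {g : E → E}
    (hφ : MemLp φ 2) (hg : MemLp g 2)
    (hw : ∀ ψ : E → ℝ, ContDiff ℝ (⊤ : ℕ∞) ψ → HasCompactSupport ψ → ∀ e : E,
      ∫ x, φ x * fderiv ℝ ψ x e = -∫ x, inner ℝ (g x) e * ψ x)
    {χ : E → ℝ} (hχ : ContDiff ℝ 1 χ) (hc : HasCompactSupport χ) :
    ∫ x, (φ x * (fderiv ℝ χ x (gradient u x) + χ x * Laplacian.laplacian u x)
      + χ x * inner ℝ (gradient u x) (g x)) = 0 := by
  set b := stdOrthonormalBasis ℝ E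
  have hu1 : ContDiff ℝ 1 (fderiv ℝ u) := hu.fderiv_right (m := 1) le_rfl
  have hui : ∀ i, ContDiff ℝ 1 fun x => fderiv ℝ u x (b i) := fun i =>
    hu1.clm_apply contDiff_const
  have hψ : ∀ i, ContDiff ℝ 1 fun x => χ x * fderiv ℝ u x (b i) := fun i => hχ.mul (hui i)
  have hψc : ∀ i, HasCompactSupport fun x => χ x * fderiv ℝ u x (b i) := fun i => hc.mul_right
  have i1 : ∀ i, Integrable fun x => φ x * fderiv ℝ (fun x => χ x * fderiv ℝ u x (b i)) x (b i) :=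
    fun i => (hφ.locallyIntegrable one_le_two).integrable_smul_right_of_hasCompactSupport
      (((hψ i).continuous_fderiv one_ne_zero).clm_apply continuous_const)
      ((hψc i).fderiv_apply ℝ (b i))
  have i2 : ∀ i, Integrable fun x => inner ℝ (g x) (b i) * (χ x * fderiv ℝ u x (b i)) :=
    fun i => ((hg.inner_const (𝕜 := ℝ) (b i)).locallyIntegrable
      one_le_two).integrable_smul_right_of_hasCompactSupport (hψ i).continuous (hψc i)
  have e1 : ∀ x, φ x * (fderiv ℝ χ x (gradient u x) + χ x * Laplacian.laplacian u x)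
      + χ x * inner ℝ (gradient u x) (g x)
      = ∑ i, (φ x * fderiv ℝ (fun x => χ x * fderiv ℝ u x (b i)) x (b i)
        + inner ℝ (g x) (b i) * (χ x * fderiv ℝ u x (b i))) := by
    intro x
    have a1 : fderiv ℝ χ x (gradient u x) = ∑ i, fderiv ℝ u x (b i) * fderiv ℝ χ x (b i) := by
      rw [← inner_gradient_left, ← b.sum_inner_mul_inner]
      refine Finset.sum_congr rfl fun i _ => ?_
      rw [inner_gradient_left, real_inner_comm, inner_gradient_left, mul_comm]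
    have a2 : Laplacian.laplacian u x
        = ∑ i, fderiv ℝ (fun x => fderiv ℝ u x (b i)) x (b i) := by
      rw [InnerProductSpace.laplacian_eq_iteratedFDeriv_stdOrthonormalBasis]
      refine Finset.sum_congr rfl fun i _ => ?_
      rw [iteratedFDeriv_two_apply, fderiv_clm_apply (hu1.differentiable one_ne_zero x)
        (differentiableAt_const _)]
      simp [b]
    have a3 : inner ℝ (gradient u x) (g x) = ∑ i, fderiv ℝ u x (b i) * inner ℝ (g x) (b i) := by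
      rw [← b.sum_inner_mul_inner]
      refine Finset.sum_congr rfl fun i _ => ?_
      rw [inner_gradient_left, real_inner_comm]
    rw [a1, a2, a3, Finset.mul_sum, Finset.mul_sum, ← Finset.sum_add_distrib, Finset.mul_sum,
      ← Finset.sum_add_distrib]
    refine Finset.sum_congr rfl fun i _ => ?_
    rw [fderiv_fun_mul (hχ.differentiable one_ne_zero x) ((hui i).differentiable one_ne_zero x)]
    simp only [add_apply, smul_apply, smul_eq_mul]
    ring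
  simp only [e1]
  refine (integral_finsetSum _ fun i _ => (i1 i).add (i2 i)).trans
    (Finset.sum_eq_zero fun i _ => ?_)
  simp only [Pi.add_apply]
  rw [integral_add (i1 i) (i2 i), weak_ext hφ hg hw (hψ i) (hψc i)]
  ring

theorem weak_H1 {u F : E → ℝ} {l : ℝ} (hu : ContDiff ℝ 2 u) (u2 : MemLp u 2)
    (g2 : MemLp (gradient u) 2) (F2 : MemLp F 2)
    (h : ∀ x, -Laplacian.laplacian u x + l * u x = F x) {φ : E → ℝ} {g : E → E}
    (hφ : MemLp φ 2) (hg : MemLp g 2)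
    (hw : ∀ ψ : E → ℝ, ContDiff ℝ (⊤ : ℕ∞) ψ → HasCompactSupport ψ → ∀ e : E,
      ∫ x, φ x * fderiv ℝ ψ x e = -∫ x, inner ℝ (g x) e * ψ x) :
    (∫ x, inner ℝ (gradient u x) (g x)) + l * ∫ x, u x * φ x = ∫ x, F x * φ x := by
  let χ : ContDiffBump (0 : E) := weakBump E 0
  have hχ : ContDiff ℝ 1 χ := χ.contDiff
  have cχ : Continuous (fderiv ℝ χ) := hχ.continuous_fderiv one_ne_zero
  obtain ⟨C, hC⟩ := cχ.bounded_above_of_compact_support (χ.hasCompactSupport.fderiv ℝ)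
  have eL : Laplacian.laplacian u = fun x => l * u x - F x := funext fun x => by
    rw [← h x]; ring
  have L2 : MemLp (Laplacian.laplacian u) 2 := by
    rw [eL]
    exact (u2.const_mul l).sub F2
  have iu : Integrable fun x => u x * φ x := u2.integrable_mul hφ
  have iF : Integrable fun x => F x * φ x := F2.integrable_mul hφ
  have mg : AEStronglyMeasurable fun x => inner ℝ (gradient u x) (g x) := g2.1.inner hg.1
  have ing : Integrable fun x => ‖gradient u x‖ * ‖g x‖ := g2.norm.integrable_mul hg.norm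
  have ig : Integrable fun x => inner ℝ (gradient u x) (g x) :=
    ing.mono' mg (ae_of_all _ fun x => norm_inner_le_norm _ _)
  let c : ℕ → ℝ := fun n => 1 / ((n : ℝ) + 1)
  have c0 : ∀ n, 0 < c n := fun n => by positivity
  have c1 : ∀ n, c n ≤ 1 := fun n => by
    change 1 / ((n : ℝ) + 1) ≤ 1
    rw [div_le_one (by positivity)]
    linarith [Nat.cast_nonneg (α := ℝ) n]
  let H : ℝ → E → ℝ := fun t x =>
    φ x * (fderiv ℝ χ (t • x) (t • gradient u x) + χ (t • x) * Laplacian.laplacian u x)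
      + χ (t • x) * inner ℝ (gradient u x) (g x)
  have hH : ∀ n, ∫ x, H (c n) x = 0 := fun n => by
    have h1 : ContDiff ℝ 1 fun x : E => χ (c n • x) := hχ.comp (contDiff_id.const_smul _)
    rw [← weak_cut hu hφ hg hw h1 (χ.hasCompactSupport.comp_smul (c0 n).ne')]
    refine integral_congr_ae (ae_of_all _ fun x => ?_)
    have h2 : HasFDerivAt (fun x : E => χ (c n • x))
        ((fderiv ℝ χ (c n • x)).comp (c n • ContinuousLinearMap.id ℝ E)) x :=
      (hχ.differentiable one_ne_zero (c n • x)).hasFDerivAt.comp x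
        ((hasFDerivAt_id x).const_smul (c n))
    simp only [H, h2.fderiv]
    rfl
  have hlim : Tendsto (fun n => ∫ x, H (c n) x) atTop (𝓝 (∫ x, H 0 x)) := by
    refine tendsto_integral_of_dominated_convergence
      (fun x => C * (‖φ x‖ * ‖gradient u x‖) + ‖φ x‖ * ‖Laplacian.laplacian u x‖
        + ‖gradient u x‖ * ‖g x‖) (fun n => ?_)
      ((((hφ.norm.integrable_mul g2.norm).const_mul C).add (hφ.norm.integrable_mul L2.norm)).add
        ing) (fun n => ae_of_all _ fun x => ?_) (ae_of_all _ fun x => ?_)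
    · have m1 : AEStronglyMeasurable fun x : E => χ (c n • x) :=
        (χ.continuous.comp (continuous_const_smul _)).aestronglyMeasurable
      have m2 : AEStronglyMeasurable fun x : E => fderiv ℝ χ (c n • x) :=
        (cχ.comp (continuous_const_smul _)).aestronglyMeasurable
      have m3 : AEStronglyMeasurable fun x : E => fderiv ℝ χ (c n • x) (c n • gradient u x) :=
        (isBoundedBilinearMap_apply (𝕜 := ℝ) (E := E) (F := ℝ)).continuous.comp_aestronglyMeasurable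
          (m2.prodMk (g2.1.const_smul (c n)))
      exact (hφ.1.mul (m3.add (m1.mul L2.1))).add (m1.mul mg)
    · have b1 : ‖χ (c n • x)‖ ≤ 1 := by
        rw [Real.norm_eq_abs, abs_of_nonneg χ.nonneg]
        exact χ.le_one
      have b2 : ‖fderiv ℝ χ (c n • x) (c n • gradient u x)‖ ≤ C * ‖gradient u x‖ := by
        refine (ContinuousLinearMap.le_opNorm _ _).trans (mul_le_mul (hC _) ?_ (norm_nonneg _)
          ((norm_nonneg _).trans (hC 0)))
        rw [norm_smul, Real.norm_eq_abs, abs_of_pos (c0 n)]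
        exact mul_le_of_le_one_left (norm_nonneg _) (c1 n)
      have b3 : ‖χ (c n • x) * Laplacian.laplacian u x‖ ≤ ‖Laplacian.laplacian u x‖ := by
        rw [norm_mul]
        exact mul_le_of_le_one_left (norm_nonneg _) b1
      have b4 : ‖χ (c n • x) * inner ℝ (gradient u x) (g x)‖ ≤ ‖gradient u x‖ * ‖g x‖ := by
        rw [norm_mul]
        exact (mul_le_of_le_one_left (norm_nonneg _) b1).trans (norm_inner_le_norm _ _)
      refine (norm_add_le _ _).trans (add_le_add ?_ b4)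
      rw [norm_mul]
      have b5 := (norm_add_le _ _).trans (add_le_add b2 b3)
      nlinarith [mul_le_mul_of_nonneg_left b5 (norm_nonneg (φ x))]
    · have cH : Continuous fun t => H t x := by
        have k1 : Continuous fun t : ℝ => χ (t • x) := χ.continuous.comp (by fun_prop)
        have k2 : Continuous fun t : ℝ => fderiv ℝ χ (t • x) (t • gradient u x) :=
          (cχ.comp (by fun_prop)).clm_apply (by fun_prop)
        exact (continuous_const.mul (k2.add (k1.mul continuous_const))).add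
          (k1.mul continuous_const)
      exact (cH.tendsto 0).comp tendsto_one_div_add_atTop_nhds_zero_nat
  have h0 : ∫ x, H 0 x = 0 := by
    simp only [hH] at hlim
    exact (tendsto_nhds_unique tendsto_const_nhds hlim).symm
  have χ0 : χ 0 = 1 := χ.one_of_mem_closedBall (Metric.mem_closedBall_self χ.rIn_pos.le)
  have e0 : ∀ x, H 0 x = inner ℝ (gradient u x) (g x) + (l * (u x * φ x) - F x * φ x) := fun x => by
    simp only [H, zero_smul, map_zero, χ0, eL]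
    ring
  simp only [e0] at h0
  have i3 : Integrable fun x => l * (u x * φ x) - F x * φ x := (iu.const_mul l).sub iF
  rw [integral_add ig i3, integral_sub (iu.const_mul l) iF, integral_const_mul] at h0
  linarith

theorem memLp_rhs {s a : ℝ} (hs : 0 < s) {u Z : E → ℝ} (u2 : MemLp u 2)
    (mZ : AEStronglyMeasurable Z) (Z0 : ∀ x, 0 ≤ Z x) :
    MemLp (fun x => a * u x * Z x / (1 + s * Z x)) 2 := by
  refine u2.of_le_mul (c := |a| / s) ?_ (ae_of_all _ fun x => ?_)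
  · exact (((u2.1.const_mul a).mul mZ).aemeasurable.div
      ((mZ.const_mul s).const_add 1).aemeasurable).aestronglyMeasurable
  · have h1 : 0 < 1 + s * Z x := by nlinarith [Z0 x]
    rw [Real.norm_eq_abs, Real.norm_eq_abs, abs_div, abs_mul, abs_mul, abs_of_nonneg (Z0 x),
      abs_of_pos h1, div_mul_eq_mul_div, div_le_div_iff₀ h1 hs]
    nlinarith [mul_nonneg (abs_nonneg a) (abs_nonneg (u x))]

theorem necessity {s l a : ℝ} (hs : 0 < s) (hl : 0 < l) (ha : 0 < a) {u Z : E → ℝ} {g : E → E}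
    (u2 : MemLp u 2) (mZ : AEStronglyMeasurable Z) (Z0 : ∀ x, 0 ≤ Z x)
    (h : (∫ x, inner ℝ (g x) (g x)) + l * ∫ x, u x * u x
      = ∫ x, a * u x * Z x / (1 + s * Z x) * u x) (hne : ¬u =ᵐ[volume] 0) : s < a / l := by
  by_contra hn
  rw [not_lt, div_le_iff₀ hl] at hn
  have i1 : Integrable fun x => u x * u x := u2.integrable_mul u2
  have i2 : Integrable fun x => a * u x * Z x / (1 + s * Z x) * u x :=
    (memLp_rhs hs u2 mZ Z0).integrable_mul u2
  have key : ∀ x, l / (1 + s * Z x) * (u x * u x)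
      ≤ l * (u x * u x) - a * u x * Z x / (1 + s * Z x) * u x := fun x => by
    have h1 : 0 < 1 + s * Z x := by nlinarith [Z0 x]
    have h2 : l * (u x * u x) - a * u x * Z x / (1 + s * Z x) * u x
        - l / (1 + s * Z x) * (u x * u x) = (s * l - a) * Z x * (u x * u x) / (1 + s * Z x) := by
      have h4 : (1 + s * Z x) * (1 + s * Z x)⁻¹ = 1 := mul_inv_cancel₀ h1.ne'
      simp only [div_eq_mul_inv]
      linear_combination (-(l * (u x * u x))) * h4
    have h3 : 0 ≤ (s * l - a) * Z x * (u x * u x) / (1 + s * Z x) :=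
      div_nonneg (mul_nonneg (mul_nonneg (by linarith) (Z0 x)) (mul_self_nonneg _)) h1.le
    linarith
  have pos : ∀ x, 0 < l / (1 + s * Z x) := fun x => div_pos hl (by nlinarith [Z0 x])
  have nn : 0 ≤ fun x => l * (u x * u x) - a * u x * Z x / (1 + s * Z x) * u x := fun x =>
    (mul_nonneg (pos x).le (mul_self_nonneg _)).trans (key x)
  have g0 : 0 ≤ ∫ x, inner ℝ (g x) (g x) := integral_nonneg fun x => real_inner_self_nonneg
  have i0 : ∫ x, (l * (u x * u x) - a * u x * Z x / (1 + s * Z x) * u x) = 0 := by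
    refine le_antisymm ?_ (integral_nonneg nn)
    rw [integral_sub (i1.const_mul l) i2, integral_const_mul]
    linarith
  refine hne ?_
  filter_upwards [(integral_eq_zero_iff_of_nonneg nn ((i1.const_mul l).sub i2)).1 i0] with x hx
  have h1 : l / (1 + s * Z x) * (u x * u x) ≤ 0 := (key x).trans (le_of_eq hx)
  have h2 : u x * u x ≤ 0 := by
    by_contra h3
    exact absurd h1 (not_le.2 (mul_pos (pos x) (not_le.1 h3)))
  exact mul_self_eq_zero.1 (le_antisymm h2 (mul_self_nonneg _))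

end Pool.Agent.MP_67db61_an.Cls

end
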