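import Pool.Agent.MP_67db61_an.Shoot
import Pool.Agent.Lib.PlaneTop.HasLog

-- part MP_67db61_an.Fixed
section

/-!
Global solutions of the truncated radial system, depending continuously on parameters.
-/

namespace Pool.Agent.MP_67db61_an

open Set Filter Topology MeasureTheory

noncomputable def I1 (k : ℕ) (G : ℝ → ℝ) (t : ℝ) : ℝ :=
  (1 / 2) * ∫ ρ in (0 : ℝ)..1, ρ ^ k * G (t * ρ ^ 2)

noncomputable def Yof (k : ℕ) (a : ℝ) (G : ℝ → ℝ) (t : ℝ) : ℝ := a + ∫ τ in (0 : ℝ)..t, I1 k G τ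

noncomputable def rm (a : ℝ) (Y : ℝ → ℝ) (t : ℝ) : ℝ :=
  min a (max 0 (sInf ((fun ρ => Y (max t 0 * ρ)) '' Icc 0 1)))

section cont

variable {Λ : Type*} [TopologicalSpace Λ]

lemma continuous_I1 (k : ℕ) {G : Λ → ℝ → ℝ} (hG : Continuous fun p : Λ × ℝ => G p.1 p.2) :
    Continuous fun p : Λ × ℝ => I1 k (G p.1) p.2 := by
  unfold I1
  refine continuous_const.mul ?_
  refine intervalIntegral.continuous_parametric_intervalIntegral_of_continuous'
    (f := fun (p : Λ × ℝ) (ρ : ℝ) => ρ ^ k * G p.1 (p.2 * ρ ^ 2)) ?_ 0 1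
  have : Continuous fun x : (Λ × ℝ) × ℝ => G x.1.1 (x.1.2 * x.2 ^ 2) :=
    hG.comp (f := fun x : (Λ × ℝ) × ℝ => (x.1.1, x.1.2 * x.2 ^ 2)) (by fun_prop)
  exact (continuous_snd.pow k).mul this

lemma continuous_Yof (k : ℕ) (a : ℝ) {G : Λ → ℝ → ℝ}
    (hG : Continuous fun p : Λ × ℝ => G p.1 p.2) :
    Continuous fun p : Λ × ℝ => Yof k a (G p.1) p.2 := by
  unfold Yof
  exact continuous_const.add (intervalIntegral.continuous_parametric_primitive_of_continuous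
    (f := fun l τ => I1 k (G l) τ) (continuous_I1 k hG))

lemma continuous_rm (a : ℝ) {Y : Λ → ℝ → ℝ} (hY : Continuous fun p : Λ × ℝ => Y p.1 p.2) :
    Continuous fun p : Λ × ℝ => rm a (Y p.1) p.2 := by
  unfold rm
  refine continuous_const.min (continuous_const.max ?_)
  refine IsCompact.continuous_sInf (f := fun (p : Λ × ℝ) (ρ : ℝ) => Y p.1 (max p.2 0 * ρ))
    isCompact_Icc ?_
  exact hY.comp (f := fun x : (Λ × ℝ) × ℝ => (x.1.1, max x.1.2 0 * x.2)) (by fun_prop)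

end cont

lemma continuous_I1' (k : ℕ) {G : ℝ → ℝ} (hG : Continuous G) : Continuous (I1 k G) :=
  (continuous_I1 (Λ := ℝ) k (G := fun _ => G) (hG.comp continuous_snd)).comp
    (f := fun t : ℝ => ((0 : ℝ), t)) (by fun_prop)

lemma hasDerivAt_Yof (k : ℕ) (a : ℝ) {G : ℝ → ℝ} (hG : Continuous G) (t : ℝ) :
    HasDerivAt (Yof k a G) (I1 k G t) t :=
  (((continuous_I1' k hG).integral_hasStrictDerivAt 0 t).hasDerivAt).const_add a

lemma continuous_Yof' (k : ℕ) (a : ℝ) {G : ℝ → ℝ} (hG : Continuous G) : Continuous (Yof k a G) :=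
  continuous_iff_continuousAt.2 fun t => (hasDerivAt_Yof k a hG t).continuousAt

lemma Yof_zero (k : ℕ) (a : ℝ) (G : ℝ → ℝ) : Yof k a G 0 = a := by simp [Yof]

lemma rm_nonneg {a : ℝ} (ha : 0 ≤ a) (Y : ℝ → ℝ) (t : ℝ) : 0 ≤ rm a Y t :=
  le_min ha (le_max_left _ _)

lemma rm_le (a : ℝ) (Y : ℝ → ℝ) (t : ℝ) : rm a Y t ≤ a := min_le_left _ _

lemma rm_eq (a : ℝ) (Y : ℝ → ℝ) {t : ℝ} (ht : 0 ≤ t) :
    rm a Y t = min a (max 0 (sInf (Y '' Icc 0 t))) := by
  unfold rm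
  rw [max_eq_left ht, ← image_image Y (fun ρ => t * ρ), image_mul_left_Icc ht zero_le_one]
  simp

lemma rm_anti (a : ℝ) {Y : ℝ → ℝ} (hY : Continuous Y) {x y : ℝ} (hx : 0 ≤ x) (hxy : x ≤ y) :
    rm a Y y ≤ rm a Y x := by
  rw [rm_eq a Y hx, rm_eq a Y (hx.trans hxy)]
  refine min_le_min le_rfl (max_le_max le_rfl ?_)
  exact csInf_le_csInf (isCompact_Icc.image hY).bddBelow ⟨_, 0, left_mem_Icc.2 hx, rfl⟩
    (image_mono (Icc_subset_Icc le_rfl hxy))

lemma rm_le_max (a : ℝ) {Y : ℝ → ℝ} (hY : Continuous Y) {x y : ℝ} (hx : 0 ≤ x) (hxy : x ≤ y) :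
    rm a Y y ≤ max 0 (Y x) := by
  rw [rm_eq a Y (hx.trans hxy)]
  refine (min_le_right _ _).trans (max_le_max le_rfl ?_)
  exact csInf_le (isCompact_Icc.image hY).bddBelow ⟨x, ⟨hx, hxy⟩, rfl⟩

lemma rm_eq_self {a : ℝ} {Y : ℝ → ℝ} (hY0 : Y 0 = a) {t : ℝ} (ht : 0 ≤ t) (h0 : 0 ≤ Y t)
    (h : ∀ x, 0 ≤ x → x ≤ t → Y t ≤ Y x) : rm a Y t = Y t := by
  rw [rm_eq a Y ht]
  have : sInf (Y '' Icc 0 t) = Y t :=
    IsLeast.csInf_eq ⟨⟨t, right_mem_Icc.2 ht, rfl⟩, by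
      rintro _ ⟨x, hx, rfl⟩; exact h x hx.1 hx.2⟩
  rw [this, max_eq_right h0, min_eq_right (hY0 ▸ h 0 le_rfl ht)]

lemma sInf_image_le {Y Y' : ℝ → ℝ} (hY : Continuous Y) {t D : ℝ} (ht : 0 ≤ t)
    (h : ∀ x ∈ Icc 0 t, Y x - Y' x ≤ D) : sInf (Y '' Icc 0 t) - sInf (Y' '' Icc 0 t) ≤ D := by
  have : sInf (Y '' Icc 0 t) - D ≤ sInf (Y' '' Icc 0 t) := by
    refine le_csInf ⟨_, 0, left_mem_Icc.2 ht, rfl⟩ ?_
    rintro _ ⟨x, hx, rfl⟩
    have := csInf_le (isCompact_Icc.image hY).bddBelow ⟨x, hx, rfl⟩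
    linarith [h x hx]
  linarith

lemma rm_lip (a : ℝ) {Y Y' : ℝ → ℝ} (hY : Continuous Y) (hY' : Continuous Y') {t D : ℝ}
    (h : ∀ x ∈ Icc 0 (max t 0), |Y x - Y' x| ≤ D) : |rm a Y t - rm a Y' t| ≤ D := by
  have e : ∀ Z : ℝ → ℝ, rm a Z t = rm a Z (max t 0) := fun Z => by simp [rm]
  rw [e Y, e Y', rm_eq a Y (le_max_right _ _), rm_eq a Y' (le_max_right _ _)]
  refine (abs_min_sub_min_le_max _ _ _ _).trans ?_
  rw [sub_self, abs_zero]
  have hD : 0 ≤ D := (abs_nonneg _).trans (h 0 (left_mem_Icc.2 (le_max_right _ _)))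
  refine max_le hD ((abs_max_sub_max_le_max _ _ _ _).trans ?_)
  rw [sub_self, abs_zero]
  refine max_le hD (abs_sub_le_iff.2 ⟨?_, ?_⟩)
  · exact sInf_image_le hY (le_max_right _ _) fun x hx => (abs_sub_le_iff.1 (h x hx)).1
  · exact sInf_image_le hY' (le_max_right _ _) fun x hx => (abs_sub_le_iff.1 (h x hx)).2

lemma I1_lip (k : ℕ) {G G' : ℝ → ℝ} (hG : Continuous G) (hG' : Continuous G') {t D : ℝ}
    (ht : 0 ≤ t) (h : ∀ x ∈ Icc 0 t, |G x - G' x| ≤ D) : |I1 k G t - I1 k G' t| ≤ D / 2 := by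
  unfold I1
  rw [← mul_sub, ← intervalIntegral.integral_sub (Continuous.intervalIntegrable (by fun_prop) _ _)
    (Continuous.intervalIntegrable (by fun_prop) _ _), abs_mul]
  have := intervalIntegral.norm_integral_le_of_norm_le_const (a := (0 : ℝ)) (b := 1) (C := D)
    (f := fun ρ => ρ ^ k * G (t * ρ ^ 2) - ρ ^ k * G' (t * ρ ^ 2)) (fun ρ hρ => by
      rw [uIoc_of_le zero_le_one] at hρ
      have h1 : ρ ^ 2 ≤ 1 := pow_le_one₀ hρ.1.le hρ.2
      have h2 := h (t * ρ ^ 2) ⟨by positivity, by nlinarith⟩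
      rw [← mul_sub, Real.norm_eq_abs, abs_mul, abs_of_nonneg (pow_nonneg hρ.1.le k)]
      have h3 : ρ ^ k ≤ 1 := pow_le_one₀ hρ.1.le hρ.2
      nlinarith [abs_nonneg (G (t * ρ ^ 2) - G' (t * ρ ^ 2)), pow_nonneg hρ.1.le k])
  rw [Real.norm_eq_abs] at this
  norm_num at this ⊢
  linarith

lemma Yof_lip (k : ℕ) (a : ℝ) {G G' : ℝ → ℝ} (hG : Continuous G) (hG' : Continuous G')
    {D K : ℝ} (hK : 0 < K) (hD : 0 ≤ D) (h : ∀ x, 0 ≤ x → |G x - G' x| ≤ D * Real.exp (K * x))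
    {t : ℝ} (ht : 0 ≤ t) : |Yof k a G t - Yof k a G' t| ≤ D * Real.exp (K * t) / (2 * K) := by
  have h1 : ∀ x, 0 ≤ x → |I1 k G x - I1 k G' x| ≤ D * Real.exp (K * x) / 2 := fun x hx =>
    I1_lip k hG hG' hx fun y hy => (h y hy.1).trans (by have := hy.2; gcongr)
  have hd : ∀ x, HasDerivAt (fun x => D * Real.exp (K * x) / (2 * K))
      (D * Real.exp (K * x) / 2) x := fun x =>
    (((((hasDerivAt_id x).const_mul K).exp).const_mul D).div_const (2 * K)).congr_deriv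
      (by simp; field_simp)
  have h0 : 0 ≤ D * Real.exp (K * 0) / (2 * K) := by positivity
  have h2 := le_of_deriv_nonneg ht
    (fun x => (hd x).sub ((hasDerivAt_Yof k a hG x).sub (hasDerivAt_Yof k a hG' x)))
    (fun x hx => sub_nonneg.2 (abs_le.1 (h1 x hx.1.le)).2)
  have h3 := le_of_deriv_nonneg ht
    (fun x => (hd x).add ((hasDerivAt_Yof k a hG x).sub (hasDerivAt_Yof k a hG' x)))
    (fun x hx => by linarith [(abs_le.1 (h1 x hx.1.le)).1])
  simp only [Pi.sub_apply, Pi.add_apply, Yof_zero, sub_self, sub_zero, add_zero] at h2 h3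
  exact abs_le.2 ⟨by linarith, by linarith⟩

lemma rm_Yof_lip (k : ℕ) (a : ℝ) {G G' : ℝ → ℝ} (hG : Continuous G) (hG' : Continuous G')
    {D K : ℝ} (hK : 0 < K) (hD : 0 ≤ D) (h : ∀ x, 0 ≤ x → |G x - G' x| ≤ D * Real.exp (K * x))
    (t : ℝ) : |rm a (Yof k a G) t - rm a (Yof k a G') t|
      ≤ D * Real.exp (K * max t 0) / (2 * K) :=
  rm_lip a (continuous_Yof' k a hG) (continuous_Yof' k a hG') fun x hx =>
    (Yof_lip k a hG hG' hK hD h hx.1).trans (by have := hx.2; gcongr)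

theorem exists_fixed {Λ : Type*} [TopologicalSpace Λ] (k : ℕ) {a B C : ℝ} (ha : 0 ≤ a) (hC : 0 < C)
    (N : Λ → ℝ × ℝ → ℝ × ℝ) (hN : Continuous fun p : Λ × (ℝ × ℝ) => N p.1 p.2)
    (hB : ∀ l m, m.1 ∈ Icc 0 a → m.2 ∈ Icc 0 a → ‖N l m‖ ≤ B)
    (hL : ∀ l m m', m.1 ∈ Icc 0 a → m.2 ∈ Icc 0 a → m'.1 ∈ Icc 0 a → m'.2 ∈ Icc 0 a →
      dist (N l m) (N l m') ≤ C * dist m m') :
    ∃ g : Λ → ℝ → ℝ × ℝ, (Continuous fun p : Λ × ℝ => g p.1 p.2) ∧ ∀ l t,
      g l t = N l (rm a (Yof k a fun x => (g l x).1) t, rm a (Yof k a fun x => (g l x).2) t) := by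
  let G : BoundedContinuousFunction (Λ × ℝ) (ℝ × ℝ) → Λ → ℝ → ℝ × ℝ :=
    fun w l t => Real.exp (C * max t 0) • w (l, t)
  have hG : ∀ w, Continuous fun p : Λ × ℝ => G w p.1 p.2 := fun w => by
    have := w.continuous
    simp only [G]
    fun_prop
  let M : BoundedContinuousFunction (Λ × ℝ) (ℝ × ℝ) → Λ × ℝ → ℝ × ℝ := fun w p =>
    (rm a (Yof k a fun x => (G w p.1 x).1) p.2, rm a (Yof k a fun x => (G w p.1 x).2) p.2)
  have hM : ∀ w, Continuous (M w) := fun w =>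
    (continuous_rm a (Y := fun l => Yof k a fun x => (G w l x).1)
      (continuous_Yof k a (G := fun l x => (G w l x).1) (hG w).fst)).prodMk
    (continuous_rm a (Y := fun l => Yof k a fun x => (G w l x).2)
      (continuous_Yof k a (G := fun l x => (G w l x).2) (hG w).snd))
  have hM1 : ∀ w p, (M w p).1 ∈ Icc 0 a := fun w p => ⟨rm_nonneg ha _ _, rm_le _ _ _⟩
  have hM2 : ∀ w p, (M w p).2 ∈ Icc 0 a := fun w p => ⟨rm_nonneg ha _ _, rm_le _ _ _⟩
  let Φ : BoundedContinuousFunction (Λ × ℝ) (ℝ × ℝ) → BoundedContinuousFunction (Λ × ℝ) (ℝ × ℝ) :=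
    fun w => BoundedContinuousFunction.ofNormedAddCommGroup
      (fun p => Real.exp (-(C * max p.2 0)) • N p.1 (M w p))
      ((by fun_prop : Continuous fun p : Λ × ℝ => Real.exp (-(C * max p.2 0))).smul
        (hN.comp (f := fun p : Λ × ℝ => (p.1, M w p)) (continuous_fst.prodMk (hM w)))) B
      (fun p => by
        rw [norm_smul, Real.norm_eq_abs, abs_of_pos (Real.exp_pos _)]
        have h1 := hB p.1 _ (hM1 w p) (hM2 w p)
        have h2 : Real.exp (-(C * max p.2 0)) ≤ 1 :=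
          Real.exp_le_one_iff.2 (neg_nonpos.2 (mul_nonneg hC.le (le_max_right _ _)))
        nlinarith [norm_nonneg (N p.1 (M w p)), Real.exp_pos (-(C * max p.2 0))])
  have hΦ : ContractingWith (1 / 2) Φ := by
    refine ⟨by norm_num, LipschitzWith.of_dist_le_mul fun w w' => ?_⟩
    refine (BoundedContinuousFunction.dist_le (by positivity)).2 fun p => ?_
    have hl : ∀ w : BoundedContinuousFunction (Λ × ℝ) (ℝ × ℝ), Continuous (G w p.1) := fun w =>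
      (hG w).comp (f := fun x : ℝ => (p.1, x)) (by fun_prop)
    have hd : ∀ x, 0 ≤ x → dist (G w p.1 x) (G w' p.1 x) ≤ dist w w' * Real.exp (C * x) := by
      intro x hx
      simp only [G]
      rw [dist_smul₀, max_eq_left hx, Real.norm_eq_abs, abs_of_pos (Real.exp_pos _), mul_comm]
      exact mul_le_mul_of_nonneg_right (BoundedContinuousFunction.dist_coe_le_dist _)
        (Real.exp_pos _).le
    have h1 := rm_Yof_lip k a (hl w).fst (hl w').fst hC dist_nonneg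
      (fun x hx => le_trans (by rw [← Real.dist_eq, Prod.dist_eq]; exact le_max_left _ _)
        (hd x hx)) p.2
    have h2 := rm_Yof_lip k a (hl w).snd (hl w').snd hC dist_nonneg
      (fun x hx => le_trans (by rw [← Real.dist_eq, Prod.dist_eq]; exact le_max_right _ _)
        (hd x hx)) p.2
    have h3 : dist (M w p) (M w' p) ≤ dist w w' * Real.exp (C * max p.2 0) / (2 * C) := by
      rw [Prod.dist_eq]
      exact max_le h1 h2
    have h4 := (hL p.1 _ _ (hM1 w p) (hM2 w p) (hM1 w' p) (hM2 w' p)).trans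
      (mul_le_mul_of_nonneg_left h3 hC.le)
    change dist (Real.exp (-(C * max p.2 0)) • N p.1 (M w p))
      (Real.exp (-(C * max p.2 0)) • N p.1 (M w' p)) ≤ _
    rw [dist_smul₀, Real.norm_eq_abs, abs_of_pos (Real.exp_pos _)]
    refine (mul_le_mul_of_nonneg_left h4 (Real.exp_pos _).le).trans (le_of_eq ?_)
    rw [Real.exp_neg]
    push_cast
    field_simp
  let w := ContractingWith.fixedPoint Φ hΦ
  have hw : Φ w = w := hΦ.fixedPoint_isFixedPt
  refine ⟨G w, hG w, fun l t => ?_⟩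
  have h1 : w (l, t) = Real.exp (-(C * max t 0)) • N l (M w (l, t)) := by
    conv_lhs => rw [← hw]
    rfl
  change Real.exp (C * max t 0) • w (l, t) = N l (M w (l, t))
  rw [h1, smul_smul, ← Real.exp_add, add_neg_cancel, Real.exp_zero, one_smul]

lemma flux_eq (k : ℕ) (G : ℝ → ℝ) (r : ℝ) :
    r ^ k * (2 * r * I1 k G (r ^ 2)) = ∫ x in (0 : ℝ)..r, x ^ k * G (x ^ 2) := by
  have h := intervalIntegral.mul_integral_comp_mul_left (f := fun x => x ^ k * G (x ^ 2))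
    (a := 0) (b := 1) r
  rw [mul_zero, mul_one] at h
  rw [← h, I1]
  simp only [mul_pow]
  have e : ∫ ρ in (0 : ℝ)..1, r ^ k * ρ ^ k * G (r ^ 2 * ρ ^ 2)
      = r ^ k * ∫ ρ in (0 : ℝ)..1, ρ ^ k * G (r ^ 2 * ρ ^ 2) := by
    rw [← intervalIntegral.integral_const_mul]
    simp only [mul_assoc]
  rw [e]
  ring

lemma comp_of {k : ℕ} {a : ℝ} (ha : 0 ≤ a) {G q : ℝ → ℝ} (hG : Continuous G)
    (hq : ∀ x y, 0 ≤ x → x ≤ y → q x ≤ q y)
    (hGq : ∀ r, G (r ^ 2) = q r * rm a (Yof k a G) (r ^ 2)) :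
    Comp k a (fun r => Yof k a G (r ^ 2)) (fun r => 2 * r * I1 k G (r ^ 2))
      (fun r => rm a (Yof k a G) (r ^ 2)) q where
  dU r := (HasDerivAt.comp (h₂ := Yof k a G) (h := fun x : ℝ => x ^ 2) r
    (hasDerivAt_Yof k a hG (r ^ 2)) (hasDerivAt_pow 2 r)).congr_deriv (by push_cast; ring)
  dΦ r := by
    simp only [flux_eq, ← hGq]
    exact ((show Continuous fun x : ℝ => x ^ k * G (x ^ 2) by
      fun_prop).integral_hasStrictDerivAt 0 r).hasDerivAt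
  cP := by have := continuous_I1' k hG; fun_prop
  P0 := by simp
  U0 := by simp [Yof_zero]
  qmono := hq
  m0 r := rm_nonneg ha _ _
  mle x y hx hxy := rm_le_max a (continuous_Yof' k a hG) (by positivity)
    (pow_le_pow_left₀ hx hxy 2)
  meq r hr h0 h := rm_eq_self (Yof_zero k a G) (by positivity) h0 fun x hx hxr => by
    have := h √x (Real.sqrt_nonneg x) (by rw [Real.sqrt_le_left hr]; exact hxr)
    simpa [Real.sq_sqrt hx] using this

end Pool.Agent.MP_67db61_an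

end

-- part MP_67db61_an.Profile
section

/-!
Two-parameter shooting: existence of decaying radial profiles.
-/

namespace Pool.Agent.MP_67db61_an

open Set Filter Topology MeasureTheory

lemma exists_sel {A B : Set (ℝ × ℝ)} (hA : IsOpen A) (hB : IsOpen B)
    (hAB : ∀ p, p ∈ A → p ∈ B → False) (hA' : (Aᶜ).Nonempty) (hB' : (Bᶜ).Nonempty) :
    ∃ F : ℝ × ℝ → ℝ, Continuous F ∧ (∀ p, p ∉ A → F p ≤ 0) ∧ (∀ p, p ∉ B → 0 ≤ F p) ∧
      ∀ p, F p = 0 → p ∉ A ∧ p ∉ B := by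
  refine ⟨fun p => Metric.infDist p Aᶜ - Metric.infDist p Bᶜ,
    (Metric.continuous_infDist_pt _).sub (Metric.continuous_infDist_pt _), fun p hp => ?_,
    fun p hp => ?_, fun p hp => ?_⟩
  · have := Metric.infDist_zero_of_mem (show p ∈ Aᶜ from hp)
    have := Metric.infDist_nonneg (x := p) (s := Bᶜ)
    linarith
  · have := Metric.infDist_zero_of_mem (show p ∈ Bᶜ from hp)
    have := Metric.infDist_nonneg (x := p) (s := Aᶜ)
    linarith
  · have h1 := hA.isClosed_compl.mem_iff_infDist_zero hA' (x := p)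
    have h2 := hB.isClosed_compl.mem_iff_infDist_zero hB' (x := p)
    have h3 : Metric.infDist p Aᶜ = Metric.infDist p Bᶜ := sub_eq_zero.1 hp
    rw [h3, ← h2] at h1
    by_cases hpA : p ∈ A
    · exact absurd (h1.2 fun hb => hAB p hpA hb) (not_not.2 hpA)
    · exact ⟨hpA, h1.1 hpA⟩

lemma miranda_sets {A1 B1 A2 B2 : Set (ℝ × ℝ)} (hA1 : IsOpen A1) (hB1 : IsOpen B1)
    (hA2 : IsOpen A2) (hB2 : IsOpen B2) (h1 : ∀ p, p ∈ A1 → p ∈ B1 → False)
    (h2 : ∀ p, p ∈ A2 → p ∈ B2 → False) (hl : ∀ t, (0, t) ∉ A1) (hr : ∀ t, (1, t) ∉ B1)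
    (hb : ∀ t, (t, 0) ∉ A2) (ht : ∀ t, (t, 1) ∉ B2) :
    ∃ p : ℝ × ℝ, p ∉ A1 ∧ p ∉ B1 ∧ p ∉ A2 ∧ p ∉ B2 := by
  obtain ⟨F1, c1, l1, r1, z1⟩ := exists_sel hA1 hB1 h1 ⟨_, hl 0⟩ ⟨_, hr 0⟩
  obtain ⟨F2, c2, l2, r2, z2⟩ := exists_sel hA2 hB2 h2 ⟨_, hb 0⟩ ⟨_, ht 0⟩
  obtain ⟨x, -, y, -, h⟩ := Pool.Agent.Lib.PlaneTop.miranda
    (u := fun x y => (F1 (x, y) : ℂ) + (F2 (x, y) : ℂ) * Complex.I) (by fun_prop)
    (fun t _ => by simpa using l1 _ (hl t)) (fun t _ => by simpa using r1 _ (hr t))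
    (fun t _ => by simpa using l2 _ (hb t)) (fun t _ => by simpa using r2 _ (ht t))
  have e1 : F1 (x, y) = 0 := by simpa using congrArg Complex.re h
  have e2 : F2 (x, y) = 0 := by simpa using congrArg Complex.im h
  exact ⟨(x, y), (z1 _ e1).1, (z1 _ e1).2, (z2 _ e2).1, (z2 _ e2).2⟩

noncomputable def ff (s Z : ℝ) : ℝ := Z / (1 + s * Z)

section ff

variable {s : ℝ}

lemma ff_sub (hs : 0 < s) {Z Z' : ℝ} (hZ : 0 ≤ Z) (hZ' : 0 ≤ Z') :
    ff s Z - ff s Z' = (Z - Z') / ((1 + s * Z) * (1 + s * Z')) := by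
  unfold ff
  field_simp
  ring

lemma ff_nonneg (hs : 0 < s) {Z : ℝ} (hZ : 0 ≤ Z) : 0 ≤ ff s Z := by
  unfold ff; positivity

lemma ff_le (hs : 0 < s) {Z : ℝ} (hZ : 0 ≤ Z) : ff s Z ≤ Z :=
  div_le_self hZ (le_add_of_nonneg_right (by positivity))

lemma ff_le' (hs : 0 < s) {Z : ℝ} (hZ : 0 ≤ Z) : ff s Z ≤ 1 / s := by
  unfold ff
  rw [div_le_div_iff₀ (by positivity) hs]
  linarith

lemma ff_mono (hs : 0 < s) {Z Z' : ℝ} (hZ : 0 ≤ Z) (h : Z ≤ Z') : ff s Z ≤ ff s Z' := by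
  have h1 := ff_sub hs (hZ.trans h) hZ
  have h2 : 0 ≤ (Z' - Z) / ((1 + s * Z') * (1 + s * Z)) := by
    have := sub_nonneg.2 h
    have := hZ.trans h
    positivity
  linarith

lemma ff_lip (hs : 0 < s) {Z Z' : ℝ} (hZ : 0 ≤ Z) (hZ' : 0 ≤ Z') :
    |ff s Z - ff s Z'| ≤ |Z - Z'| := by
  rw [ff_sub hs hZ hZ', abs_div]
  refine div_le_self (abs_nonneg _) ?_
  rw [abs_of_pos (by positivity)]
  exact one_le_mul_of_one_le_of_one_le (le_add_of_nonneg_right (by positivity))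
    (le_add_of_nonneg_right (by positivity))

lemma ff_low (hs : 0 < s) {Z Z' T : ℝ} (hZ : 0 ≤ Z) (h : Z ≤ Z') (hT : Z' ≤ T) :
    1 / (1 + s * T) ^ 2 * (Z' - Z) ≤ ff s Z' - ff s Z := by
  have hZ' := hZ.trans h
  rw [ff_sub hs hZ' hZ, one_div_mul_eq_div, sq]
  have := sub_nonneg.2 h
  have := h.trans hT
  have := hZ'.trans hT
  gcongr

lemma lip1 (hs : 0 < s) {α a L l x y x' y' d : ℝ} (hα : 0 < α) (hl : |l| ≤ L)
    (hx : x ∈ Icc 0 a) (hy : y ∈ Icc 0 a) (hx' : x' ∈ Icc 0 a) (hy' : y' ∈ Icc 0 a)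
    (h1 : |x - x'| ≤ d) (h2 : |y - y'| ≤ d) :
    |(l - α * ff s (x ^ 2 + y ^ 2)) * x - (l - α * ff s (x' ^ 2 + y' ^ 2)) * x'|
      ≤ (L + 6 * α * a ^ 2) * d := by
  have ha : 0 ≤ a := hx.1.trans hx.2
  have hd : 0 ≤ d := (abs_nonneg _).trans h1
  have hsq : ∀ u v : ℝ, u ∈ Icc 0 a → v ∈ Icc 0 a → |u - v| ≤ d → |u ^ 2 - v ^ 2| ≤ 2 * a * d := by
    intro u v hu hv huv
    rw [sq_sub_sq, abs_mul, abs_of_nonneg (add_nonneg hu.1 hv.1)]
    exact mul_le_mul (by linarith [hu.2, hv.2]) huv (abs_nonneg _) (by positivity)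
  have h3 : |ff s (x ^ 2 + y ^ 2) - ff s (x' ^ 2 + y' ^ 2)| ≤ 4 * a * d := by
    refine (ff_lip hs (by positivity) (by positivity)).trans ?_
    rw [add_sub_add_comm]
    refine (abs_add_le _ _).trans ?_
    linarith [hsq x x' hx hx' h1, hsq y y' hy hy' h2]
  have h4 : |ff s (x ^ 2 + y ^ 2)| ≤ 2 * a ^ 2 := by
    rw [abs_of_nonneg (ff_nonneg hs (by positivity))]
    refine (ff_le hs (by positivity)).trans ?_
    linarith [pow_le_pow_left₀ hx.1 hx.2 2, pow_le_pow_left₀ hy.1 hy.2 2]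
  have e : (l - α * ff s (x ^ 2 + y ^ 2)) * x - (l - α * ff s (x' ^ 2 + y' ^ 2)) * x'
      = l * (x - x') - α * (ff s (x ^ 2 + y ^ 2) * (x - x')
        + (ff s (x ^ 2 + y ^ 2) - ff s (x' ^ 2 + y' ^ 2)) * x') := by ring
  rw [e]
  refine (abs_sub _ _).trans ?_
  rw [abs_mul, abs_mul, abs_of_pos hα]
  have h5 : |ff s (x ^ 2 + y ^ 2) * (x - x')
      + (ff s (x ^ 2 + y ^ 2) - ff s (x' ^ 2 + y' ^ 2)) * x'| ≤ 2 * a ^ 2 * d + 4 * a * d * a := by
    refine (abs_add_le _ _).trans ?_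
    rw [abs_mul, abs_mul, abs_of_nonneg hx'.1]
    exact add_le_add (mul_le_mul h4 h1 (abs_nonneg _) (by positivity))
      (mul_le_mul h3 hx'.2 hx'.1 (by positivity))
  have h6 := mul_le_mul hl h1 (abs_nonneg _) ((abs_nonneg _).trans hl)
  nlinarith [mul_le_mul_of_nonneg_left h5 hα.le]

lemma bound1 (hs : 0 < s) {α a L l x y : ℝ} (hα : 0 < α) (hl : |l| ≤ L)
    (hx : x ∈ Icc 0 a) (hy : y ∈ Icc 0 a) :
    |(l - α * ff s (x ^ 2 + y ^ 2)) * x| ≤ (L + 6 * α * a ^ 2) * a := by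
  have ha : 0 ≤ a := hx.1.trans hx.2
  have := lip1 hs hα hl hx hy (left_mem_Icc.2 ha) hy (d := a)
    (by rw [sub_zero, abs_of_nonneg hx.1]; exact hx.2) (by simpa using ha)
  simpa using this

lemma continuous_ff (hs : 0 < s) {X : Type*} [TopologicalSpace X] {u v : X → ℝ}
    (hu : Continuous u) (hv : Continuous v) : Continuous fun x => ff s (u x ^ 2 + v x ^ 2) := by
  unfold ff
  exact Continuous.div (by fun_prop) (by fun_prop) fun x => by positivity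

end ff

/-- the upper end of the frequency interval -/
noncomputable def top (s α a : ℝ) : ℝ :=
  α * ff s (2 * a ^ 2) - α * (1 / (1 + s * (2 * a ^ 2)) ^ 2) * a ^ 2 / 4

lemma top_pos {s α a : ℝ} (hs : 0 < s) (hα : 0 < α) (ha : 0 < a) : 0 < top s α a := by
  have h := ff_low hs (le_refl 0) (show 0 ≤ 2 * a ^ 2 by positivity) le_rfl
  have h0 : ff s 0 = 0 := by simp [ff]
  have hc : 0 < 1 / (1 + s * (2 * a ^ 2)) ^ 2 * a ^ 2 := by positivity
  unfold top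
  rw [h0] at h
  nlinarith

section one

variable {k : ℕ} {s α a l : ℝ} {U P m U' P' m' q' : ℝ → ℝ}

lemma over_top (hs : 0 < s) (hα : 0 < α) (ha : 0 < a)
    (h : Comp k a U P m fun r => top s α a - α * ff s (m r ^ 2 + m' r ^ 2))
    (hm : ∀ r, m r ≤ a) (hm' : ∀ r, m' r ∈ Icc 0 a) {r : ℝ} (hr : 0 < r) : 0 ≤ U r := by
  have hc : 0 < α * (1 / (1 + s * (2 * a ^ 2)) ^ 2) * a ^ 2 := by positivity
  refine h.no_over ha (c := α * (1 / (1 + s * (2 * a ^ 2)) ^ 2))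
    (ε := α * (1 / (1 + s * (2 * a ^ 2)) ^ 2) * a ^ 2 / 4) (by linarith) (fun x _ => ?_) hr
  have h1 := pow_le_pow_left₀ (h.m0 x) (hm x) 2
  have h2 := pow_le_pow_left₀ (hm' x).1 (hm' x).2 2
  have h3 := ff_low hs (show 0 ≤ m x ^ 2 + m' x ^ 2 by positivity)
    (show m x ^ 2 + m' x ^ 2 ≤ 2 * a ^ 2 by linarith) le_rfl
  have h4 : 1 / (1 + s * (2 * a ^ 2)) ^ 2 * (a ^ 2 - m x ^ 2)
      ≤ 1 / (1 + s * (2 * a ^ 2)) ^ 2 * (2 * a ^ 2 - (m x ^ 2 + m' x ^ 2)) :=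
    mul_le_mul_of_nonneg_left (by linarith) (by positivity)
  unfold top
  nlinarith [mul_le_mul_of_nonneg_left (h4.trans h3) hα.le]

lemma under_zero (hs : 0 < s) (hα : 0 < α)
    (h : Comp k a U P m fun r => 0 - α * ff s (m r ^ 2 + m' r ^ 2)) {r : ℝ} (hr : 0 < r) :
    P r ≤ 0 :=
  h.no_under (fun x _ => by
    have := mul_nonneg hα.le (ff_nonneg hs (show 0 ≤ m x ^ 2 + m' x ^ 2 by positivity))
    linarith) hr

lemma big_zero (k : ℕ) (hs : 0 < s) (hα : 0 < α) : ∃ a0 : ℝ, 0 < a0 ∧ ∀ a, a0 ≤ a →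
    ∀ U P m m' : ℝ → ℝ, Comp k a U P m (fun r => 0 - α * ff s (m r ^ 2 + m' r ^ 2)) →
      Good U P → False := by
  have h1 : 0 < ff s 1 := by unfold ff; positivity
  obtain ⟨a0, ha0, H⟩ := big_start k (κ := α * ff s 1) (K := α * (1 / s)) (M := 1)
    (by positivity) (by positivity)
  refine ⟨a0, ha0, fun a ha U P m m' h g => H a ha U P m _ h g (fun r _ => ?_) (fun r hr hU => ?_)⟩
  · have h2 := ff_nonneg hs (show 0 ≤ m r ^ 2 + m' r ^ 2 by positivity)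
    have h3 := ff_le' hs (show 0 ≤ m r ^ 2 + m' r ^ 2 by positivity)
    constructor <;> nlinarith
  · have h2 := h.m_eq (ha0.trans_le ha) g hr
    have h3 := ff_mono hs zero_le_one
      (show 1 ≤ m r ^ 2 + m' r ^ 2 by rw [h2]; nlinarith [sq_nonneg (m' r)])
    nlinarith

lemma small_one (hs : 0 < s) (hα : 0 < α) (ha : 0 < a) (hl : l ≤ top s α a)
    (h : Comp k a U P m fun r => l - α * ff s (m r ^ 2 + m' r ^ 2)) (g : Good U P)
    (h' : Comp k a U' P' m' q') (g' : Good U' P') (cm : Continuous m) (cm' : Continuous m')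
    {ε : ℝ} (hε : 0 < ε) : ∃ R, 0 < R ∧ U R < ε := by
  have hc : 0 < α * (1 / (1 + s * (2 * a ^ 2)) ^ 2) := by positivity
  refine h.small ha g ?_ (continuous_const.sub (continuous_const.mul (continuous_ff hs cm cm'))) hc
    (fun x y hx hxy => ?_) hε
  · simp only [h.m_eq ha g le_rfl, h'.m_eq ha g' le_rfl, h.U0, h'.U0, ← two_mul]
    unfold top at hl
    have : 0 < α * (1 / (1 + s * (2 * a ^ 2)) ^ 2) * a ^ 2 := by positivity
    linarith
  · have hy := hx.trans hxy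
    simp only [h.m_eq ha g hx, h'.m_eq ha g' hx, h.m_eq ha g hy, h'.m_eq ha g' hy]
    have h1 := pow_le_pow_left₀ (h.nn' ha g hy) (h.anti g.dec hx hxy) 2
    have h2 := pow_le_pow_left₀ (h'.nn' ha g' hy) (h'.anti g'.dec hx hxy) 2
    have h3 := pow_le_pow_left₀ (h.nn' ha g hx) (h.U0 ▸ h.anti g.dec le_rfl hx : U x ≤ a) 2
    have h4 := pow_le_pow_left₀ (h'.nn' ha g' hx) (h'.U0 ▸ h'.anti g'.dec le_rfl hx : U' x ≤ a) 2
    have h5 := ff_low hs (show 0 ≤ U y ^ 2 + U' y ^ 2 by positivity)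
      (show U y ^ 2 + U' y ^ 2 ≤ U x ^ 2 + U' x ^ 2 by linarith)
      (show U x ^ 2 + U' x ^ 2 ≤ 2 * a ^ 2 by linarith)
    have h6 : 1 / (1 + s * (2 * a ^ 2)) ^ 2 * (U x ^ 2 - U y ^ 2)
        ≤ 1 / (1 + s * (2 * a ^ 2)) ^ 2 * (U x ^ 2 + U' x ^ 2 - (U y ^ 2 + U' y ^ 2)) :=
      mul_le_mul_of_nonneg_left (by linarith) (by positivity)
    nlinarith [mul_le_mul_of_nonneg_left (h6.trans h5) hα.le]

lemma energy_one (hs : 0 < s) (hα : 0 < α) (ha : 0 < a) (hl : 0 < l)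
    (h : Comp k a U P m fun r => l - α * ff s (m r ^ 2 + m' r ^ 2)) (g : Good U P)
    (h' : Comp k a U' P' m' q') (g' : Good U' P')
    (H : ∀ ε, 0 < ε → ∃ R, 0 < R ∧ U R < ε) (H' : ∀ ε, 0 < ε → ∃ R, 0 < R ∧ U' R < ε) :
    IntegrableOn (fun r => r ^ k * U r ^ 2) (Ioi 0) ∧
      IntegrableOn (fun r => r ^ k * P r ^ 2) (Ioi 0) := by
  have hε : 0 < min 1 (l / (4 * α)) := by positivity
  obtain ⟨R, hR, h1⟩ := H _ hε
  obtain ⟨R', hR', h1'⟩ := H' _ hε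
  have hM : 0 < max R R' := lt_max_of_lt_left hR
  refine h.energy ha g hM (half_pos hl) ?_
  simp only [h.m_eq ha g hM.le, h'.m_eq ha g' hM.le]
  have h2 := (h.anti g.dec hR.le (le_max_left R R')).trans h1.le
  have h2' := (h'.anti g'.dec hR'.le (le_max_right R R')).trans h1'.le
  have h3 := pow_le_pow_left₀ (h.nn' ha g hM.le) h2 2
  have h3' := pow_le_pow_left₀ (h'.nn' ha g' hM.le) h2' 2
  have h4 := ff_le hs (show 0 ≤ U (max R R') ^ 2 + U' (max R R') ^ 2 by positivity)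
  have h5 : min 1 (l / (4 * α)) ^ 2 ≤ l / (4 * α) := by
    nlinarith [min_le_left 1 (l / (4 * α)), min_le_right 1 (l / (4 * α))]
  have h6 : α * (2 * (l / (4 * α))) = l / 2 := by field_simp; ring
  have h7 : ff s (U (max R R') ^ 2 + U' (max R R') ^ 2) ≤ 2 * (l / (4 * α)) := by linarith
  nlinarith [mul_le_mul_of_nonneg_left h7 hα.le]

end one

lemma q_mono {s α a l : ℝ} (hs : 0 < s) (hα : 0 < α) (ha : 0 ≤ a) {Y Y' : ℝ → ℝ}
    (hY : Continuous Y) (hY' : Continuous Y') (x y : ℝ) (hx : 0 ≤ x) (hxy : x ≤ y) :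
    l - α * ff s (rm a Y (x ^ 2) ^ 2 + rm a Y' (x ^ 2) ^ 2)
      ≤ l - α * ff s (rm a Y (y ^ 2) ^ 2 + rm a Y' (y ^ 2) ^ 2) := by
  have h0 := pow_le_pow_left₀ hx hxy 2
  have h1 := pow_le_pow_left₀ (rm_nonneg ha _ _) (rm_anti a hY (sq_nonneg x) h0) 2
  have h2 := pow_le_pow_left₀ (rm_nonneg ha _ _) (rm_anti a hY' (sq_nonneg x) h0) 2
  have h3 := ff_mono hs (by positivity) (add_le_add h1 h2)
  nlinarith

theorem exists_profile (k : ℕ) {s α β : ℝ} (hs : 0 < s) (hα : 0 < α) (hβ : 0 < β) :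
    ∃ (l1 l2 a : ℝ) (G1 G2 : ℝ → ℝ), 0 < l1 ∧ 0 < l2 ∧ 0 < a ∧ Continuous G1 ∧ Continuous G2 ∧
      (∀ t, 0 ≤ t →
        G1 t = (l1 - α * ff s (Yof k a G1 t ^ 2 + Yof k a G2 t ^ 2)) * Yof k a G1 t) ∧
      (∀ t, 0 ≤ t →
        G2 t = (l2 - β * ff s (Yof k a G2 t ^ 2 + Yof k a G1 t ^ 2)) * Yof k a G2 t) ∧
      (∀ t, 0 ≤ t → 0 < Yof k a G1 t) ∧ (∀ t, 0 ≤ t → 0 < Yof k a G2 t) ∧
      (IntegrableOn (fun r => r ^ k * Yof k a G1 (r ^ 2) ^ 2) (Ioi 0) ∧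
        IntegrableOn (fun r => r ^ k * (2 * r * I1 k G1 (r ^ 2)) ^ 2) (Ioi 0)) ∧
      (IntegrableOn (fun r => r ^ k * Yof k a G2 (r ^ 2) ^ 2) (Ioi 0) ∧
        IntegrableOn (fun r => r ^ k * (2 * r * I1 k G2 (r ^ 2)) ^ 2) (Ioi 0)) := by
  obtain ⟨a1, ha1, H1⟩ := big_zero k hs hα
  obtain ⟨a2, ha2, H2⟩ := big_zero k hs hβ
  set a := max a1 a2 with hadef
  have ha : 0 < a := lt_max_of_lt_left ha1
  have ht1 := top_pos hs hα ha
  have ht2 := top_pos hs hβ ha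
  let l1 : ℝ × ℝ → ℝ := fun p => top s α a * max 0 (min 1 p.1)
  let l2 : ℝ × ℝ → ℝ := fun p => top s β a * max 0 (min 1 p.2)
  have hcl : ∀ T x : ℝ, 0 < T → T * max 0 (min 1 x) ∈ Icc 0 T := fun T x hT =>
    ⟨mul_nonneg hT.le (le_max_left _ _),
      mul_le_of_le_one_right hT.le (max_le zero_le_one (min_le_left _ _))⟩
  have hl1 : ∀ p, l1 p ∈ Icc 0 (top s α a) := fun p => hcl _ _ ht1
  have hl2 : ∀ p, l2 p ∈ Icc 0 (top s β a) := fun p => hcl _ _ ht2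
  have hl1' : ∀ p, |l1 p| ≤ top s α a := fun p => by rw [abs_of_nonneg (hl1 p).1]; exact (hl1 p).2
  have hl2' : ∀ p, |l2 p| ≤ top s β a := fun p => by rw [abs_of_nonneg (hl2 p).1]; exact (hl2 p).2
  set C1 := top s α a + 6 * α * a ^ 2 with hC1
  set C2 := top s β a + 6 * β * a ^ 2 with hC2
  have hC10 : 0 < C1 := by positivity
  have hC20 : 0 < C2 := by positivity
  obtain ⟨g, cg, hg⟩ := exists_fixed (Λ := ℝ × ℝ) k (B := (C1 + C2) * a) (C := C1 + C2) ha.le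
    (by positivity)
    (fun p m => ((l1 p - α * ff s (m.1 ^ 2 + m.2 ^ 2)) * m.1,
      (l2 p - β * ff s (m.2 ^ 2 + m.1 ^ 2)) * m.2))
    (by
      have h1 : Continuous fun x : (ℝ × ℝ) × (ℝ × ℝ) => ff s (x.2.1 ^ 2 + x.2.2 ^ 2) :=
        continuous_ff hs (by fun_prop) (by fun_prop)
      have h2 : Continuous fun x : (ℝ × ℝ) × (ℝ × ℝ) => ff s (x.2.2 ^ 2 + x.2.1 ^ 2) :=
        continuous_ff hs (by fun_prop) (by fun_prop)
      simp only [l1, l2]
      fun_prop)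
    (fun p m h1 h2 => by
      rw [Prod.norm_def]
      refine max_le ((bound1 hs hα (hl1' p) h1 h2).trans ?_)
        ((bound1 hs hβ (hl2' p) h2 h1).trans ?_)
      · exact mul_le_mul_of_nonneg_right (by linarith) ha.le
      · exact mul_le_mul_of_nonneg_right (by linarith) ha.le)
    (fun p m m' h1 h2 h1' h2' => by
      have e1 : |m.1 - m'.1| ≤ dist m m' := by
        rw [← Real.dist_eq, Prod.dist_eq]; exact le_max_left _ _
      have e2 : |m.2 - m'.2| ≤ dist m m' := by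
        rw [← Real.dist_eq, Prod.dist_eq]; exact le_max_right _ _
      rw [Prod.dist_eq]
      refine max_le ((lip1 hs hα (hl1' p) h1 h2 h1' h2' e1 e2).trans ?_)
        ((lip1 hs hβ (hl2' p) h2 h1 h2' h1' e2 e1).trans ?_)
      · exact mul_le_mul_of_nonneg_right (by linarith) dist_nonneg
      · exact mul_le_mul_of_nonneg_right (by linarith) dist_nonneg)
  let G1 : ℝ × ℝ → ℝ → ℝ := fun p x => (g p x).1
  let G2 : ℝ × ℝ → ℝ → ℝ := fun p x => (g p x).2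
  have cG1 : Continuous fun x : (ℝ × ℝ) × ℝ => G1 x.1 x.2 := cg.fst
  have cG2 : Continuous fun x : (ℝ × ℝ) × ℝ => G2 x.1 x.2 := cg.snd
  have cG1' : ∀ p, Continuous (G1 p) := fun p =>
    cG1.comp (f := fun x : ℝ => (p, x)) (by fun_prop)
  have cG2' : ∀ p, Continuous (G2 p) := fun p =>
    cG2.comp (f := fun x : ℝ => (p, x)) (by fun_prop)
  have e1 : ∀ p t, G1 p t = (l1 p - α * ff s (rm a (Yof k a (G1 p)) t ^ 2
      + rm a (Yof k a (G2 p)) t ^ 2)) * rm a (Yof k a (G1 p)) t := fun p t =>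
    congrArg Prod.fst (hg p t)
  have e2 : ∀ p t, G2 p t = (l2 p - β * ff s (rm a (Yof k a (G2 p)) t ^ 2
      + rm a (Yof k a (G1 p)) t ^ 2)) * rm a (Yof k a (G2 p)) t := fun p t =>
    congrArg Prod.snd (hg p t)
  have c1 := fun p => comp_of (k := k) ha.le (cG1' p)
    (q_mono (l := l1 p) hs hα ha.le (continuous_Yof' k a (cG1' p)) (continuous_Yof' k a (cG2' p)))
    (fun r => e1 p (r ^ 2))
  have c2 := fun p => comp_of (k := k) ha.le (cG2' p)
    (q_mono (l := l2 p) hs hβ ha.le (continuous_Yof' k a (cG2' p)) (continuous_Yof' k a (cG1' p)))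
    (fun r => e2 p (r ^ 2))
  have hopA : ∀ G : ℝ × ℝ → ℝ → ℝ, (Continuous fun x : (ℝ × ℝ) × ℝ => G x.1 x.2) →
      IsOpen {p : ℝ × ℝ | ∃ r : ℝ, 0 < r ∧ 0 < 2 * r * I1 k (G p) (r ^ 2)} := by
    intro G hG
    rw [ofPred_exists]
    refine isOpen_iUnion fun r => ?_
    rw [ofPred_and]
    refine isOpen_const.inter (isOpen_lt continuous_const (continuous_const.mul ?_))
    exact (continuous_I1 k hG).comp (f := fun p : ℝ × ℝ => (p, r ^ 2)) (by fun_prop)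
  have hopB : ∀ G : ℝ × ℝ → ℝ → ℝ, (Continuous fun x : (ℝ × ℝ) × ℝ => G x.1 x.2) →
      IsOpen {p : ℝ × ℝ | ∃ r : ℝ, 0 < r ∧ Yof k a (G p) (r ^ 2) < 0} := by
    intro G hG
    rw [ofPred_exists]
    refine isOpen_iUnion fun r => ?_
    rw [ofPred_and]
    refine isOpen_const.inter (isOpen_lt ?_ continuous_const)
    exact (continuous_Yof k a hG).comp (f := fun p : ℝ × ℝ => (p, r ^ 2)) (by fun_prop)
  obtain ⟨p, hA1, hB1, hA2, hB2⟩ := miranda_sets (hopA G1 cG1) (hopB G1 cG1) (hopA G2 cG2)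
    (hopB G2 cG2)
    (fun p ⟨r1, h1, h1'⟩ ⟨r0, h0, h0'⟩ => (c1 p).disj ha h0 h0' h1 h1')
    (fun p ⟨r1, h1, h1'⟩ ⟨r0, h0, h0'⟩ => (c2 p).disj ha h0 h0' h1 h1')
    (fun t ⟨r, hr, hr'⟩ => by
      have h := c1 (0, t)
      rw [show l1 (0, t) = 0 by simp [l1]] at h
      exact absurd (under_zero hs hα h hr) (not_le.2 hr'))
    (fun t ⟨r, hr, hr'⟩ => by
      have h := c1 (1, t)
      rw [show l1 (1, t) = top s α a by simp [l1]] at h
      exact absurd (over_top hs hα ha h (fun _ => rm_le _ _ _)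
        (fun _ => ⟨rm_nonneg ha.le _ _, rm_le _ _ _⟩) hr) (not_le.2 hr'))
    (fun t ⟨r, hr, hr'⟩ => by
      have h := c2 (t, 0)
      rw [show l2 (t, 0) = 0 by simp [l2]] at h
      exact absurd (under_zero hs hβ h hr) (not_le.2 hr'))
    (fun t ⟨r, hr, hr'⟩ => by
      have h := c2 (t, 1)
      rw [show l2 (t, 1) = top s β a by simp [l2]] at h
      exact absurd (over_top hs hβ ha h (fun _ => rm_le _ _ _)
        (fun _ => ⟨rm_nonneg ha.le _ _, rm_le _ _ _⟩) hr) (not_le.2 hr'))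
  have g1 : Good (fun r => Yof k a (G1 p) (r ^ 2)) (fun r => 2 * r * I1 k (G1 p) (r ^ 2)) :=
    ⟨fun r hr => not_lt.1 fun h => hB1 ⟨r, hr, h⟩, fun r hr => not_lt.1 fun h => hA1 ⟨r, hr, h⟩⟩
  have g2 : Good (fun r => Yof k a (G2 p) (r ^ 2)) (fun r => 2 * r * I1 k (G2 p) (r ^ 2)) :=
    ⟨fun r hr => not_lt.1 fun h => hB2 ⟨r, hr, h⟩, fun r hr => not_lt.1 fun h => hA2 ⟨r, hr, h⟩⟩
  have hp1 : 0 < l1 p := by
    refine lt_of_le_of_ne (hl1 p).1 fun e => ?_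
    have h := c1 p
    rw [← e] at h
    exact H1 a (le_max_left _ _) _ _ _ _ h g1
  have hp2 : 0 < l2 p := by
    refine lt_of_le_of_ne (hl2 p).1 fun e => ?_
    have h := c2 p
    rw [← e] at h
    exact H2 a (le_max_right _ _) _ _ _ _ h g2
  have cm : ∀ G : ℝ → ℝ, Continuous G → Continuous fun r : ℝ => rm a (Yof k a G) (r ^ 2) :=
    fun G hG => (continuous_rm (Λ := ℝ) a (Y := fun _ => Yof k a G)
      ((continuous_Yof' k a hG).comp continuous_snd)).comp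
        (f := fun r : ℝ => ((0 : ℝ), r ^ 2)) (by fun_prop)
  have s1 := fun ε (hε : 0 < ε) => small_one hs hα ha (hl1 p).2 (c1 p) g1 (c2 p) g2
    (cm _ (cG1' p)) (cm _ (cG2' p)) hε
  have s2 := fun ε (hε : 0 < ε) => small_one hs hβ ha (hl2 p).2 (c2 p) g2 (c1 p) g1
    (cm _ (cG2' p)) (cm _ (cG1' p)) hε
  have m1 : ∀ t, 0 ≤ t → rm a (Yof k a (G1 p)) t = Yof k a (G1 p) t := fun t ht => by
    simpa [Real.sq_sqrt ht] using (c1 p).m_eq ha g1 (Real.sqrt_nonneg t)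
  have m2 : ∀ t, 0 ≤ t → rm a (Yof k a (G2 p)) t = Yof k a (G2 p) t := fun t ht => by
    simpa [Real.sq_sqrt ht] using (c2 p).m_eq ha g2 (Real.sqrt_nonneg t)
  refine ⟨l1 p, l2 p, a, G1 p, G2 p, hp1, hp2, ha, cG1' p, cG2' p, fun t ht => ?_, fun t ht => ?_,
    fun t ht => ?_, fun t ht => ?_, energy_one hs hα ha hp1 (c1 p) g1 (c2 p) g2 s1 s2,
    energy_one hs hβ ha hp2 (c2 p) g2 (c1 p) g1 s2 s1⟩
  · rw [e1 p t, m1 t ht, m2 t ht]
  · rw [e2 p t, m1 t ht, m2 t ht]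
  · simpa [Real.sq_sqrt ht] using (c1 p).pos ha g1 (Real.sqrt_nonneg t)
  · simpa [Real.sq_sqrt ht] using (c2 p).pos ha g2 (Real.sqrt_nonneg t)

end Pool.Agent.MP_67db61_an

end

-- part MP_67db61_an.Radial
section

/-!
From radial profiles to functions on Euclidean space.
-/

namespace Pool.Agent.MP_67db61_an

open Set Filter Topology MeasureTheory

lemma hasDerivAt_I1 (k : ℕ) {G G' : ℝ → ℝ} (hG : ∀ t, HasDerivAt G (G' t) t)
    (hG' : Continuous G') (t : ℝ) : HasDerivAt (I1 k G) (I1 (k + 2) G' t) t := by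
  have cG : Continuous G := continuous_iff_continuousAt.2 fun x => (hG x).continuousAt
  obtain ⟨C, hC⟩ := (isCompact_Icc (a := -(|t| + 1)) (b := |t| + 1)).exists_bound_of_continuousOn
    hG'.continuousOn
  refine HasDerivAt.const_mul _ ?_
  refine (intervalIntegral.hasDerivAt_integral_of_dominated_loc_of_deriv_le
    (F := fun x ρ => ρ ^ k * G (x * ρ ^ 2)) (F' := fun x ρ => ρ ^ (k + 2) * G' (x * ρ ^ 2))
    (bound := fun _ => C) (Metric.ball_mem_nhds t one_pos)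
    (Eventually.of_forall fun x => Continuous.aestronglyMeasurable (by fun_prop))
    (Continuous.intervalIntegrable (by fun_prop) _ _)
    (Continuous.aestronglyMeasurable (by fun_prop)) (ae_of_all _ fun ρ hρ x hx => ?_)
    intervalIntegrable_const (ae_of_all _ fun ρ _ x _ => ?_)).2
  · rw [uIoc_of_le zero_le_one] at hρ
    have h1 : ρ ^ 2 ≤ 1 := pow_le_one₀ hρ.1.le hρ.2
    have h2 : ρ ^ (k + 2) ≤ 1 := pow_le_one₀ hρ.1.le hρ.2
    have h3 : |x| ≤ |t| + 1 := by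
      have h4 : |x - t| < 1 := by simpa [Real.dist_eq] using hx
      linarith [abs_sub_abs_le_abs_sub x t]
    have h4 : |x * ρ ^ 2| ≤ |t| + 1 := by
      rw [abs_mul, abs_of_nonneg (sq_nonneg ρ)]
      nlinarith [abs_nonneg x, sq_nonneg ρ]
    have h5 := hC _ (abs_le.1 h4)
    rw [norm_mul, Real.norm_eq_abs, abs_of_nonneg (pow_nonneg hρ.1.le _)]
    nlinarith [norm_nonneg (G' (x * ρ ^ 2)), pow_nonneg hρ.1.le (k + 2)]
  · exact ((HasDerivAt.comp (h₂ := G) (h := fun x : ℝ => x * ρ ^ 2) x (hG _)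
      ((hasDerivAt_id x).mul_const (ρ ^ 2))).const_mul (ρ ^ k)).congr_deriv (by ring)

lemma I1_identity (k : ℕ) {G G' : ℝ → ℝ} (hG : ∀ t, HasDerivAt G (G' t) t)
    (hG' : Continuous G') (t : ℝ) :
    4 * t * I1 (k + 2) G' t + 2 * (k + 1) * I1 k G t = G t := by
  have cG : Continuous G := continuous_iff_continuousAt.2 fun x => (hG x).continuousAt
  have h := intervalIntegral.integral_eq_sub_of_hasDerivAt (a := (0 : ℝ)) (b := 1)
    (f := fun ρ => ρ ^ (k + 1) * G (t * ρ ^ 2))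
    (f' := fun ρ => 2 * t * (ρ ^ (k + 2) * G' (t * ρ ^ 2)) + (k + 1) * (ρ ^ k * G (t * ρ ^ 2)))
    (fun ρ _ => ((hasDerivAt_pow (k + 1) ρ).mul
      (HasDerivAt.comp (h₂ := G) (h := fun ρ : ℝ => t * ρ ^ 2) ρ (hG _)
        ((hasDerivAt_pow 2 ρ).const_mul t))).congr_deriv (by simp; ring))
    (Continuous.intervalIntegrable (by fun_prop) _ _)
  rw [intervalIntegral.integral_add (Continuous.intervalIntegrable (by fun_prop) _ _)
    (Continuous.intervalIntegrable (by fun_prop) _ _), intervalIntegral.integral_const_mul,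
    intervalIntegral.integral_const_mul] at h
  simp only [one_pow, mul_one, one_mul, ne_eq, Nat.add_eq_zero_iff, one_ne_zero, and_false,
    not_false_eq_true, zero_pow, zero_mul, sub_zero] at h
  unfold I1
  linarith

lemma I1_congr (k : ℕ) {G H : ℝ → ℝ} (h : ∀ t, 0 ≤ t → G t = H t) {t : ℝ} (ht : 0 ≤ t) :
    I1 k G t = I1 k H t := by
  unfold I1
  congr 2
  funext ρ
  rw [h _ (by positivity)]

lemma Yof_congr (k : ℕ) (a : ℝ) {G H : ℝ → ℝ} (h : ∀ t, 0 ≤ t → G t = H t) {t : ℝ} (ht : 0 ≤ t) :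
    Yof k a G t = Yof k a H t := by
  unfold Yof
  congr 1
  refine intervalIntegral.integral_congr fun x hx => I1_congr k h ?_
  rw [uIcc_of_le ht] at hx
  exact hx.1

lemma contDiff_one_of {Y Y1 : ℝ → ℝ} (h : ∀ t, HasDerivAt Y (Y1 t) t) (h1 : Continuous Y1) :
    ContDiff ℝ 1 Y := by
  rw [contDiff_one_iff_deriv]
  refine ⟨fun t => (h t).differentiableAt, ?_⟩
  rwa [show deriv Y = Y1 from funext fun t => (h t).deriv]

lemma contDiff_two_of {Y Y1 Y2 : ℝ → ℝ} (h : ∀ t, HasDerivAt Y (Y1 t) t)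
    (h1 : ∀ t, HasDerivAt Y1 (Y2 t) t) (h2 : Continuous Y2) : ContDiff ℝ 2 Y := by
  rw [show (2 : WithTop ℕ∞) = 1 + 1 from rfl, contDiff_succ_iff_deriv]
  refine ⟨fun t => (h t).differentiableAt, by simp, ?_⟩
  rw [show deriv Y = Y1 from funext fun t => (h t).deriv]
  exact contDiff_one_of h1 h2

section radial

variable {E : Type*} [NormedAddCommGroup E] [InnerProductSpace ℝ E] [FiniteDimensional ℝ E]
  {Y Y1 Y2 : ℝ → ℝ}

omit [FiniteDimensional ℝ E] in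
lemma hasFDerivAt_radial (h : ∀ t, HasDerivAt Y (Y1 t) t) (x : E) :
    HasFDerivAt (fun x : E => Y (‖x‖ ^ 2)) ((2 * Y1 (‖x‖ ^ 2)) • innerSL ℝ x) x := by
  have := HasDerivAt.comp_hasFDerivAt (h₂ := Y) (f := fun x : E => ‖x‖ ^ 2) x (h _)
    (hasStrictFDerivAt_norm_sq x).hasFDerivAt
  refine this.congr_fderiv ?_
  ext v
  simp
  ring

lemma gradient_radial (h : ∀ t, HasDerivAt Y (Y1 t) t) (x : E) :
    gradient (fun x : E => Y (‖x‖ ^ 2)) x = (2 * Y1 (‖x‖ ^ 2)) • x := by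
  refine ext_inner_right ℝ fun v => ?_
  rw [inner_gradient_left, (hasFDerivAt_radial h x).fderiv, inner_smul_left]
  simp

lemma laplacian_radial (h : ∀ t, HasDerivAt Y (Y1 t) t) (h1 : ∀ t, HasDerivAt Y1 (Y2 t) t)
    (x : E) : Laplacian.laplacian (fun x : E => Y (‖x‖ ^ 2)) x
      = 4 * ‖x‖ ^ 2 * Y2 (‖x‖ ^ 2) + 2 * (Module.finrank ℝ E) * Y1 (‖x‖ ^ 2) := by
  rw [InnerProductSpace.laplacian_eq_iteratedFDeriv_stdOrthonormalBasis]
  have e : fderiv ℝ (fun x : E => Y (‖x‖ ^ 2)) = fun x => (2 * Y1 (‖x‖ ^ 2)) • innerSL ℝ x :=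
    funext fun x => (hasFDerivAt_radial h x).fderiv
  have h2 := (((hasFDerivAt_radial h1 x).const_mul 2).smul
    ((innerSL ℝ : E →L[ℝ] E →L[ℝ] ℝ).hasFDerivAt (x := x))).fderiv
  have h3 : ∀ v : E, ‖v‖ = 1 → iteratedFDeriv ℝ 2 (fun x : E => Y (‖x‖ ^ 2)) x ![v, v]
      = 4 * Y2 (‖x‖ ^ 2) * inner ℝ x v ^ 2 + 2 * Y1 (‖x‖ ^ 2) := by
    intro v hv
    rw [iteratedFDeriv_two_apply, e]
    erw [h2]
    change 2 * Y1 (‖x‖ ^ 2) * inner ℝ v v
      + (2 * (2 * Y2 (‖x‖ ^ 2) * inner ℝ x v)) * inner ℝ x v = _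
    rw [real_inner_self_eq_norm_sq, hv]
    ring
  simp only [h3 _ ((stdOrthonormalBasis ℝ E).orthonormal.1 _)]
  rw [Finset.sum_add_distrib, ← Finset.mul_sum, OrthonormalBasis.sum_sq_inner_left]
  simp
  ring

variable [MeasurableSpace E] [BorelSpace E]

/-- Green's formula against a compactly supported test function. -/
lemma green {u φ : E → ℝ} (hu : ContDiff ℝ 2 u) (hφ : ContDiff ℝ 1 φ) (hc : HasCompactSupport φ) :
    ∫ x, inner ℝ (gradient u x) (gradient φ x) = -∫ x, Laplacian.laplacian u x * φ x := by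
  set b := stdOrthonormalBasis ℝ E
  have hu1 : ContDiff ℝ 1 (fderiv ℝ u) := hu.fderiv_right (m := 1) le_rfl
  have hui : ∀ i, ContDiff ℝ 1 fun x => fderiv ℝ u x (b i) := fun i =>
    hu1.clm_apply contDiff_const
  have cφ' : ∀ i, Continuous fun x => fderiv ℝ φ x (b i) := fun i =>
    (hφ.continuous_fderiv one_ne_zero).clm_apply continuous_const
  have cu'' : ∀ i, Continuous fun x => fderiv ℝ (fun x => fderiv ℝ u x (b i)) x (b i) := fun i =>
    ((hui i).continuous_fderiv one_ne_zero).clm_apply continuous_const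
  have i1 : ∀ i, Integrable fun x => fderiv ℝ u x (b i) * fderiv ℝ φ x (b i) := fun i =>
    ((hui i).continuous.mul (cφ' i)).integrable_of_hasCompactSupport
      (hc.fderiv_apply ℝ (b i)).mul_left
  have i2 : ∀ i, Integrable fun x => fderiv ℝ (fun x => fderiv ℝ u x (b i)) x (b i) * φ x :=
    fun i => ((cu'' i).mul hφ.continuous).integrable_of_hasCompactSupport hc.mul_left
  have e1 : ∀ x, inner ℝ (gradient u x) (gradient φ x)
      = ∑ i, fderiv ℝ u x (b i) * fderiv ℝ φ x (b i) := by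
    intro x
    rw [← b.sum_inner_mul_inner]
    refine Finset.sum_congr rfl fun i _ => ?_
    rw [inner_gradient_left, real_inner_comm, inner_gradient_left]
  have e2 : ∀ x, Laplacian.laplacian u x * φ x
      = ∑ i, fderiv ℝ (fun x => fderiv ℝ u x (b i)) x (b i) * φ x := by
    intro x
    rw [InnerProductSpace.laplacian_eq_iteratedFDeriv_stdOrthonormalBasis, Finset.sum_mul]
    refine Finset.sum_congr rfl fun i _ => ?_
    rw [iteratedFDeriv_two_apply, fderiv_clm_apply (hu1.differentiable one_ne_zero x)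
      (differentiableAt_const _)]
    simp [b]
  simp only [e1, e2]
  rw [integral_finsetSum _ fun i _ => i1 i, integral_finsetSum _ fun i _ => i2 i,
    ← Finset.sum_neg_distrib]
  refine Finset.sum_congr rfl fun i _ => ?_
  exact integral_mul_fderiv_eq_neg_fderiv_mul_of_integrable (i2 i) (i1 i)
    (((hui i).continuous.mul hφ.continuous).integrable_of_hasCompactSupport hc.mul_left)
    (fun x _ => (hui i).differentiable one_ne_zero x) (fun x _ => hφ.differentiable one_ne_zero x)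

lemma weak_of_classical {u F : E → ℝ} {l : ℝ} (hu : ContDiff ℝ 2 u) (hF : Continuous F)
    (h : ∀ x, -Laplacian.laplacian u x + l * u x = F x) {φ : E → ℝ} (hφ : ContDiff ℝ 1 φ)
    (hc : HasCompactSupport φ) :
    (∫ x, inner ℝ (gradient u x) (gradient φ x)) + l * ∫ x, u x * φ x = ∫ x, F x * φ x := by
  have e : ∀ x, Laplacian.laplacian u x * φ x = l * (u x * φ x) - F x * φ x := fun x => by
    rw [← h x]; ring
  have i1 : Integrable fun x => u x * φ x :=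
    (hu.continuous.mul hφ.continuous).integrable_of_hasCompactSupport hc.mul_left
  have i2 : Integrable fun x => F x * φ x :=
    (hF.mul hφ.continuous).integrable_of_hasCompactSupport hc.mul_left
  rw [green hu hφ hc]
  simp only [e]
  rw [integral_sub (i1.const_mul l) i2, integral_const_mul]
  ring

end radial

/-- The function on Euclidean space attached to a `C¹` source term. -/
lemma radial_pack (k : ℕ) (a c : ℝ) {G : ℝ → ℝ} (hG : ContDiff ℝ 1 G)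
    (i1 : IntegrableOn (fun r => r ^ k * Yof k a G (r ^ 2) ^ 2) (Ioi 0))
    (i2 : IntegrableOn (fun r => r ^ k * (2 * r * I1 k G (r ^ 2)) ^ 2) (Ioi 0)) :
    ContDiff ℝ 2 (fun x : EuclideanSpace ℝ (Fin (k + 1)) => c * Yof k a G (‖x‖ ^ 2)) ∧
    MemLp (fun x : EuclideanSpace ℝ (Fin (k + 1)) => c * Yof k a G (‖x‖ ^ 2)) 2 ∧
    MemLp (gradient fun x : EuclideanSpace ℝ (Fin (k + 1)) => c * Yof k a G (‖x‖ ^ 2)) 2 ∧
    ∀ x, Laplacian.laplacian
      (fun x : EuclideanSpace ℝ (Fin (k + 1)) => c * Yof k a G (‖x‖ ^ 2)) x = c * G (‖x‖ ^ 2) := by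
  have hG1 : ∀ t, HasDerivAt G (deriv G t) t := fun t =>
    (hG.differentiable one_ne_zero t).hasDerivAt
  have hG2 : Continuous (deriv G) := hG.continuous_deriv le_rfl
  have h0 : ∀ t, HasDerivAt (fun t => c * Yof k a G t) (c * I1 k G t) t := fun t =>
    (hasDerivAt_Yof k a hG.continuous t).const_mul c
  have h1 : ∀ t, HasDerivAt (fun t => c * I1 k G t) (c * I1 (k + 2) (deriv G) t) t := fun t =>
    (hasDerivAt_I1 k hG1 hG2 t).const_mul c
  have h2 : ContDiff ℝ 2 (fun x : EuclideanSpace ℝ (Fin (k + 1)) => c * Yof k a G (‖x‖ ^ 2)) :=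
    (contDiff_two_of h0 h1 (continuous_const.mul (continuous_I1' _ hG2))).comp
      (contDiff_norm_sq ℝ)
  have hdim : Module.finrank ℝ (EuclideanSpace ℝ (Fin (k + 1))) = k + 1 := by simp
  refine ⟨h2, ?_, ?_, fun x => ?_⟩
  · rw [memLp_two_iff_integrable_sq h2.continuous.aestronglyMeasurable]
    refine (integrable_fun_norm_addHaar volume
      (f := fun r => (c * Yof k a G (r ^ 2)) ^ 2)).2 ?_
    rw [hdim]
    refine IntegrableOn.congr_fun (i1.const_mul (c ^ 2)) (fun r _ => ?_) measurableSet_Ioi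
    simp
    ring
  · have e := funext (gradient_radial (E := EuclideanSpace ℝ (Fin (k + 1))) h0)
    have cI := continuous_I1' k hG.continuous
    rw [show gradient (fun x : EuclideanSpace ℝ (Fin (k + 1)) => c * Yof k a G (‖x‖ ^ 2)) = _
      from e, memLp_two_iff_integrable_sq_norm (Continuous.aestronglyMeasurable (by fun_prop))]
    have := (integrable_fun_norm_addHaar (E := EuclideanSpace ℝ (Fin (k + 1))) volume
      (f := fun r => c ^ 2 * (2 * r * I1 k G (r ^ 2)) ^ 2)).2 (by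
        rw [hdim]
        refine IntegrableOn.congr_fun (i2.const_mul (c ^ 2)) (fun r _ => ?_) measurableSet_Ioi
        simp
        ring)
    refine this.congr (ae_of_all _ fun x => ?_)
    simp only [norm_smul, mul_pow, Real.norm_eq_abs, sq_abs]
    ring
  · rw [laplacian_radial h0 h1, hdim, ← I1_identity k hG1 hG2]
    push_cast
    ring

end Pool.Agent.MP_67db61_an

end

-- part MP_67db61_an.Main
section

namespace Pool.Agent.MP_67db61_an

open Set Filter Topology MeasureTheory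

lemma contDiff_src {s α l : ℝ} (hs : 0 < s) {Y X : ℝ → ℝ} (hY : ContDiff ℝ 1 Y)
    (hX : ContDiff ℝ 1 X) : ContDiff ℝ 1 fun t => (l - α * ff s (Y t ^ 2 + X t ^ 2)) * Y t := by
  unfold ff
  refine (contDiff_const.sub (contDiff_const.mul (ContDiff.div ?_ ?_ fun t => ?_))).mul hY
  · fun_prop
  · fun_prop
  · positivity

lemma one_comp (k : ℕ) {s α l a : ℝ} (hs : 0 < s) (c : ℝ) {G1 G2 : ℝ → ℝ} (c1 : Continuous G1)
    (c2 : Continuous G2)
    (h : ∀ t, 0 ≤ t → G1 t = (l - α * ff s (Yof k a G1 t ^ 2 + Yof k a G2 t ^ 2)) * Yof k a G1 t)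
    (i : IntegrableOn (fun r => r ^ k * Yof k a G1 (r ^ 2) ^ 2) (Ioi 0) ∧
      IntegrableOn (fun r => r ^ k * (2 * r * I1 k G1 (r ^ 2)) ^ 2) (Ioi 0)) :
    ContDiff ℝ 2 (fun x : EuclideanSpace ℝ (Fin (k + 1)) => c * Yof k a G1 (‖x‖ ^ 2)) ∧
    MemLp (fun x : EuclideanSpace ℝ (Fin (k + 1)) => c * Yof k a G1 (‖x‖ ^ 2)) 2 ∧
    MemLp (gradient fun x : EuclideanSpace ℝ (Fin (k + 1)) => c * Yof k a G1 (‖x‖ ^ 2)) 2 ∧
    ∀ x, Laplacian.laplacian
      (fun x : EuclideanSpace ℝ (Fin (k + 1)) => c * Yof k a G1 (‖x‖ ^ 2)) x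
        = c * G1 (‖x‖ ^ 2) := by
  have d1 := contDiff_one_of (hasDerivAt_Yof k a c1) (continuous_I1' k c1)
  have d2 := contDiff_one_of (hasDerivAt_Yof k a c2) (continuous_I1' k c2)
  have eY := fun r : ℝ => Yof_congr k a h (sq_nonneg r)
  have eI := fun r : ℝ => I1_congr k h (sq_nonneg r)
  have := radial_pack k a c (contDiff_src (α := α) (l := l) hs d1 d2)
    (by simpa only [← eY] using i.1) (by simpa only [← eI] using i.2)
  simp only [← eY] at this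
  refine ⟨this.1, this.2.1, this.2.2.1, fun x => ?_⟩
  rw [this.2.2.2 x, h _ (sq_nonneg _)]

theorem main (k : ℕ) {α β s : ℝ} (hα : 0 < α) (hβ : 0 < β) (hs : 0 < s) :
    ∃ l1 l2 : ℝ, 0 < l1 ∧ 0 < l2 ∧ ∃ u v : EuclideanSpace ℝ (Fin (k + 1)) → ℝ,
      (∀ x, 0 < u x) ∧ (∀ x, 0 < v x) ∧ ContDiff ℝ 2 u ∧ ContDiff ℝ 2 v ∧
      MemLp u 2 ∧ MemLp (gradient u) 2 ∧ MemLp v 2 ∧ MemLp (gradient v) 2 ∧
      (∀ x, -Laplacian.laplacian u x + l1 * u x
        = α * u x * (α * u x ^ 2 + β * v x ^ 2) / (1 + s * (α * u x ^ 2 + β * v x ^ 2))) ∧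
      (∀ x, -Laplacian.laplacian v x + l2 * v x
        = β * v x * (α * u x ^ 2 + β * v x ^ 2) / (1 + s * (α * u x ^ 2 + β * v x ^ 2))) := by
  obtain ⟨l1, l2, a, G1, G2, h1, h2, ha, c1, c2, e1, e2, p1, p2, i1, i2⟩ :=
    exists_profile k hs hα hβ
  obtain ⟨u1, u2, u3, u4⟩ := one_comp k hs (1 / √α) c1 c2 e1 i1
  obtain ⟨v1, v2, v3, v4⟩ := one_comp k hs (1 / √β) c2 c1 e2 i2
  have ea : ∀ γ y : ℝ, 0 < γ → γ * (1 / √γ * y) ^ 2 = y ^ 2 := fun γ y hγ => by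
    rw [mul_pow, div_pow, Real.sq_sqrt hγ.le]
    field_simp
  refine ⟨l1, l2, h1, h2, _, _, fun x => ?_, fun x => ?_, u1, v1, u2, u3, v2, v3,
    fun x => ?_, fun x => ?_⟩
  · exact mul_pos (by positivity) (p1 _ (sq_nonneg _))
  · exact mul_pos (by positivity) (p2 _ (sq_nonneg _))
  · rw [u4, ea _ _ hα, ea _ _ hβ, e1 _ (sq_nonneg _), ff]
    ring
  · rw [v4, ea _ _ hα, ea _ _ hβ, e2 _ (sq_nonneg _), ff, add_comm (Yof k a G2 _ ^ 2)]
    ring

end Pool.Agent.MP_67db61_an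

end
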